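import Mathlib

/-!
# Counting lattice points in symmetric convex sets

A counting version of the theorem of Minkowski: a symmetric convex set `s` contains at least
`μ s / (2 ^ n μ F)` points of a lattice with fundamental domain `F`.
-/

open MeasureTheory MeasureTheory.Measure Set Module ENNReal
open scoped Pointwise NNReal

namespace Pool.Agent.Lib.H59

/-- Counting version of the theorem of Minkowski (van der Corput). -/
theorem measure_le_two_pow_mul_encard_mul
    {E : Type*} [NormedAddCommGroup E] [NormedSpace ℝ E] [MeasurableSpace E] [BorelSpace E]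
    [FiniteDimensional ℝ E] {μ : Measure E} [IsAddHaarMeasure μ]
    {L : AddSubgroup E} [Countable L] {F s : Set E} (fund : IsAddFundamentalDomain L F μ)
    (h_symm : ∀ x ∈ s, -x ∈ s) (h_conv : Convex ℝ s) :
    μ s ≤ 2 ^ finrank ℝ E * (∑' x : L, s.indicator (fun _ => (1 : ℝ≥0∞)) (x : E)) * μ F := by
  set m : ℝ≥0∞ := ∑' x : L, s.indicator (fun _ => (1 : ℝ≥0∞)) (x : E) with hm
  set t : Set E := (2⁻¹ : ℝ) • s with ht
  have htm : NullMeasurableSet t μ := (h_conv.smul _).nullMeasurableSet _
  have key : ∀ y : E, (∑' x : L, (x +ᵥ t).indicator (fun _ => (1 : ℝ≥0∞)) y) ≤ m := by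
    intro y
    by_cases hy : ∃ x₀ : L, y ∈ x₀ +ᵥ t
    · obtain ⟨x₀, hx₀⟩ := hy
      have h1 : ∀ x : L, (x +ᵥ t).indicator (fun _ => (1 : ℝ≥0∞)) y ≤
          s.indicator (fun _ => (1 : ℝ≥0∞)) ((x - x₀ : L) : E) := by
        intro x
        by_cases hx : y ∈ x +ᵥ t
        · have : ((x - x₀ : L) : E) ∈ s := by
            obtain ⟨v, hv, hvy⟩ := hx
            obtain ⟨w, hw, hwy⟩ := hx₀
            rw [ht, Set.mem_inv_smul_set_iff₀ (two_ne_zero' ℝ)] at hv hw
            simp only [AddSubgroup.vadd_def, vadd_eq_add] at hvy hwy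
            have e : ((x - x₀ : L) : E) = w - v := by
              rw [AddSubgroup.coe_sub]
              have h := hvy.trans hwy.symm
              rw [sub_eq_sub_iff_add_eq_add, h, add_comm]
            rw [e, ← inv_smul_smul₀ (two_ne_zero' ℝ) (w - v), smul_sub, sub_eq_add_neg, smul_add]
            refine h_conv hw (h_symm _ hv) ?_ ?_ ?_ <;> norm_num
          rw [Set.indicator_of_mem this]
          exact Set.indicator_le_self' (by simp) _
        · rw [Set.indicator_of_notMem hx]
          exact bot_le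
      calc (∑' x : L, (x +ᵥ t).indicator (fun _ => (1 : ℝ≥0∞)) y)
          ≤ ∑' x : L, s.indicator (fun _ => (1 : ℝ≥0∞)) ((x - x₀ : L) : E) :=
            ENNReal.tsum_le_tsum h1
        _ = m := by
            rw [hm]
            exact (Equiv.subRight x₀).tsum_eq (fun x : L => s.indicator (fun _ => (1 : ℝ≥0∞)) (x : E))
    · push Not at hy
      have : ∀ x : L, (x +ᵥ t).indicator (fun _ => (1 : ℝ≥0∞)) y = 0 := fun x =>
        Set.indicator_of_notMem (hy x) _
      simp [this]
  have h1 : μ t ≤ m * μ F := by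
    calc μ t = ∑' x : L, μ ((x +ᵥ t) ∩ F) := fund.measure_eq_tsum t
      _ = ∑' x : L, ∫⁻ y in F, (x +ᵥ t).indicator (fun _ => (1 : ℝ≥0∞)) y ∂μ := by
          refine tsum_congr fun x => ?_
          have hx : NullMeasurableSet (x +ᵥ t) (μ.restrict F) := by
            have := htm.vadd x
            exact this.mono_ac Measure.restrict_le_self.absolutelyContinuous
          rw [lintegral_indicator_const₀ hx, Measure.restrict_apply₀ hx, one_mul]
      _ = ∫⁻ y in F, ∑' x : L, (x +ᵥ t).indicator (fun _ => (1 : ℝ≥0∞)) y ∂μ := by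
          rw [lintegral_tsum]
          intro x
          have hx : NullMeasurableSet (x +ᵥ t) (μ.restrict F) := by
            have := htm.vadd x
            exact this.mono_ac Measure.restrict_le_self.absolutelyContinuous
          exact aemeasurable_const.indicator₀ hx
      _ ≤ ∫⁻ y in F, m ∂μ := lintegral_mono key
      _ = m * μ F := by rw [setLIntegral_const]
  have h2 : μ s = 2 ^ finrank ℝ E * μ t := by
    rw [ht, addHaar_smul_of_nonneg μ (by simp : 0 ≤ (2 : ℝ)⁻¹) s, ← mul_assoc,
      ofReal_pow (by simp : 0 ≤ (2 : ℝ)⁻¹), ofReal_inv_of_pos zero_lt_two, ← mul_pow]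
    simp [ENNReal.mul_inv_cancel]
  rw [h2, mul_assoc]
  gcongr

end Pool.Agent.Lib.H59
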