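import Mathlib
import Pool.Agent.Lib.H59.LatticeCount

/-!
# Boxes in the mixed space parametrised by the logarithmic space

-/

open MeasureTheory MeasureTheory.Measure Set Module ENNReal
open NumberField NumberField.InfinitePlace NumberField.mixedEmbedding NumberField.Units
  NumberField.Units.dirichletUnitTheorem
open scoped Pointwise NNReal nonZeroDivisors

noncomputable section

namespace Pool.Agent.Lib.H59

variable {K : Type*} [Field K] [NumberField K]

open scoped Classical in
/-- The extension of a vector of the log space to all infinite places, with total sum zero. -/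
def extLog (u : logSpace K) (w : InfinitePlace K) : ℝ :=
  if h : w ≠ w₀ then u ⟨w, h⟩ else - ∑ w', u w'

theorem extLog_of_ne (u : logSpace K) (w : {w : InfinitePlace K // w ≠ w₀}) :
    extLog u w.val = u w := by
  simp [extLog, w.2]

open scoped Classical in
theorem extLog_w₀ (u : logSpace K) : extLog u w₀ = - ∑ w', u w' := by
  simp [extLog]

theorem extLog_sub (u v : logSpace K) (w : InfinitePlace K) :
    extLog (u - v) w = extLog u w - extLog v w := by
  classical
  by_cases h : w = w₀
  · subst h
    simp only [extLog_w₀, Pi.sub_apply, Finset.sum_sub_distrib]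
    ring
  · rw [extLog_of_ne _ ⟨w, h⟩, extLog_of_ne _ ⟨w, h⟩, extLog_of_ne _ ⟨w, h⟩, Pi.sub_apply]

theorem sum_extLog (u : logSpace K) : ∑ w, extLog u w = 0 := by
  classical
  rw [Fintype.sum_eq_add_sum_subtype_ne _ w₀, extLog_w₀]
  simp only [extLog_of_ne]
  ring

theorem extLog_logEmbedding (x : (𝓞 K)ˣ) (w : InfinitePlace K) :
    extLog (logEmbedding K (Additive.ofMul x)) w = mult w * Real.log (w x) := by
  classical
  by_cases h : w = w₀
  · subst h
    rw [extLog_w₀, sum_logEmbedding_component]
    ring
  · rw [extLog_of_ne _ ⟨w, h⟩, logEmbedding_component]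

/-- The radii of the box of volume proportional to `T` attached to a vector of the log space. -/
def boxRadius (T : ℝ≥0) (u : logSpace K) (w : InfinitePlace K) : ℝ≥0 :=
  T ^ ((finrank ℚ K : ℝ)⁻¹) * (Real.toNNReal (Real.exp (extLog u w / mult w)))

theorem prod_boxRadius (T : ℝ≥0) (u : logSpace K) :
    ∏ w : InfinitePlace K, boxRadius T u w ^ mult w = T := by
  have h1 : ∀ w : InfinitePlace K, boxRadius T u w ^ mult w =
      (T ^ ((finrank ℚ K : ℝ)⁻¹)) ^ mult w * Real.toNNReal (Real.exp (extLog u w)) := by
    intro w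
    rw [boxRadius, mul_pow]
    congr 1
    rw [← Real.toNNReal_pow (Real.exp_nonneg _), ← Real.exp_nat_mul]
    congr 2
    have : (mult w : ℝ) ≠ 0 := by exact_mod_cast mult_ne_zero
    field_simp
  simp_rw [h1]
  rw [Finset.prod_mul_distrib, Finset.prod_pow_eq_pow_sum, sum_mult_eq,
    ← Real.toNNReal_prod_of_nonneg (fun w _ => Real.exp_nonneg _), ← Real.exp_sum, sum_extLog]
  simp only [Real.exp_zero, Real.toNNReal_one, mul_one]
  rw [← NNReal.rpow_natCast, ← NNReal.rpow_mul, inv_mul_cancel₀, NNReal.rpow_one]
  exact_mod_cast (finrank_pos (R := ℚ) (M := K)).ne'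

theorem coe_boxRadius (T : ℝ≥0) (u : logSpace K) (w : InfinitePlace K) :
    (boxRadius T u w : ℝ) = (T : ℝ) ^ ((finrank ℚ K : ℝ)⁻¹) * Real.exp (extLog u w / mult w) := by
  rw [boxRadius, NNReal.coe_mul, NNReal.coe_rpow, Real.coe_toNNReal _ (Real.exp_nonneg _)]

/-- The set of vectors of the log space whose box contains `x`. -/
def boxSet (T : ℝ≥0) (x : mixedSpace K) : Set (logSpace K) :=
  {u | ∀ w, normAtPlace w x < boxRadius T u w}

theorem continuous_extLog (w : InfinitePlace K) :
    Continuous (fun u : logSpace K => extLog u w) := by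
  classical
  by_cases h : w = w₀
  · subst h
    simp_rw [extLog_w₀]
    fun_prop
  · have : (fun u : logSpace K => extLog u w) = fun u => u ⟨w, h⟩ := by
      funext u
      exact extLog_of_ne u ⟨w, h⟩
    rw [this]
    fun_prop

theorem measurableSet_boxSet (T : ℝ≥0) (x : mixedSpace K) :
    MeasurableSet (boxSet T x) := by
  have : boxSet T x = ⋂ w : InfinitePlace K, {u | normAtPlace w x < boxRadius T u w} := by
    ext u; simp [boxSet]
  rw [this]
  refine MeasurableSet.iInter fun w => ?_
  refine (isOpen_lt continuous_const ?_).measurableSet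
  simp_rw [coe_boxRadius]
  exact continuous_const.mul (((continuous_extLog w).div_const _).rexp)

theorem boxSet_eq_empty {T : ℝ≥0} {x : mixedSpace K}
    (hx : (T : ℝ) ≤ mixedEmbedding.norm x) : boxSet T x = ∅ := by
  rw [Set.eq_empty_iff_forall_notMem]
  intro u hu
  have h1 : mixedEmbedding.norm x < T := by
    rw [mixedEmbedding.norm_apply]
    have h2 := congrArg (NNReal.toReal) (prod_boxRadius T u)
    rw [← h2, NNReal.coe_prod]
    have h3 : ∀ w ∈ (Finset.univ : Finset (InfinitePlace K)), normAtPlace w x ^ mult w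
        < ((boxRadius T u w ^ mult w : ℝ≥0) : ℝ) := by
      intro w _
      rw [NNReal.coe_pow]
      exact pow_lt_pow_left₀ (hu w) (normAtPlace_nonneg w x) mult_ne_zero
    by_cases h0 : ∃ w : InfinitePlace K, normAtPlace w x = 0
    · rw [show ∏ w, normAtPlace w x ^ mult w = mixedEmbedding.norm x from rfl,
        mixedEmbedding.norm_eq_zero_iff.mpr h0]
      refine Finset.prod_pos fun w hw => ?_
      exact lt_of_le_of_lt (pow_nonneg (normAtPlace_nonneg w x) _) (h3 w hw)
    · push Not at h0
      refine Finset.prod_lt_prod_of_nonempty (fun w _ => ?_) h3 Finset.univ_nonempty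
      exact pow_pos (lt_of_le_of_ne (normAtPlace_nonneg w x) (h0 w).symm) _
  exact absurd h1 (not_lt.mpr hx)

/-- The box set of a unit multiple is a translate. -/
theorem mem_boxSet_unit_smul (T : ℝ≥0) (ε : (𝓞 K)ˣ) (x : mixedSpace K) (u : logSpace K) :
    u ∈ boxSet T (ε • x) ↔ u - logEmbedding K (Additive.ofMul ε) ∈ boxSet T x := by
  simp only [boxSet, Set.mem_ofPred_eq]
  refine forall_congr' fun w => ?_
  rw [unitSMul_smul, map_mul, normAtPlace_apply, coe_boxRadius, coe_boxRadius, extLog_sub,
    extLog_logEmbedding]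
  have hpos : 0 < w (ε : K) := Units.pos_at_place ε w
  have hm : (mult w : ℝ) ≠ 0 := by exact_mod_cast mult_ne_zero
  have e1 : (extLog u w - mult w * Real.log (w (ε : K))) / mult w =
      extLog u w / mult w - Real.log (w (ε : K)) := by
    field_simp
  rw [e1, Real.exp_sub, Real.exp_log hpos, ← mul_div_assoc, lt_div_iff₀ hpos, mul_comm (w (ε : K))]

open scoped Classical in
/-- Upper bound for the volume of the box set. -/
theorem volume_boxSet_le {T : ℝ≥0} {x : mixedSpace K} (hx : 0 < mixedEmbedding.norm x)
    (hT : mixedEmbedding.norm x < T) :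
    volume (boxSet T x) ≤ ENNReal.ofReal ((Real.log (T / mixedEmbedding.norm x)) ^ rank K) := by
  classical
  set Lg : ℝ := Real.log (T / mixedEmbedding.norm x) with hLg
  have hT0 : (0 : ℝ) < T := hx.trans hT
  have hLpos : 0 ≤ Lg := Real.log_nonneg (by rw [one_le_div hx]; exact hT.le)
  set n : ℝ := (finrank ℚ K : ℝ) with hn
  have hn0 : n ≠ 0 := by
    rw [hn]; exact_mod_cast (finrank_pos (R := ℚ) (M := K)).ne'
  -- coordinates
  let c : InfinitePlace K → ℝ := fun w => mult w * (Real.log (normAtPlace w x) - Real.log T / n)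
  have hnorm_ne : ∀ w, normAtPlace w x ≠ 0 := mixedEmbedding.norm_ne_zero_iff.mp hx.ne'
  have hnorm_pos : ∀ w, 0 < normAtPlace w x := fun w =>
    lt_of_le_of_ne (normAtPlace_nonneg w x) (hnorm_ne w).symm
  have hsumc : ∑ w, c w = - Lg := by
    have h1 : ∑ w : InfinitePlace K, (mult w : ℝ) * Real.log (normAtPlace w x) =
        Real.log (mixedEmbedding.norm x) := by
      rw [mixedEmbedding.norm_apply, Real.log_prod (fun w _ => pow_ne_zero _ (hnorm_ne w))]
      refine Finset.sum_congr rfl fun w _ => ?_
      rw [Real.log_pow]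
    have h2 : ∑ w : InfinitePlace K, (mult w : ℝ) = n := by
      rw [hn, ← sum_mult_eq (K := K)]
      push_cast
      rfl
    simp only [c, mul_sub, Finset.sum_sub_distrib]
    rw [h1, ← Finset.sum_mul, h2, hLg, Real.log_div hT0.ne' hx.ne']
    field_simp
    ring
  have hlow : ∀ u ∈ boxSet T x, ∀ w, c w < extLog u w := by
    intro u hu w
    have h1 := hu w
    rw [coe_boxRadius] at h1
    have h2 := Real.log_lt_log (hnorm_pos w) h1
    rw [Real.log_mul (Real.rpow_pos_of_pos hT0 _).ne' (Real.exp_pos _).ne', Real.log_exp,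
      Real.log_rpow hT0] at h2
    have hm : (0 : ℝ) < mult w := by exact_mod_cast mult_pos
    have h3 : Real.log (normAtPlace w x) - Real.log T / n < extLog u w / mult w := by
      rw [div_eq_mul_inv (Real.log (T : ℝ)) n, mul_comm (Real.log (T : ℝ))]
      linarith
    have h4 := mul_lt_mul_of_pos_left h3 hm
    have h5 : (mult w : ℝ) * (extLog u w / mult w) = extLog u w := by
      field_simp
    rw [h5] at h4
    exact h4
  have hsub : boxSet T x ⊆
      Set.Icc (fun w : {w : InfinitePlace K // w ≠ w₀} => c w.val) (fun w => c w.val + Lg) := by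
    intro u hu
    refine ⟨fun w => ?_, fun w => ?_⟩
    · have := hlow u hu w.val
      rw [extLog_of_ne] at this
      exact this.le
    · have h0 := sum_extLog u
      rw [← Finset.add_sum_erase _ _ (Finset.mem_univ w.val), extLog_of_ne] at h0
      have h1 : ∑ w' ∈ Finset.univ.erase w.val, c w' ≤
          ∑ w' ∈ Finset.univ.erase w.val, extLog u w' :=
        Finset.sum_le_sum fun w' _ => (hlow u hu w').le
      rw [← Finset.add_sum_erase _ _ (Finset.mem_univ w.val)] at hsumc
      show u w ≤ c w.val + Lg
      linarith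
  refine (measure_mono hsub).trans ?_
  rw [Real.volume_Icc_pi]
  simp only [add_sub_cancel_left, Finset.prod_const, Finset.card_univ]
  rw [← ENNReal.ofReal_pow hLpos]
  have hcard : Fintype.card {w : InfinitePlace K // w ≠ w₀} = rank K := by
    rw [rank]
    simp [Fintype.card_subtype_compl]
  rw [hcard]

end Pool.Agent.Lib.H59
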