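import Mathlib
import Pool.Agent.Lib.H59.LatticeCount
import Pool.Agent.Lib.H59.UnitBox

/-!
# Unfolding over the unit lattice

-/

open MeasureTheory MeasureTheory.Measure Set Module ENNReal
open NumberField NumberField.InfinitePlace NumberField.mixedEmbedding NumberField.Units
  NumberField.Units.dirichletUnitTheorem NumberField.mixedEmbedding.fundamentalCone
open scoped Pointwise NNReal nonZeroDivisors

noncomputable section

namespace Pool.Agent.Lib.H59

variable {K : Type*} [Field K] [NumberField K]

variable (K) in
/-- The weight attached to a norm `ν` with cut-off `T`. -/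
def logWeight (T : ℝ≥0) (ν : ℝ) : ℝ≥0∞ :=
  if ν < T then ENNReal.ofReal ((Real.log (T / ν)) ^ rank K) else 0

open scoped Classical in
theorem volume_boxSet_le_logWeight {T : ℝ≥0} {x : mixedSpace K}
    (hx : 0 < mixedEmbedding.norm x) :
    volume (boxSet T x) ≤ logWeight K T (mixedEmbedding.norm x) := by
  rw [logWeight]
  split_ifs with h
  · exact volume_boxSet_le hx h
  · rw [boxSet_eq_empty (not_lt.mp h)]
    simp

/-- A unit with given logarithmic embedding. -/
def unitRep (l : unitLattice K) : (𝓞 K)ˣ := (l.2.choose : Additive (𝓞 K)ˣ).toMul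

theorem logEmbedding_unitRep (l : unitLattice K) :
    logEmbedding K (Additive.ofMul (unitRep l)) = (l : logSpace K) := by
  have := l.2.choose_spec.2
  exact this

theorem boxSet_unitRep_smul (T : ℝ≥0) (l : unitLattice K) (x : mixedSpace K) :
    boxSet T (unitRep l • x) = l +ᵥ boxSet T x := by
  ext u
  rw [mem_boxSet_unit_smul, logEmbedding_unitRep, Set.mem_vadd_set_iff_neg_vadd_mem]
  have : (-l +ᵥ u : logSpace K) = u - (l : logSpace K) := by
    rw [Submodule.vadd_def, vadd_eq_add, Submodule.coe_neg, sub_eq_neg_add]
  rw [this]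

theorem mem_convexBodyLT_iff_mem_boxSet (T : ℝ≥0) (x : K) (u : logSpace K) :
    mixedEmbedding K x ∈ convexBodyLT K (boxRadius T u) ↔ u ∈ boxSet T (mixedEmbedding K x) := by
  rw [convexBodyLT_mem]
  simp only [boxSet, Set.mem_ofPred_eq, normAtPlace_apply]

open scoped Classical in
/-- The fundamental domain of the unit lattice. -/
def unitDomain (K : Type*) [Field K] [NumberField K] : Set (logSpace K) :=
  ZSpan.fundamentalDomain ((basisUnitLattice K).ofZLatticeBasis ℝ _)

open scoped Classical in
theorem isAddFundamentalDomain_unitDomain :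
    IsAddFundamentalDomain (unitLattice K) (unitDomain K) volume :=
  ZLattice.isAddFundamentalDomain (basisUnitLattice K) volume

open scoped Classical in
theorem volume_unitDomain : volume (unitDomain K) = ENNReal.ofReal (regulator K) := by
  rw [regulator, ZLattice.covolume_eq_measure_fundamentalDomain _ _
    (isAddFundamentalDomain_unitDomain (K := K)), measureReal_def, ENNReal.ofReal_toReal]
  exact (ZSpan.fundamentalDomain_isBounded _).measure_lt_top.ne

variable (J : (Ideal (𝓞 K))⁰)

open scoped Classical in
theorem tsum_volume_le :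
    ∀ T : ℝ≥0, ∑' x : {x : idealLattice K (FractionalIdeal.mk0 K J) // x ≠ 0},
      volume (boxSet T ((x : idealLattice K (FractionalIdeal.mk0 K J)) : mixedSpace K)
        ∩ unitDomain K) ≤
    ∑' a : idealSet K J, logWeight K T (mixedEmbedding.norm (a : mixedSpace K)) := by
  intro T
  -- choose representatives
  have hex : ∀ x : {x : idealLattice K (FractionalIdeal.mk0 K J) // x ≠ 0},
      ∃ al : idealSet K J × unitLattice K,
        ((x : idealLattice K (FractionalIdeal.mk0 K J)) : mixedSpace K) =
          unitRep al.2 • (al.1 : mixedSpace K) := by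
    rintro ⟨⟨x, hx⟩, hx0⟩
    obtain ⟨y, hy, rfl⟩ := (mem_idealLattice K _).mp hx
    have hx0' : mixedEmbedding K y ≠ 0 := by
      intro h
      apply hx0
      exact Subtype.ext h
    have hnorm : mixedEmbedding.norm (mixedEmbedding K y) ≠ 0 := by
      rw [ne_eq, norm_eq_zero_iff' ⟨y, rfl⟩]
      exact hx0'
    obtain ⟨v, hv⟩ := exists_unit_smul_mem hnorm
    -- `v • x` is in the cone; let `l = - log v`
    set l : unitLattice K := ⟨logEmbedding K (Additive.ofMul v⁻¹), ⟨_, trivial, rfl⟩⟩ with hl
    have hζ : (unitRep l)⁻¹ * v⁻¹ ∈ torsion K := by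
      rw [← logEmbedding_eq_zero_iff, ofMul_mul, map_add, ofMul_inv, map_neg,
        logEmbedding_unitRep]
      simp [hl]
    set a : mixedSpace K := (unitRep l)⁻¹ • mixedEmbedding K y with ha
    have ha' : a = ((unitRep l)⁻¹ * v⁻¹) • (v • mixedEmbedding K y) := by
      rw [ha, smul_smul]
      congr 1
      rw [mul_assoc, inv_mul_cancel, mul_one]
    have hcone : a ∈ fundamentalCone K := by
      rw [ha']
      exact torsion_smul_mem_of_mem hv hζ
    have hlat : a ∈ (idealLattice K (FractionalIdeal.mk0 K J) : Set (mixedSpace K)) := by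
      rw [SetLike.mem_coe, mem_idealLattice]
      refine ⟨(((unitRep l)⁻¹ : (𝓞 K)ˣ) : K) * y, ?_, ?_⟩
      · have := Submodule.smul_mem ((FractionalIdeal.mk0 K J : FractionalIdeal (𝓞 K)⁰ K) :
          Submodule (𝓞 K) K) (((unitRep l)⁻¹ : (𝓞 K)ˣ) : 𝓞 K) hy
        rw [Algebra.smul_def] at this
        exact this
      · rw [ha, unitSMul_smul, map_mul]
    refine ⟨(⟨a, hcone, hlat⟩, l), ?_⟩
    show mixedEmbedding K y = unitRep l • a
    rw [ha, smul_smul, mul_inv_cancel, one_smul]
  choose g hg using hex
  have hginj : Function.Injective g := by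
    intro x y hxy
    have h1 := hg x
    have h2 := hg y
    rw [hxy, ← h2] at h1
    exact Subtype.ext (Subtype.ext h1)
  calc ∑' x : {x : idealLattice K (FractionalIdeal.mk0 K J) // x ≠ 0},
      volume (boxSet T ((x : idealLattice K (FractionalIdeal.mk0 K J)) : mixedSpace K)
        ∩ unitDomain K)
      = ∑' x : {x : idealLattice K (FractionalIdeal.mk0 K J) // x ≠ 0},
        (fun al : idealSet K J × unitLattice K =>
          volume (boxSet T (unitRep al.2 • (al.1 : mixedSpace K)) ∩ unitDomain K)) (g x) := by
        refine tsum_congr fun x => ?_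
        rw [hg x]
    _ ≤ ∑' al : idealSet K J × unitLattice K,
          volume (boxSet T (unitRep al.2 • (al.1 : mixedSpace K)) ∩ unitDomain K) :=
        ENNReal.tsum_comp_le_tsum_of_injective hginj _
    _ = ∑' a : idealSet K J, ∑' l : unitLattice K,
          volume (boxSet T (unitRep l • (a : mixedSpace K)) ∩ unitDomain K) :=
        ENNReal.tsum_prod (f := fun (a : idealSet K J) (l : unitLattice K) =>
          volume (boxSet T (unitRep l • (a : mixedSpace K)) ∩ unitDomain K))
    _ = ∑' a : idealSet K J, volume (boxSet T (a : mixedSpace K)) := by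
        refine tsum_congr fun a => ?_
        have : VAddInvariantMeasure (unitLattice K) (logSpace K) volume :=
          inferInstanceAs (VAddInvariantMeasure (unitLattice K).toAddSubgroup (logSpace K) volume)
        rw [(isAddFundamentalDomain_unitDomain (K := K)).measure_eq_tsum
          (boxSet T (a : mixedSpace K))]
        refine tsum_congr fun l => ?_
        rw [boxSet_unitRep_smul]
    _ ≤ ∑' a : idealSet K J, logWeight K T (mixedEmbedding.norm (a : mixedSpace K)) := by
        refine ENNReal.tsum_le_tsum fun a => volume_boxSet_le_logWeight ?_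
        exact norm_pos_of_mem a.2.1

open scoped Classical in
/-- The main inequality obtained by counting lattice points in boxes and unfolding. -/
theorem mul_regulator_le (T : ℝ≥0) :
    (convexBodyLTFactor K : ℝ≥0∞) * T * ENNReal.ofReal (regulator K) ≤
      2 ^ finrank ℚ K * (ENNReal.ofReal (regulator K) +
        ∑' a : idealSet K J, logWeight K T (mixedEmbedding.norm (a : mixedSpace K))) *
      ENNReal.ofReal (ZLattice.covolume (idealLattice K (FractionalIdeal.mk0 K J))) := by
  set Λ := idealLattice K (FractionalIdeal.mk0 K J) with hΛ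
  set F := ZSpan.fundamentalDomain (fractionalIdealLatticeBasis K (FractionalIdeal.mk0 K J))
    with hF
  have hfund : IsAddFundamentalDomain Λ F volume := fundamentalDomain_idealLattice K _
  have hcov : volume F = ENNReal.ofReal (ZLattice.covolume Λ) := by
    rw [ZLattice.covolume_eq_measure_fundamentalDomain _ _ hfund, measureReal_def,
      ENNReal.ofReal_toReal]
    exact (ZSpan.fundamentalDomain_isBounded _).measure_lt_top.ne
  have hcount : Countable Λ.toAddSubgroup := by
    have : Countable Λ := by
      rw [hΛ]
      infer_instance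
    exact this
  -- step 1: pointwise
  have h1 : ∀ u : logSpace K, (convexBodyLTFactor K : ℝ≥0∞) * T ≤
      2 ^ finrank ℚ K * (∑' x : Λ, (boxSet T (x : mixedSpace K)).indicator
        (fun _ => (1 : ℝ≥0∞)) u) * volume F := by
    intro u
    have h2 := measure_le_two_pow_mul_encard_mul (L := Λ.toAddSubgroup)
      (s := convexBodyLT K (boxRadius T u)) (μ := (volume : Measure (mixedSpace K)))
      (F := F) hfund (convexBodyLT_neg_mem K _) (convexBodyLT_convex K _)
    rw [convexBodyLT_volume, mixedEmbedding.finrank] at h2
    have h2' := h2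
    rw [prod_boxRadius] at h2'
    refine h2'.trans (le_of_eq ?_)
    congr 2
    refine tsum_congr fun x => ?_
    obtain ⟨x, hx⟩ := x
    obtain ⟨y, hy, rfl⟩ := (mem_idealLattice K _).mp hx
    by_cases hu : u ∈ boxSet T (mixedEmbedding K y)
    · rw [Set.indicator_of_mem hu, Set.indicator_of_mem]
      exact (mem_convexBodyLT_iff_mem_boxSet T y u).mpr hu
    · rw [Set.indicator_of_notMem hu, Set.indicator_of_notMem]
      exact fun h => hu ((mem_convexBodyLT_iff_mem_boxSet T y u).mp h)
  -- step 2: integrate
  have h4 : (convexBodyLTFactor K : ℝ≥0∞) * T * volume (unitDomain K) ≤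
      2 ^ finrank ℚ K * (∑' x : Λ, volume (boxSet T (x : mixedSpace K) ∩ unitDomain K)) *
        volume F := by
    have hmeas : ∀ x : Λ, Measurable ((boxSet T (x : mixedSpace K)).indicator
        (fun _ => (1 : ℝ≥0∞))) := fun x =>
      measurable_const.indicator (measurableSet_boxSet T _)
    calc (convexBodyLTFactor K : ℝ≥0∞) * T * volume (unitDomain K)
        = ∫⁻ u in unitDomain K, (convexBodyLTFactor K : ℝ≥0∞) * T := by
          rw [setLIntegral_const]
      _ ≤ ∫⁻ u in unitDomain K, 2 ^ finrank ℚ K * (∑' x : Λ,
            (boxSet T (x : mixedSpace K)).indicator (fun _ => (1 : ℝ≥0∞)) u) * volume F :=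
          lintegral_mono fun u => h1 u
      _ = 2 ^ finrank ℚ K * (∫⁻ u in unitDomain K, (∑' x : Λ,
            (boxSet T (x : mixedSpace K)).indicator (fun _ => (1 : ℝ≥0∞)) u)) * volume F := by
          rw [lintegral_mul_const _ ((Measurable.tsum hmeas).const_mul _),
            lintegral_const_mul _ (Measurable.tsum hmeas)]
      _ = 2 ^ finrank ℚ K * (∑' x : Λ, volume (boxSet T (x : mixedSpace K) ∩ unitDomain K)) *
        volume F := by
          rw [lintegral_tsum fun x => (hmeas x).aemeasurable]
          congr 2
          refine tsum_congr fun x => ?_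
          rw [lintegral_indicator_const (measurableSet_boxSet T _), one_mul,
            Measure.restrict_apply (measurableSet_boxSet T _)]
  -- step 3: split off zero
  have h5 : ∑' x : Λ, volume (boxSet T (x : mixedSpace K) ∩ unitDomain K) ≤
      volume (unitDomain K) + ∑' a : idealSet K J,
        logWeight K T (mixedEmbedding.norm (a : mixedSpace K)) := by
    have h6 : ∑' x : Λ, volume (boxSet T (x : mixedSpace K) ∩ unitDomain K) =
        (∑' x : ({0} : Set Λ), volume (boxSet T ((x : Λ) : mixedSpace K) ∩ unitDomain K)) +
        ∑' x : (({0} : Set Λ)ᶜ : Set Λ),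
          volume (boxSet T ((x : Λ) : mixedSpace K) ∩ unitDomain K) :=
      (ENNReal.summable.tsum_add_tsum_compl ENNReal.summable).symm
    rw [h6]
    refine add_le_add ?_ ?_
    · rw [tsum_singleton (0 : Λ)
        (fun x : Λ => volume (boxSet T (x : mixedSpace K) ∩ unitDomain K))]
      exact measure_mono Set.inter_subset_right
    · exact tsum_volume_le J T
  rw [hcov, volume_unitDomain] at h4
  rw [volume_unitDomain] at h5
  refine h4.trans ?_
  gcongr

end Pool.Agent.Lib.H59
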