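import Mathlib
import Pool.Agent.Lib.H59.UnitUnfold

/-!
# From the fundamental cone to sums over ideals

-/

open MeasureTheory MeasureTheory.Measure Set Module ENNReal
open NumberField NumberField.InfinitePlace NumberField.mixedEmbedding NumberField.Units
  NumberField.Units.dirichletUnitTheorem NumberField.mixedEmbedding.fundamentalCone
open scoped Pointwise NNReal nonZeroDivisors
open Ideal (absNorm)

noncomputable section

namespace Pool.Agent.Lib.H59

variable {K : Type*} [Field K] [NumberField K]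

variable (J : (Ideal (𝓞 K))⁰)

/-- Fiberwise equivalence. -/
def idealSetFiberEquiv (i : ℕ) :
    {I : {I : (Ideal (𝓞 K))⁰ // (J : Ideal (𝓞 K)) ∣ I ∧
            Submodule.IsPrincipal (I : Ideal (𝓞 K))} × torsion K //
            (fun I : {I : (Ideal (𝓞 K))⁰ // (J : Ideal (𝓞 K)) ∣ I ∧
            Submodule.IsPrincipal (I : Ideal (𝓞 K))} × torsion K =>
              absNorm (I.1.1 : Ideal (𝓞 K))) I = i} ≃
    {a : idealSet K J // (fun a => intNorm (idealSetEquiv K J a).1) a = i} := by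
    calc {I : {I : (Ideal (𝓞 K))⁰ // (J : Ideal (𝓞 K)) ∣ I ∧
            Submodule.IsPrincipal (I : Ideal (𝓞 K))} × torsion K //
            absNorm (I.1.1 : Ideal (𝓞 K)) = i}
        ≃ {I : {I : (Ideal (𝓞 K))⁰ // (J : Ideal (𝓞 K)) ∣ I ∧
            Submodule.IsPrincipal (I : Ideal (𝓞 K))} //
            absNorm (I.1 : Ideal (𝓞 K)) = i} × torsion K :=
          Equiv.prodSubtypeFstEquivSubtypeProd
            (p := fun I : {I : (Ideal (𝓞 K))⁰ // (J : Ideal (𝓞 K)) ∣ I ∧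
              Submodule.IsPrincipal (I : Ideal (𝓞 K))} => absNorm (I.1 : Ideal (𝓞 K)) = i)
      _ ≃ {I : (Ideal (𝓞 K))⁰ // ((J : Ideal (𝓞 K)) ∣ I ∧
            Submodule.IsPrincipal (I : Ideal (𝓞 K))) ∧
            absNorm (I : Ideal (𝓞 K)) = i} × torsion K :=
          Equiv.prodCongrLeft fun _ ↦ (Equiv.subtypeSubtypeEquivSubtypeInter
            (p := fun I : (Ideal (𝓞 K))⁰ ↦ (J : Ideal (𝓞 K)) ∣ I ∧
              Submodule.IsPrincipal (I : Ideal (𝓞 K)))
            (q := fun I ↦ absNorm (I : Ideal (𝓞 K)) = i))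
      _ ≃ {I : (Ideal (𝓞 K))⁰ // (J : Ideal (𝓞 K)) ∣ I ∧
            Submodule.IsPrincipal (I : Ideal (𝓞 K)) ∧
            absNorm (I : Ideal (𝓞 K)) = i} × torsion K :=
          Equiv.prodCongrLeft fun _ ↦ Equiv.subtypeEquivRight fun _ ↦ by rw [and_assoc]
      _ ≃ {a : idealSet K J // mixedEmbedding.norm (a : mixedSpace K) = i} :=
            (idealSetEquivNorm K J i).symm
      _ ≃ {a : idealSet K J // intNorm (idealSetEquiv K J a).1 = i} :=
          Equiv.subtypeEquivRight fun a => by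
            rw [← intNorm_idealSetEquiv_apply, Nat.cast_inj]

/-- Norm preserving equivalence between the points of the ideal lattice in the cone and pairs
(principal ideal divisible by `J`, root of unity). -/
def idealSetEquivProd :
    ({I : (Ideal (𝓞 K))⁰ // (J : Ideal (𝓞 K)) ∣ I ∧ Submodule.IsPrincipal (I : Ideal (𝓞 K))} ×
      torsion K) ≃ idealSet K J :=
  Equiv.ofFiberEquiv (idealSetFiberEquiv J)

theorem norm_idealSetEquivProd
    (p : {I : (Ideal (𝓞 K))⁰ // (J : Ideal (𝓞 K)) ∣ I ∧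
      Submodule.IsPrincipal (I : Ideal (𝓞 K))} × torsion K) :
    mixedEmbedding.norm (idealSetEquivProd J p : mixedSpace K) =
      (absNorm (p.1.1 : Ideal (𝓞 K)) : ℝ) := by
  rw [← intNorm_idealSetEquiv_apply]
  have h : intNorm (idealSetEquiv K J (idealSetEquivProd J p)).1 =
      absNorm (p.1.1 : Ideal (𝓞 K)) := by
    exact Equiv.ofFiberEquiv_map (idealSetFiberEquiv J) p
  exact_mod_cast h

/-- Ideals in a fixed class. -/
def classEquiv {C : ClassGroup (𝓞 K)} (hJ : ClassGroup.mk0 J = C⁻¹) :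
    {a : (Ideal (𝓞 K))⁰ // ClassGroup.mk0 a = C} ≃
    {I : (Ideal (𝓞 K))⁰ // (J : Ideal (𝓞 K)) ∣ I ∧ Submodule.IsPrincipal (I : Ideal (𝓞 K))} :=
  calc {a : (Ideal (𝓞 K))⁰ // ClassGroup.mk0 a = C}
      ≃ {I : {I : (Ideal (𝓞 K))⁰ // J ∣ I} // Submodule.IsPrincipal (I.1 : Ideal (𝓞 K))} :=
        (Equiv.dvd J).subtypeEquiv fun a => by
          rw [← ClassGroup.mk0_eq_one_iff (SetLike.coe_mem _)]
          simp only [Equiv.dvd_apply, Subtype.coe_eta, map_mul, hJ, inv_mul_eq_one]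
          exact eq_comm
    _ ≃ {I : (Ideal (𝓞 K))⁰ // J ∣ I ∧ Submodule.IsPrincipal (I : Ideal (𝓞 K))} :=
        Equiv.subtypeSubtypeEquivSubtypeInter (fun I : (Ideal (𝓞 K))⁰ ↦ J ∣ I)
          (fun I : (Ideal (𝓞 K))⁰ ↦ Submodule.IsPrincipal (I : Ideal (𝓞 K)))
    _ ≃ _ := Equiv.subtypeEquivRight fun I => by
        rw [← nonZeroDivisors_dvd_iff_dvd_coe]

theorem classEquiv_apply {C : ClassGroup (𝓞 K)} (hJ : ClassGroup.mk0 J = C⁻¹)
    (a : {a : (Ideal (𝓞 K))⁰ // ClassGroup.mk0 a = C}) :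
    ((classEquiv J hJ a).1 : Ideal (𝓞 K)) = (J : Ideal (𝓞 K)) * (a.1 : Ideal (𝓞 K)) := rfl

theorem logWeight_mul {x : ℝ≥0} {c ν : ℝ} (hc : 0 < c) (T : ℝ≥0) (hT : (T : ℝ) = x * c) :
    logWeight K T (c * ν) = logWeight K x ν := by
  unfold logWeight
  rw [hT, mul_comm (x : ℝ) c, mul_div_mul_left _ _ hc.ne']
  simp only [mul_lt_mul_iff_right₀ hc]

theorem tsum_idealSet_eq {C : ClassGroup (𝓞 K)} (hJ : ClassGroup.mk0 J = C⁻¹)
    (x : ℝ≥0) (T : ℝ≥0) (hT : (T : ℝ) = x * absNorm (J : Ideal (𝓞 K))) :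
    ∑' a : idealSet K J, logWeight K T (mixedEmbedding.norm (a : mixedSpace K)) =
      torsionOrder K * ∑' a : {a : (Ideal (𝓞 K))⁰ // ClassGroup.mk0 a = C},
        logWeight K x (absNorm (a.1 : Ideal (𝓞 K))) := by
  rw [← (idealSetEquivProd J).tsum_eq]
  simp_rw [norm_idealSetEquivProd]
  rw [ENNReal.tsum_prod (f := fun (I : {I : (Ideal (𝓞 K))⁰ // (J : Ideal (𝓞 K)) ∣ I ∧
      Submodule.IsPrincipal (I : Ideal (𝓞 K))}) (_ : torsion K) =>
      logWeight K T (absNorm (I.1 : Ideal (𝓞 K)) : ℝ))]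
  have h1 : ∀ c : ℝ≥0∞, ∑' _ : torsion K, c = torsionOrder K * c := by
    intro c
    rw [ENNReal.tsum_const, torsionOrder, ENat.card_eq_coe_natCard]
    simp
  simp_rw [h1]
  rw [ENNReal.tsum_mul_left]
  congr 1
  rw [← (classEquiv J hJ).tsum_eq]
  refine tsum_congr fun a => ?_
  rw [classEquiv_apply, map_mul, Nat.cast_mul]
  exact logWeight_mul (by exact_mod_cast Ideal.absNorm_pos_of_nonZeroDivisors J) T hT

/-- The inequality for one ideal class. -/
theorem class_inequality (C : ClassGroup (𝓞 K)) (x : ℝ≥0) :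
    (convexBodyLTFactor K : ℝ≥0∞) * x * ENNReal.ofReal (regulator K) ≤
      2 ^ finrank ℚ K * (ENNReal.ofReal (regulator K) +
        torsionOrder K * ∑' a : {a : (Ideal (𝓞 K))⁰ // ClassGroup.mk0 a = C},
          logWeight K x (absNorm (a.1 : Ideal (𝓞 K)))) *
      ENNReal.ofReal ((2⁻¹) ^ nrComplexPlaces K * √|discr K|) := by
  classical
  obtain ⟨J, hJ⟩ := ClassGroup.mk0_surjective C⁻¹
  set ν : ℝ≥0 := ((absNorm (J : Ideal (𝓞 K)) : ℕ) : ℝ≥0) with hν
  have hν0 : ν ≠ 0 := by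
    rw [hν]; exact_mod_cast Ideal.absNorm_ne_zero_of_nonZeroDivisors J
  have h := mul_regulator_le J (x * ν)
  rw [tsum_idealSet_eq J hJ x (x * ν) (by rw [hν]; push_cast; rfl),
    covolume_idealLattice] at h
  have e1 : ENNReal.ofReal (((FractionalIdeal.absNorm
      ((FractionalIdeal.mk0 K J : (FractionalIdeal (𝓞 K)⁰ K)ˣ) : FractionalIdeal (𝓞 K)⁰ K) : ℚ) : ℝ)
      * 2⁻¹ ^ nrComplexPlaces K * √|(discr K : ℝ)|) =
      ν * ENNReal.ofReal ((2⁻¹) ^ nrComplexPlaces K * √|(discr K : ℝ)|) := by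
    rw [FractionalIdeal.coe_mk0, FractionalIdeal.coeIdeal_absNorm, Rat.cast_natCast,
      mul_assoc, ENNReal.ofReal_mul (by positivity), ENNReal.ofReal_natCast, hν]
    simp
  rw [e1] at h
  have h2 : (ν : ℝ≥0∞) * ((convexBodyLTFactor K : ℝ≥0∞) * x * ENNReal.ofReal (regulator K)) ≤
      ν * (2 ^ finrank ℚ K * (ENNReal.ofReal (regulator K) +
        torsionOrder K * ∑' a : {a : (Ideal (𝓞 K))⁰ // ClassGroup.mk0 a = C},
          logWeight K x (absNorm (a.1 : Ideal (𝓞 K)))) *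
      ENNReal.ofReal ((2⁻¹) ^ nrComplexPlaces K * √|(discr K : ℝ)|)) := by
    refine (le_of_eq ?_).trans (h.trans (le_of_eq ?_))
    · rw [ENNReal.coe_mul x ν]; ring
    · ring
  exact (ENNReal.mul_le_mul_iff_right (by exact_mod_cast hν0) ENNReal.coe_ne_top).mp h2

/-- Sum over all classes. -/
theorem sum_class_inequality (x : ℝ≥0) :
    (classNumber K : ℝ≥0∞) * ((convexBodyLTFactor K : ℝ≥0∞) * x * ENNReal.ofReal (regulator K)) ≤
      2 ^ finrank ℚ K * (classNumber K * ENNReal.ofReal (regulator K) +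
        torsionOrder K * ∑' a : (Ideal (𝓞 K))⁰, logWeight K x (absNorm (a : Ideal (𝓞 K)))) *
      ENNReal.ofReal ((2⁻¹) ^ nrComplexPlaces K * √|discr K|) := by
  classical
  have h1 := Finset.sum_le_sum (s := (Finset.univ : Finset (ClassGroup (𝓞 K))))
    fun C _ => class_inequality C x
  rw [Finset.sum_const, Finset.card_univ, nsmul_eq_mul] at h1
  refine (le_of_eq ?_).trans (h1.trans (le_of_eq ?_))
  · rw [classNumber]
  · rw [← Finset.sum_mul, ← Finset.mul_sum, Finset.sum_add_distrib, Finset.sum_const,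
      Finset.card_univ, nsmul_eq_mul, ← Finset.mul_sum, classNumber]
    congr 4
    rw [← tsum_fintype (L := .unconditional _)]
    rw [← ENNReal.tsum_sigma (fun (C : ClassGroup (𝓞 K))
      (a : {a : (Ideal (𝓞 K))⁰ // ClassGroup.mk0 a = C}) =>
      logWeight K x (absNorm (a.1 : Ideal (𝓞 K))))]
    exact (Equiv.sigmaFiberEquiv (ClassGroup.mk0 : (Ideal (𝓞 K))⁰ → ClassGroup (𝓞 K))).tsum_eq
      (fun a => logWeight K x (absNorm (a : Ideal (𝓞 K))))

end Pool.Agent.Lib.H59
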