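import Mathlib
import Pool.Agent.Lib.H59.IdealSum

/-!
# Lower bound for the Dedekind zeta function in terms of its residue

-/

open MeasureTheory MeasureTheory.Measure Set Module ENNReal Filter Topology
open NumberField NumberField.InfinitePlace NumberField.mixedEmbedding NumberField.Units
  NumberField.Units.dirichletUnitTheorem NumberField.mixedEmbedding.fundamentalCone
open scoped Pointwise NNReal nonZeroDivisors
open Ideal (absNorm)

noncomputable section

namespace Pool.Agent.Lib.H59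

variable (K : Type*) [Field K] [NumberField K]

/-- The Dedekind zeta function at a real argument, with values in `[0, ∞]`. -/
def zetaE (s : ℝ) : ℝ≥0∞ :=
  ∑' a : (Ideal (𝓞 K))⁰, ENNReal.ofReal ((absNorm (a : Ideal (𝓞 K)) : ℝ) ^ (-s))

/-- The cut-off from which the lower bound for the weighted ideal count holds. -/
def cutoff : ℝ := 2 ^ (finrank ℚ K + 1) * √|(discr K : ℝ)|

theorem one_le_sqrt_discr : 1 ≤ √|(discr K : ℝ)| := by
  rw [Real.one_le_sqrt]
  have h := discr_ne_zero K
  have h2 : 1 ≤ |discr K| := Int.one_le_abs h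
  exact_mod_cast h2

theorem one_le_cutoff : 1 ≤ cutoff K := by
  have h1 := one_le_sqrt_discr K
  have h2 : (1 : ℝ) ≤ 2 ^ (finrank ℚ K + 1) := one_le_pow₀ (by norm_num)
  unfold cutoff
  nlinarith

variable {K}

theorem residue_le_tsum (x : ℝ≥0) (hx : cutoff K ≤ x) :
    ENNReal.ofReal (dedekindZeta_residue K * x / 2 ^ (finrank ℚ K + 1)) ≤
      ∑' a : (Ideal (𝓞 K))⁰, logWeight K x (absNorm (a : Ideal (𝓞 K))) := by
  set S := ∑' a : (Ideal (𝓞 K))⁰, logWeight K x (absNorm (a : Ideal (𝓞 K))) with hS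
  by_cases hSt : S = ⊤
  · rw [hSt]; exact le_top
  have h := sum_class_inequality (K := K) x
  rw [← hS] at h
  set s : ℝ := S.toReal with hs
  have hSs : S = ENNReal.ofReal s := (ENNReal.ofReal_toReal hSt).symm
  have hs0 : 0 ≤ s := ENNReal.toReal_nonneg
  rw [hSs] at h ⊢
  set R := regulator K with hR
  have hRpos : 0 < R := regulator_pos K
  set D : ℝ := √|(discr K : ℝ)| with hD
  have hD1 : 1 ≤ D := one_le_sqrt_discr K
  set n := finrank ℚ K with hn
  set V : ℝ := 2 ^ nrRealPlaces K * Real.pi ^ nrComplexPlaces K with hV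
  have hV1 : 1 ≤ V := by
    have h1 : (1 : ℝ) ≤ 2 ^ nrRealPlaces K := one_le_pow₀ (by norm_num)
    have h2 : (1 : ℝ) ≤ Real.pi ^ nrComplexPlaces K :=
      one_le_pow₀ (by linarith [Real.pi_gt_three])
    rw [hV]; nlinarith
  have hVc : (convexBodyLTFactor K : ℝ≥0∞) = ENNReal.ofReal V := by
    rw [convexBodyLTFactor, hV, ENNReal.ofReal_mul (by positivity),
      ENNReal.ofReal_pow (by norm_num), ENNReal.ofReal_pow Real.pi_pos.le]
    push_cast
    congr 2
    · simp
    · rw [← NNReal.coe_real_pi, ENNReal.ofReal_coe_nnreal]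
  set c : ℝ := 2⁻¹ ^ nrComplexPlaces K * D with hc
  have hcpos : 0 < c := by positivity
  have hcD : c ≤ D := by
    rw [hc]
    have : (2⁻¹ : ℝ) ^ nrComplexPlaces K ≤ 1 := pow_le_one₀ (by norm_num) (by norm_num)
    nlinarith
  set w : ℝ := ((torsionOrder K : ℕ) : ℝ) with hw
  have hwpos : 0 < w := by rw [hw]; exact_mod_cast torsionOrder_pos K
  set hh : ℝ := ((classNumber K : ℕ) : ℝ) with hhh
  have hhpos : 0 < hh := by rw [hhh]; exact_mod_cast classNumber_pos K
  have hreal : hh * (V * x * R) ≤ 2 ^ n * (hh * R + w * s) * c := by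
    have hVpos : 0 ≤ V := by linarith
    have e0 : (x : ℝ≥0∞) = ENNReal.ofReal (x : ℝ) := (ENNReal.ofReal_coe_nnreal).symm
    have e1 : (classNumber K : ℝ≥0∞) * ((convexBodyLTFactor K : ℝ≥0∞) * x * ENNReal.ofReal R) =
        ENNReal.ofReal (hh * (V * x * R)) := by
      have hxnn : (0 : ℝ) ≤ (x : ℝ) := x.coe_nonneg
      rw [hVc, e0, ENNReal.ofReal_mul hhpos.le, ENNReal.ofReal_mul (mul_nonneg hVpos hxnn),
        ENNReal.ofReal_mul hVpos, hhh, ENNReal.ofReal_natCast]
    have e2 : (2 : ℝ≥0∞) ^ n * (classNumber K * ENNReal.ofReal R + torsionOrder K *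
        ENNReal.ofReal s) * ENNReal.ofReal c =
        ENNReal.ofReal (2 ^ n * (hh * R + w * s) * c) := by
      rw [ENNReal.ofReal_mul (p := 2 ^ n * (hh * R + w * s)) (by positivity),
        ENNReal.ofReal_mul (p := 2 ^ n) (by positivity),
        ENNReal.ofReal_add (by positivity) (by positivity),
        ENNReal.ofReal_mul (p := hh) (by positivity),
        ENNReal.ofReal_mul (p := w) (by positivity), ENNReal.ofReal_pow (by norm_num), hhh, hw,
        ENNReal.ofReal_natCast, ENNReal.ofReal_natCast]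
      norm_num
    rw [e1, e2] at h
    exact (ENNReal.ofReal_le_ofReal_iff (by positivity)).mp h
  apply ENNReal.ofReal_le_ofReal
  have hκ : dedekindZeta_residue K = hh * R / w * (V / c) := by
    rw [dedekindZeta_residue_def, hV, hc]
    have : (2 * Real.pi) ^ nrComplexPlaces K = Real.pi ^ nrComplexPlaces K *
        (2 : ℝ) ^ nrComplexPlaces K := by rw [mul_pow, mul_comm]
    rw [this, inv_pow, ← hD, ← hR, ← hw, ← hhh]
    have h2 : (2 : ℝ) ^ nrComplexPlaces K ≠ 0 := by positivity
    have hDne : D ≠ 0 := by positivity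
    have hwne : w ≠ 0 := hwpos.ne'
    clear_value w D R hh
    field_simp
  have hxn : cutoff K ≤ x := hx
  rw [cutoff, ← hD, ← hn] at hxn
  rw [hκ]
  -- goal: hh * R / w * (V / c) * x / 2 ^ (n + 1) ≤ s
  have h2n : (0 : ℝ) < 2 ^ n := by positivity
  have key : hh * R / w * (V / c) * x ≤ 2 ^ n * (hh * R / w + s) := by
    have e : hh * R / w * (V / c) * x = (hh * (V * x * R)) / (w * c) := by
      field_simp
    rw [e, div_le_iff₀ (by positivity)]
    refine hreal.trans (le_of_eq ?_)
    field_simp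
  have hbound : hh * R / w ≤ hh * R / w * (V / c) * D := by
    have : 1 ≤ V / c * D := by
      rw [div_mul_eq_mul_div, le_div_iff₀ hcpos]
      nlinarith
    have h3 : 0 < hh * R / w := by positivity
    calc hh * R / w = hh * R / w * 1 := (mul_one _).symm
      _ ≤ hh * R / w * (V / c * D) := by gcongr
      _ = _ := by ring
  have hκpos : 0 < hh * R / w * (V / c) := by positivity
  have h5 : 2 ^ n * (hh * R / w) ≤ hh * R / w * (V / c) * x / 2 := by
    calc 2 ^ n * (hh * R / w) ≤ 2 ^ n * (hh * R / w * (V / c) * D) := by gcongr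
      _ = hh * R / w * (V / c) * (2 ^ (n + 1) * D) / 2 := by rw [pow_succ]; ring
      _ ≤ hh * R / w * (V / c) * x / 2 := by gcongr
  have h6 : hh * R / w * (V / c) * x / 2 ≤ 2 ^ n * s := by
    have := key
    rw [mul_add] at this
    linarith
  rw [pow_succ, ← div_div, div_right_comm, div_le_iff₀ h2n]
  linarith

theorem log_pow_le {v : ℝ} (hv : 1 ≤ v) (r : ℕ) :
    (Real.log v) ^ r ≤ (2 ^ r * r.factorial) * v ^ (1 / 2 : ℝ) := by
  have hl : 0 ≤ Real.log v := Real.log_nonneg hv
  have h1 := Real.pow_div_factorial_le_exp (x := Real.log v / 2) (by positivity) r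
  have h2 : Real.exp (Real.log v / 2) = v ^ (1 / 2 : ℝ) := by
    rw [Real.rpow_def_of_pos (by linarith)]
    congr 1
    ring
  rw [h2, div_pow, div_div, div_le_iff₀ (by positivity)] at h1
  linarith

/-- The main lower bound. -/
theorem residue_le_zetaE {σ : ℝ} (hσ : 0 < σ) :
    ENNReal.ofReal (dedekindZeta_residue K / 2 ^ (finrank ℚ K + 1) * ((cutoff K) ^ (-σ) / σ)) ≤
      ENNReal.ofReal (2 * (2 ^ rank K * (rank K).factorial)) * zetaE K (1 + σ) := by
  set κ := dedekindZeta_residue K with hκ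
  have hκpos : 0 < κ := dedekindZeta_residue_pos K
  set x₀ := cutoff K with hx₀
  have hx₀1 : 1 ≤ x₀ := one_le_cutoff K
  have hx₀pos : 0 < x₀ := by linarith
  set C : ℝ := 2 ^ rank K * (rank K).factorial with hC
  have hCpos : 0 < C := by positivity
  -- weight function
  let f : ℝ → ℝ≥0∞ := fun x => ENNReal.ofReal (x ^ (-2 - σ))
  -- lower bound
  have hlow : ENNReal.ofReal (κ / 2 ^ (finrank ℚ K + 1) * (x₀ ^ (-σ) / σ)) ≤
      ∫⁻ x in Ioi x₀, f x * ∑' a : (Ideal (𝓞 K))⁰,
        logWeight K x.toNNReal (absNorm (a : Ideal (𝓞 K))) := by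
    have h1 : ∫⁻ x in Ioi x₀, ENNReal.ofReal (κ / 2 ^ (finrank ℚ K + 1) * x ^ (-1 - σ)) =
        ENNReal.ofReal (κ / 2 ^ (finrank ℚ K + 1) * (x₀ ^ (-σ) / σ)) := by
      rw [← ofReal_integral_eq_lintegral_ofReal]
      · rw [integral_const_mul, integral_Ioi_rpow_of_lt (by linarith) hx₀pos]
        congr 2
        rw [show (-1 - σ + 1) = -σ by ring]
        rw [neg_div_neg_eq]
      · exact (integrableOn_Ioi_rpow_of_lt (by linarith) hx₀pos).const_mul _
      · refine (ae_restrict_iff' measurableSet_Ioi).mpr (Eventually.of_forall fun x hx => ?_)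
        have : 0 < x := hx₀pos.trans hx
        positivity
    rw [← h1]
    refine setLIntegral_mono' measurableSet_Ioi fun x hx => ?_
    have hxpos : 0 < x := hx₀pos.trans hx
    have h2 := residue_le_tsum (K := K) x.toNNReal (by
      rw [Real.coe_toNNReal _ hxpos.le]; exact (le_of_lt hx))
    rw [Real.coe_toNNReal _ hxpos.le] at h2
    calc ENNReal.ofReal (κ / 2 ^ (finrank ℚ K + 1) * x ^ (-1 - σ))
        = f x * ENNReal.ofReal (κ * x / 2 ^ (finrank ℚ K + 1)) := by
          rw [← ENNReal.ofReal_mul (by positivity)]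
          congr 1
          rw [show (-1 - σ) = (-2 - σ) + 1 by ring, Real.rpow_add_one hxpos.ne']
          ring
      _ ≤ _ := by gcongr
  -- upper bound for each ideal
  have hup : ∀ a : (Ideal (𝓞 K))⁰, ∫⁻ x in Ioi x₀, f x *
      logWeight K x.toNNReal (absNorm (a : Ideal (𝓞 K))) ≤
      ENNReal.ofReal (2 * C) *
        ENNReal.ofReal ((absNorm (a : Ideal (𝓞 K)) : ℝ) ^ (-(1 + σ))) := by
    intro a
    set ν : ℝ := ((absNorm (a : Ideal (𝓞 K)) : ℕ) : ℝ) with hν
    have hνpos : 0 < ν := by rw [hν]; exact_mod_cast Ideal.absNorm_pos_of_nonZeroDivisors a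
    have h1 : ∀ x ∈ Ioi x₀, f x * logWeight K x.toNNReal ν ≤
        (Ioi ν).indicator (fun x => ENNReal.ofReal ((C * ν ^ (-(1 / 2) : ℝ)) *
          x ^ (-(3 / 2) - σ))) x := by
      intro x hx
      have hxpos : 0 < x := hx₀pos.trans hx
      unfold logWeight
      rw [Real.coe_toNNReal _ hxpos.le]
      split_ifs with hlt
      · rw [Set.indicator_of_mem (show x ∈ Ioi ν from hlt),
          ← ENNReal.ofReal_mul (by positivity)]
        apply ENNReal.ofReal_le_ofReal
        have h3 := log_pow_le (v := x / ν) (by rw [one_le_div hνpos]; exact hlt.le) (rank K)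
        calc x ^ (-2 - σ) * Real.log (x / ν) ^ rank K
            ≤ x ^ (-2 - σ) * (C * (x / ν) ^ (1 / 2 : ℝ)) := by gcongr
          _ = C * ν ^ (-(1 / 2) : ℝ) * x ^ (-(3 / 2) - σ) := by
              rw [Real.div_rpow hxpos.le hνpos.le, Real.rpow_neg hνpos.le,
                show (-(3 / 2) - σ) = (-2 - σ) + 1 / 2 by ring, Real.rpow_add hxpos]
              ring
      · rw [mul_zero]; exact bot_le
    calc ∫⁻ x in Ioi x₀, f x * logWeight K x.toNNReal ν
        ≤ ∫⁻ x in Ioi x₀, (Ioi ν).indicator (fun x => ENNReal.ofReal ((C * ν ^ (-(1 / 2) : ℝ)) *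
          x ^ (-(3 / 2) - σ))) x := setLIntegral_mono' measurableSet_Ioi h1
      _ ≤ ∫⁻ x, (Ioi ν).indicator (fun x => ENNReal.ofReal ((C * ν ^ (-(1 / 2) : ℝ)) *
          x ^ (-(3 / 2) - σ))) x := setLIntegral_le_lintegral _ _
      _ = ∫⁻ x in Ioi ν, ENNReal.ofReal ((C * ν ^ (-(1 / 2) : ℝ)) *
          x ^ (-(3 / 2) - σ)) := lintegral_indicator measurableSet_Ioi _
      _ = ENNReal.ofReal (C * ν ^ (-(1 / 2) : ℝ) * (ν ^ (-(1 / 2) - σ) / (1 / 2 + σ))) := by
          rw [← ofReal_integral_eq_lintegral_ofReal]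
          · rw [integral_const_mul, integral_Ioi_rpow_of_lt (by linarith) hνpos]
            congr 2
            rw [show (-(3 / 2) - σ + 1) = -(1 / 2) - σ by ring]
            rw [show -(1 / 2) - σ = -(1 / 2 + σ) by ring, neg_div_neg_eq]
          · exact (integrableOn_Ioi_rpow_of_lt (by linarith) hνpos).const_mul _
          · refine (ae_restrict_iff' measurableSet_Ioi).mpr (Eventually.of_forall fun x hx => ?_)
            have : 0 < x := hνpos.trans hx
            positivity
      _ ≤ ENNReal.ofReal (2 * C * ν ^ (-(1 + σ))) := by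
          apply ENNReal.ofReal_le_ofReal
          have e : ν ^ (-(1 + σ)) = ν ^ (-(1 / 2) : ℝ) * ν ^ (-(1 / 2) - σ) := by
            rw [← Real.rpow_add hνpos]; congr 1; ring
          rw [e]
          have h4 : ν ^ (-(1 / 2) - σ) / (1 / 2 + σ) ≤ 2 * ν ^ (-(1 / 2) - σ) := by
            rw [div_le_iff₀ (by positivity)]
            have : 0 < ν ^ (-(1 / 2) - σ) := by positivity
            nlinarith
          calc C * ν ^ (-(1 / 2) : ℝ) * (ν ^ (-(1 / 2) - σ) / (1 / 2 + σ))
              ≤ C * ν ^ (-(1 / 2) : ℝ) * (2 * ν ^ (-(1 / 2) - σ)) := by gcongr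
            _ = _ := by ring
      _ = ENNReal.ofReal (2 * C) * ENNReal.ofReal (ν ^ (-(1 + σ))) := by
          rw [ENNReal.ofReal_mul (by positivity)]
  refine hlow.trans ?_
  have hcount : Countable ((Ideal (𝓞 K))⁰) := by
    have h : ∀ n : ℕ, Set.Finite {I : (Ideal (𝓞 K))⁰ | absNorm (I : Ideal (𝓞 K)) ≤ n} := fun n =>
      Ideal.finite_setOfPred_absNorm_le₀ n
    have : (Set.univ : Set ((Ideal (𝓞 K))⁰)) =
        ⋃ n : ℕ, {I : (Ideal (𝓞 K))⁰ | absNorm (I : Ideal (𝓞 K)) ≤ n} := by
      ext I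
      simp only [Set.mem_univ, Set.mem_iUnion, Set.mem_ofPred_eq, true_iff]
      exact ⟨_, le_rfl⟩
    rw [← Set.countable_univ_iff, this]
    exact Set.countable_iUnion fun n => (h n).countable
  have hfm : Measurable f := by
    fun_prop
  have hwm : ∀ a : (Ideal (𝓞 K))⁰, Measurable (fun x : ℝ =>
      logWeight K x.toNNReal (absNorm (a : Ideal (𝓞 K)))) := by
    intro a
    unfold logWeight
    refine Measurable.ite ?_ ?_ measurable_const
    · exact measurableSet_lt measurable_const (by fun_prop)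
    · fun_prop
  calc ∫⁻ x in Ioi x₀, f x * ∑' a : (Ideal (𝓞 K))⁰,
        logWeight K x.toNNReal (absNorm (a : Ideal (𝓞 K)))
      = ∫⁻ x in Ioi x₀, ∑' a : (Ideal (𝓞 K))⁰, f x *
        logWeight K x.toNNReal (absNorm (a : Ideal (𝓞 K))) := by
        refine lintegral_congr fun x => ?_
        rw [ENNReal.tsum_mul_left]
    _ = ∑' a : (Ideal (𝓞 K))⁰, ∫⁻ x in Ioi x₀, f x *
        logWeight K x.toNNReal (absNorm (a : Ideal (𝓞 K))) :=
        lintegral_tsum fun a => (hfm.mul (hwm a)).aemeasurable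
    _ ≤ ∑' a : (Ideal (𝓞 K))⁰, ENNReal.ofReal (2 * C) *
        ENNReal.ofReal ((absNorm (a : Ideal (𝓞 K)) : ℝ) ^ (-(1 + σ))) :=
        ENNReal.tsum_le_tsum hup
    _ = _ := by rw [ENNReal.tsum_mul_left]; rfl

end Pool.Agent.Lib.H59
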