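import Mathlib
import Pool.Agent.Lib.H59.ZetaLower

/-!
# Euler product for the Dedekind zeta function (inequalities)

-/

open Set Module ENNReal Filter Topology NumberField IsDedekindDomain
open scoped NNReal nonZeroDivisors
open Ideal (absNorm)

noncomputable section

namespace Pool.Agent.Lib.H59

variable {K : Type*} [Field K] [NumberField K]

variable (K) in
/-- The nonzero ideals all of whose prime divisors lie in `S`. -/
def SuppIdeal (S : Set (HeightOneSpectrum (𝓞 K))) : Type _ :=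
  {a : (Ideal (𝓞 K))⁰ // ∀ Q : HeightOneSpectrum (𝓞 K), Q.asIdeal ∣ (a : Ideal (𝓞 K)) → Q ∈ S}

/-- The local term. -/
def normPow (s : ℝ) (a : Ideal (𝓞 K)) : ℝ≥0∞ := ENNReal.ofReal ((absNorm a : ℝ) ^ (-s))

theorem normPow_mul (s : ℝ) (a b : Ideal (𝓞 K)) :
    normPow s (a * b) = normPow s a * normPow s b := by
  unfold normPow
  rw [map_mul, Nat.cast_mul, Real.mul_rpow (by positivity) (by positivity),
    ENNReal.ofReal_mul (by positivity)]

theorem normPow_one (s : ℝ) : normPow s (1 : Ideal (𝓞 K)) = 1 := by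
  unfold normPow
  rw [map_one]
  simp

theorem normPow_pow (s : ℝ) (a : Ideal (𝓞 K)) (k : ℕ) :
    normPow s (a ^ k) = normPow s a ^ k := by
  induction k with
  | zero => rw [pow_zero, pow_zero, normPow_one]
  | succ k ih => rw [pow_succ, normPow_mul, ih, pow_succ]

theorem eq_of_dvd {P Q : HeightOneSpectrum (𝓞 K)} (h : Q.asIdeal ∣ P.asIdeal) : Q = P := by
  have h1 : P.asIdeal ≤ Q.asIdeal := Ideal.le_of_dvd h
  have h2 := P.isMaximal.eq_of_le Q.isPrime.ne_top h1
  exact HeightOneSpectrum.ext h2.symm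

omit [NumberField K] in
theorem coe_ne_zero_of_mem (a : (Ideal (𝓞 K))⁰) : (a : Ideal (𝓞 K)) ≠ 0 :=
  nonZeroDivisors.ne_zero a.2

/-- Multiplying by powers of a new prime. -/
def insertMap (S : Set (HeightOneSpectrum (𝓞 K))) (P : HeightOneSpectrum (𝓞 K)) :
    ℕ × SuppIdeal K S → SuppIdeal K (insert P S) := fun kb =>
  ⟨⟨P.asIdeal ^ kb.1 * (kb.2.1 : Ideal (𝓞 K)), by
      rw [mem_nonZeroDivisors_iff_ne_zero]
      exact mul_ne_zero (pow_ne_zero _ P.ne_bot) (coe_ne_zero_of_mem kb.2.1)⟩, by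
    intro Q hQ
    have hQ' : Q.asIdeal ∣ P.asIdeal ^ kb.1 * (kb.2.1 : Ideal (𝓞 K)) := hQ
    rcases (Q.prime.dvd_or_dvd hQ') with h | h
    · left
      exact eq_of_dvd (Q.prime.dvd_of_dvd_pow h)
    · right
      exact kb.2.2 Q h⟩

theorem insertMap_bijective {S : Set (HeightOneSpectrum (𝓞 K))} {P : HeightOneSpectrum (𝓞 K)}
    (hP : P ∉ S) : Function.Bijective (insertMap S P) := by
  constructor
  · rintro ⟨k, b⟩ ⟨l, c⟩ h
    have h1 : P.asIdeal ^ k * (b.1 : Ideal (𝓞 K)) = P.asIdeal ^ l * (c.1 : Ideal (𝓞 K)) := by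
      have := congrArg (fun x : SuppIdeal K (insert P S) => (x.1 : Ideal (𝓞 K))) h
      exact this
    have hb : ¬ P.asIdeal ∣ (b.1 : Ideal (𝓞 K)) := fun h => hP (b.2 P h)
    have hc : ¬ P.asIdeal ∣ (c.1 : Ideal (𝓞 K)) := fun h => hP (c.2 P h)
    have hkl : k = l := by
      rcases lt_trichotomy k l with hlt | heq | hgt
      · exfalso
        obtain ⟨d, rfl⟩ := Nat.exists_eq_add_of_lt hlt
        rw [show k + d + 1 = k + (d + 1) by ring, pow_add, mul_assoc] at h1
        have h2 := mul_left_cancel₀ (pow_ne_zero k P.ne_bot) h1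
        apply hb
        rw [h2, pow_succ]
        exact ⟨P.asIdeal ^ d * (c.1 : Ideal (𝓞 K)), by ring⟩
      · exact heq
      · exfalso
        obtain ⟨d, rfl⟩ := Nat.exists_eq_add_of_lt hgt
        rw [show l + d + 1 = l + (d + 1) by ring, pow_add, mul_assoc] at h1
        have h2 := mul_left_cancel₀ (pow_ne_zero l P.ne_bot) h1
        apply hc
        rw [← h2, pow_succ]
        exact ⟨P.asIdeal ^ d * (b.1 : Ideal (𝓞 K)), by ring⟩
    subst hkl
    have h2 := mul_left_cancel₀ (pow_ne_zero k P.ne_bot) h1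
    have h3 : b = c := Subtype.ext (Subtype.ext h2)
    rw [h3]
  · rintro ⟨a, ha⟩
    have ha0 : (a : Ideal (𝓞 K)) ≠ 0 := coe_ne_zero_of_mem a
    obtain ⟨b, hab, hb⟩ := (FiniteMultiplicity.of_not_isUnit P.prime.not_isUnit
      ha0).exists_eq_pow_mul_and_not_dvd
    set k := multiplicity P.asIdeal (a : Ideal (𝓞 K))
    have hb0 : b ≠ 0 := by
      rintro rfl
      apply ha0
      rw [hab, mul_zero]
    refine ⟨(k, ⟨⟨b, mem_nonZeroDivisors_iff_ne_zero.mpr hb0⟩, ?_⟩), ?_⟩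
    · intro Q hQ
      have hQ' : Q.asIdeal ∣ b := hQ
      have h1 : Q ∈ insert P S := ha Q (by rw [hab]; exact hQ'.mul_left _)
      rcases h1 with h1 | h1
      · exfalso; apply hb; rw [← h1]; exact hQ'
      · exact h1
    · apply Subtype.ext
      apply Subtype.ext
      exact hab.symm

theorem tsum_suppIdeal_insert (s : ℝ) {S : Set (HeightOneSpectrum (𝓞 K))}
    {P : HeightOneSpectrum (𝓞 K)} (hP : P ∉ S) :
    ∑' a : SuppIdeal K (insert P S), normPow s (a.1 : Ideal (𝓞 K)) =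
      (1 - normPow s P.asIdeal)⁻¹ * ∑' a : SuppIdeal K S, normPow s (a.1 : Ideal (𝓞 K)) := by
  rw [← (Equiv.ofBijective _ (insertMap_bijective hP)).tsum_eq]
  have h : ∀ kb : ℕ × SuppIdeal K S,
      normPow s (((Equiv.ofBijective _ (insertMap_bijective hP)) kb).1 : Ideal (𝓞 K)) =
      normPow s P.asIdeal ^ kb.1 * normPow s (kb.2.1 : Ideal (𝓞 K)) := by
    intro kb
    have : (((Equiv.ofBijective _ (insertMap_bijective hP)) kb).1 : Ideal (𝓞 K)) =
      P.asIdeal ^ kb.1 * (kb.2.1 : Ideal (𝓞 K)) := rfl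
    rw [this, normPow_mul, normPow_pow]
  rw [tsum_congr h, ENNReal.tsum_prod (f := fun (k : ℕ) (b : SuppIdeal K S) =>
    normPow s P.asIdeal ^ k * normPow s (b.1 : Ideal (𝓞 K)))]
  simp_rw [ENNReal.tsum_mul_left]
  rw [ENNReal.tsum_mul_right, ENNReal.tsum_geometric]

theorem exists_prime_dvd {a : Ideal (𝓞 K)} (ha0 : a ≠ 0) (ha : a ≠ 1) :
    ∃ Q : HeightOneSpectrum (𝓞 K), Q.asIdeal ∣ a := by
  have hnt : a ≠ ⊤ := by rwa [← Ideal.one_eq_top]
  obtain ⟨M, hM, haM⟩ := Ideal.exists_le_maximal a hnt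
  refine ⟨⟨M, hM.isPrime, ?_⟩, ?_⟩
  · rintro rfl
    exact ha0 (le_bot_iff.mp haM)
  · exact Ideal.dvd_iff_le.mpr haM

theorem tsum_suppIdeal_empty (s : ℝ) :
    ∑' a : SuppIdeal K (∅ : Set (HeightOneSpectrum (𝓞 K))), normPow s (a.1 : Ideal (𝓞 K)) = 1 := by
  have huniq : ∀ a : SuppIdeal K (∅ : Set (HeightOneSpectrum (𝓞 K))),
      (a.1 : Ideal (𝓞 K)) = 1 := by
    intro a
    by_contra h
    obtain ⟨Q, hQ⟩ := exists_prime_dvd (coe_ne_zero_of_mem a.1) h
    exact a.2 Q hQ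
  let a₀ : SuppIdeal K (∅ : Set (HeightOneSpectrum (𝓞 K))) := ⟨1, fun Q hQ => by
    exfalso
    exact Q.prime.not_isUnit (isUnit_of_dvd_one hQ)⟩
  have : ∀ a : SuppIdeal K (∅ : Set (HeightOneSpectrum (𝓞 K))), a = a₀ := fun a =>
    Subtype.ext (Subtype.ext (huniq a))
  rw [tsum_eq_single a₀ (fun b hb => absurd (this b) hb)]
  exact normPow_one s

theorem tsum_suppIdeal (s : ℝ) (S : Finset (HeightOneSpectrum (𝓞 K))) :
    ∑' a : SuppIdeal K (S : Set (HeightOneSpectrum (𝓞 K))), normPow s (a.1 : Ideal (𝓞 K)) =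
      ∏ P ∈ S, (1 - normPow s P.asIdeal)⁻¹ := by
  classical
  induction S using Finset.induction_on with
  | empty =>
    rw [Finset.prod_empty, Finset.coe_empty]
    exact tsum_suppIdeal_empty s
  | insert P S hP ih =>
    rw [Finset.prod_insert hP, Finset.coe_insert, tsum_suppIdeal_insert s
      (by exact_mod_cast hP), ih]

theorem zetaE_eq_normPow (s : ℝ) :
    zetaE K s = ∑' a : (Ideal (𝓞 K))⁰, normPow s (a : Ideal (𝓞 K)) := rfl

/-- The finite products are lower bounds. -/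
theorem prod_le_zetaE (s : ℝ) (S : Finset (HeightOneSpectrum (𝓞 K))) :
    ∏ P ∈ S, (1 - normPow s P.asIdeal)⁻¹ ≤ zetaE K s := by
  rw [← tsum_suppIdeal, zetaE_eq_normPow]
  exact ENNReal.tsum_comp_le_tsum_of_injective (f := fun a : SuppIdeal K _ => a.1)
    Subtype.val_injective (fun a => normPow s (a : Ideal (𝓞 K)))

/-- If all finite products are bounded, so is the zeta function. -/
theorem zetaE_le_of_prod_le (s : ℝ) (B : ℝ≥0∞)
    (h : ∀ S : Finset (HeightOneSpectrum (𝓞 K)), ∏ P ∈ S, (1 - normPow s P.asIdeal)⁻¹ ≤ B) :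
    zetaE K s ≤ B := by
  classical
  rw [zetaE_eq_normPow, ENNReal.tsum_eq_iSup_sum]
  refine iSup_le fun t => ?_
  -- the set of primes dividing some element of `t`
  have hfin : ∀ a : (Ideal (𝓞 K))⁰,
      {Q : HeightOneSpectrum (𝓞 K) | Q.asIdeal ∣ (a : Ideal (𝓞 K))}.Finite := fun a =>
    Ideal.finite_factors (coe_ne_zero_of_mem a)
  let S : Finset (HeightOneSpectrum (𝓞 K)) := t.biUnion fun a => (hfin a).toFinset
  refine le_trans ?_ (h S)
  rw [← tsum_suppIdeal]
  let g : {a // a ∈ t} → SuppIdeal K (S : Set (HeightOneSpectrum (𝓞 K))) := fun a =>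
    ⟨a.1, fun Q hQ => by
      simp only [S, Finset.coe_biUnion, Set.mem_iUnion]
      exact ⟨a.1, a.2, by simpa using hQ⟩⟩
  have hg : Function.Injective g := by
    intro a b hab
    have := congrArg (fun x => x.1) hab
    exact Subtype.ext this
  calc ∑ a ∈ t, normPow s (a : Ideal (𝓞 K)) = ∑' a : {a // a ∈ t}, normPow s ((g a).1 : Ideal (𝓞 K)) := by
        rw [tsum_fintype, Finset.sum_coe_sort t (fun a => normPow s (a : Ideal (𝓞 K)))]
    _ ≤ _ := ENNReal.tsum_comp_le_tsum_of_injective hg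
        (fun a : SuppIdeal K (S : Set (HeightOneSpectrum (𝓞 K))) => normPow s (a.1 : Ideal (𝓞 K)))

end Pool.Agent.Lib.H59
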