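import Mathlib
import Pool.Agent.Lib.H59.EulerProd

/-!
# The Dedekind zeta function and sums over prime ideals of degree one

-/

open Set Module Filter Topology NumberField IsDedekindDomain
open scoped NNReal nonZeroDivisors ENNReal
open Ideal (absNorm)

noncomputable section

namespace Pool.Agent.Lib.H59

variable {K : Type*} [Field K] [NumberField K]

/-- The rational prime below a prime ideal. -/
def below (P : HeightOneSpectrum (𝓞 K)) : ℕ := absNorm (Ideal.under ℤ P.asIdeal)

theorem below_prime (P : HeightOneSpectrum (𝓞 K)) : (below P).Prime := by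
  have : NeZero P.asIdeal := ⟨P.ne_bot⟩
  exact Nat.absNorm_under_prime P.asIdeal

theorem liesOver_below (P : HeightOneSpectrum (𝓞 K)) :
    P.asIdeal.LiesOver (Ideal.span {((below P : ℕ) : ℤ)}) := by
  have := Int.liesOver_span_absNorm P.asIdeal
  exact this

theorem absNorm_eq_below_pow (P : HeightOneSpectrum (𝓞 K)) :
    ∃ f : ℕ, 1 ≤ f ∧ absNorm P.asIdeal = below P ^ f := by
  have h1 := liesOver_below P
  refine ⟨_, ?_, Ideal.absNorm_eq_pow_inertiaDeg' (p := below P) P.asIdeal (below_prime P)⟩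
  have : (Ideal.span {((below P : ℕ) : ℤ)}).IsMaximal := by
    have hp := (Nat.prime_iff_prime_int.mp (below_prime P))
    exact PrincipalIdealRing.isMaximal_of_irreducible hp.irreducible
  exact Ideal.inertiaDeg'_pos _ _

theorem card_filter_below_le (S : Finset (HeightOneSpectrum (𝓞 K))) (p : ℕ) :
    (S.filter (fun P => below P = p)).card ≤ finrank ℚ K := by
  classical
  by_cases hp : p.Prime
  · have hp' := (Nat.prime_iff_prime_int.mp hp)
    have hmax : (Ideal.span {(p : ℤ)}).IsMaximal :=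
      PrincipalIdealRing.isMaximal_of_irreducible hp'.irreducible
    have hne : (Ideal.span {(p : ℤ)}) ≠ ⊥ := by
      rw [Ne, Ideal.span_singleton_eq_bot]
      exact_mod_cast hp.ne_zero
    have h1 := Ideal.card_primesOverFinset_le_finrank (𝓞 K) ℚ K (p := Ideal.span {(p : ℤ)}) hne
    refine le_trans ?_ h1
    refine Finset.card_le_card_of_injOn (fun P => P.asIdeal) ?_ ?_
    · intro P hP
      rw [Finset.mem_coe, Finset.mem_filter] at hP
      rw [Finset.mem_coe, IsDedekindDomain.mem_primesOverFinset_iff hne]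
      refine ⟨P.isPrime, ?_⟩
      have := liesOver_below P
      rw [hP.2] at this
      exact this
    · intro P _ Q _ h
      exact HeightOneSpectrum.ext h
  · have : S.filter (fun P => below P = p) = ∅ := by
      rw [Finset.filter_eq_empty_iff]
      intro P _ h
      exact hp (h ▸ below_prime P)
    rw [this]
    simp

instance finite_heightOne_norm (n : ℕ) :
    Finite {P : HeightOneSpectrum (𝓞 K) // absNorm P.asIdeal = n} := by
  have h := Ideal.finite_setOfPred_absNorm_eq (S := 𝓞 K) n
  have := h.to_subtype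
  refine Finite.of_injective (β := {I : Ideal (𝓞 K) | absNorm I = n})
    (fun P => ⟨P.1.asIdeal, P.2⟩) ?_
  intro P Q hPQ
  have := congrArg Subtype.val hPQ
  exact Subtype.ext (HeightOneSpectrum.ext this)

variable (K) in
/-- The number of prime ideals of norm `p`. -/
def degOne (p : ℕ) : ℕ := Nat.card {P : HeightOneSpectrum (𝓞 K) // absNorm P.asIdeal = p}

theorem setFinite_heightOne_norm (n : ℕ) :
    {P : HeightOneSpectrum (𝓞 K) | absNorm P.asIdeal = n}.Finite :=
  finite_heightOne_norm n

variable (K) in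
/-- The finite set of prime ideals of norm `p`. -/
def degOneSet (p : ℕ) : Finset (HeightOneSpectrum (𝓞 K)) :=
  (setFinite_heightOne_norm (K := K) p).toFinset

theorem mem_degOneSet {p : ℕ} {P : HeightOneSpectrum (𝓞 K)} :
    P ∈ degOneSet K p ↔ absNorm P.asIdeal = p := by
  simp [degOneSet]

theorem card_degOneSet (p : ℕ) : (degOneSet K p).card = degOne K p := by
  rw [degOne, Nat.subtype_card (degOneSet K p) (fun P => mem_degOneSet)]

theorem below_eq_of_absNorm_eq {p : ℕ} (hp : p.Prime) {P : HeightOneSpectrum (𝓞 K)}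
    (h : absNorm P.asIdeal = p) : below P = p := by
  obtain ⟨f, hf, hP⟩ := absNorm_eq_below_pow P
  rw [h] at hP
  have h1 : below P ∣ p := by
    rw [hP]
    exact dvd_pow_self _ (by omega)
  exact (Nat.prime_dvd_prime_iff_eq (below_prime P) hp).mp h1

theorem degOne_le {p : ℕ} (hp : p.Prime) : degOne K p ≤ finrank ℚ K := by
  classical
  rw [← card_degOneSet]
  refine le_trans (Finset.card_le_card ?_) (card_filter_below_le (degOneSet K p) p)
  intro P hP
  rw [Finset.mem_filter]
  exact ⟨hP, below_eq_of_absNorm_eq hp (mem_degOneSet.mp hP)⟩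

theorem ofReal_exp_le_inv {x : ℝ} (hx : 0 ≤ x) :
    ENNReal.ofReal (Real.exp x) ≤ (1 - ENNReal.ofReal x)⁻¹ := by
  rcases lt_or_ge x 1 with h | h
  · rw [← ENNReal.ofReal_one, ← ENNReal.ofReal_sub _ hx, ← ENNReal.ofReal_inv_of_pos (by linarith)]
    apply ENNReal.ofReal_le_ofReal
    rw [le_inv_comm₀ (Real.exp_pos x) (by linarith), ← Real.exp_neg]
    have := Real.add_one_le_exp (-x)
    linarith
  · have : (1 : ℝ≥0∞) - ENNReal.ofReal x = 0 := by
      rw [tsub_eq_zero_iff_le, ← ENNReal.ofReal_one]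
      exact ENNReal.ofReal_le_ofReal h
    rw [this, ENNReal.inv_zero]
    exact le_top

theorem inv_le_ofReal_exp {x : ℝ} (hx : 0 ≤ x) (hx2 : x ≤ 1 / 2) :
    (1 - ENNReal.ofReal x)⁻¹ ≤ ENNReal.ofReal (Real.exp (x + 2 * x ^ 2)) := by
  rw [← ENNReal.ofReal_one, ← ENNReal.ofReal_sub _ hx, ← ENNReal.ofReal_inv_of_pos (by linarith)]
  apply ENNReal.ofReal_le_ofReal
  have h1 := Real.abs_log_sub_add_sum_range_le (x := x) (by rw [abs_of_nonneg hx]; linarith) 1
  simp only [Finset.sum_range_one, zero_add, pow_one, Nat.cast_zero, div_one,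
    abs_of_nonneg hx] at h1
  have h2 : x ^ (1 + 1) / (1 - x) ≤ 2 * x ^ 2 := by
    rw [div_le_iff₀ (by linarith), show x ^ (1 + 1) = x ^ 2 by norm_num]
    nlinarith [mul_nonneg (sq_nonneg x) (by linarith : 0 ≤ 1 - 2 * x)]
  have h3 := (abs_le.mp h1).1
  have h4 : -(x + 2 * x ^ 2) ≤ Real.log (1 - x) := by linarith
  rw [inv_le_comm₀ (by linarith) (Real.exp_pos _), ← Real.exp_neg]
  calc Real.exp (-(x + 2 * x ^ 2)) ≤ Real.exp (Real.log (1 - x)) := Real.exp_le_exp.mpr h4
    _ = 1 - x := Real.exp_log (by linarith)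

/-- Lower bound for the zeta function. -/
theorem exp_sum_le_zetaE (s : ℝ) (T : Finset ℕ) :
    ENNReal.ofReal (Real.exp (∑ p ∈ T, degOne K p * (p : ℝ) ^ (-s))) ≤ zetaE K s := by
  classical
  let S : Finset (HeightOneSpectrum (𝓞 K)) := T.biUnion (degOneSet K)
  have hdisj : (T : Set ℕ).PairwiseDisjoint (degOneSet K) := by
    intro p _ q _ hpq
    rw [Function.onFun, Finset.disjoint_left]
    intro P hP hQ
    rw [mem_degOneSet] at hP hQ
    exact hpq (hP.symm.trans hQ)
  refine le_trans ?_ (prod_le_zetaE s S)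
  have h1 : ∑ p ∈ T, degOne K p * (p : ℝ) ^ (-s) = ∑ P ∈ S, (absNorm P.asIdeal : ℝ) ^ (-s) := by
    rw [Finset.sum_biUnion hdisj]
    refine Finset.sum_congr rfl fun p _ => ?_
    rw [Finset.sum_congr rfl (g := fun _ => (p : ℝ) ^ (-s)) fun P hP => by
      rw [mem_degOneSet.mp hP]]
    rw [Finset.sum_const, card_degOneSet, nsmul_eq_mul]
  rw [h1, Real.exp_sum, ENNReal.ofReal_prod_of_nonneg (fun P _ => (Real.exp_pos _).le)]
  refine Finset.prod_le_prod' fun P _ => ?_
  exact ofReal_exp_le_inv (by positivity)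

theorem sum_inv_sq_le_two (T : Finset ℕ) : ∑ p ∈ T, ((p : ℝ) ^ 2)⁻¹ ≤ 2 := by
  have h := hasSum_zeta_two
  have h1 : ∑ p ∈ T, ((p : ℝ) ^ 2)⁻¹ ≤ Real.pi ^ 2 / 6 := by
    rw [← h.tsum_eq]
    simp_rw [← one_div]
    exact h.summable.sum_le_tsum T (fun i _ => by positivity)
  have h2 : Real.pi ^ 2 / 6 ≤ 2 := by
    have := Real.pi_lt_d2
    have h3 := Real.pi_pos
    nlinarith
  exact h1.trans h2

/-- Upper bound for the zeta function. -/
theorem zetaE_le_exp {s : ℝ} (hs : 1 < s) (A : ℝ)
    (hA : ∀ T : Finset ℕ, (∀ p ∈ T, p.Prime) → ∑ p ∈ T, degOne K p * (p : ℝ) ^ (-s) ≤ A) :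
    zetaE K s ≤ ENNReal.ofReal (Real.exp (A + 6 * finrank ℚ K)) := by
  classical
  refine zetaE_le_of_prod_le s _ fun S => ?_
  set x : HeightOneSpectrum (𝓞 K) → ℝ := fun P => (absNorm P.asIdeal : ℝ) ^ (-s) with hx
  have hx0 : ∀ P, 0 ≤ x P := fun P => by positivity
  have hbelow2 : ∀ P : HeightOneSpectrum (𝓞 K), (2 : ℝ) ≤ below P := fun P => by
    exact_mod_cast (below_prime P).two_le
  have hpow : ∀ P : HeightOneSpectrum (𝓞 K), ∀ f : ℕ, absNorm P.asIdeal = below P ^ f →
      x P = (below P : ℝ) ^ (-(s * f)) := by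
    intro P f hf
    simp only [hx]
    rw [hf, Nat.cast_pow, ← Real.rpow_natCast, ← Real.rpow_mul (by positivity)]
    congr 1
    ring
  have hxhalf : ∀ P, x P ≤ 1 / 2 := by
    intro P
    obtain ⟨f, hf1, hf⟩ := absNorm_eq_below_pow P
    rw [hpow P f hf]
    have hf1' : (1 : ℝ) ≤ f := by exact_mod_cast hf1
    calc (below P : ℝ) ^ (-(s * f)) ≤ (below P : ℝ) ^ (-1 : ℝ) := by
          apply Real.rpow_le_rpow_of_exponent_le (by linarith [hbelow2 P])
          nlinarith
      _ = (below P : ℝ)⁻¹ := Real.rpow_neg_one _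
      _ ≤ 1 / 2 := by
          rw [one_div]
          exact inv_anti₀ (by norm_num) (hbelow2 P)
  -- pointwise estimate
  have hpt : ∀ P, x P + 2 * x P ^ 2 ≤
      (if absNorm P.asIdeal = below P then (below P : ℝ) ^ (-s) else 0) +
        3 * ((below P : ℝ) ^ 2)⁻¹ := by
    intro P
    obtain ⟨f, hf1, hf⟩ := absNorm_eq_below_pow P
    have hb1 : (1 : ℝ) ≤ below P := by linarith [hbelow2 P]
    have hf1' : (1 : ℝ) ≤ f := by exact_mod_cast hf1
    have hsq : x P ^ 2 ≤ ((below P : ℝ) ^ 2)⁻¹ := by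
      rw [hpow P f hf, ← Real.rpow_natCast, ← Real.rpow_mul (by positivity)]
      calc (below P : ℝ) ^ (-(s * f) * (2 : ℕ)) ≤ (below P : ℝ) ^ (-2 : ℝ) := by
            apply Real.rpow_le_rpow_of_exponent_le hb1
            push_cast
            nlinarith
        _ = ((below P : ℝ) ^ 2)⁻¹ := by
            rw [Real.rpow_neg (by positivity)]
            norm_cast
    split_ifs with h
    · have : x P = (below P : ℝ) ^ (-s) := by
        simp only [hx]
        rw [h]
      rw [← this]
      have : 0 ≤ ((below P : ℝ) ^ 2)⁻¹ := by positivity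
      linarith
    · have hf2 : 2 ≤ f := by
        by_contra hcon
        have : f = 1 := by omega
        rw [this, pow_one] at hf
        exact h hf
      have hf2' : (2 : ℝ) ≤ f := by exact_mod_cast hf2
      have hx1 : x P ≤ ((below P : ℝ) ^ 2)⁻¹ := by
        rw [hpow P f hf]
        calc (below P : ℝ) ^ (-(s * f)) ≤ (below P : ℝ) ^ (-2 : ℝ) := by
              apply Real.rpow_le_rpow_of_exponent_le hb1
              nlinarith
          _ = ((below P : ℝ) ^ 2)⁻¹ := by
              rw [Real.rpow_neg (by positivity)]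
              norm_cast
      linarith
  -- sum
  have hsum : ∑ P ∈ S, (x P + 2 * x P ^ 2) ≤ A + 6 * finrank ℚ K := by
    refine (Finset.sum_le_sum fun P _ => hpt P).trans ?_
    rw [Finset.sum_add_distrib]
    have hmaps : ∀ P ∈ S, below P ∈ S.image below := fun P hP => Finset.mem_image_of_mem _ hP
    refine add_le_add ?_ ?_
    · rw [← Finset.sum_fiberwise_of_maps_to hmaps]
      refine le_trans (Finset.sum_le_sum (g := fun p => degOne K p * (p : ℝ) ^ (-s)) ?_)
        (hA (S.image below) ?_)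
      · intro p hp
        have hpp : p.Prime := by
          obtain ⟨P, _, rfl⟩ := Finset.mem_image.mp hp
          exact below_prime P
        rw [← Finset.sum_filter]
        rw [Finset.sum_congr rfl (g := fun _ => (p : ℝ) ^ (-s)) fun P hP => by
          rw [Finset.mem_filter, Finset.mem_filter] at hP
          rw [hP.1.2]]
        rw [Finset.sum_const, nsmul_eq_mul]
        refine mul_le_mul_of_nonneg_right ?_ (by positivity)
        rw [← card_degOneSet]
        norm_cast
        refine Finset.card_le_card ?_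
        intro P hP
        rw [Finset.mem_filter, Finset.mem_filter] at hP
        rw [mem_degOneSet, hP.2, hP.1.2]
      · intro p hp
        obtain ⟨P, _, rfl⟩ := Finset.mem_image.mp hp
        exact below_prime P
    · rw [← Finset.sum_fiberwise_of_maps_to hmaps]
      have h1 : ∀ p ∈ S.image below, ∑ P ∈ S with below P = p, 3 * ((below P : ℝ) ^ 2)⁻¹ ≤
          3 * finrank ℚ K * ((p : ℝ) ^ 2)⁻¹ := by
        intro p _
        rw [Finset.sum_congr rfl (g := fun _ => 3 * ((p : ℝ) ^ 2)⁻¹) fun P hP => by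
          rw [Finset.mem_filter] at hP
          rw [hP.2]]
        rw [Finset.sum_const, nsmul_eq_mul]
        have h2 : (((S.filter (fun P => below P = p)).card : ℕ) : ℝ) ≤ finrank ℚ K := by
          exact_mod_cast card_filter_below_le S p
        have h3 : (0 : ℝ) ≤ ((p : ℝ) ^ 2)⁻¹ := by positivity
        nlinarith
      refine (Finset.sum_le_sum h1).trans ?_
      rw [← Finset.mul_sum]
      have h4 := sum_inv_sq_le_two (S.image below)
      have h5 : (0 : ℝ) ≤ finrank ℚ K := by positivity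
      nlinarith
  calc ∏ P ∈ S, (1 - normPow s P.asIdeal)⁻¹
      ≤ ∏ P ∈ S, ENNReal.ofReal (Real.exp (x P + 2 * x P ^ 2)) := by
        refine Finset.prod_le_prod' fun P _ => ?_
        exact inv_le_ofReal_exp (hx0 P) (hxhalf P)
    _ = ENNReal.ofReal (Real.exp (∑ P ∈ S, (x P + 2 * x P ^ 2))) := by
        rw [Real.exp_sum, ENNReal.ofReal_prod_of_nonneg (fun P _ => (Real.exp_pos _).le)]
    _ ≤ _ := ENNReal.ofReal_le_ofReal (Real.exp_le_exp.mpr hsum)

end Pool.Agent.Lib.H59
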