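import Mathlib
import Pool.Agent.Lib.H59.PrimeIdealSums

/-!
# Roots of a polynomial modulo a prime and prime ideals of degree one

-/

open Set Module Filter Topology NumberField IsDedekindDomain Polynomial
open scoped NNReal nonZeroDivisors ENNReal
open Ideal (absNorm)

noncomputable section

namespace Pool.Agent.Lib.H59

section General

variable {K : Type*} [Field K] [NumberField K]

theorem exists_poly_eq {B : PowerBasis ℚ K} {η : 𝓞 K} (hη : B.gen = (η : K)) {Δ : ℤ}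
    (hΔ : (Δ : ℚ) = Algebra.discr ℚ B.basis) (α : 𝓞 K) :
    ∃ A : ℤ[X], (Δ : 𝓞 K) * α = aeval η A := by
  have h := Algebra.discr_mul_isIntegral_mem_adjoin (R := ℤ) (K := ℚ) (B := B)
    (by rw [hη]; exact η.isIntegral_coe) (z := (α : K)) α.isIntegral_coe
  rw [← hΔ, hη, Algebra.adjoin_singleton_eq_range_aeval, AlgHom.mem_range] at h
  obtain ⟨A, hA⟩ := h
  refine ⟨A, ?_⟩
  apply RingOfIntegers.coe_injective
  rw [map_mul, map_intCast, ← aeval_algebraMap_apply, hA, Algebra.smul_def]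
  simp

/-- A root of the minimal polynomial modulo `p` gives a prime ideal of norm `p`. -/
theorem exists_prime_ideal {B : PowerBasis ℚ K} {η : 𝓞 K} (hη : B.gen = (η : K)) {Δ : ℤ}
    (hΔ : (Δ : ℚ) = Algebra.discr ℚ B.basis) {p : ℕ} (hp : p.Prime) (hpΔ : ¬ (p : ℤ) ∣ Δ)
    {m : ℤ} (hm : (p : ℤ) ∣ (minpoly ℤ η).eval m) :
    ∃ P : HeightOneSpectrum (𝓞 K), absNorm P.asIdeal = p ∧ η - (m : 𝓞 K) ∈ P.asIdeal := by
  have hint : IsIntegral ℤ η := RingOfIntegers.isIntegral η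
  set I : Ideal (𝓞 K) := Ideal.span {(p : 𝓞 K), η - (m : 𝓞 K)} with hI
  have hItop : I ≠ ⊤ := by
    intro htop
    have h1 : (1 : 𝓞 K) ∈ I := by rw [htop]; trivial
    rw [hI, Ideal.mem_span_pair] at h1
    obtain ⟨α, β, hαβ⟩ := h1
    obtain ⟨A₁, hA⟩ := exists_poly_eq hη hΔ α
    obtain ⟨A₂, hB⟩ := exists_poly_eq hη hΔ β
    -- the polynomial `Δ - p A - (X - m) B` vanishes at `η`
    have h2 : aeval η (C Δ - (C (p : ℤ) * A₁ + (X - C m) * A₂)) = 0 := by
      have h3 : (Δ : 𝓞 K) = (Δ : 𝓞 K) * (α * p + β * (η - m)) := by rw [hαβ, mul_one]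
      simp only [map_sub, map_add, map_mul, aeval_C, aeval_X, ← hA, ← hB]
      simp only [algebraMap_int_eq, eq_intCast, Int.cast_natCast]
      linear_combination h3
    have h4 := minpoly.isIntegrallyClosed_dvd hint h2
    obtain ⟨Q, hQ⟩ := h4
    have h5 := congrArg (eval m) hQ
    simp only [eval_sub, eval_add, eval_mul, eval_C, eval_X, sub_self, zero_mul, add_zero] at h5
    apply hpΔ
    have h6 : Δ = (p : ℤ) * eval m A₁ + eval m (minpoly ℤ η) * eval m Q := by linarith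
    rw [h6]
    exact dvd_add (dvd_mul_right _ _) (hm.mul_right _)
  obtain ⟨M, hM, hIM⟩ := Ideal.exists_le_maximal I hItop
  have hpM : (p : 𝓞 K) ∈ M := hIM (Ideal.subset_span (by simp))
  have hηM : η - (m : 𝓞 K) ∈ M := hIM (Ideal.subset_span (by simp))
  have hMbot : M ≠ ⊥ := by
    rintro rfl
    rw [Ideal.mem_bot] at hpM
    exact hp.ne_zero (by exact_mod_cast hpM)
  refine ⟨⟨M, hM.isPrime, hMbot⟩, ?_, hηM⟩
  show absNorm M = p
  -- every element is congruent to an integer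
  have hcop : IsCoprime Δ (p : ℤ) := by
    rw [Int.isCoprime_iff_gcd_eq_one, Int.gcd_comm]
    exact (Nat.Prime.coprime_iff_not_dvd hp).mpr (fun h => hpΔ (Int.natCast_dvd.mpr h))
  obtain ⟨u, v, huv⟩ := hcop
  have hpzero : Ideal.Quotient.mk M (p : 𝓞 K) = 0 := Ideal.Quotient.eq_zero_iff_mem.mpr hpM
  have hηm : Ideal.Quotient.mk M η = Ideal.Quotient.mk M (m : 𝓞 K) := Ideal.Quotient.eq.mpr hηM
  have hsurj : ∀ α : 𝓞 K, ∃ t : ℤ, Ideal.Quotient.mk M α = Ideal.Quotient.mk M (t : 𝓞 K) := by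
    intro α
    obtain ⟨A, hA⟩ := exists_poly_eq hη hΔ α
    refine ⟨u * eval m A, ?_⟩
    have h7 : Ideal.Quotient.mk M (aeval η A) = Ideal.Quotient.mk M ((eval m A : ℤ) : 𝓞 K) := by
      have h8 : Ideal.Quotient.mk M (aeval η A) =
          eval₂ (Int.castRingHom (𝓞 K ⧸ M)) (Ideal.Quotient.mk M η) A := by
        rw [aeval_def, hom_eval₂]
        congr 1
      rw [h8, hηm]
      have h9 : ((eval m A : ℤ) : 𝓞 K) = eval₂ (Int.castRingHom (𝓞 K)) (m : 𝓞 K) A := by
        rw [eval₂_at_intCast]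
        simp
      rw [h9, hom_eval₂]
      congr 1
    have h10 : (1 : 𝓞 K) = (u : 𝓞 K) * Δ + v * p := by
      have := congrArg (fun t : ℤ => (t : 𝓞 K)) huv
      push_cast at this
      exact this.symm
    calc Ideal.Quotient.mk M α = Ideal.Quotient.mk M (α * ((u : 𝓞 K) * Δ + v * p)) := by
          rw [← h10, mul_one]
      _ = Ideal.Quotient.mk M ((u : 𝓞 K) * (Δ * α)) := by
          rw [mul_add, map_add, show α * ((v : 𝓞 K) * p) = (α * v) * p by ring, map_mul _ (α * v),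
            hpzero, mul_zero, add_zero]
          congr 1
          ring
      _ = Ideal.Quotient.mk M (u : 𝓞 K) * Ideal.Quotient.mk M ((eval m A : ℤ) : 𝓞 K) := by
          rw [map_mul, hA, h7]
      _ = _ := by rw [← map_mul]; push_cast; rfl
  -- the ring homomorphism from `ZMod p`
  have hfact : Fact p.Prime := ⟨hp⟩
  have hchar : CharP (𝓞 K ⧸ M) p := by
    have hfield : Field (𝓞 K ⧸ M) := Ideal.Quotient.field M
    have h0 : ((p : ℕ) : 𝓞 K ⧸ M) = 0 := by
      have := hpzero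
      rwa [map_natCast] at this
    exact (CharP.charP_iff_prime_eq_zero hp).mpr h0
  let ψ : ZMod p →+* 𝓞 K ⧸ M := ZMod.castHom (dvd_refl p) (𝓞 K ⧸ M)
  have hnt : Nontrivial (𝓞 K ⧸ M) := Ideal.Quotient.nontrivial_iff.mpr hM.ne_top
  have hψinj : Function.Injective ψ := ψ.injective
  have hψsurj : Function.Surjective ψ := by
    intro x
    obtain ⟨α, rfl⟩ := Ideal.Quotient.mk_surjective x
    obtain ⟨t, ht⟩ := hsurj α
    refine ⟨(t : ZMod p), ?_⟩
    rw [ht, map_intCast, map_intCast]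
  have hcard : Nat.card (𝓞 K ⧸ M) = p := by
    rw [← Nat.card_eq_of_bijective ψ ⟨hψinj, hψsurj⟩]
    simp
  rw [Ideal.absNorm_apply, Submodule.cardQuot_apply]
  exact hcard

/-- The number of roots modulo `p` is at most the number of prime ideals of norm `p`. -/
theorem card_roots_le_degOne {B : PowerBasis ℚ K} {η : 𝓞 K} (hη : B.gen = (η : K)) {Δ : ℤ}
    (hΔ : (Δ : ℚ) = Algebra.discr ℚ B.basis) {p : ℕ} (hp : p.Prime) (hpΔ : ¬ (p : ℤ) ∣ Δ)
    (T : Finset ℤ) (hT : ∀ m ∈ T, (p : ℤ) ∣ (minpoly ℤ η).eval m)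
    (hinj : ∀ m ∈ T, ∀ m' ∈ T, (p : ℤ) ∣ m - m' → m = m') :
    T.card ≤ degOne K p := by
  classical
  have h : ∀ m : T, ∃ P : HeightOneSpectrum (𝓞 K),
      absNorm P.asIdeal = p ∧ η - ((m : ℤ) : 𝓞 K) ∈ P.asIdeal := fun m =>
    exists_prime_ideal hη hΔ hp hpΔ (hT m.1 m.2)
  choose P hP hPm using h
  rw [← card_degOneSet, ← Finset.card_attach]
  refine Finset.card_le_card_of_injOn P ?_ ?_
  · intro m _
    rw [Finset.mem_coe, mem_degOneSet]
    exact hP m
  · intro m _ m' _ hmm'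
    have h1 := hPm m
    have h2 := hPm m'
    rw [hmm'] at h1
    have h3 : (((m : ℤ) - (m' : ℤ) : ℤ) : 𝓞 K) ∈ (P m').asIdeal := by
      have := (P m').asIdeal.sub_mem h2 h1
      push_cast
      have e : η - ((m' : ℤ) : 𝓞 K) - (η - ((m : ℤ) : 𝓞 K)) = ((m : ℤ) : 𝓞 K) - ((m' : ℤ) : 𝓞 K) := by
        ring
      rwa [e] at this
    have h4 : (p : ℤ) ∣ (m : ℤ) - (m' : ℤ) := by
      have h5 := (Int.cast_mem_ideal_iff (I := (P m').asIdeal) (d := (m : ℤ) - (m' : ℤ))).mp h3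
      have h6 : absNorm (Ideal.under ℤ (P m').asIdeal) = p := below_eq_of_absNorm_eq hp (hP m')
      rwa [h6] at h5
    exact Subtype.ext (hinj m.1 m.2 m'.1 m'.2 h4)

/-- There is an integer equal to the discriminant of an integral power basis. -/
theorem exists_int_discr {B : PowerBasis ℚ K} {η : 𝓞 K} (hη : B.gen = (η : K)) :
    ∃ Δ : ℤ, (Δ : ℚ) = Algebra.discr ℚ B.basis := by
  have h : IsIntegral ℤ (Algebra.discr ℚ B.basis) := by
    refine Algebra.discr_isIntegral (R := ℤ) ℚ fun i => ?_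
    rw [B.basis_eq_pow, hη]
    exact η.isIntegral_coe.pow _
  obtain ⟨Δ, hΔ⟩ := IsIntegrallyClosed.isIntegral_iff.mp h
  exact ⟨Δ, by simpa using hΔ⟩

/-- The discriminant of the field is at most the one of an integral power basis. -/
theorem abs_discr_le {B : PowerBasis ℚ K} {η : 𝓞 K} (hη : B.gen = (η : K)) {Δ : ℤ}
    (hΔ : (Δ : ℚ) = Algebra.discr ℚ B.basis) : |discr K| ≤ |Δ| := by
  classical
  have hΔ0 : Δ ≠ 0 := by
    intro h0
    have h1 := Algebra.discr_not_zero_of_basis ℚ B.basis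
    rw [← hΔ, h0] at h1
    simp at h1
  let b := integralBasis K
  let b' := b.reindex (b.indexEquiv B.basis)
  have hint : IsIntegral ℤ (b'.toMatrix B.basis).det := by
    refine IsIntegral.det fun i j => ?_
    rw [Basis.toMatrix_apply, Basis.repr_reindex_apply, B.basis_eq_pow, hη,
      ← map_pow (algebraMap (𝓞 K) K), integralBasis_repr_apply]
    exact isIntegral_algebraMap
  obtain ⟨d, hd⟩ := IsIntegrallyClosed.isIntegral_iff.mp hint
  have h1 : Algebra.discr ℚ B.basis = (b'.toMatrix B.basis).det ^ 2 * Algebra.discr ℚ b := by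
    have e1 : Algebra.discr ℚ b' = Algebra.discr ℚ b := by
      rw [Basis.coe_reindex, Algebra.discr_reindex]
    rw [← e1, ← Algebra.discr_of_matrix_vecMul, b'.toMatrix_map_vecMul B.basis]
  rw [← hΔ, ← hd, ← coe_discr] at h1
  have h2 : Δ = d ^ 2 * discr K := by
    have : ((Δ : ℤ) : ℚ) = ((d ^ 2 * discr K : ℤ) : ℚ) := by
      rw [h1]
      push_cast
      rfl
    exact_mod_cast this
  have hd0 : d ≠ 0 := by
    rintro rfl
    apply hΔ0
    rw [h2]
    simp
  rw [h2, abs_mul, abs_pow]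
  have h3 : 1 ≤ |d| := Int.one_le_abs hd0
  have h4 : 1 ≤ |d| ^ 2 := one_le_pow₀ h3
  nlinarith [abs_nonneg (discr K)]

/-- Upper bound for the discriminant of a power basis in terms of the conjugates. -/
theorem abs_int_discr_le {B : PowerBasis ℚ K} {Δ : ℤ}
    (hΔ : (Δ : ℚ) = Algebra.discr ℚ B.basis) {M : ℝ} (hM1 : 1 ≤ M)
    (hM : ∀ σ : K →ₐ[ℚ] ℂ, ‖σ B.gen‖ ≤ M) :
    |(Δ : ℝ)| ≤ (4 * M ^ 2) ^ (finrank ℚ K ^ 2) := by
  classical
  have e : Fin B.dim ≃ (K →ₐ[ℚ] ℂ) := by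
    refine Fintype.equivOfCardEq ?_
    rw [Fintype.card_fin, AlgHom.card]
    exact (PowerBasis.finrank B).symm
  have h1 := Algebra.discr_powerBasis_eq_prod ℚ ℂ B e
  rw [← hΔ] at h1
  have h2 : |(Δ : ℝ)| = ‖((Δ : ℤ) : ℂ)‖ := by
    rw [Complex.norm_intCast]
  have h3 : ((Δ : ℤ) : ℂ) = ∏ i : Fin B.dim, ∏ j ∈ Finset.Ioi i, (e j B.gen - e i B.gen) ^ 2 := by
    rw [← h1]
    simp
  rw [h2, h3, norm_prod]
  have hn : B.dim = finrank ℚ K := (PowerBasis.finrank B).symm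
  have h4 : ∀ i : Fin B.dim, ‖∏ j ∈ Finset.Ioi i, (e j B.gen - e i B.gen) ^ 2‖ ≤
      (4 * M ^ 2) ^ B.dim := by
    intro i
    rw [norm_prod]
    have h5 : ∀ j ∈ Finset.Ioi i, ‖(e j B.gen - e i B.gen) ^ 2‖ ≤ 4 * M ^ 2 := by
      intro j _
      rw [norm_pow]
      have h6 : ‖e j B.gen - e i B.gen‖ ≤ 2 * M := by
        refine (norm_sub_le _ _).trans ?_
        have := hM (e j)
        have := hM (e i)
        linarith
      calc ‖e j B.gen - e i B.gen‖ ^ 2 ≤ (2 * M) ^ 2 := by gcongr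
        _ = 4 * M ^ 2 := by ring
    refine (Finset.prod_le_prod (fun j _ => norm_nonneg _) h5).trans ?_
    rw [Finset.prod_const]
    refine pow_le_pow_right₀ ?_ ?_
    · nlinarith
    · refine (Finset.card_le_univ _).trans ?_
      rw [Fintype.card_fin]
  refine (Finset.prod_le_prod (fun i _ => norm_nonneg _) fun i _ => h4 i).trans ?_
  rw [Finset.prod_const, Finset.card_univ, Fintype.card_fin, ← pow_mul, hn, ← sq]

end General

end Pool.Agent.Lib.H59
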