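import Mathlib
import Pool.Agent.Lib.H59.ZetaLower

/-!
# Upper bound for the Dedekind zeta function near `1` in terms of its residue

-/

open Set Module ENNReal Filter Topology NumberField
open scoped NNReal nonZeroDivisors
open Ideal (absNorm)

noncomputable section

namespace Pool.Agent.Lib.H59

variable (K : Type*) [Field K] [NumberField K]

/-- The number of ideals of norm `n`. -/
def idealCount (n : ℕ) : ℕ := Nat.card {I : Ideal (𝓞 K) // absNorm I = n}

instance finite_ideals_norm (n : ℕ) : Finite {I : Ideal (𝓞 K) // absNorm I = n} := by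
  have := Ideal.finite_setOfPred_absNorm_eq (S := 𝓞 K) n
  exact this.to_subtype

theorem zetaE_eq_tsum (s : ℝ) (hs : s ≠ 0) :
    zetaE K s = ∑' n : ℕ, ENNReal.ofReal (idealCount K n * (n : ℝ) ^ (-s)) := by
  unfold zetaE
  have h1 := (Equiv.sigmaFiberEquiv (fun a : (Ideal (𝓞 K))⁰ => absNorm (a : Ideal (𝓞 K)))).tsum_eq
    (fun a : (Ideal (𝓞 K))⁰ => ENNReal.ofReal ((absNorm (a : Ideal (𝓞 K)) : ℝ) ^ (-s)))
  rw [← h1]
  rw [ENNReal.tsum_sigma']
  refine tsum_congr fun n => ?_
  have h2 : ∀ a : {a : (Ideal (𝓞 K))⁰ // absNorm (a : Ideal (𝓞 K)) = n},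
      ENNReal.ofReal ((absNorm (((Equiv.sigmaFiberEquiv
        (fun a : (Ideal (𝓞 K))⁰ => absNorm (a : Ideal (𝓞 K)))) ⟨n, a⟩ : (Ideal (𝓞 K))⁰) :
          Ideal (𝓞 K)) : ℝ) ^ (-s)) = ENNReal.ofReal ((n : ℝ) ^ (-s)) := by
    intro a
    have : absNorm (((Equiv.sigmaFiberEquiv
        (fun a : (Ideal (𝓞 K))⁰ => absNorm (a : Ideal (𝓞 K)))) ⟨n, a⟩ : (Ideal (𝓞 K))⁰) :
          Ideal (𝓞 K)) = n := a.2
    rw [this]
  rw [tsum_congr h2, ENNReal.tsum_const, ENNReal.ofReal_mul (by positivity),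
    ENNReal.ofReal_natCast]
  rcases Nat.eq_zero_or_pos n with hn | hn
  · subst hn
    simp [Real.zero_rpow (neg_ne_zero.mpr hs)]
  · congr 1
    have e : {a : (Ideal (𝓞 K))⁰ // absNorm (a : Ideal (𝓞 K)) = n} ≃
        {I : Ideal (𝓞 K) // absNorm I = n} :=
      { toFun := fun a => ⟨a.1.1, a.2⟩
        invFun := fun I => ⟨⟨I.1, by
          rw [mem_nonZeroDivisors_iff_ne_zero]
          intro h
          have := I.2
          rw [h] at this
          simp at this
          omega⟩, I.2⟩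
        left_inv := fun a => rfl
        right_inv := fun I => rfl }
    rw [idealCount, ENat.card_congr e, ENat.card_eq_coe_natCard]
    simp

theorem zetaE_eq_of_ne_zero (s : ℝ) (hs : s ≠ 0) (h : dedekindZeta K (s : ℂ) ≠ 0) :
    zetaE K s = ENNReal.ofReal (dedekindZeta K (s : ℂ)).re := by
  have hsum : LSeriesSummable (fun n ↦ (Nat.card {I : Ideal (𝓞 K) // absNorm I = n} : ℂ)) s := by
    by_contra hcon
    exact h (LSeries.eq_zero_of_not_LSeriesSummable _ _ hcon)
  have hterm : ∀ n : ℕ, LSeries.term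
      (fun n ↦ (Nat.card {I : Ideal (𝓞 K) // absNorm I = n} : ℂ)) s n =
      ((idealCount K n * (n : ℝ) ^ (-s) : ℝ) : ℂ) := by
    intro n
    rcases Nat.eq_zero_or_pos n with hn | hn
    · subst hn
      simp [LSeries.term, Real.zero_rpow (neg_ne_zero.mpr hs)]
    · rw [LSeries.term_of_ne_zero hn.ne', idealCount]
      push_cast
      rw [Complex.ofReal_cpow (by positivity)]
      push_cast
      rw [Complex.cpow_neg, div_eq_mul_inv]
  have hsum' : Summable fun n : ℕ => (idealCount K n * (n : ℝ) ^ (-s) : ℝ) := by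
    have h1 : Summable fun n : ℕ => ((idealCount K n * (n : ℝ) ^ (-s) : ℝ) : ℂ) := by
      refine (summable_congr fun n => ?_).mp hsum
      exact hterm n
    exact Complex.summable_ofReal.mp h1
  have hval : dedekindZeta K (s : ℂ) = ((∑' n : ℕ, (idealCount K n * (n : ℝ) ^ (-s) : ℝ) : ℝ) : ℂ) := by
    unfold dedekindZeta LSeries
    rw [tsum_congr hterm, Complex.ofReal_tsum]
  rw [hval, Complex.ofReal_re, ENNReal.ofReal_tsum_of_nonneg (fun n => by positivity) hsum',
    zetaE_eq_tsum K s hs]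

/-- Near `1` the zeta function is at most twice its polar part. -/
theorem eventually_zetaE_le :
    ∀ᶠ σ : ℝ in 𝓝[>] 0, zetaE K (1 + σ) ≤
      ENNReal.ofReal (2 * dedekindZeta_residue K / σ) := by
  have hκ := dedekindZeta_residue_pos K
  have h := tendsto_sub_one_mul_dedekindZeta_nhdsGT K
  have h1 : Tendsto (fun s : ℝ => ((s - 1) * dedekindZeta K s : ℂ).re) (𝓝[>] 1)
      (𝓝 (dedekindZeta_residue K)) := by
    have := (Complex.continuous_re.tendsto _).comp h
    simpa only [Function.comp_def, Complex.ofReal_re] using this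
  have h2 : ∀ᶠ s : ℝ in 𝓝[>] 1, ((s - 1) * dedekindZeta K s : ℂ).re <
      2 * dedekindZeta_residue K := h1.eventually_lt_const (by linarith)
  have h3 : ∀ᶠ s : ℝ in 𝓝[>] 1, 0 < ((s - 1) * dedekindZeta K s : ℂ).re :=
    h1.eventually_const_lt hκ
  have h4 : ∀ᶠ s : ℝ in 𝓝[>] 1, zetaE K s ≤
      ENNReal.ofReal (2 * dedekindZeta_residue K / (s - 1)) := by
    filter_upwards [h2, h3, self_mem_nhdsWithin] with s hs2 hs3 hs1
    have hs1' : 0 < s - 1 := sub_pos.mpr hs1
    have hre : ((s - 1) * dedekindZeta K s : ℂ).re = (s - 1) * (dedekindZeta K s).re := by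
      have : ((s : ℂ) - 1) = ((s - 1 : ℝ) : ℂ) := by push_cast; ring
      rw [this, Complex.re_ofReal_mul]
    rw [hre] at hs2 hs3
    have hne : dedekindZeta K (s : ℂ) ≠ 0 := by
      intro h0
      rw [h0] at hs3
      simp at hs3
    rw [zetaE_eq_of_ne_zero K s (by have : (1 : ℝ) < s := hs1; linarith) hne]
    apply ENNReal.ofReal_le_ofReal
    rw [le_div_iff₀ hs1']
    linarith
  have h5 : Tendsto (fun σ : ℝ => 1 + σ) (𝓝[>] 0) (𝓝[>] 1) := by
    refine tendsto_nhdsWithin_of_tendsto_nhds_of_eventually_within _ ?_ ?_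
    · have : Tendsto (fun σ : ℝ => 1 + σ) (𝓝 0) (𝓝 (1 + 0)) := (continuous_const.add continuous_id).tendsto 0
      rw [add_zero] at this
      exact this.mono_left nhdsWithin_le_nhds
    · filter_upwards [self_mem_nhdsWithin] with σ hσ
      simpa using hσ
  filter_upwards [h5.eventually h4] with σ hσ
  simpa using hσ

end Pool.Agent.Lib.H59
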