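import Mathlib
import Pool.Agent.Lib.H59.RootIdeals

/-!
# The number field attached to an irreducible integer polynomial

-/

open Set Module Filter Topology NumberField IsDedekindDomain Polynomial
open scoped NNReal nonZeroDivisors ENNReal
open Ideal (absNorm)

noncomputable section

namespace Pool.Agent.Lib.H59

theorem irreducible_map_rat {f : ℤ[X]} (hf : Irreducible f) (hn : 1 ≤ f.natDegree) :
    Irreducible (f.map (Int.castRingHom ℚ)) := by
  have hprim : f.IsPrimitive := hf.isPrimitive (by omega)
  exact (IsPrimitive.Int.irreducible_iff_irreducible_map_cast hprim).mp hf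

/-- The stem field. -/
theorem exists_field (f : ℤ[X]) (hf : Irreducible f) (hn : 1 ≤ f.natDegree) :
    ∃ (K : Type) (_ : Field K) (_ : NumberField K) (θ : K),
      f.eval₂ (Int.castRingHom K) θ = 0 ∧ finrank ℚ K = f.natDegree := by
  set q := f.map (Int.castRingHom ℚ) with hq
  have hirr : Irreducible q := irreducible_map_rat hf hn
  have hfact : Fact (Irreducible q) := ⟨hirr⟩
  have hq0 : q ≠ 0 := hirr.ne_zero
  have hchar : CharZero (AdjoinRoot q) := charZero_of_injective_algebraMap
    (algebraMap ℚ (AdjoinRoot q)).injective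
  have halg : (AdjoinRoot.instAlgebra q : Algebra ℚ (AdjoinRoot q)) = DivisionRing.toRatAlgebra :=
    Subsingleton.elim _ _
  have hfin : @FiniteDimensional ℚ (AdjoinRoot q) _ _
      (DivisionRing.toRatAlgebra : Algebra ℚ (AdjoinRoot q)).toModule := by
    rw [← halg]
    exact (AdjoinRoot.powerBasis hq0).finite
  have hrank : @finrank ℚ (AdjoinRoot q) _ _
      (DivisionRing.toRatAlgebra : Algebra ℚ (AdjoinRoot q)).toModule = f.natDegree := by
    rw [← halg, (AdjoinRoot.powerBasis hq0).finrank, AdjoinRoot.powerBasis_dim, hq,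
      natDegree_map_eq_of_injective (RingHom.injective_int _)]
  refine ⟨AdjoinRoot q, inferInstance, ⟨⟩, AdjoinRoot.root q, ?_, hrank⟩
  have h : eval₂ (AdjoinRoot.of q) (AdjoinRoot.root q) (f.map (Int.castRingHom ℚ)) = 0 :=
    AdjoinRoot.eval₂_root q
  rw [eval₂_map] at h
  rw [← h]
  congr 1

section General

variable {K : Type*} [Field K] [NumberField K]

/-- The sum of the absolute values of the coefficients. -/
def coeffSum (f : ℤ[X]) : ℝ := ∑ i ∈ Finset.range (f.natDegree + 1), |(f.coeff i : ℝ)|

theorem abs_leadingCoeff_le (f : ℤ[X]) : |(f.leadingCoeff : ℝ)| ≤ coeffSum f := by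
  unfold coeffSum
  exact Finset.single_le_sum (f := fun i => |(f.coeff i : ℝ)|) (fun i _ => abs_nonneg _)
    (Finset.mem_range.mpr (Nat.lt_succ_self _))

theorem one_le_coeffSum {f : ℤ[X]} (hf : f ≠ 0) : 1 ≤ coeffSum f := by
  refine le_trans ?_ (abs_leadingCoeff_le f)
  have h : f.leadingCoeff ≠ 0 := leadingCoeff_ne_zero.mpr hf
  have := Int.one_le_abs h
  exact_mod_cast this

/-- Bound for the leading coefficient times a root. -/
theorem norm_leadingCoeff_mul_root_le {f : ℤ[X]} (hn : 1 ≤ f.natDegree) {z : ℂ}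
    (hz : f.eval₂ (Int.castRingHom ℂ) z = 0) :
    ‖(f.leadingCoeff : ℂ) * z‖ ≤ coeffSum f := by
  rcases le_or_gt ‖z‖ 1 with h | h
  · rw [norm_mul]
    have h1 := abs_leadingCoeff_le f
    have h2 : ‖(f.leadingCoeff : ℂ)‖ = |(f.leadingCoeff : ℝ)| := Complex.norm_intCast _
    rw [h2]
    have h3 := abs_nonneg (f.leadingCoeff : ℝ)
    nlinarith [norm_nonneg z]
  · set n := f.natDegree with hnd
    rw [eval₂_eq_sum_range, ← hnd, Finset.sum_range_succ] at hz
    have h1 : (f.coeff n : ℂ) * z ^ n = - ∑ i ∈ Finset.range n, (f.coeff i : ℂ) * z ^ i := by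
      have := hz
      simp only [eq_intCast] at this
      linear_combination this
    have h2 : ‖(f.coeff n : ℂ) * z ^ n‖ ≤ (∑ i ∈ Finset.range n, |(f.coeff i : ℝ)|) *
        ‖z‖ ^ (n - 1) := by
      rw [h1, norm_neg, Finset.sum_mul]
      refine (norm_sum_le _ _).trans (Finset.sum_le_sum fun i hi => ?_)
      rw [norm_mul, norm_pow, Complex.norm_intCast]
      rw [Finset.mem_range] at hi
      have : ‖z‖ ^ i ≤ ‖z‖ ^ (n - 1) := pow_le_pow_right₀ h.le (by omega)
      gcongr
    have h3 : ‖(f.leadingCoeff : ℂ) * z‖ * ‖z‖ ^ (n - 1) ≤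
        (∑ i ∈ Finset.range n, |(f.coeff i : ℝ)|) * ‖z‖ ^ (n - 1) := by
      have e : ‖(f.leadingCoeff : ℂ) * z‖ * ‖z‖ ^ (n - 1) = ‖(f.coeff n : ℂ) * z ^ n‖ := by
        rw [norm_mul, norm_mul, norm_pow, leadingCoeff, ← hnd, mul_assoc, ← pow_succ']
        congr 3
        omega
      rw [e]
      exact h2
    have hzpos : 0 < ‖z‖ ^ (n - 1) := by positivity
    have h4 := le_of_mul_le_mul_right h3 hzpos
    refine h4.trans ?_
    unfold coeffSum
    rw [← hnd, Finset.sum_range_succ]
    have := abs_nonneg (f.coeff n : ℝ)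
    linarith

/-- All the data attached to a root generating the field. -/
theorem exists_powerBasis {f : ℤ[X]} (hf : Irreducible f) (hn : 1 ≤ f.natDegree) {θ : K}
    (hθ : f.eval₂ (Int.castRingHom K) θ = 0) (hdeg : finrank ℚ K = f.natDegree) :
    ∃ (B : PowerBasis ℚ K) (η : 𝓞 K), B.gen = (η : K) ∧
      (η : K) = (f.leadingCoeff : K) * θ ∧ minpoly ℤ η = f.integralNormalization := by
  have hf0 : f ≠ 0 := hf.ne_zero
  have hl0 : f.leadingCoeff ≠ 0 := leadingCoeff_ne_zero.mpr hf0
  have hlK : (f.leadingCoeff : K) ≠ 0 := by exact_mod_cast hl0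
  -- `θ` is a primitive element
  have hqirr := irreducible_map_rat hf hn
  have hq : aeval θ (f.map (Int.castRingHom ℚ)) = 0 := by
    rw [aeval_def, eval₂_map, ← hθ]
    congr 1
    exact RingHom.ext_int _ _
  have hmin : (minpoly ℚ θ).natDegree = f.natDegree := by
    have h1 : minpoly ℚ θ ∣ f.map (Int.castRingHom ℚ) := minpoly.dvd ℚ θ hq
    have h2 : Irreducible (minpoly ℚ θ) := minpoly.irreducible (Algebra.IsIntegral.isIntegral θ)
    have h3 : Associated (minpoly ℚ θ) (f.map (Int.castRingHom ℚ)) := by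
      exact h2.associated_of_dvd hqirr h1
    rw [natDegree_eq_of_degree_eq (degree_eq_degree_of_associated h3),
      natDegree_map_eq_of_injective (RingHom.injective_int _)]
  have hθtop : IntermediateField.adjoin ℚ {θ} = ⊤ := by
    rw [Field.primitive_element_iff_minpoly_natDegree_eq, hmin, hdeg]
  set e : K := (f.leadingCoeff : K) * θ with he
  have hetop : IntermediateField.adjoin ℚ {e} = ⊤ := by
    rw [eq_top_iff, ← hθtop, IntermediateField.adjoin_simple_le_iff]
    have h1 : e ∈ IntermediateField.adjoin ℚ {e} := IntermediateField.mem_adjoin_simple_self ℚ e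
    have h2 : θ = (f.leadingCoeff : K)⁻¹ * e := by rw [he]; field_simp
    rw [h2]
    refine mul_mem (inv_mem ?_) h1
    exact intCast_mem _ _
  -- integrality
  have heint : IsIntegral ℤ e := by
    refine ⟨f.integralNormalization, monic_integralNormalization hf0, ?_⟩
    have := integralNormalization_eval₂_eq_zero (p := f) (Int.castRingHom K) hθ
      (fun x hx => by simpa using hx)
    rw [← this]
    congr 1
  have hadj : Algebra.adjoin ℚ {e} = ⊤ := by
    have := IntermediateField.adjoin_simple_toSubalgebra_of_isAlgebraic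
      (F := ℚ) (α := e) (Algebra.IsAlgebraic.isAlgebraic e)
    rw [← this, hetop]
    rfl
  have heQ : IsIntegral ℚ e := Algebra.IsIntegral.isIntegral e
  let B : PowerBasis ℚ K := PowerBasis.ofAdjoinEqTop heQ hadj
  let η : 𝓞 K := ⟨e, heint⟩
  have hηe : (η : K) = e := rfl
  refine ⟨B, η, PowerBasis.ofAdjoinEqTop_gen heQ hadj, hηe, ?_⟩
  -- minimal polynomial
  have hηint : IsIntegral ℤ η := RingOfIntegers.isIntegral η
  have hgη : aeval η f.integralNormalization = 0 := by
    apply RingOfIntegers.coe_injective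
    rw [← aeval_algebraMap_apply, map_zero]
    have := integralNormalization_eval₂_eq_zero (p := f) (Int.castRingHom K) hθ
      (fun x hx => by simpa using hx)
    rw [aeval_def, ← this]
    congr 1
  have hdvd := minpoly.isIntegrallyClosed_dvd hηint hgη
  have hmindeg : (minpoly ℤ η).natDegree = f.natDegree := by
    have h1 : minpoly ℚ (η : K) = (minpoly ℤ η).map (algebraMap ℤ ℚ) := by
      have := minpoly.isIntegrallyClosed_eq_field_fractions ℚ K hηint
      exact this
    have h2 : (minpoly ℚ (η : K)).natDegree = finrank ℚ K := by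
      rw [← Field.primitive_element_iff_minpoly_natDegree_eq]
      exact hetop
    rw [← hdeg, ← h2, h1, natDegree_map_eq_of_injective (RingHom.injective_int _)]
  refine (eq_of_monic_of_dvd_of_natDegree_le (minpoly.monic hηint)
    (monic_integralNormalization hf0) hdvd ?_).symm ▸ rfl
  rw [natDegree_integralNormalization, hmindeg]

end General

end Pool.Agent.Lib.H59
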