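import Mathlib

/-!
# The objects of the quantitative Goldbach-type hypothesis of Schinzel

-/

open Finset Polynomial

noncomputable section

namespace Pool.Agent.Lib.H59

/-- The set of the positive integers `n` with `N - G(n) > 0`. -/
def argSet (G : ℤ[X]) (N : ℕ) : Set ℕ := {n | 0 < n ∧ 0 < (N : ℤ) - G.eval (n : ℤ)}

/-- Their number `X(N)`. -/
def argCount (G : ℤ[X]) (N : ℕ) : ℕ := (argSet G N).ncard

/-- `N` is admissible for `F, G`: the polynomial `N - G` is irreducible in `ℤ[x]`, and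
`F_1 ⋯ F_g (N - G)` has no fixed prime divisor. -/
def Admissible {g : ℕ} (F : Fin g → ℤ[X]) (G : ℤ[X]) (N : ℕ) : Prop :=
  Irreducible (C (N : ℤ) - G) ∧
    ∀ p : ℕ, p.Prime → ¬ ∀ n : ℤ, (p : ℤ) ∣ ((∏ i, F i) * (C (N : ℤ) - G)).eval n

/-- `Q_1(N)`: the number of the positive integers `n` with `N - G(n) > 0` for which all the
`F_i(n)` and `N - G(n)` are (positive) primes. -/
def primeCount {g : ℕ} (F : Fin g → ℤ[X]) (G : ℤ[X]) (N : ℕ) : ℕ :=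
  {n : ℕ | n ∈ argSet G N ∧ (∀ i, ∃ q : ℕ, q.Prime ∧ (F i).eval (n : ℤ) = q) ∧
    ∃ q : ℕ, q.Prime ∧ (N : ℤ) - G.eval (n : ℤ) = q}.ncard

/-- `ω_N(p)`: the number of the residues `a` modulo `p` with
`F_1(a) ⋯ F_g(a) (N - G(a)) ≡ 0 (mod p)`. -/
def omegaN {g : ℕ} (F : Fin g → ℤ[X]) (G : ℤ[X]) (N p : ℕ) : ℕ :=
  ((Finset.range p).filter fun a : ℕ =>
    (p : ℤ) ∣ ((∏ i, F i) * (C (N : ℤ) - G)).eval (a : ℤ)).card

/-- The partial product over the primes `p < z` of the singular series `𝔖(N)`. -/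
def seriesTrunc {g : ℕ} (F : Fin g → ℤ[X]) (G : ℤ[X]) (N z : ℕ) : ℝ :=
  ∏ p ∈ Nat.primesBelow z, ((1 - (omegaN F G N p : ℝ) / p) * ((1 - 1 / (p : ℝ)) ^ (g + 1))⁻¹)

end Pool.Agent.Lib.H59
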