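import Mathlib
import Pool.Agent.Lib.H59.PolyField
import Pool.Agent.Lib.H59.SchinzelDefs

/-!
# Counting the arguments in the quantitative Goldbach-type hypothesis of Schinzel

-/

open Finset Polynomial Filter Topology

noncomputable section

namespace Pool.Agent.Lib.H59

theorem eval_map_real (G : ℤ[X]) (n : ℕ) :
    (G.map (Int.castRingHom ℝ)).eval (n : ℝ) = ((G.eval (n : ℤ) : ℤ) : ℝ) := by
  simp

theorem exists_strictMono {G : ℤ[X]} (hn : 1 ≤ G.natDegree) (hl : 0 < G.leadingCoeff) :
    ∃ n₁ : ℕ, ∀ a b : ℕ, n₁ ≤ a → a < b → G.eval (a : ℤ) < G.eval (b : ℤ) := by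
  set P : ℝ[X] := G.map (Int.castRingHom ℝ) with hP
  have hinj : Function.Injective (Int.castRingHom ℝ) := RingHom.injective_int _
  have hdeg : P.natDegree = G.natDegree := natDegree_map_eq_of_injective hinj _
  have hlc : P.leadingCoeff = (G.leadingCoeff : ℝ) := by
    rw [hP, leadingCoeff_map_of_injective hinj]
    simp
  have hlc0 : 0 < P.leadingCoeff := by rw [hlc]; exact_mod_cast hl
  -- the derivative is eventually positive
  have hder : ∀ᶠ x in atTop, 0 < P.derivative.eval x := by
    have hdd : P.derivative.natDegree = P.natDegree - 1 := natDegree_derivative P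
    have hdl : P.derivative.leadingCoeff = P.leadingCoeff * P.natDegree := by
      rw [leadingCoeff, hdd, coeff_derivative]
      have : P.natDegree - 1 + 1 = P.natDegree := by omega
      rw [this]
      have h2 : ((P.natDegree - 1 : ℕ) : ℝ) + 1 = P.natDegree := by
        exact_mod_cast congrArg (fun k : ℕ => (k : ℝ)) this
      rw [h2]
      rfl
    have hdl0 : 0 < P.derivative.leadingCoeff := by
      rw [hdl]
      have : (0 : ℝ) < P.natDegree := by exact_mod_cast (by omega : 0 < P.natDegree)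
      positivity
    rcases Nat.eq_zero_or_pos P.derivative.natDegree with h0 | h0
    · have h1 : P.derivative = C (P.derivative.coeff 0) := eq_C_of_natDegree_eq_zero h0
      have h2 : P.derivative.leadingCoeff = P.derivative.coeff 0 := by rw [leadingCoeff, h0]
      refine Eventually.of_forall fun x => ?_
      rw [h1, eval_C, ← h2]
      exact hdl0
    · have h1 : Tendsto (fun x => P.derivative.eval x) atTop atTop :=
        tendsto_atTop_of_leadingCoeff_nonneg _ (natDegree_pos_iff_degree_pos.mp h0) hdl0.le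
      exact h1.eventually_gt_atTop 0
  obtain ⟨x₁, hx₁⟩ := eventually_atTop.mp hder
  have hmono : StrictMonoOn (fun x => P.eval x) (Set.Ici x₁) := by
    refine strictMonoOn_of_deriv_pos (convex_Ici x₁) P.continuous.continuousOn fun x hx => ?_
    rw [interior_Ici] at hx
    rw [Polynomial.deriv]
    exact hx₁ x (le_of_lt hx)
  refine ⟨⌈x₁⌉₊, fun a b ha hab => ?_⟩
  have ha' : x₁ ≤ a := (Nat.le_ceil x₁).trans (by exact_mod_cast ha)
  have hab' : (a : ℝ) < b := by exact_mod_cast hab
  have h := hmono (Set.mem_Ici.mpr ha') (Set.mem_Ici.mpr (ha'.trans hab'.le)) hab'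
  simp only [hP, eval_map_real] at h
  exact_mod_cast h

/-- For large `N` the arguments form an initial segment. -/
theorem argSet_eq {G : ℤ[X]} (hn : 1 ≤ G.natDegree) (hl : 0 < G.leadingCoeff) :
    ∀ᶠ N : ℕ in atTop, argSet G N = ↑(Finset.Icc 1 (argCount G N)) := by
  classical
  obtain ⟨n₁, hn₁⟩ := exists_strictMono hn hl
  -- a bound for the initial values
  set M : ℕ := (Finset.range (n₁ + 1)).sup (fun a => (G.eval (a : ℤ)).natAbs) with hM
  have hMb : ∀ a ≤ n₁, G.eval (a : ℤ) ≤ M := by
    intro a ha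
    have h1 : (G.eval (a : ℤ)).natAbs ≤ M :=
      Finset.le_sup (f := fun a : ℕ => (G.eval (a : ℤ)).natAbs) (Finset.mem_range.mpr (by omega))
    omega
  filter_upwards [eventually_gt_atTop M] with N hN
  -- growth
  have hgrow : ∀ k : ℕ, G.eval (n₁ : ℤ) + k ≤ G.eval ((n₁ + k : ℕ) : ℤ) := by
    intro k
    induction k with
    | zero => simp
    | succ k ih =>
      have := hn₁ (n₁ + k) (n₁ + (k + 1)) (by omega) (by omega)
      push_cast at *
      omega
  -- finiteness
  have hfin : (argSet G N).Finite := by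
    refine (Set.finite_Iic (n₁ + (N + M))).subset fun n hn' => ?_
    obtain ⟨_, h2⟩ := hn'
    rw [Set.mem_Iic]
    by_contra hcon
    push Not at hcon
    obtain ⟨k, hk⟩ : ∃ k, n = n₁ + k := ⟨n - n₁, by omega⟩
    have h3 := hgrow k
    rw [← hk] at h3
    have h4 : -(M : ℤ) ≤ G.eval (n₁ : ℤ) := by
      have h1 : (G.eval (n₁ : ℤ)).natAbs ≤ M :=
        Finset.le_sup (f := fun a : ℕ => (G.eval (a : ℤ)).natAbs) (Finset.mem_range.mpr (by omega))
      omega
    omega
  -- downward closed
  have hdown : ∀ a b : ℕ, 0 < a → a < b → b ∈ argSet G N → a ∈ argSet G N := by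
    intro a b ha hab hb
    refine ⟨ha, ?_⟩
    rcases le_or_gt a n₁ with h | h
    · have := hMb a h
      omega
    · have := hn₁ a b h.le hab
      have := hb.2
      omega
  -- conclusion
  set T := hfin.toFinset with hT
  have hTmem : ∀ n, n ∈ T ↔ n ∈ argSet G N := fun n => by simp [hT]
  have hcard : argCount G N = T.card := Set.ncard_eq_toFinset_card _ hfin
  have hTeq : T = Finset.Icc 1 T.card := by
    by_cases hemp : T = ∅
    · rw [hemp]; simp
    · have hne : T.Nonempty := Finset.nonempty_iff_ne_empty.mpr hemp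
      set m := T.max' hne with hm
      have hmT : m ∈ T := T.max'_mem hne
      have h1 : T = Finset.Icc 1 m := by
        ext a
        rw [Finset.mem_Icc]
        constructor
        · intro ha
          exact ⟨((hTmem a).mp ha).1, T.le_max' a ha⟩
        · rintro ⟨ha1, ha2⟩
          rcases ha2.lt_or_eq with h | h
          · exact (hTmem a).mpr (hdown a m ha1 h ((hTmem m).mp hmT))
          · rw [h]; exact hmT
      have h2 : T.card = m := by rw [h1, Nat.card_Icc]; omega
      rw [h2]
      exact h1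
  rw [hcard, ← hTeq]
  ext n
  rw [Finset.mem_coe, hTmem]

theorem argCount_tendsto {G : ℤ[X]} (hn : 1 ≤ G.natDegree) (hl : 0 < G.leadingCoeff) :
    Tendsto (argCount G) atTop atTop := by
  rw [tendsto_atTop]
  intro m
  have h1 := argSet_eq hn hl
  filter_upwards [h1, eventually_gt_atTop ((G.eval (m : ℤ)).natAbs)] with N hN hNm
  rcases Nat.eq_zero_or_pos m with rfl | hm
  · exact Nat.zero_le _
  have : m ∈ argSet G N := ⟨hm, by omega⟩
  rw [hN, Finset.mem_coe, Finset.mem_Icc] at this
  exact this.2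

theorem eval_le_coeffSum (G : ℤ[X]) {n : ℕ} (hn : 1 ≤ n) :
    ((G.eval (n : ℤ) : ℤ) : ℝ) ≤ coeffSum G * (n : ℝ) ^ G.natDegree := by
  rw [eval_eq_sum_range]
  push_cast
  unfold coeffSum
  rw [Finset.sum_mul]
  refine Finset.sum_le_sum fun i hi => ?_
  rw [Finset.mem_range] at hi
  have hn' : (1 : ℝ) ≤ n := by exact_mod_cast hn
  calc (G.coeff i : ℝ) * (n : ℝ) ^ i ≤ |(G.coeff i : ℝ)| * (n : ℝ) ^ i := by
        gcongr
        exact le_abs_self _
    _ ≤ |(G.coeff i : ℝ)| * (n : ℝ) ^ G.natDegree := by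
        gcongr
        omega

theorem natDegree_C_sub' (G : ℤ[X]) (N : ℕ) : (C (N : ℤ) - G).natDegree = G.natDegree := by
  rw [← natDegree_neg, neg_sub, natDegree_sub_C]

theorem coeffSum_C_sub_le (G : ℤ[X]) (N : ℕ) :
    coeffSum (C (N : ℤ) - G) ≤ N + coeffSum G := by
  unfold coeffSum
  rw [natDegree_C_sub']
  have h1 : ∀ i ∈ Finset.range (G.natDegree + 1), |((C (N : ℤ) - G).coeff i : ℝ)| ≤
      (if i = 0 then (N : ℝ) else 0) + |(G.coeff i : ℝ)| := by
    intro i _
    rw [coeff_sub, coeff_C]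
    split_ifs with h
    · push_cast
      refine (abs_sub _ _).trans ?_
      rw [abs_of_nonneg (by positivity : (0 : ℝ) ≤ N)]
    · push_cast
      rw [zero_sub, abs_neg, zero_add]
  refine (Finset.sum_le_sum h1).trans ?_
  rw [Finset.sum_add_distrib]
  simp

theorem coeffSum_le_pow {G : ℤ[X]} (hn : 1 ≤ G.natDegree) (hl : 0 < G.leadingCoeff) :
    ∀ᶠ N : ℕ in atTop, coeffSum (C (N : ℤ) - G) ≤ (argCount G N : ℝ) ^ (G.natDegree + 1) := by
  have hG0 : G ≠ 0 := by rintro rfl; simp at hl
  have hH1 : 1 ≤ coeffSum G := one_le_coeffSum hG0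
  obtain ⟨m, hm⟩ := exists_nat_ge (2 ^ (G.natDegree + 1) * coeffSum G)
  filter_upwards [argSet_eq hn hl, (argCount_tendsto hn hl).eventually_ge_atTop (max 1 m)]
    with N hN hX
  set X := argCount G N with hXdef
  have hX1 : 1 ≤ X := (le_max_left _ _).trans hX
  have hXm : m ≤ X := (le_max_right _ _).trans hX
  have hnot : X + 1 ∉ argSet G N := by
    rw [hN, Finset.mem_coe, Finset.mem_Icc]
    omega
  have hNle : (N : ℤ) ≤ G.eval ((X + 1 : ℕ) : ℤ) := by
    by_contra hcon
    push Not at hcon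
    exact hnot ⟨by omega, by omega⟩
  have hNle' : (N : ℝ) ≤ coeffSum G * ((X + 1 : ℕ) : ℝ) ^ G.natDegree := by
    refine le_trans ?_ (eval_le_coeffSum G (by omega))
    exact_mod_cast hNle
  have hX1' : (1 : ℝ) ≤ X := by exact_mod_cast hX1
  have hXm' : (m : ℝ) ≤ X := by exact_mod_cast hXm
  have h2 : ((X + 1 : ℕ) : ℝ) ^ G.natDegree ≤ 2 ^ G.natDegree * (X : ℝ) ^ G.natDegree := by
    rw [← mul_pow]
    push_cast
    gcongr
    linarith
  have h3 : (1 : ℝ) ≤ 2 ^ G.natDegree * (X : ℝ) ^ G.natDegree := by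
    rw [← mul_pow]
    exact one_le_pow₀ (by linarith)
  calc coeffSum (C (N : ℤ) - G) ≤ N + coeffSum G := coeffSum_C_sub_le G N
    _ ≤ coeffSum G * (2 ^ G.natDegree * (X : ℝ) ^ G.natDegree) +
        coeffSum G * (2 ^ G.natDegree * (X : ℝ) ^ G.natDegree) := by
        refine add_le_add (hNle'.trans ?_) ?_
        · gcongr
        · exact le_mul_of_one_le_right (by linarith) h3
    _ = (2 ^ (G.natDegree + 1) * coeffSum G) * (X : ℝ) ^ G.natDegree := by ring
    _ ≤ X * (X : ℝ) ^ G.natDegree := by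
        gcongr
        exact hm.trans hXm'
    _ = (X : ℝ) ^ (G.natDegree + 1) := by ring

end Pool.Agent.Lib.H59
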