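import Mathlib

/-!
# Elementary estimates for sums over primes

-/

open Finset Real

noncomputable section

namespace Pool.Agent.Lib.H59

theorem half_rpow_le {σ : ℝ} (h0 : 0 ≤ σ) (h1 : σ ≤ 1) : (1 / 2 : ℝ) ^ σ ≤ 1 - σ / 2 := by
  have := _root_.rpow_one_add_le_one_add_mul_self (s := -(1 / 2 : ℝ)) (by norm_num) h0 h1
  calc (1 / 2 : ℝ) ^ σ = (1 + -(1 / 2 : ℝ)) ^ σ := by norm_num
    _ ≤ 1 + σ * -(1 / 2) := this
    _ = 1 - σ / 2 := by ring

theorem sum_log_prime_lt (j : ℕ) (T : Finset ℕ) (hT : ∀ p ∈ T, p.Prime)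
    (hj : ∀ p ∈ T, p < 2 ^ j) : ∑ p ∈ T, Real.log p ≤ Real.log 4 * 2 ^ j := by
  have h1 := Chebyshev.theta_le_log4_mul_x (x := (2 : ℝ) ^ j) (by positivity)
  refine le_trans ?_ h1
  rw [Chebyshev.theta]
  refine Finset.sum_le_sum_of_subset_of_nonneg ?_ ?_
  · intro p hp
    have hpp := hT p hp
    have hlt := hj p hp
    rw [Finset.mem_filter, Finset.mem_Ioc]
    refine ⟨⟨hpp.pos, Nat.le_floor ?_⟩, hpp⟩
    have : (p : ℝ) < (2 : ℝ) ^ j := by exact_mod_cast hlt
    exact this.le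
  · intro p hp _
    rw [Finset.mem_filter, Finset.mem_Ioc] at hp
    exact Real.log_nonneg (by exact_mod_cast hp.1.1)

/-- `∑ log p / p ^ (1 + σ) ≤ C / σ`. -/
theorem sum_log_div_rpow_le (T : Finset ℕ) (hT : ∀ p ∈ T, p.Prime) {σ : ℝ} (h0 : 0 < σ)
    (h1 : σ ≤ 1) : ∑ p ∈ T, Real.log p * (p : ℝ) ^ (-(1 + σ)) ≤ 4 * Real.log 4 / σ := by
  classical
  -- group by the dyadic size
  have hmap : ∀ p ∈ T, Nat.log 2 p ∈ Finset.range (T.sup (Nat.log 2) + 1) := fun p hp => by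
    rw [Finset.mem_range]
    exact Nat.lt_succ_of_le (Finset.le_sup (f := Nat.log 2) hp)
  rw [← Finset.sum_fiberwise_of_maps_to hmap]
  have hlog4 : 0 < Real.log 4 := Real.log_pos (by norm_num)
  have hfib : ∀ j ∈ Finset.range (T.sup (Nat.log 2) + 1),
      ∑ p ∈ T with Nat.log 2 p = j, Real.log p * (p : ℝ) ^ (-(1 + σ)) ≤
        2 * Real.log 4 * ((1 / 2 : ℝ) ^ σ) ^ j := by
    intro j _
    have hb : ∀ p ∈ T.filter (fun p => Nat.log 2 p = j), Real.log p * (p : ℝ) ^ (-(1 + σ)) ≤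
        Real.log p * ((2 : ℝ) ^ j) ^ (-(1 + σ)) := by
      intro p hp
      rw [Finset.mem_filter] at hp
      have hpp := hT p hp.1
      have h2 : 2 ^ j ≤ p := by
        rw [← hp.2]
        exact Nat.pow_log_le_self 2 hpp.ne_zero
      have h3 : ((2 : ℝ) ^ j) ≤ p := by exact_mod_cast h2
      have h4 : 0 ≤ Real.log p := Real.log_nonneg (by exact_mod_cast hpp.one_le)
      refine mul_le_mul_of_nonneg_left ?_ h4
      exact Real.rpow_le_rpow_of_nonpos (by positivity) h3 (by linarith)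
    refine (Finset.sum_le_sum hb).trans ?_
    rw [← Finset.sum_mul]
    have h5 := sum_log_prime_lt (j + 1) (T.filter (fun p => Nat.log 2 p = j))
      (fun p hp => hT p (Finset.mem_filter.mp hp).1) (fun p hp => by
        rw [Finset.mem_filter] at hp
        rw [← hp.2]
        exact Nat.lt_pow_succ_log_self (by norm_num) p)
    have hpos : 0 ≤ ((2 : ℝ) ^ j) ^ (-(1 + σ)) := by positivity
    refine (mul_le_mul_of_nonneg_right h5 hpos).trans (le_of_eq ?_)
    have e1 : ((2 : ℝ) ^ j) ^ (-(1 + σ)) = ((2 : ℝ) ^ j)⁻¹ * ((1 / 2 : ℝ) ^ σ) ^ j := by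
      rw [neg_add, Real.rpow_add (by positivity), Real.rpow_neg_one]
      congr 1
      rw [one_div, Real.inv_rpow (by norm_num), ← Real.rpow_natCast, ← Real.rpow_natCast,
        ← Real.rpow_mul (by norm_num), Real.rpow_natCast, inv_pow, ← Real.rpow_natCast,
        ← Real.rpow_mul (by norm_num), ← Real.rpow_neg (by norm_num)]
      congr 1
      ring
    rw [e1, pow_succ]
    have : (2 : ℝ) ^ j ≠ 0 := by positivity
    field_simp
  refine (Finset.sum_le_sum hfib).trans ?_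
  rw [← Finset.mul_sum]
  have hq0 : 0 ≤ (1 / 2 : ℝ) ^ σ := by positivity
  have hq1 : (1 / 2 : ℝ) ^ σ ≤ 1 - σ / 2 := half_rpow_le h0.le h1
  have hlt : (1 / 2 : ℝ) ^ σ < 1 := by linarith
  have hgeo : ∑ j ∈ Finset.range (T.sup (Nat.log 2) + 1), ((1 / 2 : ℝ) ^ σ) ^ j ≤
      (1 - (1 / 2 : ℝ) ^ σ)⁻¹ := by
    rw [← tsum_geometric_of_lt_one hq0 hlt]
    exact (summable_geometric_of_lt_one hq0 hlt).sum_le_tsum _ (fun i _ => by positivity)
  have h6 : (1 - (1 / 2 : ℝ) ^ σ)⁻¹ ≤ 2 / σ := by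
    rw [inv_le_comm₀ (by linarith) (by positivity), inv_div]
    linarith
  calc 2 * Real.log 4 * ∑ j ∈ Finset.range (T.sup (Nat.log 2) + 1), ((1 / 2 : ℝ) ^ σ) ^ j
      ≤ 2 * Real.log 4 * (2 / σ) := by gcongr; exact hgeo.trans h6
    _ = 4 * Real.log 4 / σ := by ring

/-- `∑_{p ≤ z} log p / p ≤ C log z`. -/
theorem sum_log_div_le (T : Finset ℕ) (hT : ∀ p ∈ T, p.Prime) {z : ℝ} (hz : 2 ≤ z)
    (hTz : ∀ p ∈ T, (p : ℝ) ≤ z) :
    ∑ p ∈ T, Real.log p / p ≤ 14 * Real.log 4 * Real.log z := by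
  have hlog4 : 0 < Real.log 4 := Real.log_pos (by norm_num)
  have hlogz : 0 < Real.log z := Real.log_pos (by linarith)
  have hlog2 : 0.6931471803 < Real.log 2 := Real.log_two_gt_d9
  have hlogz2 : Real.log 2 ≤ Real.log z := Real.log_le_log (by norm_num) hz
  set σ : ℝ := 1 / (2 * Real.log z) with hσ
  have hσ0 : 0 < σ := by positivity
  have hσ1 : σ ≤ 1 := by
    rw [hσ, div_le_one (by positivity)]
    linarith
  have h1 := sum_log_div_rpow_le T hT hσ0 hσ1
  have h2 : ∀ p ∈ T, Real.log p / p ≤ Real.exp (1 / 2) * (Real.log p * (p : ℝ) ^ (-(1 + σ))) := by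
    intro p hp
    have hpp := hT p hp
    have hp0 : (0 : ℝ) < p := by exact_mod_cast hpp.pos
    have hlp : 0 ≤ Real.log p := Real.log_nonneg (by exact_mod_cast hpp.one_le)
    have h3 : (p : ℝ) ^ (-(1 + σ)) = (p : ℝ)⁻¹ * (p : ℝ) ^ (-σ) := by
      rw [neg_add, Real.rpow_add hp0, Real.rpow_neg_one]
    have h4 : Real.exp (-(1 / 2)) ≤ (p : ℝ) ^ (-σ) := by
      rw [Real.rpow_def_of_pos hp0]
      apply Real.exp_le_exp.mpr
      have h5 : Real.log p ≤ Real.log z := Real.log_le_log hp0 (hTz p hp)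
      have h6 : Real.log p * σ ≤ 1 / 2 := by
        calc Real.log p * σ ≤ Real.log z * σ := by gcongr
          _ = 1 / 2 := by rw [hσ]; field_simp
      linarith
    rw [h3]
    calc Real.log p / p = Real.exp (1 / 2) * (Real.log p * ((p : ℝ)⁻¹ * Real.exp (-(1 / 2)))) := by
          rw [div_eq_mul_inv]
          have : Real.exp (1 / 2) * Real.exp (-(1 / 2)) = 1 := by rw [← Real.exp_add]; norm_num
          calc Real.log p * (p : ℝ)⁻¹ = Real.log p * (p : ℝ)⁻¹ * 1 := by ring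
            _ = Real.log p * (p : ℝ)⁻¹ * (Real.exp (1 / 2) * Real.exp (-(1 / 2))) := by rw [this]
            _ = _ := by ring
      _ ≤ _ := by gcongr
  calc ∑ p ∈ T, Real.log p / p ≤ ∑ p ∈ T, Real.exp (1 / 2) * (Real.log p * (p : ℝ) ^ (-(1 + σ))) :=
        Finset.sum_le_sum h2
    _ = Real.exp (1 / 2) * ∑ p ∈ T, (Real.log p * (p : ℝ) ^ (-(1 + σ))) := by rw [Finset.mul_sum]
    _ ≤ Real.exp (1 / 2) * (4 * Real.log 4 / σ) := by gcongr
    _ = Real.exp (1 / 2) * 8 * Real.log 4 * Real.log z := by rw [hσ]; field_simp; ring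
    _ ≤ 14 * Real.log 4 * Real.log z := by
        have h7 : Real.exp (1 / 2) * 8 ≤ 14 := by
          have h8 : Real.exp (1 / 2) ^ 2 ≤ 1.6875 ^ 2 := by
            rw [← Real.exp_nat_mul]
            have := Real.exp_one_lt_d9
            norm_num at this ⊢
            linarith
          have h9 : Real.exp (1 / 2) ≤ 1.6875 := by
            exact le_of_sq_le_sq h8 (by norm_num)
          linarith
        gcongr

end Pool.Agent.Lib.H59
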