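import Mathlib
import Pool.Agent.Lib.H59.PrimeIdealSums
import Pool.Agent.Lib.H59.ChebLite
import Pool.Agent.Lib.H59.ZetaResidue

/-!
# The key inequality for a number field

-/

open Set Module Filter Topology NumberField IsDedekindDomain
open scoped NNReal nonZeroDivisors ENNReal
open Ideal (absNorm)

noncomputable section

namespace Pool.Agent.Lib.H59

/-- Passing from exponent `1` to exponent `1 + 1 / log z`. -/
theorem sum_div_le_sum_rpow (r : ℕ → ℝ) (n : ℝ) (hn : 0 ≤ n) (hr0 : ∀ p, 0 ≤ r p)
    (hr : ∀ p, p.Prime → r p ≤ n) {z : ℕ} (hz : 3 ≤ z) :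
    ∑ p ∈ Nat.primesBelow z, r p / p ≤
      ∑ p ∈ Nat.primesBelow z, r p * (p : ℝ) ^ (-(1 + 1 / Real.log z)) +
        14 * Real.log 4 * n := by
  have hz3 : (3 : ℝ) ≤ z := by exact_mod_cast hz
  have hlogz : 0 < Real.log z := Real.log_pos (by linarith)
  have hpr : ∀ p ∈ Nat.primesBelow z, p.Prime := fun p hp => Nat.prime_of_mem_primesBelow hp
  have hlt : ∀ p ∈ Nat.primesBelow z, (p : ℝ) ≤ z := fun p hp => by
    have := Nat.lt_of_mem_primesBelow hp
    exact_mod_cast this.le
  have h1 := sum_log_div_le (Nat.primesBelow z) hpr (by linarith : (2 : ℝ) ≤ z) hlt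
  have h2 : ∀ p ∈ Nat.primesBelow z, r p / p ≤
      r p * (p : ℝ) ^ (-(1 + 1 / Real.log z)) + n * (1 / Real.log z) * (Real.log p / p) := by
    intro p hp
    have hpp := hpr p hp
    have hp0 : (0 : ℝ) < p := by exact_mod_cast hpp.pos
    have e1 : (p : ℝ) ^ (-(1 + 1 / Real.log z)) = (p : ℝ)⁻¹ * (p : ℝ) ^ (-(1 / Real.log z)) := by
      rw [neg_add, Real.rpow_add hp0, Real.rpow_neg_one]
    have h3 : 1 - 1 / Real.log z * Real.log p ≤ (p : ℝ) ^ (-(1 / Real.log z)) := by
      rw [Real.rpow_def_of_pos hp0]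
      have := Real.add_one_le_exp (Real.log p * (-(1 / Real.log z)))
      linarith
    have hlp : 0 ≤ Real.log p := Real.log_nonneg (by exact_mod_cast hpp.one_le)
    rw [e1]
    have h4 : r p / p = r p * (p : ℝ)⁻¹ := div_eq_mul_inv _ _
    have h5 : r p * (p : ℝ)⁻¹ * (1 - 1 / Real.log z * Real.log p) ≤
        r p * ((p : ℝ)⁻¹ * (p : ℝ) ^ (-(1 / Real.log z))) := by
      rw [← mul_assoc]
      have := hr0 p
      gcongr
    have h6 : r p * (p : ℝ)⁻¹ * (1 / Real.log z * Real.log p) ≤
        n * (1 / Real.log z) * (Real.log p / p) := by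
      have h7 : r p * (p : ℝ)⁻¹ * (1 / Real.log z * Real.log p) =
          r p * ((1 / Real.log z) * (Real.log p / p)) := by
        rw [div_eq_mul_inv (Real.log p)]; ring
      rw [h7, mul_assoc]
      have := hr p hpp
      gcongr
    rw [h4]
    linarith
  refine (Finset.sum_le_sum h2).trans ?_
  rw [Finset.sum_add_distrib, ← Finset.mul_sum]
  have h8 : n * (1 / Real.log z) * ∑ p ∈ Nat.primesBelow z, Real.log p / p ≤
      n * (1 / Real.log z) * (14 * Real.log 4 * Real.log z) := by gcongr
  have h9 : n * (1 / Real.log z) * (14 * Real.log 4 * Real.log z) = 14 * Real.log 4 * n := by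
    field_simp
  linarith

/-- Passing from exponent `1 + 1 / log X` to exponent `1`, truncating at `X`. -/
theorem sum_rpow_le_sum_div (r : ℕ → ℝ) (n : ℝ) (hn : 0 ≤ n) (hr0 : ∀ p, 0 ≤ r p)
    (hr : ∀ p, p.Prime → r p ≤ n) {X : ℕ} (hX : 3 ≤ X) (T : Finset ℕ) (hT : ∀ p ∈ T, p.Prime) :
    ∑ p ∈ T, r p * (p : ℝ) ^ (-(1 + 1 / Real.log X)) ≤
      ∑ p ∈ Nat.primesBelow X, r p / p + 4 * Real.log 4 * n := by
  classical
  have hX3 : (3 : ℝ) ≤ X := by exact_mod_cast hX
  have hlogX1 : 1 ≤ Real.log X := by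
    rw [Real.le_log_iff_exp_le (by linarith)]
    have := Real.exp_one_lt_d9
    linarith
  have hlogX : 0 < Real.log X := by linarith
  have hσ0 : 0 < 1 / Real.log X := by positivity
  have hσ1 : 1 / Real.log X ≤ 1 := by rw [div_le_one hlogX]; exact hlogX1
  rw [← Finset.sum_filter_add_sum_filter_not T (fun p => p < X)]
  refine add_le_add ?_ ?_
  · have hsub : T.filter (fun p => p < X) ⊆ Nat.primesBelow X := by
      intro p hp
      rw [Finset.mem_filter] at hp
      rw [Nat.mem_primesBelow]
      exact ⟨hp.2, hT p hp.1⟩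
    refine le_trans (Finset.sum_le_sum (g := fun p => r p / p) ?_)
      (Finset.sum_le_sum_of_subset_of_nonneg hsub fun p _ _ => by
        have := hr0 p; positivity)
    intro p hp
    rw [Finset.mem_filter] at hp
    have hpp := hT p hp.1
    have hp1 : (1 : ℝ) ≤ p := by exact_mod_cast hpp.one_le
    rw [div_eq_mul_inv (r p)]
    refine mul_le_mul_of_nonneg_left ?_ (hr0 p)
    rw [← Real.rpow_neg_one (p : ℝ)]
    exact Real.rpow_le_rpow_of_exponent_le hp1 (by linarith)
  · have h1 := sum_log_div_rpow_le (T.filter (fun p => ¬ p < X))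
      (fun p hp => hT p (Finset.mem_filter.mp hp).1) hσ0 hσ1
    have h2 : ∀ p ∈ T.filter (fun p => ¬ p < X), r p * (p : ℝ) ^ (-(1 + 1 / Real.log X)) ≤
        n * (1 / Real.log X) * (Real.log p * (p : ℝ) ^ (-(1 + 1 / Real.log X))) := by
      intro p hp
      rw [Finset.mem_filter] at hp
      have hpp := hT p hp.1
      have hpX : (X : ℝ) ≤ p := by
        have := not_lt.mp hp.2
        exact_mod_cast this
      have h3 : Real.log X ≤ Real.log p := Real.log_le_log (by linarith) hpX
      have h4 : 1 ≤ 1 / Real.log X * Real.log p := by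
        rw [div_mul_eq_mul_div, one_mul, le_div_iff₀ hlogX]
        linarith
      have h5 : 0 ≤ (p : ℝ) ^ (-(1 + 1 / Real.log X)) := by positivity
      calc r p * (p : ℝ) ^ (-(1 + 1 / Real.log X))
          ≤ n * (p : ℝ) ^ (-(1 + 1 / Real.log X)) := by
            have := hr p hpp
            gcongr
        _ = n * 1 * (p : ℝ) ^ (-(1 + 1 / Real.log X)) := by ring
        _ ≤ n * (1 / Real.log X * Real.log p) * (p : ℝ) ^ (-(1 + 1 / Real.log X)) := by gcongr
        _ = _ := by ring
    refine (Finset.sum_le_sum h2).trans ?_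
    rw [← Finset.mul_sum]
    calc n * (1 / Real.log X) * ∑ p ∈ T.filter (fun p => ¬ p < X),
          (Real.log p * (p : ℝ) ^ (-(1 + 1 / Real.log X)))
        ≤ n * (1 / Real.log X) * (4 * Real.log 4 / (1 / Real.log X)) := by gcongr
      _ = 4 * Real.log 4 * n := by field_simp

variable (K : Type*) [Field K] [NumberField K]

/-- The constant in the key inequality. -/
def fieldConst (n : ℕ) (A : ℝ) : ℝ :=
  Real.log 2 + 14 * Real.log 4 * n + ((n + 1) * Real.log 2 + A + (n + 1) * Real.log 2 +
    Real.log (n.factorial) + 4 * Real.log 4 * n + 6 * n)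

theorem rank_lt_finrank : Units.rank K < finrank ℚ K := by
  have h1 : Fintype.card (InfinitePlace K) ≤ finrank ℚ K := by
    rw [← InfinitePlace.card_add_two_mul_card_eq_rank,
      InfinitePlace.card_eq_nrRealPlaces_add_nrComplexPlaces]
    omega
  have h2 : 0 < Fintype.card (InfinitePlace K) := Fintype.card_pos
  rw [Units.rank]
  omega

theorem upper_at_z : ∀ᶠ z : ℕ in atTop,
    ∑ p ∈ Nat.primesBelow z, (degOne K p : ℝ) / p ≤
      Real.log 2 + Real.log (dedekindZeta_residue K) + Real.log (Real.log z) +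
        14 * Real.log 4 * finrank ℚ K := by
  have hκ := dedekindZeta_residue_pos K
  have h1 := eventually_zetaE_le K
  have h2 : Tendsto (fun z : ℕ => 1 / Real.log z) atTop (𝓝[>] 0) := by
    refine tendsto_nhdsWithin_of_tendsto_nhds_of_eventually_within _ ?_ ?_
    · have : Tendsto (fun z : ℕ => Real.log z) atTop atTop :=
        Real.tendsto_log_atTop.comp tendsto_natCast_atTop_atTop
      simp_rw [one_div]
      exact tendsto_inv_atTop_zero.comp this
    · filter_upwards [eventually_ge_atTop 3] with z hz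
      have hz3 : (3 : ℝ) ≤ z := by exact_mod_cast hz
      have : 0 < Real.log z := Real.log_pos (by linarith)
      exact one_div_pos.mpr this
  filter_upwards [h2.eventually h1, eventually_ge_atTop 3] with z hz hz3
  have hz3' : (3 : ℝ) ≤ z := by exact_mod_cast hz3
  have hlogz : 0 < Real.log z := Real.log_pos (by linarith)
  have h3 := sum_div_le_sum_rpow (fun p => (degOne K p : ℝ)) (finrank ℚ K) (by positivity)
    (fun p => by positivity) (fun p hp => by exact_mod_cast degOne_le hp) hz3
  have h4 := (exp_sum_le_zetaE (K := K) (1 + 1 / Real.log z) (Nat.primesBelow z)).trans hz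
  have h5 : Real.exp (∑ p ∈ Nat.primesBelow z, (degOne K p : ℝ) *
      (p : ℝ) ^ (-(1 + 1 / Real.log z))) ≤ 2 * dedekindZeta_residue K / (1 / Real.log z) := by
    exact (ENNReal.ofReal_le_ofReal_iff (by positivity)).mp h4
  have h6 : ∑ p ∈ Nat.primesBelow z, (degOne K p : ℝ) *
      (p : ℝ) ^ (-(1 + 1 / Real.log z)) ≤ Real.log 2 + Real.log (dedekindZeta_residue K) +
        Real.log (Real.log z) := by
    have h7 := Real.log_le_log (Real.exp_pos _) h5
    rw [Real.log_exp] at h7
    have h8 : 2 * dedekindZeta_residue K / (1 / Real.log z) =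
        2 * dedekindZeta_residue K * Real.log z := by field_simp
    rw [h8, Real.log_mul (by positivity) hlogz.ne', Real.log_mul (by norm_num) hκ.ne'] at h7
    exact h7
  linarith

theorem lower_at_X {A : ℝ} {X : ℕ} (hX : 3 ≤ X) (hcut : cutoff K ≤ (X : ℝ) ^ A) :
    Real.log (dedekindZeta_residue K) ≤ ∑ p ∈ Nat.primesBelow X, (degOne K p : ℝ) / p -
      Real.log (Real.log X) + ((finrank ℚ K + 1) * Real.log 2 + A +
        (finrank ℚ K + 1) * Real.log 2 + Real.log ((finrank ℚ K).factorial) +
        4 * Real.log 4 * finrank ℚ K + 6 * finrank ℚ K) := by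
  have hκ := dedekindZeta_residue_pos K
  set κ := dedekindZeta_residue K with hκdef
  set n := finrank ℚ K with hn
  have hX3 : (3 : ℝ) ≤ X := by exact_mod_cast hX
  have hX0 : (0 : ℝ) < X := by linarith
  have hlogX1 : 1 ≤ Real.log X := by
    rw [Real.le_log_iff_exp_le (by linarith)]
    have := Real.exp_one_lt_d9
    linarith
  have hlogX : 0 < Real.log X := by linarith
  set σ : ℝ := 1 / Real.log X with hσ
  have hσ0 : 0 < σ := by positivity
  have hcut1 := one_le_cutoff K
  have hcutpos : 0 < cutoff K := by linarith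
  have h1 := residue_le_zetaE (K := K) hσ0
  set Sx : ℝ := ∑ p ∈ Nat.primesBelow X, (degOne K p : ℝ) / p with hSx
  have h2 := zetaE_le_exp (K := K) (s := 1 + σ) (by linarith) (Sx + 4 * Real.log 4 * n)
    (fun T hT => sum_rpow_le_sum_div (fun p => (degOne K p : ℝ)) n (by positivity)
      (fun p => by positivity) (fun p hp => by exact_mod_cast degOne_le hp) hX T hT)
  set r := Units.rank K with hr
  have hrn : r ≤ n := (rank_lt_finrank K).le
  have h3 : κ / 2 ^ (n + 1) * ((cutoff K) ^ (-σ) / σ) ≤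
      2 * (2 ^ r * (r.factorial : ℝ)) * Real.exp (Sx + 4 * Real.log 4 * n + 6 * n) := by
    have h4 : ENNReal.ofReal (κ / 2 ^ (n + 1) * ((cutoff K) ^ (-σ) / σ)) ≤
        ENNReal.ofReal (2 * (2 ^ r * (r.factorial : ℝ)) *
          Real.exp (Sx + 4 * Real.log 4 * n + 6 * n)) := by
      rw [ENNReal.ofReal_mul (p := 2 * (2 ^ r * (r.factorial : ℝ))) (by positivity)]
      refine h1.trans ?_
      gcongr
    exact (ENNReal.ofReal_le_ofReal_iff (by positivity)).mp h4
  have h5 : Real.exp (-A) ≤ (cutoff K) ^ (-σ) := by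
    have h6 : Real.log (cutoff K) ≤ A * Real.log X := by
      have := Real.log_le_log hcutpos hcut
      rwa [Real.log_rpow hX0] at this
    rw [Real.rpow_def_of_pos hcutpos]
    apply Real.exp_le_exp.mpr
    have h7 : Real.log (cutoff K) * σ ≤ A := by
      calc Real.log (cutoff K) * σ ≤ A * Real.log X * σ := by gcongr
        _ = A := by rw [hσ]; field_simp
    linarith
  have h8 : κ / 2 ^ (n + 1) * (Real.exp (-A) / σ) ≤
      2 * (2 ^ n * (n.factorial : ℝ)) * Real.exp (Sx + 4 * Real.log 4 * n + 6 * n) := by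
    refine le_trans ?_ (h3.trans ?_)
    · gcongr
    · have hfac : (r.factorial : ℝ) ≤ n.factorial := by exact_mod_cast Nat.factorial_le hrn
      have hpow : (2 : ℝ) ^ r ≤ 2 ^ n := pow_le_pow_right₀ (by norm_num) hrn
      gcongr
  have h9 := Real.log_le_log (by positivity) h8
  have hfacpos : (0 : ℝ) < n.factorial := by exact_mod_cast Nat.factorial_pos n
  have h2pos : (0 : ℝ) < 2 ^ n := by positivity
  have h2pos' : (0 : ℝ) < 2 ^ (n + 1) := by positivity
  rw [Real.log_mul (by positivity) (by positivity), Real.log_div hκ.ne' (by positivity),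
    Real.log_div (Real.exp_pos _).ne' hσ0.ne', Real.log_exp, Real.log_pow,
    Real.log_mul (by positivity) (Real.exp_pos _).ne', Real.log_exp,
    Real.log_mul (by norm_num) (by positivity), Real.log_mul h2pos.ne' hfacpos.ne',
    Real.log_pow] at h9
  have h10 : Real.log σ = - Real.log (Real.log X) := by
    rw [hσ, Real.log_div (by norm_num) hlogX.ne', Real.log_one]
    ring
  rw [h10] at h9
  push_cast at h9 ⊢
  linarith

/-- The key inequality for a number field. -/
theorem field_key {A : ℝ} {X : ℕ} (hX : 3 ≤ X) (hcut : cutoff K ≤ (X : ℝ) ^ A) :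
    ∀ᶠ z : ℕ in atTop, ∑ p ∈ Nat.primesBelow z, (degOne K p : ℝ) / p ≤
      Real.log (Real.log z) - Real.log (Real.log X) +
        ∑ p ∈ Nat.primesBelow X, (degOne K p : ℝ) / p + fieldConst (finrank ℚ K) A := by
  filter_upwards [upper_at_z K] with z hz
  have h := lower_at_X K hX hcut
  unfold fieldConst
  linarith

end Pool.Agent.Lib.H59
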