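import Mathlib
import Pool.Agent.Lib.H59.PolyField
import Pool.Agent.Lib.H59.FieldKey

/-!
# A uniform Mertens upper bound for the roots modulo primes of an irreducible polynomial

-/

open Set Module Filter Topology NumberField IsDedekindDomain Polynomial
open scoped NNReal nonZeroDivisors ENNReal
open Ideal (absNorm)

noncomputable section

namespace Pool.Agent.Lib.H59

/-- The number of residues `a` modulo `p` with `f a ≡ 0`. -/
def rootCount (f : ℤ[X]) (p : ℕ) : ℕ :=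
  ((Finset.range p).filter fun a : ℕ => (p : ℤ) ∣ f.eval (a : ℤ)).card

theorem eq_of_dvd_sub {p a b : ℕ} (ha : a < p) (hb : b < p) (h : (p : ℤ) ∣ (a : ℤ) - b) :
    a = b := by
  have h1 : |(a : ℤ) - b| < p := by
    rw [abs_lt]
    constructor <;> omega
  have h2 := Int.eq_zero_of_abs_lt_dvd h h1
  omega

theorem rootCount_le_degOne {K : Type*} [Field K] [NumberField K] {f : ℤ[X]}
    (hn : 1 ≤ f.natDegree) {B : PowerBasis ℚ K} {η : 𝓞 K}
    (hη : B.gen = (η : K)) (hmin : minpoly ℤ η = f.integralNormalization) {Δ : ℤ}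
    (hΔ : (Δ : ℚ) = Algebra.discr ℚ B.basis) {p : ℕ} (hp : p.Prime) (hpΔ : ¬ (p : ℤ) ∣ Δ)
    (hpl : ¬ (p : ℤ) ∣ f.leadingCoeff) : rootCount f p ≤ degOne K p := by
  classical
  have hpZ : Prime (p : ℤ) := Nat.prime_iff_prime_int.mp hp
  have hl0 : f.leadingCoeff ≠ 0 := by
    intro h; rw [h] at hpl; exact hpl (dvd_zero _)
  set T : Finset ℤ := ((Finset.range p).filter fun a : ℕ => (p : ℤ) ∣ f.eval (a : ℤ)).image
    (fun a : ℕ => f.leadingCoeff * a) with hT
  have hcard : T.card = rootCount f p := by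
    rw [hT, Finset.card_image_of_injective]
    · rfl
    · intro a b hab
      have := mul_left_cancel₀ hl0 hab
      exact_mod_cast this
  rw [← hcard]
  refine card_roots_le_degOne hη hΔ hp hpΔ T ?_ ?_
  · intro m hm
    rw [hT, Finset.mem_image] at hm
    obtain ⟨a, ha, rfl⟩ := hm
    rw [Finset.mem_filter] at ha
    rw [hmin]
    have h := integralNormalization_eval₂_leadingCoeff_mul (p := f) hn (RingHom.id ℤ) (a : ℤ)
    simp only [eval₂_id, RingHom.id_apply] at h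
    rw [h]
    exact Dvd.dvd.mul_left ha.2 _
  · intro m hm m' hm' hd
    rw [hT, Finset.mem_image] at hm hm'
    obtain ⟨a, ha, rfl⟩ := hm
    obtain ⟨b, hb, rfl⟩ := hm'
    rw [Finset.mem_filter, Finset.mem_range] at ha hb
    rw [← mul_sub] at hd
    have h2 := (hpZ.dvd_or_dvd hd).resolve_left hpl
    rw [eq_of_dvd_sub ha.1 hb.1 h2]

theorem map_zmod_ne_zero {f : ℤ[X]} (hf : f.IsPrimitive) {p : ℕ} (hp : p.Prime) :
    f.map (Int.castRingHom (ZMod p)) ≠ 0 := by
  intro h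
  have h1 : C (p : ℤ) ∣ f := by
    rw [C_dvd_iff_dvd_coeff]
    intro i
    have := congrArg (fun q => q.coeff i) h
    simp only [coeff_map, coeff_zero, eq_intCast] at this
    exact (ZMod.intCast_zmod_eq_zero_iff_dvd _ _).mp this
  have h2 := hf _ h1
  exact (Nat.prime_iff_prime_int.mp hp).not_isUnit h2

theorem rootCount_le_natDegree {f : ℤ[X]} (hf : f.IsPrimitive) {p : ℕ} (hp : p.Prime) :
    rootCount f p ≤ f.natDegree := by
  classical
  have : Fact p.Prime := ⟨hp⟩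
  set g := f.map (Int.castRingHom (ZMod p)) with hg
  have hg0 : g ≠ 0 := map_zmod_ne_zero hf hp
  have h1 : rootCount f p ≤ g.roots.toFinset.card := by
    unfold rootCount
    refine Finset.card_le_card_of_injOn (fun a : ℕ => (a : ZMod p)) ?_ ?_
    · intro a ha
      rw [Finset.mem_coe, Finset.mem_filter] at ha
      rw [Finset.mem_coe, Multiset.mem_toFinset, mem_roots hg0, IsRoot.def, hg]
      have h2 : ((f.eval (a : ℤ) : ℤ) : ZMod p) = 0 :=
        (ZMod.intCast_zmod_eq_zero_iff_dvd _ _).mpr ha.2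
      rw [eval_map, eval₂_eq_eval_map] at *
      have h3 := eval_intCast_map (Int.castRingHom (ZMod p)) f (a : ℤ)
      simp only [Int.cast_natCast, eq_intCast] at h3
      rw [h3]
      exact h2
    · intro a ha b hb hab
      rw [Finset.mem_coe, Finset.mem_filter, Finset.mem_range] at ha hb
      have := (ZMod.natCast_eq_natCast_iff' a b p).mp hab
      rwa [Nat.mod_eq_of_lt ha.1, Nat.mod_eq_of_lt hb.1] at this
  refine h1.trans ((Multiset.toFinset_card_le _).trans ((card_roots' g).trans ?_))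
  rw [hg]
  exact natDegree_map_le

/-- A nonzero integer has few large prime divisors. -/
theorem card_large_primes_le {M : ℤ} (hM : M ≠ 0) {X : ℕ} (hX : 2 ≤ X) {B : ℝ}
    (hB : |(M : ℝ)| ≤ (X : ℝ) ^ B) (T : Finset ℕ) (hT : ∀ p ∈ T, p.Prime ∧ X ≤ p ∧ (p : ℤ) ∣ M) :
    (T.card : ℝ) ≤ B := by
  have hX1 : (1 : ℝ) < X := by exact_mod_cast (by omega : 1 < X)
  have h1 : ∏ p ∈ T, p ∣ M.natAbs := by
    refine Finset.prod_primes_dvd _ (fun p hp => (hT p hp).1.prime) (fun p hp => ?_)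
    exact Int.natCast_dvd.mp (hT p hp).2.2
  have h2 : ∏ p ∈ T, p ≤ M.natAbs := Nat.le_of_dvd (Int.natAbs_pos.mpr hM) h1
  have h3 : X ^ T.card ≤ ∏ p ∈ T, p := by
    rw [← Finset.prod_const]
    exact Finset.prod_le_prod' fun p hp => (hT p hp).2.1
  have h4 : (X : ℝ) ^ (T.card : ℝ) ≤ (X : ℝ) ^ B := by
    rw [Real.rpow_natCast]
    calc (X : ℝ) ^ T.card ≤ (M.natAbs : ℝ) := by exact_mod_cast h3.trans h2
      _ = |(M : ℝ)| := by rw [Nat.cast_natAbs, Int.cast_abs]
      _ ≤ _ := hB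
  exact (Real.rpow_le_rpow_left_iff hX1).mp h4

/-- The constant in `poly_key`. -/
def polyConst (n : ℕ) (A : ℝ) : ℝ :=
  fieldConst n (n + 1 + (1 + A) * n ^ 2) + (A + (2 + 2 * A) * n ^ 2) * n

theorem poly_key {f : ℤ[X]} (hf : Irreducible f) (hn : 1 ≤ f.natDegree) {A : ℝ}
    {X : ℕ} (hX : 3 ≤ X) (hH : coeffSum f ≤ (X : ℝ) ^ A) :
    ∀ᶠ z : ℕ in atTop, ∑ p ∈ (Nat.primesBelow z).filter (X ≤ ·), (rootCount f p : ℝ) / p ≤
      Real.log (Real.log z) - Real.log (Real.log X) + polyConst f.natDegree A := by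
  classical
  obtain ⟨K, hKf, hKn, θ, hθ, hdeg⟩ := exists_field f hf hn
  obtain ⟨B, η, hη, hηθ, hmin⟩ := exists_powerBasis hf hn hθ hdeg
  obtain ⟨Δ, hΔ⟩ := exists_int_discr hη
  set n := f.natDegree with hnd
  have hf0 : f ≠ 0 := hf.ne_zero
  have hl0 : f.leadingCoeff ≠ 0 := leadingCoeff_ne_zero.mpr hf0
  have hprim : f.IsPrimitive := hf.isPrimitive (by omega)
  have hX0 : (0 : ℝ) < X := by positivity
  have hX1 : (1 : ℝ) ≤ X := by exact_mod_cast (by omega : 1 ≤ X)
  have hH1 : 1 ≤ coeffSum f := one_le_coeffSum hf0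
  have hHX : coeffSum f ≤ (X : ℝ) ^ A := hH
  -- conjugates
  have hconj : ∀ σ : K →ₐ[ℚ] ℂ, ‖σ B.gen‖ ≤ coeffSum f := by
    intro σ
    rw [hη, hηθ, map_mul, map_intCast]
    refine norm_leadingCoeff_mul_root_le hn ?_
    have h := congrArg σ hθ
    rw [map_zero, ← AlgHom.coe_toRingHom σ, hom_eval₂] at h
    rw [← h]
    congr 1
    exact RingHom.ext_int _ _
  have hΔabs := abs_int_discr_le hΔ hH1 hconj
  rw [hdeg] at hΔabs
  have hΔ0 : Δ ≠ 0 := by
    intro h0
    have h1 := Algebra.discr_not_zero_of_basis ℚ B.basis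
    rw [← hΔ, h0] at h1
    simp at h1
  have h4 : 4 * coeffSum f ^ 2 ≤ (X : ℝ) ^ (2 + 2 * A) := by
    have e : (X : ℝ) ^ (2 + 2 * A) = (X : ℝ) ^ (2 : ℝ) * ((X : ℝ) ^ A) ^ 2 := by
      rw [Real.rpow_add hX0, mul_comm 2 A, Real.rpow_mul hX0.le A 2, Real.rpow_two, Real.rpow_two]
    rw [e]
    have h5 : (4 : ℝ) ≤ (X : ℝ) ^ (2 : ℝ) := by
      rw [Real.rpow_two]
      have : (2 : ℝ) ≤ X := by exact_mod_cast (by omega : 2 ≤ X)
      nlinarith
    gcongr
  have hΔX : |(Δ : ℝ)| ≤ (X : ℝ) ^ ((2 + 2 * A) * n ^ 2) := by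
    refine hΔabs.trans ?_
    calc (4 * coeffSum f ^ 2) ^ (n ^ 2) ≤ ((X : ℝ) ^ (2 + 2 * A)) ^ (n ^ 2) := by gcongr
      _ = (X : ℝ) ^ ((2 + 2 * A) * n ^ 2) := by
        rw [← Real.rpow_natCast, ← Real.rpow_mul hX0.le]
        push_cast
        rfl
  -- the cutoff
  have hcut : cutoff K ≤ (X : ℝ) ^ ((n : ℝ) + 1 + (1 + A) * n ^ 2) := by
    unfold cutoff
    rw [hdeg]
    have h1 : |(discr K : ℝ)| ≤ |(Δ : ℝ)| := by
      have := abs_discr_le hη hΔ
      exact_mod_cast this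
    have h2 : √|(discr K : ℝ)| ≤ (X : ℝ) ^ ((1 + A) * n ^ 2) := by
      rw [Real.sqrt_le_left (by positivity)]
      refine h1.trans (hΔX.trans (le_of_eq ?_))
      have e : ∀ u : ℝ, ((X : ℝ) ^ u) ^ 2 = (X : ℝ) ^ (u + u) := fun u => by
        rw [Real.rpow_add hX0, sq]
      rw [e]
      congr 1
      ring
    have h3 : (2 : ℝ) ^ (n + 1) ≤ (X : ℝ) ^ ((n : ℝ) + 1) := by
      have : (2 : ℝ) ≤ X := by exact_mod_cast (by omega : 2 ≤ X)
      calc (2 : ℝ) ^ (n + 1) ≤ (X : ℝ) ^ (n + 1) := by gcongr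
        _ = _ := by rw [← Real.rpow_natCast]; push_cast; rfl
    rw [Real.rpow_add hX0]
    gcongr
  have hkey := field_key (K := K) hX hcut
  rw [hdeg] at hkey
  filter_upwards [hkey, eventually_ge_atTop X] with z hz hzX
  -- split into good and bad primes
  set S := (Nat.primesBelow z).filter (X ≤ ·) with hS
  set bad := S.filter fun p : ℕ => (p : ℤ) ∣ f.leadingCoeff * Δ with hbad
  have hprime : ∀ p ∈ S, p.Prime ∧ X ≤ p := by
    intro p hp
    rw [hS, Finset.mem_filter] at hp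
    exact ⟨Nat.prime_of_mem_primesBelow hp.1, hp.2⟩
  have hbadcard : (bad.card : ℝ) ≤ A + (2 + 2 * A) * n ^ 2 := by
    refine card_large_primes_le (M := f.leadingCoeff * Δ) (mul_ne_zero hl0 hΔ0) (by omega : 2 ≤ X)
      ?_ bad ?_
    · rw [Int.cast_mul, abs_mul, Real.rpow_add hX0]
      exact mul_le_mul ((abs_leadingCoeff_le f).trans hHX) hΔX (abs_nonneg _) (by positivity)
    · intro p hp
      rw [hbad, Finset.mem_filter] at hp
      exact ⟨(hprime p hp.1).1, (hprime p hp.1).2, hp.2⟩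
  have hpoint : ∀ p ∈ S, (rootCount f p : ℝ) / p ≤ (degOne K p : ℝ) / p +
      (if (p : ℤ) ∣ f.leadingCoeff * Δ then (n : ℝ) else 0) := by
    intro p hp
    obtain ⟨hpp, hpX⟩ := hprime p hp
    have hp1 : (1 : ℝ) ≤ p := by exact_mod_cast hpp.one_le
    split_ifs with hd
    · have h1 : (rootCount f p : ℝ) / p ≤ n := by
        have h2 : (rootCount f p : ℝ) ≤ n := by exact_mod_cast rootCount_le_natDegree hprim hpp
        have h3 : (rootCount f p : ℝ) / p ≤ rootCount f p := div_le_self (by positivity) hp1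
        linarith
      have h2 : 0 ≤ (degOne K p : ℝ) / p := by positivity
      linarith
    · rw [add_zero]
      have h1 : ¬ (p : ℤ) ∣ f.leadingCoeff := fun h => hd (Dvd.dvd.mul_right h _)
      have h2 : ¬ (p : ℤ) ∣ Δ := fun h => hd (Dvd.dvd.mul_left h _)
      have h3 := rootCount_le_degOne hn hη hmin hΔ hpp h2 h1
      have h4 : (rootCount f p : ℝ) ≤ degOne K p := by exact_mod_cast h3
      gcongr
  have hsum := Finset.sum_le_sum hpoint
  rw [Finset.sum_add_distrib, ← Finset.sum_filter, ← hbad, Finset.sum_const, nsmul_eq_mul] at hsum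
  have hsplit := Finset.sum_filter_add_sum_filter_not (Nat.primesBelow z) (X ≤ ·)
    (fun p => (degOne K p : ℝ) / p)
  have hlow : (Nat.primesBelow z).filter (fun p => ¬ X ≤ p) = Nat.primesBelow X := by
    ext p
    simp only [Finset.mem_filter, Nat.mem_primesBelow, not_le]
    constructor
    · rintro ⟨⟨_, h2⟩, h3⟩
      exact ⟨h3, h2⟩
    · rintro ⟨h1, h2⟩
      exact ⟨⟨lt_of_lt_of_le h1 hzX, h2⟩, h1⟩
  rw [hlow, ← hS] at hsplit
  unfold polyConst
  have hn0 : (0 : ℝ) ≤ n := by positivity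
  have h1 : (bad.card : ℝ) * n ≤ (A + (2 + 2 * A) * n ^ 2) * n :=
    mul_le_mul_of_nonneg_right hbadcard hn0
  linarith

end Pool.Agent.Lib.H59
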