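import Mathlib
import Pool.Agent.Lib.H59.ChebLite
import Pool.Agent.Lib.H59.SieveMain

/-!
# Lower bound for the Selberg sum

-/

open Finset ArithmeticFunction
open scoped ArithmeticFunction.Moebius ArithmeticFunction.zeta

noncomputable section

namespace Pool.Agent.Lib.H59

variable {s : BoundingSieve}

theorem selbergTerms_prime {p : ℕ} (hp : p.Prime) :
    s.selbergTerms p = s.nu p * (1 - s.nu p)⁻¹ := by
  rw [BoundingSieve.selbergTerms_apply, hp.primeFactors, prod_singleton]

theorem selS_lower {κ y R : ℝ} (hκ : 0 ≤ κ) (hy : 2 ≤ y) (hR : 1 ≤ R)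
    (hP : ∀ p : ℕ, p.Prime → p ∣ s.prodPrimes → (p : ℝ) ≤ y)
    (hnu : ∀ p : ℕ, p.Prime → p ∣ s.prodPrimes → s.nu p ≤ κ / p)
    (hRy : (Real.log 2 + 28 * κ * Real.log 4) * Real.log y ≤ Real.log R) :
    1 / 2 * ∏ p ∈ s.prodPrimes.primeFactors, (1 - s.nu p)⁻¹ ≤ selS s R := by
  have hlogy : 0 < Real.log y := Real.log_pos (by linarith)
  have hR0 : 0 < R := by linarith
  set P := s.prodPrimes with hPdef
  have hsq : Squarefree P := s.prodPrimes_squarefree
  have hP0 : P ≠ 0 := hsq.ne_zero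
  set g := s.selbergTerms with hg
  have hprime : ∀ p ∈ P.primeFactors, p.Prime ∧ p ∣ P := fun p hp =>
    ⟨Nat.prime_of_mem_primeFactors hp, Nat.dvd_of_mem_primeFactors hp⟩
  have hone : ∀ p ∈ P.primeFactors, 1 + g p = (1 - s.nu p)⁻¹ := by
    intro p hp
    obtain ⟨h1, h2⟩ := hprime p hp
    have h3 := s.nu_lt_one_of_prime p h1 h2
    have h4 : 1 - s.nu p ≠ 0 := by linarith
    rw [hg, selbergTerms_prime h1]
    field_simp
    ring
  have htot : ∑ l ∈ P.divisors, g l = ∏ p ∈ P.primeFactors, (1 - s.nu p)⁻¹ := by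
    rw [← IsMultiplicative.prodPrimeFactors_one_add_of_squarefree
      BoundingSieve.selbergTerms_isMultiplicative hsq]
    exact prod_congr rfl hone
  set ε : ℝ := 1 / Real.log y with hε
  have hε0 : 0 < ε := by positivity
  set F : ArithmeticFunction ℝ := ArithmeticFunction.prodPrimeFactors
    (fun p => g p * (p : ℝ) ^ ε) with hF
  have hFmult : F.IsMultiplicative := IsMultiplicative.prodPrimeFactors _
  have hFl : ∀ l ∈ P.divisors, F l = g l * (l : ℝ) ^ ε := by
    intro l hl
    have hlP := Nat.dvd_of_mem_divisors hl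
    have hlsq : Squarefree l := hsq.squarefree_of_dvd hlP
    rw [hF, prodPrimeFactors_apply hlsq.ne_zero, prod_mul_distrib]
    congr 1
    · rw [← BoundingSieve.selbergTerms_isMultiplicative.map_prod_of_subset_primeFactors _ _
        subset_rfl, Nat.prod_primeFactors_of_squarefree hlsq]
    · rw [Real.finsetProd_rpow _ _ (fun p _ => by positivity), ← Nat.cast_prod,
        Nat.prod_primeFactors_of_squarefree hlsq]
  have hFp : ∀ p ∈ P.primeFactors, F p = g p * (p : ℝ) ^ ε := by
    intro p hp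
    exact hFl p (Nat.mem_divisors.mpr ⟨(hprime p hp).2, hP0⟩)
  have hFsum : ∑ l ∈ P.divisors, g l * (l : ℝ) ^ ε =
      ∏ p ∈ P.primeFactors, (1 + g p * (p : ℝ) ^ ε) := by
    rw [← sum_congr rfl hFl, ← IsMultiplicative.prodPrimeFactors_one_add_of_squarefree hFmult hsq]
    exact prod_congr rfl fun p hp => by rw [hFp p hp]
  have hgpos : ∀ l ∈ P.divisors, 0 < g l := fun l hl =>
    BoundingSieve.selbergTerms_pos (Nat.dvd_of_mem_divisors hl)
  -- the tail
  have htail : ∑ l ∈ P.divisors.filter (fun l : ℕ => ¬ (l : ℝ) ≤ R), g l ≤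
      R ^ (-ε) * ∏ p ∈ P.primeFactors, (1 + g p * (p : ℝ) ^ ε) := by
    rw [← hFsum, mul_sum]
    refine le_trans (sum_le_sum fun l hl => ?_)
      (sum_le_sum_of_subset_of_nonneg (filter_subset _ _) fun l hl _ => ?_)
    · rw [mem_filter, not_le] at hl
      have h1 := hgpos l hl.1
      have h2 : 1 ≤ R ^ (-ε) * (l : ℝ) ^ ε := by
        rw [Real.rpow_neg hR0.le, ← div_eq_inv_mul, one_le_div (by positivity)]
        exact Real.rpow_le_rpow hR0.le hl.2.le hε0.le
      calc g l = g l * 1 := (mul_one _).symm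
        _ ≤ g l * (R ^ (-ε) * (l : ℝ) ^ ε) := by gcongr
        _ = _ := by ring
    · have h1 := hgpos l hl
      positivity
  -- the ratio
  have hratio : ∏ p ∈ P.primeFactors, (1 + g p * (p : ℝ) ^ ε) ≤
      (∏ p ∈ P.primeFactors, (1 - s.nu p)⁻¹) * Real.exp (28 * κ * Real.log 4) := by
    have h1 : ∀ p ∈ P.primeFactors, 1 + g p * (p : ℝ) ^ ε ≤
        (1 - s.nu p)⁻¹ * Real.exp (2 * κ / Real.log y * (Real.log p / p)) := by
      intro p hp
      obtain ⟨hpp, hpP⟩ := hprime p hp
      have hp0 : (0 : ℝ) < p := by exact_mod_cast hpp.pos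
      have hp1 : (1 : ℝ) ≤ p := by exact_mod_cast hpp.one_le
      have h3 := s.nu_lt_one_of_prime p hpp hpP
      have h3' := s.nu_pos_of_prime p hpp hpP
      have h4 : 1 - s.nu p ≠ 0 := by linarith
      have h4' : 0 < 1 - s.nu p := by linarith
      have e : 1 + g p * (p : ℝ) ^ ε =
          (1 - s.nu p)⁻¹ * (s.nu p * ((p : ℝ) ^ ε - 1) + 1) := by
        rw [hg, selbergTerms_prime hpp]
        field_simp
        ring
      rw [e]
      refine mul_le_mul_of_nonneg_left ?_ (inv_nonneg.mpr h4'.le)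
      refine (Real.add_one_le_exp _).trans (Real.exp_le_exp.mpr ?_)
      have hlogp : 0 ≤ Real.log p := Real.log_nonneg hp1
      have hlogpy : Real.log p ≤ Real.log y := Real.log_le_log hp0 (hP p hpp hpP)
      have h5 : (p : ℝ) ^ ε - 1 ≤ 2 * (Real.log p * ε) := by
        rw [Real.rpow_def_of_pos hp0]
        have h6 : 0 ≤ Real.log p * ε := by positivity
        have h7 : Real.log p * ε ≤ 1 := by
          rw [hε, mul_one_div, div_le_one hlogy]
          exact hlogpy
        have h8 := Real.abs_exp_sub_one_le (x := Real.log p * ε) (by rw [abs_of_nonneg h6]; exact h7)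
        rw [abs_of_nonneg h6] at h8
        exact (le_abs_self _).trans h8
      have h9 : 0 ≤ (p : ℝ) ^ ε - 1 := by
        have := Real.one_le_rpow hp1 hε0.le
        linarith
      calc s.nu p * ((p : ℝ) ^ ε - 1) ≤ (κ / p) * (2 * (Real.log p * ε)) :=
            mul_le_mul (hnu p hpp hpP) h5 h9 (by positivity)
        _ = _ := by rw [hε]; field_simp
    calc ∏ p ∈ P.primeFactors, (1 + g p * (p : ℝ) ^ ε)
        ≤ ∏ p ∈ P.primeFactors,
          ((1 - s.nu p)⁻¹ * Real.exp (2 * κ / Real.log y * (Real.log p / p))) := by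
          refine prod_le_prod (fun p hp => ?_) h1
          have := hgpos p (Nat.mem_divisors.mpr ⟨(hprime p hp).2, hP0⟩)
          positivity
      _ = (∏ p ∈ P.primeFactors, (1 - s.nu p)⁻¹) *
          Real.exp (2 * κ / Real.log y * ∑ p ∈ P.primeFactors, Real.log p / p) := by
          rw [prod_mul_distrib, mul_sum, Real.exp_sum]
      _ ≤ _ := by
          have h2 := sum_log_div_le P.primeFactors (fun p hp => (hprime p hp).1) hy
            (fun p hp => hP p (hprime p hp).1 (hprime p hp).2)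
          have h3 : 2 * κ / Real.log y * ∑ p ∈ P.primeFactors, Real.log p / p ≤
              28 * κ * Real.log 4 := by
            calc 2 * κ / Real.log y * ∑ p ∈ P.primeFactors, Real.log p / p
                ≤ 2 * κ / Real.log y * (14 * Real.log 4 * Real.log y) := by gcongr
              _ = _ := by field_simp; ring
          have h4 : 0 ≤ ∏ p ∈ P.primeFactors, (1 - s.nu p)⁻¹ := by
            refine prod_nonneg fun p hp => inv_nonneg.mpr ?_
            have := s.nu_lt_one_of_prime p (hprime p hp).1 (hprime p hp).2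
            linarith
          gcongr
  set W : ℝ := ∏ p ∈ P.primeFactors, (1 - s.nu p)⁻¹ with hW
  have hW0 : 0 ≤ W := by
    refine prod_nonneg fun p hp => inv_nonneg.mpr ?_
    have := s.nu_lt_one_of_prime p (hprime p hp).1 (hprime p hp).2
    linarith
  have hhalf : R ^ (-ε) * Real.exp (28 * κ * Real.log 4) ≤ 1 / 2 := by
    rw [Real.rpow_def_of_pos hR0, ← Real.exp_add]
    have h1 : Real.log 2 + 28 * κ * Real.log 4 ≤ Real.log R * ε := by
      rw [hε, mul_one_div, le_div_iff₀ hlogy]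
      exact hRy
    calc Real.exp (Real.log R * -ε + 28 * κ * Real.log 4) ≤ Real.exp (-Real.log 2) := by
          apply Real.exp_le_exp.mpr
          linarith
      _ = 1 / 2 := by
          rw [Real.exp_neg, Real.exp_log (by norm_num), one_div]
  have hsplit := sum_filter_add_sum_filter_not P.divisors (fun l : ℕ => (l : ℝ) ≤ R) (fun l => g l)
  rw [htot] at hsplit
  have hSdef : selS s R = ∑ l ∈ P.divisors.filter (fun l : ℕ => (l : ℝ) ≤ R), g l := rfl
  rw [← hSdef] at hsplit
  have hfin : ∑ l ∈ P.divisors.filter (fun l : ℕ => ¬ (l : ℝ) ≤ R), g l ≤ 1 / 2 * W := by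
    calc ∑ l ∈ P.divisors.filter (fun l : ℕ => ¬ (l : ℝ) ≤ R), g l
        ≤ R ^ (-ε) * (W * Real.exp (28 * κ * Real.log 4)) :=
          htail.trans (mul_le_mul_of_nonneg_left hratio (by positivity))
      _ = (R ^ (-ε) * Real.exp (28 * κ * Real.log 4)) * W := by ring
      _ ≤ 1 / 2 * W := mul_le_mul_of_nonneg_right hhalf hW0
  linarith

/-- Trivial upper bound for the Selberg sum. -/
theorem selS_le {R : ℝ} (hR : 1 ≤ R)
    (hnu : ∀ p : ℕ, p.Prime → p ∣ s.prodPrimes → (1 - s.nu p)⁻¹ ≤ p) :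
    selS s R ≤ R ^ 2 := by
  unfold selS
  have h1 : ∀ l ∈ lvl s R, s.selbergTerms l ≤ R := by
    intro l hl
    obtain ⟨hlP, hlR⟩ := mem_lvl.mp hl
    have hsq := BoundingSieve.squarefree_of_dvd_prodPrimes hlP
    have hnu1 : s.nu l ≤ 1 := by
      by_cases h : l = 1
      · rw [h, s.nu_mult.map_one]
      · exact (BoundingSieve.nu_lt_one_of_dvd_prodPrimes hlP h).le
    have h0 := BoundingSieve.nu_pos_of_dvd_prodPrimes hlP
    rw [BoundingSieve.selbergTerms_apply]
    have h2 : ∏ p ∈ l.primeFactors, (1 - s.nu p)⁻¹ ≤ l := by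
      calc ∏ p ∈ l.primeFactors, (1 - s.nu p)⁻¹ ≤ ∏ p ∈ l.primeFactors, (p : ℝ) := by
            refine prod_le_prod (fun p hp => ?_) (fun p hp => ?_)
            · have := s.nu_lt_one_of_prime p (Nat.prime_of_mem_primeFactors hp)
                ((Nat.dvd_of_mem_primeFactors hp).trans hlP)
              exact inv_nonneg.mpr (by linarith)
            · exact hnu p (Nat.prime_of_mem_primeFactors hp)
                ((Nat.dvd_of_mem_primeFactors hp).trans hlP)
        _ = l := by
            rw [← Nat.cast_prod, Nat.prod_primeFactors_of_squarefree hsq]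
    have h3 : 0 ≤ ∏ p ∈ l.primeFactors, (1 - s.nu p)⁻¹ := by
      refine prod_nonneg fun p hp => ?_
      have := s.nu_lt_one_of_prime p (Nat.prime_of_mem_primeFactors hp)
        ((Nat.dvd_of_mem_primeFactors hp).trans hlP)
      exact inv_nonneg.mpr (by linarith)
    calc s.nu l * ∏ p ∈ l.primeFactors, (1 - s.nu p)⁻¹ ≤ 1 * l := by gcongr
      _ ≤ R := by rw [one_mul]; exact hlR
  refine (sum_le_sum h1).trans ?_
  rw [sum_const, nsmul_eq_mul, sq]
  exact mul_le_mul_of_nonneg_right (card_lvl_le hR) (by linarith)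

/-- The Selberg sieve in final form. -/
theorem selberg_final {κ y R : ℝ} (hκ : 0 ≤ κ) (hy : 2 ≤ y) (hR : 1 ≤ R)
    (hP : ∀ p : ℕ, p.Prime → p ∣ s.prodPrimes → (p : ℝ) ≤ y)
    (hnu : ∀ p : ℕ, p.Prime → p ∣ s.prodPrimes → s.nu p ≤ κ / p)
    (hRy : (Real.log 2 + 28 * κ * Real.log 4) * Real.log y ≤ Real.log R)
    (hrem : ∀ d : ℕ, d ∣ s.prodPrimes → |s.rem d| ≤ d)
    (hnu2 : ∀ p : ℕ, p.Prime → p ∣ s.prodPrimes → (1 - s.nu p)⁻¹ ≤ p)
    (hX : R ^ 12 ≤ s.totalMass) :
    s.siftedSum ≤ 4 * s.totalMass * ∏ p ∈ s.prodPrimes.primeFactors, (1 - s.nu p) ∧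
    R ^ 10 ≤ 2 * s.totalMass * ∏ p ∈ s.prodPrimes.primeFactors, (1 - s.nu p) := by
  have h1 := selberg_sieve (s := s) hR hrem hnu2
  have h2 := selS_lower (s := s) hκ hy hR hP hnu hRy
  have h3 := selS_le (s := s) hR hnu2
  have hS := one_le_selS (s := s) hR
  have hR0 : 0 < R := by linarith
  have hM0 : 0 < s.totalMass := lt_of_lt_of_le (by positivity) hX
  rw [prod_inv_distrib] at h2
  set W : ℝ := ∏ p ∈ s.prodPrimes.primeFactors, (1 - s.nu p) with hW
  have hW0 : 0 < W := by
    refine prod_pos fun p hp => ?_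
    have := s.nu_lt_one_of_prime p (Nat.prime_of_mem_primeFactors hp)
      (Nat.dvd_of_mem_primeFactors hp)
    linarith
  have h4 : s.totalMass / selS s R ≤ 2 * s.totalMass * W := by
    rw [div_le_iff₀ (by linarith)]
    have h5 : 1 ≤ 2 * W * selS s R := by
      have h6 : 1 / 2 * W⁻¹ * (2 * W) ≤ selS s R * (2 * W) :=
        mul_le_mul_of_nonneg_right h2 (by positivity)
      have h7 : 1 / 2 * W⁻¹ * (2 * W) = 1 := by field_simp
      linarith
    nlinarith
  have h5 : R ^ 10 ≤ s.totalMass / selS s R := by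
    rw [le_div_iff₀ (by linarith)]
    calc R ^ 10 * selS s R ≤ R ^ 10 * R ^ 2 := by gcongr
      _ = R ^ 12 := by ring
      _ ≤ _ := hX
  have h6 : R ^ 6 ≤ R ^ 10 := pow_le_pow_right₀ hR (by norm_num)
  constructor
  · linarith
  · linarith

end Pool.Agent.Lib.H59
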