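import Mathlib
import Pool.Agent.Lib.H59.PolyKey
import Pool.Agent.Lib.H59.SieveRankin

/-!
# Sieving the values of an integer polynomial

-/

open Finset ArithmeticFunction Polynomial

noncomputable section

namespace Pool.Agent.Lib.H59

theorem dvd_eval_mod_iff (H : ℤ[X]) (d a : ℕ) :
    (d : ℤ) ∣ H.eval ((a % d : ℕ) : ℤ) ↔ (d : ℤ) ∣ H.eval (a : ℤ) := by
  have h1 : (d : ℤ) ∣ (a : ℤ) - ((a % d : ℕ) : ℤ) := by
    rw [Int.natCast_mod]
    exact Int.dvd_self_sub_emod
  have h2 : (d : ℤ) ∣ H.eval (a : ℤ) - H.eval ((a % d : ℕ) : ℤ) :=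
    h1.trans (Polynomial.sub_dvd_eval_sub _ _ _)
  constructor
  · intro h
    have := dvd_add h2 h
    simpa using this
  · intro h
    have := dvd_sub h h2
    simpa using this

theorem rootCount_zero (H : ℤ[X]) : rootCount H 0 = 0 := by simp [rootCount]

theorem rootCount_one (H : ℤ[X]) : rootCount H 1 = 1 := by simp [rootCount]

theorem rootCount_mul (H : ℤ[X]) {m n : ℕ} (hmn : m.Coprime n) :
    rootCount H (m * n) = rootCount H m * rootCount H n := by
  classical
  rcases Nat.eq_zero_or_pos m with rfl | hm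
  · simp [rootCount]
  rcases Nat.eq_zero_or_pos n with rfl | hn
  · simp [rootCount]
  unfold rootCount
  rw [← card_product]
  refine card_bij (fun a _ => (a % m, a % n)) ?_ ?_ ?_
  · intro a ha
    rw [mem_filter] at ha
    rw [mem_product, mem_filter, mem_filter, mem_range, mem_range]
    refine ⟨⟨Nat.mod_lt _ hm, ?_⟩, Nat.mod_lt _ hn, ?_⟩
    · rw [dvd_eval_mod_iff]
      exact (Int.natCast_dvd_natCast.mpr (dvd_mul_right m n)).trans ha.2
    · rw [dvd_eval_mod_iff]
      exact (Int.natCast_dvd_natCast.mpr (dvd_mul_left n m)).trans ha.2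
  · intro a ha b hb hab
    rw [mem_filter, mem_range] at ha hb
    rw [Prod.mk.injEq] at hab
    have h : a ≡ b [MOD m * n] := (Nat.modEq_and_modEq_iff_modEq_mul hmn).mp hab
    have h' : a % (m * n) = b % (m * n) := h
    rwa [Nat.mod_eq_of_lt ha.1, Nat.mod_eq_of_lt hb.1] at h'
  · intro b hb
    rw [mem_product, mem_filter, mem_filter, mem_range, mem_range] at hb
    obtain ⟨⟨hb1, hb2⟩, hb3, hb4⟩ := hb
    obtain ⟨c, hc1, hc2⟩ := Nat.chineseRemainder hmn b.1 b.2
    have e1 : c % (m * n) % m = b.1 := by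
      rw [Nat.mod_mul_right_mod]
      have : c % m = b.1 % m := hc1
      rw [this, Nat.mod_eq_of_lt hb1]
    have e2 : c % (m * n) % n = b.2 := by
      rw [Nat.mod_mul_left_mod]
      have : c % n = b.2 % n := hc2
      rw [this, Nat.mod_eq_of_lt hb3]
    refine ⟨c % (m * n), ?_, by rw [e1, e2]⟩
    rw [mem_filter, mem_range]
    refine ⟨Nat.mod_lt _ (Nat.mul_pos hm hn), ?_⟩
    have h1 : (m : ℤ) ∣ H.eval ((c % (m * n) : ℕ) : ℤ) := by
      rw [← dvd_eval_mod_iff, e1]
      exact hb2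
    have h2 : (n : ℤ) ∣ H.eval ((c % (m * n) : ℕ) : ℤ) := by
      rw [← dvd_eval_mod_iff, e2]
      exact hb4
    rw [Nat.cast_mul]
    exact (Nat.isCoprime_iff_coprime.mpr hmn).mul_dvd h1 h2

theorem rootCount_le_self (H : ℤ[X]) (d : ℕ) : rootCount H d ≤ d := by
  unfold rootCount
  calc _ ≤ (range d).card := card_le_card (filter_subset _ _)
    _ = d := card_range d

/-- The density function. -/
def nuPoly (H : ℤ[X]) : ArithmeticFunction ℝ :=
  ⟨fun d => (rootCount H d : ℝ) / d, by simp⟩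

theorem nuPoly_apply (H : ℤ[X]) (d : ℕ) : nuPoly H d = (rootCount H d : ℝ) / d := rfl

theorem nuPoly_mult (H : ℤ[X]) : (nuPoly H).IsMultiplicative := by
  refine ⟨by simp [nuPoly_apply, rootCount_one], fun {m n} hmn => ?_⟩
  rw [nuPoly_apply, nuPoly_apply, nuPoly_apply, rootCount_mul H hmn]
  push_cast
  exact mul_div_mul_comm _ _ _ _

theorem card_blocks (p : ℕ → Prop) [DecidablePred p] {a : ℕ} (hp : Function.Periodic p a)
    (n₀ q : ℕ) : ((Ico n₀ (n₀ + q * a)).filter p).card = q * Nat.count p a := by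
  induction q with
  | zero => simp
  | succ q ih =>
    have h1 : Ico n₀ (n₀ + (q + 1) * a) =
        Ico n₀ (n₀ + q * a) ∪ Ico (n₀ + q * a) (n₀ + q * a + a) := by
      rw [Ico_union_Ico_eq_Ico (by omega) (by omega)]
      congr 1
      ring
    have h2 : Disjoint ((Ico n₀ (n₀ + q * a)).filter p)
        ((Ico (n₀ + q * a) (n₀ + q * a + a)).filter p) :=
      disjoint_filter_filter (Ico_disjoint_Ico_consecutive _ _ _)
    rw [h1, filter_union, card_union_of_disjoint h2, ih, Nat.filter_Ico_card_eq_of_periodic _ _ _ hp]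
    ring

theorem abs_card_sub_le (H : ℤ[X]) {d : ℕ} (hd : 0 < d) (X : ℕ) :
    |(((Icc 1 X).filter fun n : ℕ => (d : ℤ) ∣ H.eval (n : ℤ)).card : ℝ) -
      nuPoly H d * X| ≤ d := by
  classical
  set p : ℕ → Prop := fun n => (d : ℤ) ∣ H.eval (n : ℤ) with hp
  have hper : Function.Periodic p d := by
    intro n
    apply propext
    change (d : ℤ) ∣ H.eval ((n + d : ℕ) : ℤ) ↔ (d : ℤ) ∣ H.eval (n : ℤ)
    rw [← dvd_eval_mod_iff H d (n + d), Nat.add_mod_right, dvd_eval_mod_iff]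
  have hcount : Nat.count p d = rootCount H d := by
    rw [Nat.count_eq_card_filter_range]
    rfl
  have hIcc : Icc 1 X = Ico 1 (1 + X) := by
    ext n
    simp only [mem_Icc, mem_Ico]
    omega
  set q := X / d with hq
  have hlo : ((Ico 1 (1 + q * d)).filter p).card ≤ ((Icc 1 X).filter p).card := by
    rw [hIcc]
    refine card_le_card (filter_subset_filter _ (Ico_subset_Ico_right ?_))
    have : q * d ≤ X := Nat.div_mul_le_self X d
    omega
  have hhi : ((Icc 1 X).filter p).card ≤ ((Ico 1 (1 + (q + 1) * d)).filter p).card := by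
    rw [hIcc]
    refine card_le_card (filter_subset_filter _ (Ico_subset_Ico_right ?_))
    have h0 : X < d * (q + 1) := Nat.lt_mul_div_succ X hd
    rw [mul_comm] at h0
    omega
  rw [card_blocks p hper, hcount] at hlo hhi
  have hd' : (0 : ℝ) < d := by exact_mod_cast hd
  have hlo' : (q : ℝ) * rootCount H d ≤ ((Icc 1 X).filter p).card := by exact_mod_cast hlo
  have hhi' : (((Icc 1 X).filter p).card : ℝ) ≤ (q + 1) * rootCount H d := by exact_mod_cast hhi
  have hq1 : (q : ℝ) * d ≤ X := by exact_mod_cast Nat.div_mul_le_self X d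
  have hq2 : (X : ℝ) ≤ (q + 1) * d := by
    have := (Nat.lt_mul_div_succ X hd).le
    rw [mul_comm] at this
    exact_mod_cast this
  have hr : (rootCount H d : ℝ) ≤ d := by exact_mod_cast rootCount_le_self H d
  have hr0 : (0 : ℝ) ≤ rootCount H d := by positivity
  rw [nuPoly_apply]
  have h1 : (q : ℝ) * rootCount H d ≤ rootCount H d / d * X := by
    rw [div_mul_eq_mul_div, le_div_iff₀ hd']
    nlinarith
  have h2 : (rootCount H d : ℝ) / d * X ≤ (q + 1) * rootCount H d := by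
    rw [div_mul_eq_mul_div, div_le_iff₀ hd']
    nlinarith
  rw [abs_le]
  constructor <;> linarith

/-- The primes to be sieved out. -/
def sievePrimes (H : ℤ[X]) (Y : ℕ) : Finset ℕ :=
  (Nat.primesBelow Y).filter fun p => 0 < rootCount H p

theorem mem_sievePrimes {H : ℤ[X]} {Y p : ℕ} :
    p ∈ sievePrimes H Y ↔ (p < Y ∧ p.Prime) ∧ 0 < rootCount H p := by
  unfold sievePrimes
  rw [mem_filter, Nat.mem_primesBelow]

theorem prime_dvd_prod_iff {T : Finset ℕ} (hT : ∀ p ∈ T, p.Prime) {p : ℕ} (hp : p.Prime) :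
    p ∣ ∏ q ∈ T, q ↔ p ∈ T := by
  constructor
  · intro h
    obtain ⟨q, hq, hpq⟩ := (hp.prime.dvd_finsetProd_iff _).mp h
    rwa [(Nat.prime_dvd_prime_iff_eq hp (hT q hq)).mp hpq]
  · intro h
    exact dvd_prod_of_mem _ h

theorem squarefree_prod_primes {T : Finset ℕ} (hT : ∀ p ∈ T, p.Prime) :
    Squarefree (∏ q ∈ T, q) := by
  refine Finset.squarefree_prod_of_pairwise_isCoprime (fun a ha b hb hab => ?_)
    fun p hp => (hT p hp).squarefree
  simp only [← Nat.coprime_iff_isRelPrime]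
  exact (Nat.coprime_primes (hT a ha) (hT b hb)).mpr hab

theorem primeFactors_prod {T : Finset ℕ} (hT : ∀ p ∈ T, p.Prime) :
    (∏ q ∈ T, q).primeFactors = T := Nat.primeFactors_prod hT

/-- The sieve problem. -/
def polySieve (H : ℤ[X]) (Y X : ℕ) (hadm : ∀ p : ℕ, p.Prime → p < Y → rootCount H p < p) :
    BoundingSieve where
  support := (Icc 1 X).image fun n : ℕ => (H.eval (n : ℤ)).natAbs
  prodPrimes := ∏ p ∈ sievePrimes H Y, p
  prodPrimes_squarefree := squarefree_prod_primes fun p hp => (mem_sievePrimes.mp hp).1.2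
  weights m := (((Icc 1 X).filter fun n : ℕ => (H.eval (n : ℤ)).natAbs = m).card : ℝ)
  weights_nonneg _ := by positivity
  totalMass := X
  nu := nuPoly H
  nu_mult := nuPoly_mult H
  nu_pos_of_prime := by
    intro p hp hd
    rw [prime_dvd_prod_iff (fun p hp => (mem_sievePrimes.mp hp).1.2) hp, mem_sievePrimes] at hd
    rw [nuPoly_apply]
    have h1 : (0 : ℝ) < rootCount H p := by exact_mod_cast hd.2
    have h2 : (0 : ℝ) < p := by exact_mod_cast hp.pos
    positivity
  nu_lt_one_of_prime := by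
    intro p hp hd
    rw [prime_dvd_prod_iff (fun p hp => (mem_sievePrimes.mp hp).1.2) hp, mem_sievePrimes] at hd
    rw [nuPoly_apply]
    have h2 : (0 : ℝ) < p := by exact_mod_cast hp.pos
    rw [div_lt_one h2]
    exact_mod_cast hadm p hp hd.1.1

theorem multSum_polySieve (H : ℤ[X]) (Y X : ℕ)
    (hadm : ∀ p : ℕ, p.Prime → p < Y → rootCount H p < p) (d : ℕ) :
    (polySieve H Y X hadm).multSum d =
      (((Icc 1 X).filter fun n : ℕ => (d : ℤ) ∣ H.eval (n : ℤ)).card : ℝ) := by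
  classical
  rw [BoundingSieve.multSum]
  change ∑ m ∈ (Icc 1 X).image (fun n : ℕ => (H.eval (n : ℤ)).natAbs),
    (if d ∣ m then (((Icc 1 X).filter fun n : ℕ => (H.eval (n : ℤ)).natAbs = m).card : ℝ) else 0) = _
  have h := card_eq_sum_card_image (fun n : ℕ => (H.eval (n : ℤ)).natAbs)
    ((Icc 1 X).filter fun n : ℕ => (d : ℤ) ∣ H.eval (n : ℤ))
  rw [h]
  push_cast
  rw [← sum_filter]
  have himg : ((Icc 1 X).image (fun n : ℕ => (H.eval (n : ℤ)).natAbs)).filter (d ∣ ·) =
      ((Icc 1 X).filter fun n : ℕ => (d : ℤ) ∣ H.eval (n : ℤ)).image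
        (fun n : ℕ => (H.eval (n : ℤ)).natAbs) := by
    ext m
    simp only [mem_filter, mem_image]
    constructor
    · rintro ⟨⟨n, hn, rfl⟩, hd⟩
      exact ⟨n, ⟨hn, Int.natCast_dvd.mpr hd⟩, rfl⟩
    · rintro ⟨n, ⟨hn, hd⟩, rfl⟩
      exact ⟨⟨n, hn, rfl⟩, Int.natCast_dvd.mp hd⟩
  rw [himg]
  refine sum_congr rfl fun m hm => ?_
  congr 2
  ext n
  simp only [mem_filter]
  constructor
  · rintro ⟨hn, rfl⟩
    refine ⟨⟨hn, ?_⟩, rfl⟩
    rw [mem_image] at hm
    obtain ⟨n', hn', he⟩ := hm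
    rw [mem_filter] at hn'
    have := Int.natCast_dvd.mp hn'.2
    rw [he] at this
    exact Int.natCast_dvd.mpr this
  · rintro ⟨⟨hn, _⟩, rfl⟩
    exact ⟨hn, rfl⟩

theorem le_siftedSum_polySieve (H : ℤ[X]) (Y X : ℕ)
    (hadm : ∀ p : ℕ, p.Prime → p < Y → rootCount H p < p) :
    ((((Icc 1 X).filter fun n : ℕ => ∀ p ∈ Nat.primesBelow Y, ¬ (p : ℤ) ∣ H.eval (n : ℤ)).card) : ℝ)
      ≤ (polySieve H Y X hadm).siftedSum := by
  classical
  rw [BoundingSieve.siftedSum]
  change _ ≤ ∑ m ∈ (Icc 1 X).image (fun n : ℕ => (H.eval (n : ℤ)).natAbs),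
    (if Nat.Coprime (∏ p ∈ sievePrimes H Y, p) m then
      (((Icc 1 X).filter fun n : ℕ => (H.eval (n : ℤ)).natAbs = m).card : ℝ) else 0)
  set T := (Icc 1 X).filter fun n : ℕ => ∀ p ∈ Nat.primesBelow Y, ¬ (p : ℤ) ∣ H.eval (n : ℤ) with hT
  have h := card_eq_sum_card_image (fun n : ℕ => (H.eval (n : ℤ)).natAbs) T
  rw [h]
  push_cast
  have hsub : T.image (fun n : ℕ => (H.eval (n : ℤ)).natAbs) ⊆
      (Icc 1 X).image (fun n : ℕ => (H.eval (n : ℤ)).natAbs) :=
    image_subset_image (filter_subset _ _)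
  refine le_trans (sum_le_sum fun m hm => ?_)
    (sum_le_sum_of_subset_of_nonneg hsub fun m _ _ => ?_)
  · rw [mem_image] at hm
    obtain ⟨n, hn, rfl⟩ := hm
    rw [hT, mem_filter] at hn
    have hcop : Nat.Coprime (∏ p ∈ sievePrimes H Y, p) (H.eval (n : ℤ)).natAbs := by
      refine Nat.Coprime.prod_left fun p hp => ?_
      obtain ⟨⟨h1, h2⟩, _⟩ := mem_sievePrimes.mp hp
      rw [h2.coprime_iff_not_dvd]
      intro hd
      exact hn.2 p (Nat.mem_primesBelow.mpr ⟨h1, h2⟩) (Int.natCast_dvd.mpr hd)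
    rw [if_pos hcop]
    have : (T.filter fun n' : ℕ => (H.eval (n' : ℤ)).natAbs = (H.eval (n : ℤ)).natAbs).card ≤
      ((Icc 1 X).filter fun n' : ℕ => (H.eval (n' : ℤ)).natAbs = (H.eval (n : ℤ)).natAbs).card :=
      card_le_card (filter_subset_filter _ (filter_subset _ _))
    exact_mod_cast this
  · split_ifs <;> positivity

/-- The upper bound sieve for polynomial values. -/
theorem poly_sieve (H : ℤ[X]) {κ Y X : ℕ} {R : ℝ}
    (hκ : ∀ p : ℕ, p.Prime → p < Y → rootCount H p ≤ κ)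
    (hadm : ∀ p : ℕ, p.Prime → p < Y → rootCount H p < p)
    (hY : 2 ≤ Y) (hR : 1 ≤ R)
    (hRY : (Real.log 2 + 28 * κ * Real.log 4) * Real.log Y ≤ Real.log R) (hX : R ^ 12 ≤ X) :
    ((((Icc 1 X).filter fun n : ℕ => ∀ p ∈ Nat.primesBelow Y, ¬ (p : ℤ) ∣ H.eval (n : ℤ)).card) : ℝ)
      ≤ 4 * X * ∏ p ∈ Nat.primesBelow Y, (1 - (rootCount H p : ℝ) / p) ∧
    R ^ 10 ≤ 2 * X * ∏ p ∈ Nat.primesBelow Y, (1 - (rootCount H p : ℝ) / p) := by
  classical
  set s := polySieve H Y X hadm with hs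
  have hTprime : ∀ p ∈ sievePrimes H Y, p.Prime := fun p hp => (mem_sievePrimes.mp hp).1.2
  have hPd : ∀ p : ℕ, p.Prime → p ∣ s.prodPrimes → p ∈ sievePrimes H Y := by
    intro p hp hd
    exact (prime_dvd_prod_iff hTprime hp).mp hd
  have hfin := selberg_final (s := s) (κ := κ) (y := Y) (R := R) (by positivity)
    (by exact_mod_cast hY) hR
    (fun p hp hd => by
      have := (mem_sievePrimes.mp (hPd p hp hd)).1.1
      exact_mod_cast this.le)
    (fun p hp hd => by
      have h1 := (mem_sievePrimes.mp (hPd p hp hd)).1.1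
      change (rootCount H p : ℝ) / p ≤ κ / p
      have h2 : (rootCount H p : ℝ) ≤ κ := by exact_mod_cast hκ p hp h1
      gcongr)
    hRY
    (fun d hd => by
      have hd0 : 0 < d := Nat.pos_of_ne_zero
        (ne_zero_of_dvd_ne_zero s.prodPrimes_squarefree.ne_zero hd)
      rw [BoundingSieve.rem, hs, multSum_polySieve]
      exact abs_card_sub_le H hd0 X)
    (fun p hp hd => by
      have h1 := (mem_sievePrimes.mp (hPd p hp hd)).1.1
      have h2 := hadm p hp h1
      have hp0 : (0 : ℝ) < p := by exact_mod_cast hp.pos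
      change (1 - (rootCount H p : ℝ) / p)⁻¹ ≤ p
      have h3 : (rootCount H p : ℝ) + 1 ≤ p := by exact_mod_cast h2
      have h4 : (1 : ℝ) / p ≤ 1 - (rootCount H p : ℝ) / p := by
        rw [le_sub_iff_add_le, ← add_div, div_le_one hp0]
        linarith
      calc (1 - (rootCount H p : ℝ) / p)⁻¹ ≤ (1 / (p : ℝ))⁻¹ := by gcongr
        _ = p := by rw [one_div, inv_inv])
    hX
  have hprod : ∏ p ∈ s.prodPrimes.primeFactors, (1 - s.nu p) =
      ∏ p ∈ Nat.primesBelow Y, (1 - (rootCount H p : ℝ) / p) := by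
    have e1 : s.prodPrimes.primeFactors = sievePrimes H Y := primeFactors_prod hTprime
    rw [e1]
    change ∏ p ∈ (Nat.primesBelow Y).filter (fun p => 0 < rootCount H p),
      (1 - (rootCount H p : ℝ) / p) = _
    refine prod_subset (filter_subset _ _) fun p hp hnp => ?_
    have : rootCount H p = 0 := by
      by_contra h
      exact hnp (mem_filter.mpr ⟨hp, Nat.pos_of_ne_zero h⟩)
    rw [this]
    simp
  rw [hprod] at hfin
  exact ⟨(le_siftedSum_polySieve H Y X hadm).trans hfin.1, hfin.2⟩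

end Pool.Agent.Lib.H59
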