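import Mathlib

/-!
# Lower bound in Mertens' product theorem

-/

open Finset

noncomputable section

namespace Pool.Agent.Lib.H59

theorem log_le_prod_inv {z : ℕ} (hz : 1 ≤ z) :
    Real.log z ≤ ∏ p ∈ Nat.primesBelow z, (1 - (p : ℝ)⁻¹)⁻¹ := by
  classical
  set f : ℕ →* ℝ :=
    { toFun := fun n => (n : ℝ)⁻¹
      map_one' := by simp
      map_mul' := fun a b => by push_cast; rw [mul_inv] } with hf
  have hfa : ∀ n : ℕ, f n = (n : ℝ)⁻¹ := fun n => rfl
  have hlt : ∀ {p : ℕ}, p.Prime → ‖f p‖ < 1 := by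
    intro p hp
    rw [hfa, norm_inv, Real.norm_natCast]
    have : (1 : ℝ) < p := by exact_mod_cast hp.one_lt
    exact inv_lt_one_of_one_lt₀ this
  obtain ⟨hsum, hhas⟩ :=
    EulerProduct.summable_and_hasSum_smoothNumbers_prod_primesBelow_geometric (f := f) hlt z
  have hprod : ∏ p ∈ Nat.primesBelow z, (1 - f p)⁻¹ =
      ∏ p ∈ Nat.primesBelow z, (1 - (p : ℝ)⁻¹)⁻¹ := rfl
  rw [← hprod]
  -- lower bound by the harmonic sum
  have hmem : ∀ i ∈ range (z - 1), i + 1 ∈ Nat.smoothNumbers z := by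
    intro i hi
    rw [mem_range] at hi
    rw [Nat.mem_smoothNumbers]
    refine ⟨by omega, fun p hp => ?_⟩
    have := Nat.le_of_mem_primeFactorsList hp
    omega
  let e : (range (z - 1)) ↪ Nat.smoothNumbers z :=
    ⟨fun i => ⟨i.1 + 1, hmem i.1 i.2⟩, fun a b hab => by
      have := congrArg Subtype.val hab
      exact Subtype.ext (by simpa using this)⟩
  have h1 : ∑ m ∈ (range (z - 1)).attach.map e, f m ≤ ∏ p ∈ Nat.primesBelow z, (1 - f p)⁻¹ :=
    sum_le_hasSum _ (fun m _ => by rw [hfa]; positivity) hhas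
  rw [sum_map] at h1
  have h2 : ∑ x ∈ (range (z - 1)).attach, f (e x) = ∑ i ∈ range (z - 1), ((i : ℝ) + 1)⁻¹ := by
    rw [← sum_attach (range (z - 1)) (fun i => ((i : ℝ) + 1)⁻¹)]
    refine sum_congr rfl fun x _ => ?_
    change (((x : ℕ) + 1 : ℕ) : ℝ)⁻¹ = _
    push_cast
    rfl
  rw [h2] at h1
  refine le_trans ?_ h1
  have h3 := log_add_one_le_harmonic (z - 1)
  have h4 : ((harmonic (z - 1) : ℚ) : ℝ) = ∑ i ∈ range (z - 1), ((i : ℝ) + 1)⁻¹ := by
    unfold harmonic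
    push_cast
    rfl
  rw [h4] at h3
  have h5 : z - 1 + 1 = z := by omega
  rw [h5] at h3
  exact h3

theorem prod_one_sub_inv_le {z : ℕ} (hz : 2 ≤ z) :
    ∏ p ∈ Nat.primesBelow z, (1 - (p : ℝ)⁻¹) ≤ 1 / Real.log z := by
  have h := log_le_prod_inv (z := z) (by omega)
  have hlog : 0 < Real.log z := Real.log_pos (by exact_mod_cast (by omega : 1 < z))
  rw [prod_inv_distrib] at h
  have hpos : 0 < ∏ p ∈ Nat.primesBelow z, (1 - (p : ℝ)⁻¹) := by
    refine prod_pos fun p hp => ?_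
    have hp' := Nat.prime_of_mem_primesBelow hp
    have : (1 : ℝ) < p := by exact_mod_cast hp'.one_lt
    have := inv_lt_one_of_one_lt₀ this
    linarith
  rw [le_div_iff₀ hlog]
  calc (∏ p ∈ Nat.primesBelow z, (1 - (p : ℝ)⁻¹)) * Real.log z
      ≤ (∏ p ∈ Nat.primesBelow z, (1 - (p : ℝ)⁻¹)) *
        (∏ p ∈ Nat.primesBelow z, (1 - (p : ℝ)⁻¹))⁻¹ := by gcongr
    _ = 1 := mul_inv_cancel₀ hpos.ne'

end Pool.Agent.Lib.H59
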