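import Mathlib
import Pool.Agent.Lib.H59.PolySieve
import Pool.Agent.Lib.H59.MertensLower
import Pool.Agent.Lib.H59.SchinzelCount

/-!
# The upper bound in the quantitative Goldbach-type hypothesis of Schinzel

-/

open Finset Polynomial Filter Topology

noncomputable section

namespace Pool.Agent.Lib.H59

theorem card_value_le {P : ℤ[X]} (hP : 1 ≤ P.natDegree) (q : ℤ) (X : ℕ) :
    ((Icc 1 X).filter fun n : ℕ => P.eval (n : ℤ) = q).card ≤ P.natDegree := by
  classical
  have hne : P - C q ≠ 0 := by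
    intro h
    have h1 : P = C q := sub_eq_zero.mp h
    rw [h1, natDegree_C] at hP
    omega
  have h1 : ((Icc 1 X).filter fun n : ℕ => P.eval (n : ℤ) = q).card ≤
      (P - C q).roots.toFinset.card := by
    refine card_le_card_of_injOn (fun n : ℕ => (n : ℤ)) (fun n hn => ?_)
      (fun a _ b _ hab => by simpa using hab)
    rw [mem_coe, mem_filter] at hn
    rw [mem_coe, Multiset.mem_toFinset, mem_roots hne, IsRoot.def, eval_sub, eval_C, hn.2, sub_self]
  refine h1.trans ((Multiset.toFinset_card_le _).trans ((card_roots' _).trans ?_))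
  rw [natDegree_sub_C]

theorem rootCount_mul_le (P Q : ℤ[X]) {p : ℕ} (hp : p.Prime) :
    rootCount (P * Q) p ≤ rootCount P p + rootCount Q p := by
  classical
  unfold rootCount
  refine le_trans (card_le_card ?_) (card_union_le _ _)
  intro a ha
  rw [mem_filter, eval_mul] at ha
  rw [mem_union, mem_filter, mem_filter]
  rcases (Nat.prime_iff_prime_int.mp hp).dvd_or_dvd ha.2 with h | h
  · exact Or.inl ⟨ha.1, h⟩
  · exact Or.inr ⟨ha.1, h⟩

theorem rootCount_prod_le {ι : Type*} (T : Finset ι) (F : ι → ℤ[X]) {p : ℕ} (hp : p.Prime) :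
    rootCount (∏ i ∈ T, F i) p ≤ ∑ i ∈ T, rootCount (F i) p := by
  classical
  induction T using Finset.induction_on with
  | empty =>
    rw [prod_empty, sum_empty, Nat.le_zero, rootCount, card_eq_zero, filter_eq_empty_iff]
    intro a _
    rw [eval_one]
    exact (Nat.prime_iff_prime_int.mp hp).not_dvd_one
  | insert i T hi ih =>
    rw [prod_insert hi, sum_insert hi]
    exact (rootCount_mul_le _ _ hp).trans (by omega)

theorem exp_le_one_sub {x : ℝ} (h0 : 0 ≤ x) (h1 : x ≤ 1 / 2) :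
    Real.exp (-x - 2 * x ^ 2) ≤ 1 - x := by
  have hpos : 0 < 1 - x := by linarith
  rw [← Real.le_log_iff_exp_le hpos]
  have h := Real.one_sub_inv_le_log_of_pos hpos
  refine le_trans ?_ h
  have h2 : (1 - x)⁻¹ ≤ 1 + x + 2 * x ^ 2 := by
    rw [inv_le_comm₀ hpos (by positivity), inv_le_iff_one_le_mul₀ (by positivity)]
    nlinarith [mul_nonneg h0 h0, mul_nonneg (mul_nonneg h0 h0) (by linarith : 0 ≤ 1 / 2 - x)]
  linarith

theorem omegaN_eq {g : ℕ} (F : Fin g → ℤ[X]) (G : ℤ[X]) (N p : ℕ) :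
    omegaN F G N p = rootCount ((∏ i, F i) * (C (N : ℤ) - G)) p := rfl

theorem omegaN_le_sum {g : ℕ} (F : Fin g → ℤ[X]) (G : ℤ[X]) (N : ℕ) {p : ℕ} (hp : p.Prime) :
    omegaN F G N p ≤ ∑ i, rootCount (F i) p + rootCount (C (N : ℤ) - G) p := by
  rw [omegaN_eq]
  exact (rootCount_mul_le _ _ hp).trans (Nat.add_le_add_right (rootCount_prod_le _ _ hp) _)

theorem omegaN_lt {g : ℕ} {F : Fin g → ℤ[X]} {G : ℤ[X]} {N : ℕ} (hadm : Admissible F G N) {p : ℕ}
    (hp : p.Prime) : omegaN F G N p < p := by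
  classical
  by_contra hcon
  push Not at hcon
  apply hadm.2 p hp
  intro n
  have h1 : ((Finset.range p).filter fun a : ℕ =>
      (p : ℤ) ∣ ((∏ i, F i) * (C (N : ℤ) - G)).eval (a : ℤ)) = Finset.range p := by
    refine eq_of_subset_of_card_le (filter_subset _ _) ?_
    rw [card_range]
    exact hcon
  have hp0 : (0 : ℤ) < p := by exact_mod_cast hp.pos
  set a : ℕ := (n % p).toNat with ha
  have ha0 : 0 ≤ n % (p : ℤ) := Int.emod_nonneg _ hp0.ne'
  have ha1 : n % (p : ℤ) < p := Int.emod_lt_of_pos _ hp0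
  have haa : (a : ℤ) = n % p := Int.toNat_of_nonneg ha0
  have hmem : a ∈ Finset.range p := by
    rw [Finset.mem_range]
    omega
  rw [← h1, mem_filter] at hmem
  have h2 : (p : ℤ) ∣ n - (a : ℤ) := by
    rw [haa]
    exact Int.dvd_self_sub_emod
  have h3 := h2.trans (Polynomial.sub_dvd_eval_sub n (a : ℤ) ((∏ i, F i) * (C (N : ℤ) - G)))
  have := dvd_add h3 hmem.2
  simpa using this

/-- The sieve step. -/
theorem sieve_step {g : ℕ} {F : Fin g → ℤ[X]} {G : ℤ[X]} {N : ℕ}
    (hF : ∀ i, Irreducible (F i)) (hFd : ∀ i, 1 ≤ (F i).natDegree) (hGd : 1 ≤ G.natDegree)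
    (hadm : Admissible F G N) {X Y : ℕ} {R : ℝ} (hset : argSet G N = ↑(Finset.Icc 1 X))
    (hY : 2 ≤ Y) (hR : 1 ≤ R)
    (hRY : (Real.log 2 + 28 * ((∑ i, (F i).natDegree + G.natDegree : ℕ) : ℝ) * Real.log 4) *
      Real.log Y ≤ Real.log R) (hX : R ^ 12 ≤ X) (hYR : (Y : ℝ) ≤ R ^ 10) :
    (primeCount F G N : ℝ) ≤ (4 + 2 * ((∑ i, (F i).natDegree + G.natDegree : ℕ) : ℝ)) *
      (X * ∏ p ∈ Nat.primesBelow Y, (1 - (omegaN F G N p : ℝ) / p)) := by
  classical
  set κ : ℕ := ∑ i, (F i).natDegree + G.natDegree with hκ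
  set H : ℤ[X] := (∏ i, F i) * (C (N : ℤ) - G) with hH
  have hGN : 1 ≤ (C (N : ℤ) - G).natDegree := by rw [natDegree_C_sub']; exact hGd
  have hκle : ∀ p : ℕ, p.Prime → p < Y → rootCount H p ≤ κ := by
    intro p hp _
    refine (omegaN_le_sum F G N hp).trans ?_
    rw [hκ]
    refine Nat.add_le_add (sum_le_sum fun i _ => ?_) ?_
    · exact rootCount_le_natDegree ((hF i).isPrimitive (by have := hFd i; omega)) hp
    · rw [← natDegree_C_sub' G N]
      exact rootCount_le_natDegree (hadm.1.isPrimitive (by omega)) hp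
  have hlt : ∀ p : ℕ, p.Prime → p < Y → rootCount H p < p := fun p hp _ => omegaN_lt hadm hp
  obtain ⟨h1, h2⟩ := poly_sieve H hκle hlt hY hR hRY hX
  -- the exceptional set
  set T₁ := (Icc 1 X).filter fun n : ℕ => ∀ p ∈ Nat.primesBelow Y, ¬ (p : ℤ) ∣ H.eval (n : ℤ)
    with hT₁
  set T₂ := (Finset.range Y).biUnion fun q =>
    (Finset.univ.biUnion fun i => (Icc 1 X).filter fun n : ℕ => (F i).eval (n : ℤ) = (q : ℤ)) ∪
      ((Icc 1 X).filter fun n : ℕ => (C (N : ℤ) - G).eval (n : ℤ) = (q : ℤ)) with hT₂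
  have hT₂card : T₂.card ≤ κ * Y := by
    have : ∀ q ∈ Finset.range Y,
        ((Finset.univ.biUnion fun i => (Icc 1 X).filter fun n : ℕ => (F i).eval (n : ℤ) = (q : ℤ)) ∪
          ((Icc 1 X).filter fun n : ℕ => (C (N : ℤ) - G).eval (n : ℤ) = (q : ℤ))).card ≤ κ := by
      intro q _
      refine (card_union_le _ _).trans ?_
      rw [hκ]
      refine Nat.add_le_add ?_ ?_
      · refine card_biUnion_le.trans (sum_le_sum fun i _ => ?_)
        exact card_value_le (hFd i) _ _
      · rw [← natDegree_C_sub' G N]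
        exact card_value_le hGN _ _
    refine card_biUnion_le.trans ((sum_le_sum this).trans ?_)
    rw [sum_const, card_range, smul_eq_mul, mul_comm]
  have hsub : {n : ℕ | n ∈ argSet G N ∧ (∀ i, ∃ q : ℕ, q.Prime ∧ (F i).eval (n : ℤ) = q) ∧
      ∃ q : ℕ, q.Prime ∧ (N : ℤ) - G.eval (n : ℤ) = q} ⊆ ↑(T₁ ∪ T₂) := by
    rintro n ⟨hn, hnF, q₀, hq₀, hnq₀⟩
    rw [hset, mem_coe] at hn
    rw [coe_union, Set.mem_union, mem_coe, mem_coe]
    have hev : (C (N : ℤ) - G).eval (n : ℤ) = (q₀ : ℤ) := by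
      rw [eval_sub, eval_C, hnq₀]
    by_cases hbig : Y ≤ q₀ ∧ ∀ i, ∀ q : ℕ, (F i).eval (n : ℤ) = q → Y ≤ q
    · left
      rw [hT₁, mem_filter]
      refine ⟨hn, fun p hp hpd => ?_⟩
      have hpp := Nat.prime_of_mem_primesBelow hp
      have hpY := Nat.lt_of_mem_primesBelow hp
      have hpZ := Nat.prime_iff_prime_int.mp hpp
      rw [hH, eval_mul, eval_prod, hev] at hpd
      rcases hpZ.dvd_or_dvd hpd with h | h
      · obtain ⟨i, _, hi⟩ := (hpZ.dvd_finsetProd_iff _).mp h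
        obtain ⟨q, hq, hqe⟩ := hnF i
        rw [hqe, Int.natCast_dvd_natCast, Nat.prime_dvd_prime_iff_eq hpp hq] at hi
        have := hbig.2 i q hqe
        omega
      · rw [Int.natCast_dvd_natCast, Nat.prime_dvd_prime_iff_eq hpp hq₀] at h
        have := hbig.1
        omega
    · right
      rw [not_and_or] at hbig
      rw [hT₂, mem_biUnion]
      rcases hbig with h | h
      · push Not at h
        refine ⟨q₀, Finset.mem_range.mpr h, ?_⟩
        rw [mem_union]
        right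
        rw [mem_filter]
        exact ⟨hn, hev⟩
      · push Not at h
        obtain ⟨i, q, hq, hqY⟩ := h
        refine ⟨q, Finset.mem_range.mpr hqY, ?_⟩
        rw [mem_union]
        left
        rw [mem_biUnion]
        refine ⟨i, Finset.mem_univ _, ?_⟩
        rw [mem_filter]
        exact ⟨hn, hq⟩
  have hcount : primeCount F G N ≤ T₁.card + κ * Y := by
    have h3 : primeCount F G N ≤ (T₁ ∪ T₂).card := by
      unfold primeCount
      have := Set.ncard_le_ncard hsub (Finset.finite_toSet _)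
      rwa [Set.ncard_coe_finset] at this
    refine h3.trans ((card_union_le _ _).trans ?_)
    omega
  have hcount' : (primeCount F G N : ℝ) ≤ T₁.card + κ * Y := by exact_mod_cast hcount
  have hκ0 : (0 : ℝ) ≤ κ := by positivity
  have h4 : (κ : ℝ) * Y ≤ κ * (2 * X * ∏ p ∈ Nat.primesBelow Y, (1 - (rootCount H p : ℝ) / p)) :=
    mul_le_mul_of_nonneg_left (hYR.trans h2) hκ0
  change (primeCount F G N : ℝ) ≤ (4 + 2 * (κ : ℝ)) *
    (X * ∏ p ∈ Nat.primesBelow Y, (1 - (rootCount H p : ℝ) / p))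
  calc (primeCount F G N : ℝ) ≤ T₁.card + κ * Y := hcount'
    _ ≤ 4 * X * ∏ p ∈ Nat.primesBelow Y, (1 - (rootCount H p : ℝ) / p) +
        κ * (2 * X * ∏ p ∈ Nat.primesBelow Y, (1 - (rootCount H p : ℝ) / p)) := add_le_add h1 h4
    _ = _ := by ring

end Pool.Agent.Lib.H59
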