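import Mathlib
import Pool.Agent.Lib.H59.SchinzelUpper

/-!
# The uniform comparison of the truncated and the full singular series, and the final bound

-/

open Finset Polynomial Filter Topology

noncomputable section

namespace Pool.Agent.Lib.H59

theorem primesBelow_filter_not {z Y : ℕ} (h : Y ≤ z) :
    (Nat.primesBelow z).filter (fun p => ¬ Y ≤ p) = Nat.primesBelow Y := by
  ext p
  simp only [Finset.mem_filter, Nat.mem_primesBelow, not_le]
  constructor
  · rintro ⟨⟨_, h2⟩, h3⟩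
    exact ⟨h3, h2⟩
  · rintro ⟨h1, h2⟩
    exact ⟨⟨lt_of_lt_of_le h1 h, h2⟩, h1⟩

theorem mertens_step {g : ℕ} {F : Fin g → ℤ[X]} {G : ℤ[X]} {N : ℕ}
    (hF : ∀ i, Irreducible (F i)) (hFd : ∀ i, 1 ≤ (F i).natDegree) (hGd : 1 ≤ G.natDegree)
    (hadm : Admissible F G N) {Y κ : ℕ} {A : ℝ} (hY : 3 ≤ Y)
    (hκ : κ = ∑ i, (F i).natDegree + G.natDegree) (hYκ : 2 * κ ≤ Y)
    (hFA : ∀ i, coeffSum (F i) ≤ (Y : ℝ) ^ A)
    (hGA : coeffSum (C (N : ℤ) - G) ≤ (Y : ℝ) ^ A) :
    ∀ᶠ z : ℕ in atTop, ∏ p ∈ Nat.primesBelow Y, (1 - (omegaN F G N p : ℝ) / p) ≤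
      Real.exp (∑ i, polyConst (F i).natDegree A + polyConst G.natDegree A + 4 * (κ : ℝ) ^ 2) /
        (Real.log Y) ^ (g + 1) * seriesTrunc F G N z := by
  classical
  have hGN : 1 ≤ (C (N : ℤ) - G).natDegree := by rw [natDegree_C_sub']; exact hGd
  have hκle : ∀ p : ℕ, p.Prime → omegaN F G N p ≤ κ := by
    intro p hp
    refine (omegaN_le_sum F G N hp).trans ?_
    rw [hκ]
    refine Nat.add_le_add (sum_le_sum fun i _ => ?_) ?_
    · exact rootCount_le_natDegree ((hF i).isPrimitive (by have := hFd i; omega)) hp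
    · rw [← natDegree_C_sub' G N]
      exact rootCount_le_natDegree (hadm.1.isPrimitive (by omega)) hp
  have hk1 := Filter.eventually_all.mpr fun i => poly_key (hF i) (hFd i) hY (hFA i)
  have hk2 := poly_key hadm.1 hGN hY hGA
  rw [natDegree_C_sub'] at hk2
  filter_upwards [hk1, hk2, eventually_ge_atTop Y] with z hz1 hz2 hzY
  have hlogY : 0 < Real.log Y := Real.log_pos (by exact_mod_cast (by omega : 1 < Y))
  have hlogz : 0 < Real.log z := Real.log_pos (by exact_mod_cast (by omega : 1 < z))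
  set S := (Nat.primesBelow z).filter (Y ≤ ·) with hS
  have hSprime : ∀ p ∈ S, p.Prime ∧ Y ≤ p := by
    intro p hp
    rw [hS, Finset.mem_filter] at hp
    exact ⟨Nat.prime_of_mem_primesBelow hp.1, hp.2⟩
  set E : ℝ := ∑ i, polyConst (F i).natDegree A + polyConst G.natDegree A with hE
  -- the sum over the large primes
  have hsum : ∑ p ∈ S, (omegaN F G N p : ℝ) / p ≤
      (g + 1) * (Real.log (Real.log z) - Real.log (Real.log Y)) + E := by
    have h1 : ∀ p ∈ S, (omegaN F G N p : ℝ) / p ≤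
        ∑ i, (rootCount (F i) p : ℝ) / p + (rootCount (C (N : ℤ) - G) p : ℝ) / p := by
      intro p hp
      have h2 : (omegaN F G N p : ℝ) ≤
          ∑ i, (rootCount (F i) p : ℝ) + rootCount (C (N : ℤ) - G) p := by
        exact_mod_cast omegaN_le_sum F G N (hSprime p hp).1
      rw [← sum_div, ← add_div]
      gcongr
    refine (sum_le_sum h1).trans ?_
    rw [sum_add_distrib, sum_comm]
    have h3 : ∑ i, ∑ p ∈ S, (rootCount (F i) p : ℝ) / p ≤
        ∑ i, (Real.log (Real.log z) - Real.log (Real.log Y) + polyConst (F i).natDegree A) :=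
      sum_le_sum fun i _ => hz1 i
    rw [sum_add_distrib, sum_const, card_univ, Fintype.card_fin, nsmul_eq_mul] at h3
    rw [hE]
    linarith
  -- the product over the large primes
  have hprod : Real.exp (-((g + 1) * (Real.log (Real.log z) - Real.log (Real.log Y))) - E -
      4 * (κ : ℝ) ^ 2) ≤ ∏ p ∈ S, (1 - (omegaN F G N p : ℝ) / p) := by
    have h1 : ∀ p ∈ S, Real.exp (-((omegaN F G N p : ℝ) / p) - 2 * ((omegaN F G N p : ℝ) / p) ^ 2) ≤
        1 - (omegaN F G N p : ℝ) / p := by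
      intro p hp
      obtain ⟨hpp, hpY⟩ := hSprime p hp
      have hp0 : (0 : ℝ) < p := by exact_mod_cast hpp.pos
      refine exp_le_one_sub (by positivity) ?_
      rw [div_le_iff₀ hp0]
      have h2 : (omegaN F G N p : ℝ) ≤ κ := by exact_mod_cast hκle p hpp
      have h3 : (2 * κ : ℝ) ≤ p := by exact_mod_cast hYκ.trans hpY
      linarith
    refine le_trans ?_ (prod_le_prod (fun p _ => (Real.exp_pos _).le) h1)
    rw [← Real.exp_sum, sum_sub_distrib, sum_neg_distrib, ← mul_sum]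
    apply Real.exp_le_exp.mpr
    have h2 : ∑ p ∈ S, ((omegaN F G N p : ℝ) / p) ^ 2 ≤ (κ : ℝ) ^ 2 * 2 := by
      have h3 : ∀ p ∈ S, ((omegaN F G N p : ℝ) / p) ^ 2 ≤ (κ : ℝ) ^ 2 * ((p : ℝ) ^ 2)⁻¹ := by
        intro p hp
        obtain ⟨hpp, hpY⟩ := hSprime p hp
        have h2 : (omegaN F G N p : ℝ) ≤ κ := by exact_mod_cast hκle p hpp
        rw [div_pow, div_eq_mul_inv]
        gcongr
      refine (sum_le_sum h3).trans ?_
      rw [← mul_sum]
      exact mul_le_mul_of_nonneg_left (sum_inv_sq_le_two S) (by positivity)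
    linarith
  -- the Mertens product
  have hmert := prod_one_sub_inv_le (z := z) (by omega)
  have hmpos : 0 < ∏ p ∈ Nat.primesBelow z, (1 - (p : ℝ)⁻¹) := by
    refine prod_pos fun p hp => ?_
    have hp' := Nat.prime_of_mem_primesBelow hp
    have : (1 : ℝ) < p := by exact_mod_cast hp'.one_lt
    have := inv_lt_one_of_one_lt₀ this
    linarith
  -- assemble
  have hser : seriesTrunc F G N z = (∏ p ∈ Nat.primesBelow Y, (1 - (omegaN F G N p : ℝ) / p)) *
      (∏ p ∈ S, (1 - (omegaN F G N p : ℝ) / p)) *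
      ((∏ p ∈ Nat.primesBelow z, (1 - (p : ℝ)⁻¹)) ^ (g + 1))⁻¹ := by
    unfold seriesTrunc
    rw [prod_mul_distrib, prod_inv_distrib, prod_pow]
    congr 1
    · have := prod_filter_mul_prod_filter_not (Nat.primesBelow z) (Y ≤ ·)
        (fun p => 1 - (omegaN F G N p : ℝ) / p)
      rw [primesBelow_filter_not hzY] at this
      rw [← this, mul_comm]
    · simp only [one_div]
  set Q := ∏ p ∈ Nat.primesBelow Y, (1 - (omegaN F G N p : ℝ) / p) with hQ
  have hQ0 : 0 < Q := by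
    refine prod_pos fun p hp => ?_
    have hpp := Nat.prime_of_mem_primesBelow hp
    have hp0 : (0 : ℝ) < p := by exact_mod_cast hpp.pos
    rw [sub_pos, div_lt_one hp0]
    exact_mod_cast omegaN_lt hadm hpp
  have hinv : (Real.log z) ^ (g + 1) ≤ ((∏ p ∈ Nat.primesBelow z, (1 - (p : ℝ)⁻¹)) ^ (g + 1))⁻¹ := by
    rw [← inv_pow]
    refine pow_le_pow_left₀ hlogz.le ?_ _
    rw [le_inv_comm₀ hlogz hmpos]
    rw [one_div] at hmert
    exact hmert
  have hexp : Real.exp (-((g + 1) * (Real.log (Real.log z) - Real.log (Real.log Y))) - E -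
      4 * (κ : ℝ) ^ 2) = (Real.log Y) ^ (g + 1) / (Real.log z) ^ (g + 1) *
        Real.exp (-(E + 4 * (κ : ℝ) ^ 2)) := by
    have e1 : -((g + 1) * (Real.log (Real.log z) - Real.log (Real.log Y))) - E -
        4 * (κ : ℝ) ^ 2 = Real.log (Real.log Y) * ((g + 1 : ℕ) : ℝ) -
          Real.log (Real.log z) * ((g + 1 : ℕ) : ℝ) + (-(E + 4 * (κ : ℝ) ^ 2)) := by
      push_cast
      ring
    rw [e1, Real.exp_add, Real.exp_sub, ← Real.rpow_def_of_pos hlogY,
      ← Real.rpow_def_of_pos hlogz, Real.rpow_natCast, Real.rpow_natCast]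
  have hfin : Q * ((Real.log Y) ^ (g + 1) * Real.exp (-(E + 4 * (κ : ℝ) ^ 2))) ≤
      seriesTrunc F G N z := by
    rw [hser]
    rw [hexp] at hprod
    have h1 : (Real.log Y) ^ (g + 1) * Real.exp (-(E + 4 * (κ : ℝ) ^ 2)) =
        ((Real.log Y) ^ (g + 1) / (Real.log z) ^ (g + 1) *
          Real.exp (-(E + 4 * (κ : ℝ) ^ 2))) * (Real.log z) ^ (g + 1) := by
      field_simp
    rw [h1, mul_assoc Q]
    refine mul_le_mul_of_nonneg_left ?_ hQ0.le
    refine mul_le_mul hprod hinv (by positivity) ?_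
    exact le_trans (by positivity) hprod
  have hE' : Real.exp (-(E + 4 * (κ : ℝ) ^ 2)) = (Real.exp (E + 4 * (κ : ℝ) ^ 2))⁻¹ :=
    Real.exp_neg _
  rw [hE'] at hfin
  have hexpos := Real.exp_pos (E + 4 * (κ : ℝ) ^ 2)
  calc Q = Real.exp (E + 4 * (κ : ℝ) ^ 2) / (Real.log Y) ^ (g + 1) *
        (Q * ((Real.log Y) ^ (g + 1) * (Real.exp (E + 4 * (κ : ℝ) ^ 2))⁻¹)) := by
        field_simp
    _ ≤ _ := by gcongr

/-- The constant. -/
def mainConst (g : ℕ) (h : Fin g → ℕ) (h₀ : ℕ) : ℝ :=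
  let κ : ℕ := ∑ i, h i + h₀
  let L : ℝ := Real.log 2 + 28 * κ * Real.log 4
  let A : ℝ := 24 * L * (h₀ + 1)
  (4 + 2 * κ) * (Real.exp (∑ i, polyConst (h i) A + polyConst h₀ A + 4 * (κ : ℝ) ^ 2) *
    (24 * L) ^ (g + 1)) * (h₀ * ∏ i, (h i : ℝ))

theorem mainConst_pos (g : ℕ) (h : Fin g → ℕ) (h₀ : ℕ) (hh : ∀ i, 1 ≤ h i) (hh₀ : 1 ≤ h₀) :
    0 < mainConst g h h₀ := by
  unfold mainConst
  have h1 : (0 : ℝ) < h₀ := by exact_mod_cast hh₀
  have h2 : 0 < ∏ i, (h i : ℝ) := prod_pos fun i _ => by exact_mod_cast hh i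
  have hlog2 : 0 < Real.log 2 := Real.log_pos (by norm_num)
  have hlog4 : 0 < Real.log 4 := Real.log_pos (by norm_num)
  simp only
  positivity

/-- The main theorem. -/
theorem main_upper (g : ℕ) (h : Fin g → ℕ) (h₀ : ℕ) (hh : ∀ i, 1 ≤ h i) (hh₀ : 1 ≤ h₀)
    (F : Fin g → ℤ[X]) (G : ℤ[X]) (hF : ∀ i, Irreducible (F i)) (hFd : ∀ i, (F i).natDegree = h i)
    (hGd : G.natDegree = h₀) (hGl : 0 < G.leadingCoeff) :
    ∀ᶠ N : ℕ in atTop, Admissible F G N → ∀ᶠ z : ℕ in atTop,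
      (primeCount F G N : ℝ) ≤ mainConst g h h₀ *
        ((argCount G N : ℝ) / (Real.log (argCount G N)) ^ (g + 1) *
          ((h₀ : ℝ) * ∏ i, (h i : ℝ))⁻¹ * seriesTrunc F G N z) := by
  classical
  set κ : ℕ := ∑ i, h i + h₀ with hκ
  set L : ℝ := Real.log 2 + 28 * κ * Real.log 4 with hL
  set A : ℝ := 24 * L * (h₀ + 1) with hA
  have hlog2 : 0 < Real.log 2 := Real.log_pos (by norm_num)
  have hlog2' : 1 / 2 ≤ Real.log 2 := by linarith [Real.log_two_gt_d9]
  have hlog4 : 0 < Real.log 4 := Real.log_pos (by norm_num)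
  have hL0 : 1 / 2 ≤ L := by
    have : 0 ≤ 28 * (κ : ℝ) * Real.log 4 := by positivity
    linarith
  have hLpos : 0 < L := by linarith
  have hA0 : 0 < A := by positivity
  set c : ℝ := 1 / (12 * L) with hc
  have hc0 : 0 < c := by positivity
  have hc1 : c ≤ 1 / 6 := by
    rw [hc, div_le_div_iff₀ (by positivity) (by norm_num)]
    linarith
  have hGd1 : 1 ≤ G.natDegree := by rw [hGd]; exact hh₀
  have hFd1 : ∀ i, 1 ≤ (F i).natDegree := fun i => by rw [hFd i]; exact hh i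
  -- largeness conditions in terms of `X`
  have hXlarge : ∀ᶠ X : ℕ in atTop, 3 ≤ ⌊(X : ℝ) ^ c⌋₊ ∧ 2 * κ ≤ ⌊(X : ℝ) ^ c⌋₊ ∧
      (X : ℝ) ^ (c / 2) ≤ ⌊(X : ℝ) ^ c⌋₊ ∧
      (∀ i, coeffSum (F i) ≤ (⌊(X : ℝ) ^ c⌋₊ : ℝ) ^ A) := by
    have ht : Tendsto (fun X : ℕ => (X : ℝ) ^ c) atTop atTop :=
      (tendsto_rpow_atTop hc0).comp tendsto_natCast_atTop_atTop
    have ht2 : Tendsto (fun X : ℕ => (X : ℝ) ^ (c / 2)) atTop atTop :=
      (tendsto_rpow_atTop (by positivity)).comp tendsto_natCast_atTop_atTop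
    have ht3 : Tendsto (fun X : ℕ => ⌊(X : ℝ) ^ c⌋₊) atTop atTop :=
      tendsto_nat_floor_atTop.comp ht
    have ht4 : Tendsto (fun X : ℕ => (⌊(X : ℝ) ^ c⌋₊ : ℝ) ^ A) atTop atTop :=
      (tendsto_rpow_atTop hA0).comp (tendsto_natCast_atTop_atTop.comp ht3)
    refine (ht3.eventually_ge_atTop 3).and ((ht3.eventually_ge_atTop (2 * κ)).and (?_))
    refine Eventually.and ?_ (Filter.eventually_all.mpr fun i => ht4.eventually_ge_atTop _)
    filter_upwards [ht2.eventually_ge_atTop 2] with X hX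
    have h1 : (X : ℝ) ^ c = (X : ℝ) ^ (c / 2) * (X : ℝ) ^ (c / 2) := by
      rcases Nat.eq_zero_or_pos X with rfl | hX0
      · exfalso
        rw [Nat.cast_zero, Real.zero_rpow (by positivity)] at hX
        linarith
      · rw [← Real.rpow_add (by exact_mod_cast hX0)]
        congr 1
        ring
    have h2 := Nat.lt_floor_add_one ((X : ℝ) ^ c)
    nlinarith
  have htX := argCount_tendsto hGd1 hGl
  filter_upwards [htX.eventually hXlarge, argSet_eq hGd1 hGl, coeffSum_le_pow hGd1 hGl]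
    with N hN hset hcoef hadm
  set X : ℕ := argCount G N with hXdef
  obtain ⟨hY3, hYκ, hYX, hFA⟩ := hN
  set Y : ℕ := ⌊(X : ℝ) ^ c⌋₊ with hYdef
  have hX0 : 0 < X := by
    rcases Nat.eq_zero_or_pos X with h0 | h0
    · exfalso
      rw [hYdef, h0, Nat.cast_zero, Real.zero_rpow hc0.ne'] at hY3
      simp at hY3
    · exact h0
  have hX0' : (0 : ℝ) < X := by exact_mod_cast hX0
  have hX1 : (1 : ℝ) ≤ X := by exact_mod_cast hX0
  have hY0 : (0 : ℝ) < Y := by exact_mod_cast (by omega : 0 < Y)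
  have hYle : (Y : ℝ) ≤ (X : ℝ) ^ c := Nat.floor_le (by positivity)
  -- the coefficients of `N - G`
  have hGA : coeffSum (C (N : ℤ) - G) ≤ (Y : ℝ) ^ A := by
    refine hcoef.trans ?_
    calc (X : ℝ) ^ (G.natDegree + 1) = ((X : ℝ) ^ (c / 2)) ^ A := by
          rw [← Real.rpow_mul hX0'.le, ← Real.rpow_natCast]
          congr 1
          rw [hA, hc, hGd]
          push_cast
          field_simp
          ring
      _ ≤ (Y : ℝ) ^ A := Real.rpow_le_rpow (by positivity) hYX hA0.le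
  -- the logarithms
  have hlogY : c / 2 * Real.log X ≤ Real.log Y := by
    have := Real.log_le_log (by positivity) hYX
    rwa [Real.log_rpow hX0'] at this
  have hlogY2 : Real.log Y ≤ c * Real.log X := by
    have := Real.log_le_log hY0 hYle
    rwa [Real.log_rpow hX0'] at this
  have hlogYpos : 0 < Real.log Y := Real.log_pos (by exact_mod_cast (by omega : 1 < Y))
  have hlogX : 0 < Real.log X := by
    by_contra hcon
    push Not at hcon
    nlinarith
  -- the sieve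
  have hdegs : (∑ i, (F i).natDegree + G.natDegree : ℕ) = κ := by
    rw [hκ, hGd]
    congr 1
    exact sum_congr rfl fun i _ => hFd i
  set R : ℝ := (X : ℝ) ^ (1 / 12 : ℝ) with hR
  have hR1 : 1 ≤ R := Real.one_le_rpow hX1 (by norm_num)
  have hR12 : R ^ 12 = X := by
    rw [hR, ← Real.rpow_natCast, ← Real.rpow_mul hX0'.le]
    norm_num
  have hlogR : Real.log R = 1 / 12 * Real.log X := by rw [hR, Real.log_rpow hX0']
  have hstep := sieve_step hF hFd1 hGd1 hadm (X := X) (Y := Y) (R := R) hset (by omega) hR1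
    (by
      rw [hdegs, ← hL, hlogR]
      calc L * Real.log Y ≤ L * (c * Real.log X) := by gcongr
        _ = 1 / 12 * Real.log X := by rw [hc]; field_simp)
    hR12.le
    (by
      refine hYle.trans ?_
      rw [hR, ← Real.rpow_natCast, ← Real.rpow_mul hX0'.le]
      exact Real.rpow_le_rpow_of_exponent_le hX1 (by push_cast; linarith))
  rw [hdegs] at hstep
  have hmert := mertens_step hF hFd1 hGd1 hadm hY3 hdegs.symm hYκ hFA hGA
  filter_upwards [hmert] with z hz
  have hconst : ∑ i, polyConst (F i).natDegree A = ∑ i, polyConst (h i) A :=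
    sum_congr rfl fun i _ => by rw [hFd i]
  rw [hconst, hGd] at hz
  set B : ℝ := Real.exp (∑ i, polyConst (h i) A + polyConst h₀ A + 4 * (κ : ℝ) ^ 2) with hB
  have hB0 : 0 < B := Real.exp_pos _
  set Q := ∏ p ∈ Nat.primesBelow Y, (1 - (omegaN F G N p : ℝ) / p) with hQ
  have hQ0 : 0 < Q := by
    refine prod_pos fun p hp => ?_
    have hpp := Nat.prime_of_mem_primesBelow hp
    have hp0 : (0 : ℝ) < p := by exact_mod_cast hpp.pos
    rw [sub_pos, div_lt_one hp0]
    exact_mod_cast omegaN_lt hadm hpp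
  have hS0 : 0 < seriesTrunc F G N z := by
    by_contra hcon
    push Not at hcon
    have : B / Real.log Y ^ (g + 1) * seriesTrunc F G N z ≤ 0 :=
      mul_nonpos_of_nonneg_of_nonpos (by positivity) hcon
    linarith
  have hQX : Q ≤ B * (24 * L) ^ (g + 1) / (Real.log X) ^ (g + 1) * seriesTrunc F G N z := by
    refine hz.trans (mul_le_mul_of_nonneg_right ?_ hS0.le)
    rw [div_le_div_iff₀ (by positivity) (by positivity), mul_assoc]
    refine mul_le_mul_of_nonneg_left ?_ hB0.le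
    rw [← mul_pow]
    refine pow_le_pow_left₀ hlogX.le ?_ _
    have : Real.log X = 24 * L * (c / 2 * Real.log X) := by rw [hc]; field_simp; ring
    rw [this]
    gcongr
  have hdegpos : 0 < (h₀ : ℝ) * ∏ i, (h i : ℝ) := by
    have h1 : (0 : ℝ) < h₀ := by exact_mod_cast hh₀
    have h2 : 0 < ∏ i, (h i : ℝ) := prod_pos fun i _ => by exact_mod_cast hh i
    positivity
  have hmain : mainConst g h h₀ = (4 + 2 * (κ : ℝ)) * (B * (24 * L) ^ (g + 1)) *
      (h₀ * ∏ i, (h i : ℝ)) := rfl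
  rw [hmain]
  set D : ℝ := (h₀ : ℝ) * ∏ i, (h i : ℝ) with hD
  have hD0 : D ≠ 0 := hdegpos.ne'
  calc (primeCount F G N : ℝ) ≤ (4 + 2 * (κ : ℝ)) * (X * Q) := hstep
    _ ≤ (4 + 2 * (κ : ℝ)) * (X * (B * (24 * L) ^ (g + 1) / (Real.log X) ^ (g + 1) *
        seriesTrunc F G N z)) := by gcongr
    _ = _ := by field_simp

end Pool.Agent.Lib.H59
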