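import Mathlib
import Pool.Agent.Lib.H59.PolySieve
import Pool.Agent.Lib.H59.MertensLower

/-!
# An upper bound for the number of prime pairs, with explicit dependence on the difference

-/

open Finset Polynomial

noncomputable section

namespace Pool.Agent.Lib.H59

/-- The polynomial `(X + n)(X + m)`. -/
def pairPoly (n m : ℕ) : ℤ[X] := (X + C (n : ℤ)) * (X + C (m : ℤ))

theorem pairPoly_eval (n m a : ℕ) :
    (pairPoly n m).eval (a : ℤ) = (((n + a) * (m + a) : ℕ) : ℤ) := by
  unfold pairPoly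
  simp only [eval_mul, eval_add, eval_X, eval_C]
  push_cast
  ring

theorem dvd_pairPoly_eval {p : ℕ} (hp : p.Prime) (n m a : ℕ) :
    (p : ℤ) ∣ (pairPoly n m).eval (a : ℤ) ↔ p ∣ n + a ∨ p ∣ m + a := by
  rw [pairPoly_eval, Int.natCast_dvd_natCast, hp.dvd_mul]

/-- the unique residue -/
def negRes (p n : ℕ) : ℕ := (p - n % p) % p

theorem dvd_add_iff_eq_negRes {p : ℕ} (hp : p.Prime) (n : ℕ) {r : ℕ} (hr : r < p) :
    p ∣ n + r ↔ r = negRes p n := by
  unfold negRes
  have hp0 : 0 < p := hp.pos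
  have hm : n % p < p := Nat.mod_lt _ hp0
  have h1 : p ∣ n + r ↔ p ∣ n % p + r := by
    rw [Nat.dvd_iff_mod_eq_zero, Nat.dvd_iff_mod_eq_zero, Nat.add_mod]
    conv_rhs => rw [Nat.add_mod, Nat.mod_mod]
  rw [h1]
  rcases Nat.eq_zero_or_pos (n % p) with h0 | h0
  · rw [h0, Nat.sub_zero, Nat.mod_self, zero_add]
    constructor
    · intro h
      exact Nat.eq_zero_of_dvd_of_lt h hr
    · rintro rfl
      exact dvd_zero _
  · rw [Nat.mod_eq_of_lt (by omega : p - n % p < p)]
    constructor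
    · rintro ⟨c, hc⟩
      have hc1 : c = 1 := by
        have h3 : 0 < c := by
          rcases Nat.eq_zero_or_pos c with rfl | h
          · omega
          · exact h
        have h4 : c < 2 := by
          by_contra hcon
          have : 2 ≤ c := by omega
          have : p * 2 ≤ p * c := Nat.mul_le_mul_left _ this
          omega
        omega
      subst hc1
      omega
    · intro h
      exact ⟨1, by omega⟩

theorem rootCount_pairPoly {p : ℕ} (hp : p.Prime) (n m : ℕ) :
    rootCount (pairPoly n m) p = ({negRes p n, negRes p m} : Finset ℕ).card := by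
  unfold rootCount
  congr 1
  ext r
  rw [mem_filter, mem_range, mem_insert, mem_singleton]
  constructor
  · rintro ⟨hr, hd⟩
    rw [dvd_pairPoly_eval hp] at hd
    rwa [dvd_add_iff_eq_negRes hp n hr, dvd_add_iff_eq_negRes hp m hr] at hd
  · intro h
    have hr : r < p := by
      rcases h with rfl | rfl <;> exact Nat.mod_lt _ hp.pos
    refine ⟨hr, ?_⟩
    rw [dvd_pairPoly_eval hp, dvd_add_iff_eq_negRes hp n hr, dvd_add_iff_eq_negRes hp m hr]
    exact h

theorem negRes_eq_iff {p : ℕ} (hp : p.Prime) (n m : ℕ) :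
    negRes p n = negRes p m ↔ n ≡ m [MOD p] := by
  have hn : negRes p n < p := Nat.mod_lt _ hp.pos
  have hm : negRes p m < p := Nat.mod_lt _ hp.pos
  have h1 : p ∣ n + negRes p n := (dvd_add_iff_eq_negRes hp n hn).mpr rfl
  have h2 : p ∣ m + negRes p m := (dvd_add_iff_eq_negRes hp m hm).mpr rfl
  constructor
  · intro h
    rw [← h] at h2
    have h3 : n + negRes p n ≡ m + negRes p n [MOD p] :=
      ((Nat.modEq_zero_iff_dvd).mpr h1).trans ((Nat.modEq_zero_iff_dvd).mpr h2).symm
    exact Nat.ModEq.add_right_cancel' _ h3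
  · intro h
    have h3 : p ∣ m + negRes p n := by
      rw [← Nat.modEq_zero_iff_dvd] at h1 ⊢
      exact ((h.add_right _).symm).trans h1
    exact (dvd_add_iff_eq_negRes hp m hn).mp h3

theorem rootCount_pairPoly_le {p : ℕ} (hp : p.Prime) (n m : ℕ) :
    rootCount (pairPoly n m) p ≤ 2 := by
  rw [rootCount_pairPoly hp]
  exact card_le_two

theorem rootCount_pairPoly_of_modEq {p : ℕ} (hp : p.Prime) {n m : ℕ} (h : n ≡ m [MOD p]) :
    rootCount (pairPoly n m) p = 1 := by
  rw [rootCount_pairPoly hp, (negRes_eq_iff hp n m).mpr h]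
  simp

theorem rootCount_pairPoly_of_not_modEq {p : ℕ} (hp : p.Prime) {n m : ℕ}
    (h : ¬ n ≡ m [MOD p]) : rootCount (pairPoly n m) p = 2 := by
  rw [rootCount_pairPoly hp, card_pair]
  rw [ne_eq, negRes_eq_iff hp]
  exact h

/-- The product over the prime divisors of the difference. -/
def diffProd (n m : ℕ) : ℝ := ∏ p ∈ ((n : ℤ) - m).natAbs.primeFactors, (1 - (p : ℝ)⁻¹)⁻¹

theorem one_sub_inv_pos {p : ℕ} (hp : p.Prime) : 0 < 1 - (p : ℝ)⁻¹ := by
  have : (2 : ℝ) ≤ p := by exact_mod_cast hp.two_le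
  have h : (p : ℝ)⁻¹ ≤ 2⁻¹ := by gcongr
  norm_num at h
  linarith

theorem prod_pair_le {n m : ℕ} (hnm : n ≠ m) (Y : ℕ) (hY : 2 ≤ Y) :
    ∏ p ∈ Nat.primesBelow Y, (1 - (rootCount (pairPoly n m) p : ℝ) / p) ≤
      (1 / Real.log Y) ^ 2 * diffProd n m := by
  classical
  have hlog : 0 < Real.log Y := Real.log_pos (by exact_mod_cast (by omega : 1 < Y))
  set D := ((n : ℤ) - m).natAbs with hD
  have hD0 : D ≠ 0 := by
    rw [hD, Int.natAbs_ne_zero, sub_ne_zero]
    exact_mod_cast hnm
  have hdvd : ∀ p : ℕ, p ∣ D ↔ n ≡ m [MOD p] := by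
    intro p
    rw [hD, ← Int.natCast_dvd, Nat.modEq_iff_dvd, ← dvd_neg, neg_sub]
  have hpoint : ∀ p ∈ Nat.primesBelow Y, 1 - (rootCount (pairPoly n m) p : ℝ) / p ≤
      (1 - (p : ℝ)⁻¹) ^ 2 * (if p ∣ D then (1 - (p : ℝ)⁻¹)⁻¹ else 1) := by
    intro p hp
    have hpp := Nat.prime_of_mem_primesBelow hp
    have hpos := one_sub_inv_pos hpp
    split_ifs with h
    · rw [rootCount_pairPoly_of_modEq hpp ((hdvd p).mp h)]
      have : (1 - (p : ℝ)⁻¹) ^ 2 * (1 - (p : ℝ)⁻¹)⁻¹ = 1 - (p : ℝ)⁻¹ := by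
        field_simp
      rw [this]
      simp
    · rw [rootCount_pairPoly_of_not_modEq hpp (fun h' => h ((hdvd p).mpr h'))]
      have : ((2 : ℕ) : ℝ) / p = 2 * (p : ℝ)⁻¹ := by push_cast; ring
      rw [this]
      nlinarith [sq_nonneg ((p : ℝ)⁻¹)]
  have hnonneg : ∀ p ∈ Nat.primesBelow Y, 0 ≤ 1 - (rootCount (pairPoly n m) p : ℝ) / p := by
    intro p hp
    have hpp := Nat.prime_of_mem_primesBelow hp
    have hp0 : (0 : ℝ) < p := by exact_mod_cast hpp.pos
    have h1 : rootCount (pairPoly n m) p ≤ p := rootCount_le_self _ _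
    have h2 : (rootCount (pairPoly n m) p : ℝ) / p ≤ 1 := by
      rw [div_le_one hp0]; exact_mod_cast h1
    linarith
  refine (prod_le_prod hnonneg hpoint).trans ?_
  rw [prod_mul_distrib, prod_pow]
  have h3 := prod_one_sub_inv_le hY
  have h4 : 0 ≤ ∏ p ∈ Nat.primesBelow Y, (1 - (p : ℝ)⁻¹) :=
    prod_nonneg fun p hp => (one_sub_inv_pos (Nat.prime_of_mem_primesBelow hp)).le
  have h5 : ∏ p ∈ Nat.primesBelow Y, (if p ∣ D then (1 - (p : ℝ)⁻¹)⁻¹ else 1) ≤ diffProd n m := by
    unfold diffProd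
    rw [← prod_filter]
    have hsub : (Nat.primesBelow Y).filter (fun p => p ∣ D) ⊆ D.primeFactors := by
      intro p hp
      rw [mem_filter] at hp
      exact Nat.mem_primeFactors.mpr ⟨Nat.prime_of_mem_primesBelow hp.1, hp.2, hD0⟩
    refine prod_le_prod_of_subset_of_one_le hsub (fun p hp => ?_) (fun p hp _ => ?_)
    · have := one_sub_inv_pos (Nat.prime_of_mem_primesBelow (mem_filter.mp hp).1)
      positivity
    · have hpp := Nat.prime_of_mem_primeFactors hp
      have hpos := one_sub_inv_pos hpp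
      rw [one_le_inv₀ hpos]
      have : (0 : ℝ) ≤ (p : ℝ)⁻¹ := by positivity
      linarith
  have h6 : 0 ≤ ∏ p ∈ Nat.primesBelow Y, (if p ∣ D then (1 - (p : ℝ)⁻¹)⁻¹ else 1) := by
    refine prod_nonneg fun p hp => ?_
    have := one_sub_inv_pos (Nat.prime_of_mem_primesBelow hp)
    split_ifs
    · positivity
    · norm_num
  exact mul_le_mul (pow_le_pow_left₀ h4 h3 2) h5 h6 (by positivity)

/-- The constant of `pair_bound`. -/
def pairConst : ℝ := 24000000

theorem pair_bound : ∃ X₀ : ℕ, ∀ X : ℕ, X₀ ≤ X → ∀ n m : ℕ, n ≠ m → n ≡ m [MOD 2] →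
    (((Icc 1 X).filter fun a => (n + a).Prime ∧ (m + a).Prime).card : ℝ) ≤
      pairConst * diffProd n m * X / (Real.log X) ^ 2 := by
  classical
  refine ⟨2 ^ 4000, fun X hX n m hnm h2 => ?_⟩
  have hXr : (2 : ℝ) ^ 4000 ≤ X := by exact_mod_cast hX
  have hX0 : (0 : ℝ) < X := lt_of_lt_of_le (by positivity) hXr
  have hX1 : (1 : ℝ) ≤ X := le_trans (one_le_pow₀ (by norm_num)) hXr
  have hl2 : 0.6931471803 < Real.log 2 := Real.log_two_gt_d9
  have hl2' : Real.log 2 < 0.6931471808 := Real.log_two_lt_d9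
  have hlogX : 4000 * Real.log 2 ≤ Real.log X := by
    have := Real.log_le_log (by positivity) hXr
    rw [Real.log_pow] at this
    exact_mod_cast this
  have hlogpos : 0 < Real.log X := by linarith
  -- the level
  set t : ℝ := (X : ℝ) ^ (1 / 1000 : ℝ) with ht
  have ht16 : (16 : ℝ) ≤ t := by
    have h1 : (2 ^ 4000 : ℝ) ^ (1 / 1000 : ℝ) = 16 := by
      rw [← Real.rpow_natCast, ← Real.rpow_mul (by norm_num)]
      norm_num
    calc (16 : ℝ) = (2 ^ 4000 : ℝ) ^ (1 / 1000 : ℝ) := h1.symm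
      _ ≤ t := Real.rpow_le_rpow (by positivity) hXr (by norm_num)
  have hlogt : Real.log t = Real.log X / 1000 := by
    rw [ht, Real.log_rpow hX0]; ring
  set Y : ℕ := ⌊t⌋₊ with hY
  have hYt : (Y : ℝ) ≤ t := Nat.floor_le (by linarith)
  have hYt' : t < Y + 1 := Nat.lt_floor_add_one t
  have hY15 : (15 : ℝ) < Y := by linarith
  have hY2 : 2 ≤ Y := by
    have : (2 : ℝ) ≤ Y := by linarith
    exact_mod_cast this
  have hlogY : Real.log X / 2000 ≤ Real.log Y := by
    have h1 : t / 2 ≤ Y := by linarith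
    have h2 := Real.log_le_log (by linarith) h1
    rw [Real.log_div (by linarith) (by norm_num), hlogt] at h2
    linarith
  have hlogY' : Real.log Y ≤ Real.log X / 1000 := by
    rw [← hlogt]
    exact Real.log_le_log (by linarith) hYt
  set R : ℝ := (X : ℝ) ^ (1 / 12 : ℝ) with hR
  have hR1 : 1 ≤ R := Real.one_le_rpow hX1 (by norm_num)
  have hlogR : Real.log R = Real.log X / 12 := by
    rw [hR, Real.log_rpow hX0]; ring
  have hR12 : R ^ 12 = X := by
    rw [hR, ← Real.rpow_natCast, ← Real.rpow_mul hX0.le]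
    norm_num
  have hlog4 : Real.log 4 = 2 * Real.log 2 := by
    rw [show (4 : ℝ) = 2 ^ 2 by norm_num, Real.log_pow]; norm_num
  obtain ⟨hs1, hs2⟩ := poly_sieve (pairPoly n m) (κ := 2) (Y := Y) (X := X) (R := R)
    (fun p hp _ => rootCount_pairPoly_le hp n m)
    (fun p hp _ => by
      rcases hp.eq_two_or_odd' with rfl | hodd
      · rw [rootCount_pairPoly_of_modEq hp h2]; norm_num
      · have h3 : 3 ≤ p := by
          rcases hp.two_le.lt_or_eq with h | h
          · exact h
          · subst h; exact absurd hodd (by decide)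
        exact lt_of_le_of_lt (rootCount_pairPoly_le hp n m) (by omega))
    hY2 hR1
    (by
      rw [hlogR, hlog4]
      push_cast
      have h5 : (Real.log 2 + 28 * 2 * (2 * Real.log 2)) * Real.log Y ≤ 79 * (Real.log X / 1000) :=
        mul_le_mul (by linarith) hlogY' (by linarith) (by norm_num)
      linarith)
    hR12.le
  set Pr : ℝ := ∏ p ∈ Nat.primesBelow Y, (1 - (rootCount (pairPoly n m) p : ℝ) / p) with hPr
  have hprod := prod_pair_le hnm Y hY2
  rw [← hPr] at hprod
  -- the count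
  have hcount : (((Icc 1 X).filter fun a => (n + a).Prime ∧ (m + a).Prime).card : ℝ) ≤
      (((Icc 1 X).filter fun a : ℕ => ∀ p ∈ Nat.primesBelow Y,
        ¬ (p : ℤ) ∣ (pairPoly n m).eval (a : ℤ)).card : ℝ) + Y := by
    have hsub : ((Icc 1 X).filter fun a => (n + a).Prime ∧ (m + a).Prime) ⊆
        ((Icc 1 X).filter fun a : ℕ => ∀ p ∈ Nat.primesBelow Y,
          ¬ (p : ℤ) ∣ (pairPoly n m).eval (a : ℤ)) ∪ range Y := by
      intro a ha
      rw [mem_filter] at ha
      rw [mem_union, mem_filter, mem_range]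
      by_cases haY : a < Y
      · exact Or.inr haY
      · left
        refine ⟨ha.1, fun p hp hd => ?_⟩
        have hpp := Nat.prime_of_mem_primesBelow hp
        have hpY : p < Y := Nat.lt_of_mem_primesBelow hp
        rw [dvd_pairPoly_eval hpp] at hd
        rcases hd with hd | hd
        · have := (Nat.prime_dvd_prime_iff_eq hpp ha.2.1).mp hd
          omega
        · have := (Nat.prime_dvd_prime_iff_eq hpp ha.2.2).mp hd
          omega
    have h7 := (card_le_card hsub).trans (card_union_le _ _)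
    rw [card_range] at h7
    exact_mod_cast h7
  have hYR : (Y : ℝ) ≤ 2 * X * Pr := by
    refine le_trans ?_ hs2
    calc (Y : ℝ) ≤ t := hYt
      _ ≤ R := by
        rw [ht, hR]
        exact Real.rpow_le_rpow_of_exponent_le hX1 (by norm_num)
      _ = R ^ 1 := (pow_one R).symm
      _ ≤ R ^ 10 := pow_le_pow_right₀ hR1 (by norm_num)
  have hdp : 0 ≤ diffProd n m := by
    unfold diffProd
    refine prod_nonneg fun p hp => ?_
    have := one_sub_inv_pos (Nat.prime_of_mem_primeFactors hp)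
    positivity
  calc (((Icc 1 X).filter fun a => (n + a).Prime ∧ (m + a).Prime).card : ℝ)
      ≤ 4 * X * Pr + 2 * X * Pr := by linarith
    _ = 6 * X * Pr := by ring
    _ ≤ 6 * X * ((1 / Real.log Y) ^ 2 * diffProd n m) := by gcongr
    _ ≤ 6 * X * ((1 / (Real.log X / 2000)) ^ 2 * diffProd n m) := by gcongr
    _ = pairConst * diffProd n m * X / (Real.log X) ^ 2 := by
      unfold pairConst
      field_simp
      ring

end Pool.Agent.Lib.H59
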