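import Mathlib
import Pool.Agent.Lib.H59.TuplePair

/-!
# Sums over primes in short ranges and the relative singular series

-/

open Finset

noncomputable section

namespace Pool.Agent.Lib.H59

/-- the primes in `(u, v]` -/
def primesIoc (u v : ℕ) : Finset ℕ := (Ioc u v).filter Nat.Prime

theorem mem_primesIoc {u v p : ℕ} : p ∈ primesIoc u v ↔ (u < p ∧ p ≤ v) ∧ p.Prime := by
  unfold primesIoc
  rw [mem_filter, mem_Ioc]

theorem sum_inv_dyadic (t : ℕ) (ht : 2 ≤ t) :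
    ∑ p ∈ primesIoc t (2 * t), (p : ℝ)⁻¹ ≤ 2 * Real.log 4 / Real.log t := by
  have ht0 : (0 : ℝ) < t := by exact_mod_cast (by omega : 0 < t)
  have hlog : 0 < Real.log t := Real.log_pos (by exact_mod_cast (by omega : 1 < t))
  have h1 : ∀ p ∈ primesIoc t (2 * t), (p : ℝ)⁻¹ ≤ Real.log p * (1 / (t * Real.log t)) := by
    intro p hp
    obtain ⟨⟨h1, h2⟩, h3⟩ := mem_primesIoc.mp hp
    have h4 : (t : ℝ) ≤ p := by exact_mod_cast h1.le
    have h5 : Real.log t ≤ Real.log p := Real.log_le_log ht0 h4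
    calc (p : ℝ)⁻¹ ≤ (t : ℝ)⁻¹ := by gcongr
      _ = Real.log t * (1 / (t * Real.log t)) := by field_simp
      _ ≤ _ := by gcongr
  refine (sum_le_sum h1).trans ?_
  rw [← sum_mul]
  have h2 : ∑ p ∈ primesIoc t (2 * t), Real.log p ≤ Real.log 4 * (2 * t) := by
    have h3 := Chebyshev.theta_le_log4_mul_x (x := (2 * t : ℝ)) (by positivity)
    refine le_trans ?_ h3
    rw [Chebyshev.theta]
    refine Finset.sum_le_sum_of_subset_of_nonneg ?_ ?_
    · intro p hp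
      obtain ⟨⟨h1, h2⟩, h3⟩ := mem_primesIoc.mp hp
      rw [mem_filter, mem_Ioc]
      refine ⟨⟨h3.pos, Nat.le_floor ?_⟩, h3⟩
      exact_mod_cast h2
    · intro p hp _
      rw [mem_filter, mem_Ioc] at hp
      exact Real.log_nonneg (by exact_mod_cast hp.1.1)
  calc (∑ p ∈ primesIoc t (2 * t), Real.log p) * (1 / (t * Real.log t))
      ≤ Real.log 4 * (2 * t) * (1 / (t * Real.log t)) := by gcongr
    _ = 2 * Real.log 4 / Real.log t := by field_simp

theorem sum_inv_range (u j : ℕ) (hu : 2 ≤ u) :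
    ∑ p ∈ primesIoc u (2 ^ j * u), (p : ℝ)⁻¹ ≤ j * (2 * Real.log 4 / Real.log u) := by
  have hlog : 0 < Real.log u := Real.log_pos (by exact_mod_cast (by omega : 1 < u))
  induction j with
  | zero =>
    have : primesIoc u (2 ^ 0 * u) = ∅ := by
      ext p
      rw [mem_primesIoc]
      constructor
      · rintro ⟨⟨h1, h2⟩, _⟩
        rw [pow_zero, one_mul] at h2
        omega
      · intro h
        exact absurd h (notMem_empty p)
    rw [this]
    simp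
  | succ j ih =>
    have hge : u ≤ 2 ^ j * u := Nat.le_mul_of_pos_left _ (by positivity)
    have h1 : primesIoc u (2 ^ (j + 1) * u) ⊆
        primesIoc u (2 ^ j * u) ∪ primesIoc (2 ^ j * u) (2 * (2 ^ j * u)) := by
      intro p hp
      obtain ⟨⟨h1, h2⟩, h3⟩ := mem_primesIoc.mp hp
      rw [mem_union, mem_primesIoc, mem_primesIoc]
      rcases le_or_gt p (2 ^ j * u) with h | h
      · exact Or.inl ⟨⟨h1, h⟩, h3⟩
      · refine Or.inr ⟨⟨h, ?_⟩, h3⟩
        rw [pow_succ] at h2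
        linarith
    have h2 : ∑ p ∈ primesIoc u (2 ^ (j + 1) * u), (p : ℝ)⁻¹ ≤
        ∑ p ∈ primesIoc u (2 ^ j * u), (p : ℝ)⁻¹ +
          ∑ p ∈ primesIoc (2 ^ j * u) (2 * (2 ^ j * u)), (p : ℝ)⁻¹ := by
      refine (sum_le_sum_of_subset_of_nonneg h1 fun p _ _ => by positivity).trans ?_
      rw [← sum_union_inter]
      have : 0 ≤ ∑ p ∈ primesIoc u (2 ^ j * u) ∩ primesIoc (2 ^ j * u) (2 * (2 ^ j * u)),
          (p : ℝ)⁻¹ := sum_nonneg fun p _ => by positivity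
      linarith
    have h3 := sum_inv_dyadic (2 ^ j * u) (by omega)
    have h4 : 2 * Real.log 4 / Real.log ((2 ^ j * u : ℕ) : ℝ) ≤ 2 * Real.log 4 / Real.log u := by
      have : Real.log u ≤ Real.log ((2 ^ j * u : ℕ) : ℝ) :=
        Real.log_le_log (by exact_mod_cast (by omega : 0 < u)) (by exact_mod_cast hge)
      have h0 : 0 ≤ 2 * Real.log 4 := by
        have := Real.log_nonneg (by norm_num : (1 : ℝ) ≤ 4)
        linarith
      gcongr
    push_cast
    linarith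

theorem inv_one_sub_le_exp {p : ℕ} (hp : p.Prime) :
    (1 - (p : ℝ)⁻¹)⁻¹ ≤ Real.exp (2 * (p : ℝ)⁻¹) := by
  have h2 : (2 : ℝ) ≤ p := by exact_mod_cast hp.two_le
  have h3 : (p : ℝ)⁻¹ ≤ 2⁻¹ := by gcongr
  have h4 : (0 : ℝ) ≤ (p : ℝ)⁻¹ := by positivity
  have hpos := one_sub_inv_pos hp
  have h5 := Real.add_one_le_exp (2 * (p : ℝ)⁻¹)
  refine le_trans ?_ h5
  rw [inv_le_iff_one_le_mul₀ hpos]
  nlinarith

theorem prod_inv_one_sub_le_exp (T : Finset ℕ) (hT : ∀ p ∈ T, p.Prime) :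
    ∏ p ∈ T, (1 - (p : ℝ)⁻¹)⁻¹ ≤ Real.exp (2 * ∑ p ∈ T, (p : ℝ)⁻¹) := by
  rw [mul_sum, Real.exp_sum]
  refine prod_le_prod (fun p hp => ?_) fun p hp => inv_one_sub_le_exp (hT p hp)
  have := one_sub_inv_pos (hT p hp)
  positivity

theorem one_le_inv_one_sub {p : ℕ} (hp : p.Prime) : 1 ≤ (1 - (p : ℝ)⁻¹)⁻¹ := by
  rw [one_le_inv₀ (one_sub_inv_pos hp)]
  have : (0 : ℝ) ≤ (p : ℝ)⁻¹ := by positivity
  linarith

/-- Large prime factors contribute little. -/
theorem sum_inv_large (h Y : ℕ) (h0 : h ≠ 0) (hY : 4 ≤ Y)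
    (hhY : Real.log h ≤ (Y : ℝ) ^ 2) :
    ∑ p ∈ h.primeFactors.filter (fun p => Y < p), (p : ℝ)⁻¹ ≤ 9 := by
  classical
  have hYr : (4 : ℝ) ≤ Y := by exact_mod_cast hY
  have hlogY : 0 < Real.log Y := Real.log_pos (by linarith)
  set j := Nat.clog 2 Y with hj
  have hj1 : Y ≤ 2 ^ j := Nat.le_pow_clog (by norm_num) Y
  have hj2 : (j : ℝ) * Real.log 2 ≤ 2 * Real.log Y := by
    have h1 : 2 ^ (j - 1) < Y := Nat.pow_pred_clog_lt_self (by norm_num) (by omega)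
    have hjpos : 0 < j := Nat.clog_pos (by norm_num) (by omega)
    have h2 : 2 ^ j ≤ Y ^ 2 := by
      have : 2 ^ j = 2 * 2 ^ (j - 1) := by
        conv_lhs => rw [show j = (j - 1) + 1 by omega, pow_succ]
        ring
      nlinarith
    have h3 : ((2 : ℝ) ^ j) ≤ (Y : ℝ) ^ 2 := by exact_mod_cast h2
    have h4 := Real.log_le_log (by positivity) h3
    rw [Real.log_pow, Real.log_pow] at h4
    exact_mod_cast h4
  have hsub : h.primeFactors.filter (fun p => Y < p) ⊆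
      primesIoc Y (2 ^ j * Y) ∪ h.primeFactors.filter (fun p => Y ^ 2 < p) := by
    intro p hp
    rw [mem_filter] at hp
    rw [mem_union, mem_primesIoc, mem_filter]
    have hpp := Nat.prime_of_mem_primeFactors hp.1
    rcases le_or_gt p (2 ^ j * Y) with h1 | h1
    · exact Or.inl ⟨⟨hp.2, h1⟩, hpp⟩
    · refine Or.inr ⟨hp.1, lt_of_le_of_lt ?_ h1⟩
      rw [sq]
      exact Nat.mul_le_mul_right _ hj1
  have hs1 : ∑ p ∈ primesIoc Y (2 ^ j * Y), (p : ℝ)⁻¹ ≤ 8 := by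
    refine (sum_inv_range Y j (by omega)).trans ?_
    have hlog4 : Real.log 4 = 2 * Real.log 2 := by
      rw [show (4 : ℝ) = 2 ^ 2 by norm_num, Real.log_pow]; norm_num
    rw [hlog4, mul_div_assoc', div_le_iff₀ hlogY]
    nlinarith
  have hs2 : ∑ p ∈ h.primeFactors.filter (fun p => Y ^ 2 < p), (p : ℝ)⁻¹ ≤ 1 := by
    set S := h.primeFactors.filter (fun p => Y ^ 2 < p) with hS
    have hcard : (S.card : ℝ) ≤ (Y : ℝ) ^ 2 := by
      have h1 : ∏ p ∈ S, p ≤ h := by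
        refine Nat.le_of_dvd (Nat.pos_of_ne_zero h0) ?_
        refine dvd_trans (prod_dvd_prod_of_subset _ _ _ (filter_subset _ _)) ?_
        exact Nat.prod_primeFactors_dvd h
      have h2 : (∏ p ∈ S, (p : ℝ)) ≤ h := by
        rw [← Nat.cast_prod]
        exact Nat.cast_le.mpr h1
      have h3 : Real.log (∏ p ∈ S, (p : ℝ)) ≤ Real.log h :=
        Real.log_le_log (prod_pos fun p hp => by
          exact_mod_cast (Nat.prime_of_mem_primeFactors (mem_filter.mp hp).1).pos) h2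
      rw [Real.log_prod (fun p hp => by
        exact_mod_cast (Nat.prime_of_mem_primeFactors (mem_filter.mp hp).1).ne_zero)] at h3
      have h4 : ∀ p ∈ S, (1 : ℝ) ≤ Real.log p := by
        intro p hp
        have h5 : Y ^ 2 < p := (mem_filter.mp hp).2
        have h6 : (16 : ℝ) ≤ p := by
          have : 16 ≤ p := by nlinarith
          exact_mod_cast this
        rw [Real.le_log_iff_exp_le (by linarith)]
        have := Real.exp_one_lt_d9
        linarith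
      have h5 : (S.card : ℝ) ≤ ∑ p ∈ S, Real.log p := by
        have := sum_le_sum h4
        rw [sum_const, nsmul_eq_mul, mul_one] at this
        exact this
      linarith
    have hterm : ∀ p ∈ S, (p : ℝ)⁻¹ ≤ ((Y : ℝ) ^ 2)⁻¹ := by
      intro p hp
      have h5 : Y ^ 2 < p := (mem_filter.mp hp).2
      have h6 : (Y : ℝ) ^ 2 ≤ p := by exact_mod_cast h5.le
      gcongr
    refine (sum_le_sum hterm).trans ?_
    rw [sum_const, nsmul_eq_mul]
    rw [← div_eq_mul_inv, div_le_one (by positivity)]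
    exact hcard
  refine (sum_le_sum_of_subset_of_nonneg hsub fun p _ _ => by positivity).trans ?_
  have := sum_union_inter (s₁ := primesIoc Y (2 ^ j * Y))
    (s₂ := h.primeFactors.filter (fun p => Y ^ 2 < p)) (f := fun p => (p : ℝ)⁻¹)
  have h0 : 0 ≤ ∑ p ∈ primesIoc Y (2 ^ j * Y) ∩ h.primeFactors.filter (fun p => Y ^ 2 < p),
      (p : ℝ)⁻¹ := sum_nonneg fun p _ => by positivity
  linarith

/-- The relative singular series is bounded. -/
theorem diffProd_le {n m u v Y : ℕ} (hnm : n ≠ m) (hY : 4 ≤ Y)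
    (hlog : Real.log ((n : ℤ) - m).natAbs ≤ (Y : ℝ) ^ 2)
    (hgap : ∑ p ∈ primesIoc u v, (p : ℝ)⁻¹ ≤ 1)
    {T : Finset ℕ} (hT : ∀ p ∈ T, p.Prime)
    (hT2 : ∀ p : ℕ, p.Prime → p ≤ Y → p ∈ T ∨ (u < p ∧ p ≤ v)) :
    diffProd n m ≤ Real.exp 20 * ∏ p ∈ T, (1 - (p : ℝ)⁻¹)⁻¹ := by
  classical
  set D := ((n : ℤ) - m).natAbs with hD
  have hD0 : D ≠ 0 := by
    rw [hD, Int.natAbs_ne_zero, sub_ne_zero]
    exact_mod_cast hnm
  set L := D.primeFactors.filter (fun p => Y < p) with hL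
  have hLp : ∀ p ∈ L, p.Prime := fun p hp => Nat.prime_of_mem_primeFactors (mem_filter.mp hp).1
  have hGp : ∀ p ∈ primesIoc u v, p.Prime := fun p hp => (mem_primesIoc.mp hp).2
  have hsub : D.primeFactors ⊆ (T ∪ primesIoc u v) ∪ L := by
    intro p hp
    have hpp := Nat.prime_of_mem_primeFactors hp
    rw [mem_union, mem_union, hL, mem_filter]
    rcases le_or_gt p Y with h | h
    · left
      rcases hT2 p hpp h with h1 | h1
      · exact Or.inl h1
      · exact Or.inr (mem_primesIoc.mpr ⟨h1, hpp⟩)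
    · exact Or.inr ⟨hp, h⟩
  have hone : ∀ S : Finset ℕ, (∀ p ∈ S, p.Prime) → 1 ≤ ∏ p ∈ S, (1 - (p : ℝ)⁻¹)⁻¹ := by
    intro S hS
    have h := prod_le_prod (s := S) (f := fun _ => (1 : ℝ)) (g := fun p : ℕ => (1 - (p : ℝ)⁻¹)⁻¹)
      (fun _ _ => by norm_num) (fun p hp => one_le_inv_one_sub (hS p hp))
    rwa [prod_const_one] at h
  have hunion : ∀ S S' : Finset ℕ, (∀ p ∈ S, p.Prime) → (∀ p ∈ S', p.Prime) →
      ∏ p ∈ S ∪ S', (1 - (p : ℝ)⁻¹)⁻¹ ≤
        (∏ p ∈ S, (1 - (p : ℝ)⁻¹)⁻¹) * ∏ p ∈ S', (1 - (p : ℝ)⁻¹)⁻¹ := by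
    intro S S' hS hS'
    rw [← prod_union_inter]
    have h1 := hone (S ∩ S') fun p hp => hS p (mem_inter.mp hp).1
    have h2 : 0 ≤ ∏ p ∈ S ∪ S', (1 - (p : ℝ)⁻¹)⁻¹ := by
      refine prod_nonneg fun p hp => ?_
      have hpp : p.Prime := by
        rcases mem_union.mp hp with h | h
        · exact hS p h
        · exact hS' p h
      have := one_sub_inv_pos hpp
      positivity
    nlinarith
  have hmem : ∀ p ∈ (T ∪ primesIoc u v) ∪ L, p.Prime := by
    intro p hp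
    rcases mem_union.mp hp with h | h
    · rcases mem_union.mp h with h | h
      · exact hT p h
      · exact hGp p h
    · exact hLp p h
  have h1 : diffProd n m ≤ ∏ p ∈ (T ∪ primesIoc u v) ∪ L, (1 - (p : ℝ)⁻¹)⁻¹ := by
    unfold diffProd
    refine prod_le_prod_of_subset_of_one_le hsub (fun p hp => ?_)
      (fun p hp _ => one_le_inv_one_sub (hmem p hp))
    have := one_sub_inv_pos (Nat.prime_of_mem_primeFactors hp)
    positivity
  have h2 := hunion (T ∪ primesIoc u v) L (fun p hp => hmem p (mem_union_left _ hp)) hLp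
  have h3 := hunion T (primesIoc u v) hT hGp
  have h4 : ∏ p ∈ primesIoc u v, (1 - (p : ℝ)⁻¹)⁻¹ ≤ Real.exp 2 := by
    refine (prod_inv_one_sub_le_exp _ hGp).trans ?_
    apply Real.exp_le_exp.mpr
    linarith
  have h5 : ∏ p ∈ L, (1 - (p : ℝ)⁻¹)⁻¹ ≤ Real.exp 18 := by
    refine (prod_inv_one_sub_le_exp _ hLp).trans ?_
    apply Real.exp_le_exp.mpr
    have := sum_inv_large D Y hD0 hY hlog
    linarith
  have hT1 := hone T hT
  have hG1 := hone _ hGp
  have hL1 := hone _ hLp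
  calc diffProd n m ≤ ∏ p ∈ (T ∪ primesIoc u v) ∪ L, (1 - (p : ℝ)⁻¹)⁻¹ := h1
    _ ≤ (∏ p ∈ T ∪ primesIoc u v, (1 - (p : ℝ)⁻¹)⁻¹) * ∏ p ∈ L, (1 - (p : ℝ)⁻¹)⁻¹ := h2
    _ ≤ ((∏ p ∈ T, (1 - (p : ℝ)⁻¹)⁻¹) * ∏ p ∈ primesIoc u v, (1 - (p : ℝ)⁻¹)⁻¹) *
        ∏ p ∈ L, (1 - (p : ℝ)⁻¹)⁻¹ := by gcongr
    _ ≤ ((∏ p ∈ T, (1 - (p : ℝ)⁻¹)⁻¹) * Real.exp 2) * Real.exp 18 := by gcongr
    _ = Real.exp 20 * ∏ p ∈ T, (1 - (p : ℝ)⁻¹)⁻¹ := by
      rw [mul_assoc, ← Real.exp_add]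
      norm_num
      ring

end Pool.Agent.Lib.H59
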