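import Mathlib

/-!
# The selection process

A relation `E` between two finite sets of numbers such that every large subset of the first
has many good partners in the second: then almost all `k`-subsets of the second have an element
of the first related to a positive proportion of their elements.
-/

open Finset

noncomputable section

namespace Pool.Agent.Lib.H59

open scoped Classical in
/-- The degree of `n` in `A`. -/
def degIn (E : ℕ → ℕ → Prop) (n : ℕ) (A : Finset ℕ) : ℕ := (A.filter fun a => E n a).card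

open scoped Classical in
/-- The largest `s ≤ |A|` such that at least `M` elements of `N` have degree at least `s`. -/
def levDeg (M : ℝ) (E : ℕ → ℕ → Prop) (N A : Finset ℕ) : ℕ :=
  Nat.findGreatest (fun s => M ≤ ((N.filter fun n => s ≤ degIn E n A).card : ℝ)) A.card

open scoped Classical in
/-- The common neighbours. -/
def nbr (E : ℕ → ℕ → Prop) (N : Finset ℕ) (a : ℕ) : Finset ℕ := N.filter fun n => E n a

theorem degIn_insert_le (E : ℕ → ℕ → Prop) (n a : ℕ) (A : Finset ℕ) :
    degIn E n A ≤ degIn E n (insert a A) := by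
  classical
  unfold degIn
  exact card_le_card (filter_subset_filter _ (subset_insert _ _))

theorem levDeg_le_card (M : ℝ) (E : ℕ → ℕ → Prop) (N A : Finset ℕ) :
    levDeg M E N A ≤ A.card := Nat.findGreatest_le _

theorem levDeg_spec (M : ℝ) (E : ℕ → ℕ → Prop) (N A : Finset ℕ) (h : levDeg M E N A ≠ 0) :
    (open scoped Classical in
      M ≤ ((N.filter fun n => levDeg M E N A ≤ degIn E n A).card : ℝ)) := by
  classical
  exact Nat.findGreatest_of_ne_zero (P := fun s => M ≤ ((N.filter fun n => s ≤ degIn E n A).card : ℝ))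
    (n := A.card) rfl h

theorem le_levDeg (M : ℝ) (E : ℕ → ℕ → Prop) (N A : Finset ℕ) {s : ℕ} (hs : s ≤ A.card)
    (h : (open scoped Classical in M ≤ ((N.filter fun n => s ≤ degIn E n A).card : ℝ))) :
    s ≤ levDeg M E N A := by
  classical
  exact Nat.le_findGreatest hs h

theorem levDeg_insert_le (M : ℝ) (E : ℕ → ℕ → Prop) (N A : Finset ℕ) (a : ℕ) :
    levDeg M E N A ≤ levDeg M E N (insert a A) := by
  classical
  rcases Nat.eq_zero_or_pos (levDeg M E N A) with h0 | h0
  · rw [h0]; exact Nat.zero_le _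
  · refine le_levDeg M E N (insert a A)
      ((levDeg_le_card M E N A).trans (card_le_card (subset_insert _ _))) ?_
    refine (levDeg_spec M E N A h0.ne').trans ?_
    have : (N.filter fun n => levDeg M E N A ≤ degIn E n A).card ≤
        (N.filter fun n => levDeg M E N A ≤ degIn E n (insert a A)).card := by
      refine card_le_card fun n hn => ?_
      rw [mem_filter] at hn ⊢
      exact ⟨hn.1, hn.2.trans (degIn_insert_le E n a A)⟩
    exact_mod_cast this

theorem levDeg_nbr_lt (M : ℝ) (E : ℕ → ℕ → Prop) (N A : Finset ℕ) {a : ℕ} (ha : a ∉ A)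
    (hM : M ≤ ((nbr E N a).card : ℝ)) :
    levDeg M E (nbr E N a) A + 1 ≤ levDeg M E N (insert a A) := by
  classical
  set t := levDeg M E (nbr E N a) A with ht
  have h1 : M ≤ (((nbr E N a).filter fun n => t ≤ degIn E n A).card : ℝ) := by
    rcases Nat.eq_zero_or_pos t with h0 | h0
    · rw [h0]
      simpa using hM
    · exact levDeg_spec M E (nbr E N a) A h0.ne'
  refine le_levDeg M E N (insert a A) ?_ ?_
  · rw [card_insert_of_notMem ha]
    have := levDeg_le_card M E (nbr E N a) A
    omega
  · refine h1.trans ?_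
    have : ((nbr E N a).filter fun n => t ≤ degIn E n A).card ≤
        (N.filter fun n => t + 1 ≤ degIn E n (insert a A)).card := by
      refine card_le_card fun n hn => ?_
      rw [mem_filter] at hn ⊢
      have hn' : n ∈ N ∧ E n a := by
        have := hn.1
        unfold nbr at this
        rwa [mem_filter] at this
      refine ⟨hn'.1, ?_⟩
      have h2 : degIn E n (insert a A) = degIn E n A + 1 := by
        unfold degIn
        rw [filter_insert, if_pos hn'.2, card_insert_of_notMem]
        intro h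
        exact ha (mem_filter.mp h).1
      rw [h2]
      exact Nat.succ_le_succ hn.2
    exact_mod_cast this

/-- The generating sum. -/
def genSum (M : ℝ) (E : ℕ → ℕ → Prop) (B N : Finset ℕ) (k : ℕ) : ℝ :=
  ∑ A ∈ powersetCard k B, (1 / 2 : ℝ) ^ levDeg M E N A

open scoped Classical in
/-- The good partners. -/
def goodSet (E : ℕ → ℕ → Prop) (B N : Finset ℕ) (τ : ℝ) : Finset ℕ :=
  B.filter fun a => τ * (N.card : ℝ) ≤ ((nbr E N a).card : ℝ)

theorem sum_powersetCard_erase (B : Finset ℕ) (k : ℕ) (f : Finset ℕ → ℝ) :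
    ((k + 1 : ℕ) : ℝ) * ∑ A ∈ powersetCard (k + 1) B, f A =
      ∑ a ∈ B, ∑ A ∈ (powersetCard (k + 1) B).filter (fun A => a ∈ A), f A := by
  classical
  have h1 : ∑ A ∈ powersetCard (k + 1) B, ∑ _a ∈ A, f A =
      ∑ a ∈ B, ∑ A ∈ (powersetCard (k + 1) B).filter (fun A => a ∈ A), f A := by
    refine sum_comm' fun A a => ?_
    rw [mem_filter]
    constructor
    · rintro ⟨hA, ha⟩
      exact ⟨⟨hA, ha⟩, (mem_powersetCard.mp hA).1 ha⟩
    · rintro ⟨⟨hA, ha⟩, _⟩
      exact ⟨hA, ha⟩
  rw [← h1, mul_sum]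
  refine sum_congr rfl fun A hA => ?_
  rw [sum_const, (mem_powersetCard.mp hA).2, nsmul_eq_mul]

theorem sum_filter_mem_le (B : Finset ℕ) (k : ℕ) (a : ℕ) (f g : Finset ℕ → ℝ)
    (hg : ∀ A, 0 ≤ g A) (hfg : ∀ A, a ∉ A → f (insert a A) ≤ g A) :
    ∑ A ∈ (powersetCard (k + 1) B).filter (fun A => a ∈ A), f A ≤
      ∑ A ∈ powersetCard k B, g A := by
  classical
  have h1 : ∀ A ∈ (powersetCard (k + 1) B).filter (fun A => a ∈ A), f A ≤ g (A.erase a) := by
    intro A hA
    have ha := (mem_filter.mp hA).2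
    have := hfg (A.erase a) (notMem_erase a A)
    rwa [insert_erase ha] at this
  refine (sum_le_sum h1).trans ?_
  have hinj : Set.InjOn (fun A : Finset ℕ => A.erase a)
      ((powersetCard (k + 1) B).filter (fun A => a ∈ A) : Finset (Finset ℕ)) := by
    intro A hA A' hA' h
    have ha := (mem_filter.mp (mem_coe.mp hA)).2
    have ha' := (mem_filter.mp (mem_coe.mp hA')).2
    have h' : A.erase a = A'.erase a := h
    rw [← insert_erase ha, ← insert_erase ha', h']
  rw [← sum_image (f := g) hinj]
  refine sum_le_sum_of_subset_of_nonneg ?_ fun A _ _ => hg A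
  intro A' hA'
  obtain ⟨A, hA, rfl⟩ := mem_image.mp hA'
  rw [mem_filter, mem_powersetCard] at hA
  rw [mem_powersetCard]
  refine ⟨(erase_subset _ _).trans hA.1.1, ?_⟩
  rw [card_erase_of_mem hA.2, hA.1.2]
  rfl

/-- The main estimate for the selection process. -/
theorem genSum_le (E : ℕ → ℕ → Prop) (B N₀ : Finset ℕ) {M τ ρ : ℝ} (hτ : 0 < τ)
    (hτ1 : τ ≤ 1) (hρ1 : ρ ≤ 1)
    (hgood : ∀ N ⊆ N₀, M ≤ N.card → ρ * B.card ≤ ((goodSet E B N τ).card : ℝ)) (k : ℕ) :
    ∀ N ⊆ N₀, M ≤ τ ^ k * N.card →
      genSum M E B N k ≤ (B.card * (1 - ρ / 2)) ^ k / k.factorial := by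
  classical
  induction k with
  | zero =>
    intro N _ _
    unfold genSum
    rw [powersetCard_zero, sum_singleton]
    have h0 : (1 / 2 : ℝ) ^ levDeg M E N ∅ ≤ 1 := pow_le_one₀ (by norm_num) (by norm_num)
    simpa using h0
  | succ k ih =>
    intro N hN hM'
    have hNc : M ≤ N.card := by
      refine hM'.trans ?_
      have : τ ^ (k + 1) ≤ 1 := pow_le_one₀ hτ.le hτ1
      have h0 : (0 : ℝ) ≤ N.card := by positivity
      nlinarith
    have hM'' : M ≤ τ ^ k * N.card := by
      refine hM'.trans ?_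
      have : τ ^ (k + 1) ≤ τ ^ k := pow_le_pow_of_le_one hτ.le hτ1 (Nat.le_succ k)
      have h0 : (0 : ℝ) ≤ N.card := by positivity
      nlinarith
    set Q : ℝ := (B.card * (1 - ρ / 2)) ^ k / k.factorial with hQ
    have hQ0 : 0 ≤ Q := by
      rw [hQ]
      have : 0 ≤ 1 - ρ / 2 := by linarith
      positivity
    set G := goodSet E B N τ with hG
    have hGB : G ⊆ B := by
      rw [hG]; unfold goodSet; exact filter_subset _ _
    have hterm : ∀ a ∈ B, ∑ A ∈ (powersetCard (k + 1) B).filter (fun A => a ∈ A),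
        (1 / 2 : ℝ) ^ levDeg M E N A ≤ (if a ∈ G then (1 / 2 : ℝ) else 1) * Q := by
      intro a ha
      split_ifs with haG
      · have haG' : τ * (N.card : ℝ) ≤ ((nbr E N a).card : ℝ) := by
          rw [hG] at haG
          unfold goodSet at haG
          exact (mem_filter.mp haG).2
        have hsub : nbr E N a ⊆ N₀ := by
          unfold nbr
          exact (filter_subset _ _).trans hN
        have hMa : M ≤ τ ^ k * ((nbr E N a).card : ℝ) := by
          refine hM'.trans ?_
          rw [pow_succ, mul_assoc]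
          gcongr
        have hne : M ≤ ((nbr E N a).card : ℝ) := by
          refine hMa.trans ?_
          have h7 : τ ^ k ≤ 1 := pow_le_one₀ hτ.le hτ1
          have h0 : (0 : ℝ) ≤ (nbr E N a).card := by positivity
          nlinarith
        have h1 := sum_filter_mem_le B k a (fun A => (1 / 2 : ℝ) ^ levDeg M E N A)
          (fun A => 1 / 2 * (1 / 2 : ℝ) ^ levDeg M E (nbr E N a) A) (fun A => by positivity)
          (fun A hA => by
            have h2 := levDeg_nbr_lt M E N A hA hne
            calc (1 / 2 : ℝ) ^ levDeg M E N (insert a A)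
                ≤ (1 / 2 : ℝ) ^ (levDeg M E (nbr E N a) A + 1) :=
                  pow_le_pow_of_le_one (by norm_num) (by norm_num) h2
              _ = _ := by rw [pow_succ]; ring)
        refine h1.trans ?_
        rw [← mul_sum]
        have h3 := ih (nbr E N a) hsub hMa
        unfold genSum at h3
        linarith
      · have h1 := sum_filter_mem_le B k a (fun A => (1 / 2 : ℝ) ^ levDeg M E N A)
          (fun A => (1 / 2 : ℝ) ^ levDeg M E N A) (fun A => by positivity)
          (fun A _ => pow_le_pow_of_le_one (by norm_num) (by norm_num) (levDeg_insert_le M E N A a))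
        refine h1.trans ?_
        have h3 := ih N hN hM''
        unfold genSum at h3
        linarith
    have h1 := sum_powersetCard_erase B k (fun A => (1 / 2 : ℝ) ^ levDeg M E N A)
    have h2 : ((k + 1 : ℕ) : ℝ) * genSum M E B N (k + 1) ≤
        (∑ a ∈ B, if a ∈ G then (1 / 2 : ℝ) else 1) * Q := by
      unfold genSum
      rw [h1, sum_mul]
      exact sum_le_sum hterm
    have h3 : (∑ a ∈ B, if a ∈ G then (1 / 2 : ℝ) else 1) = B.card - 1 / 2 * G.card := by
      have : ∀ a ∈ B, (if a ∈ G then (1 / 2 : ℝ) else 1) = 1 - 1 / 2 * (if a ∈ G then 1 else 0) := by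
        intro a _
        split_ifs <;> norm_num
      rw [sum_congr rfl this, sum_sub_distrib, ← mul_sum, sum_boole]
      have h4 : B.filter (fun a => a ∈ G) = G := by
        ext a
        rw [mem_filter]
        exact ⟨fun h => h.2, fun h => ⟨hGB h, h⟩⟩
      rw [h4]
      simp
    have h4 := hgood N hN hNc
    rw [← hG] at h4
    rw [h3] at h2
    have h5 : ((B.card : ℝ) - 1 / 2 * G.card) * Q ≤ (B.card * (1 - ρ / 2)) * Q := by
      refine mul_le_mul_of_nonneg_right ?_ hQ0
      linarith
    have h6 : ((k + 1 : ℕ) : ℝ) * genSum M E B N (k + 1) ≤ (B.card * (1 - ρ / 2)) * Q := h2.trans h5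
    have hk : (0 : ℝ) < ((k + 1 : ℕ) : ℝ) := by positivity
    rw [mul_comm, ← le_div_iff₀ hk] at h6
    refine h6.trans (le_of_eq ?_)
    rw [hQ, Nat.factorial_succ, pow_succ]
    push_cast
    field_simp

open scoped Classical in
/-- The number of the bad sets. -/
theorem card_bad_le (M : ℝ) (E : ℕ → ℕ → Prop) (B N : Finset ℕ) (k : ℕ) {s : ℝ}
    {S : Finset (Finset ℕ)} (hS : S ⊆ powersetCard k B)
    (hbad : ∀ A ∈ S, ((N.filter fun n => s < (degIn E n A : ℝ)).card : ℝ) < M) (hs : 0 ≤ s) :
    (S.card : ℝ) ≤ (2 : ℝ) ^ s * genSum M E B N k := by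
  have h1 : ∀ A ∈ S, (1 : ℝ) ≤ (2 : ℝ) ^ s * (1 / 2 : ℝ) ^ levDeg M E N A := by
    intro A hA
    have h2 : (levDeg M E N A : ℝ) ≤ s := by
      by_contra hcon
      push Not at hcon
      have h0 : levDeg M E N A ≠ 0 := by
        intro h0
        rw [h0] at hcon
        push_cast at hcon
        linarith
      have h3 := levDeg_spec M E N A h0
      have h4 := hbad A hA
      have h5 : (N.filter fun n => levDeg M E N A ≤ degIn E n A).card ≤
          (N.filter fun n => s < (degIn E n A : ℝ)).card := by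
        refine card_le_card fun n hn => ?_
        rw [mem_filter] at hn ⊢
        refine ⟨hn.1, lt_of_lt_of_le hcon ?_⟩
        exact_mod_cast hn.2
      have h6 : ((N.filter fun n => levDeg M E N A ≤ degIn E n A).card : ℝ) ≤
          ((N.filter fun n => s < (degIn E n A : ℝ)).card : ℝ) := by exact_mod_cast h5
      linarith
    have h3 : (1 / 2 : ℝ) ^ levDeg M E N A = (2 : ℝ) ^ (-(levDeg M E N A : ℝ)) := by
      rw [Real.rpow_neg (by norm_num), Real.rpow_natCast, one_div, inv_pow]
    rw [h3, ← Real.rpow_add (by norm_num)]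
    exact Real.one_le_rpow (by norm_num) (by linarith)
  have h2 : (S.card : ℝ) ≤ ∑ A ∈ S, (2 : ℝ) ^ s * (1 / 2 : ℝ) ^ levDeg M E N A := by
    have := sum_le_sum h1
    rwa [sum_const, nsmul_eq_mul, mul_one] at this
  refine h2.trans ?_
  unfold genSum
  rw [mul_sum]
  exact sum_le_sum_of_subset_of_nonneg hS fun A _ _ => by positivity

theorem card_nbr_eq (E : ℕ → ℕ → Prop) (N : Finset ℕ) (a : ℕ) :
    ((nbr E N a).card : ℝ) = ∑ n ∈ N, (open scoped Classical in if E n a then (1 : ℝ) else 0) := by
  classical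
  unfold nbr
  rw [sum_boole]

open scoped Classical in
/-- The second moment bound. -/
theorem card_good_ge (E : ℕ → ℕ → Prop) (B N : Finset ℕ) (hN : N.Nonempty) {L D : ℝ}
    (hL : 0 < L) (hD : 0 < D)
    (hdeg : ∀ n ∈ N, L ≤ ((B.filter fun a => E n a).card : ℝ))
    (hcodeg : ∀ n ∈ N, ∀ m ∈ N, n ≠ m → ((B.filter fun a => E n a ∧ E m a).card : ℝ) ≤ D)
    (hcard : (B.card : ℝ) ≤ D * N.card) :
    L ^ 2 / (8 * D) ≤ ((goodSet E B N (L / (2 * B.card))).card : ℝ) := by
  have hN0 : (0 : ℝ) < N.card := by exact_mod_cast card_pos.mpr hN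
  have hB0 : (0 : ℝ) < B.card := by
    obtain ⟨n, hn⟩ := hN
    have h1 := hdeg n hn
    have h2 : ((B.filter fun a => E n a).card : ℝ) ≤ B.card := by
      exact_mod_cast card_le_card (filter_subset _ _)
    linarith
  set f : ℕ → ℝ := fun a => ((nbr E N a).card : ℝ) with hf
  have hf0 : ∀ a, 0 ≤ f a := fun a => by positivity
  have hfe : ∀ a, f a = ∑ n ∈ N, if E n a then (1 : ℝ) else 0 := fun a => card_nbr_eq E N a
  -- first moment
  have hsum : N.card * L ≤ ∑ a ∈ B, f a := by
    have h1 : ∑ a ∈ B, f a = ∑ n ∈ N, ((B.filter fun a => E n a).card : ℝ) := by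
      rw [sum_congr rfl fun a _ => hfe a, sum_comm]
      refine sum_congr rfl fun n _ => ?_
      rw [sum_boole]
    rw [h1]
    have := sum_le_sum hdeg
    rwa [sum_const, nsmul_eq_mul] at this
  -- second moment
  have hsq : ∑ a ∈ B, f a ^ 2 ≤ 2 * (N.card : ℝ) ^ 2 * D := by
    have h1 : ∑ a ∈ B, f a ^ 2 =
        ∑ n ∈ N, ∑ m ∈ N, ((B.filter fun a => E n a ∧ E m a).card : ℝ) := by
      have h2 : ∀ a ∈ B, f a ^ 2 = ∑ n ∈ N, ∑ m ∈ N, if E n a ∧ E m a then (1 : ℝ) else 0 := by
        intro a _
        rw [hfe a, sq, sum_mul_sum]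
        refine sum_congr rfl fun n _ => sum_congr rfl fun m _ => ?_
        by_cases h3 : E n a <;> by_cases h4 : E m a <;> simp [h3, h4]
      rw [sum_congr rfl h2, sum_comm]
      refine sum_congr rfl fun n _ => ?_
      rw [sum_comm]
      refine sum_congr rfl fun m _ => ?_
      rw [sum_boole]
    rw [h1]
    have h3 : ∀ n ∈ N, ∑ m ∈ N, ((B.filter fun a => E n a ∧ E m a).card : ℝ) ≤
        B.card + N.card * D := by
      intro n hn
      have h4 : ∀ m ∈ N, ((B.filter fun a => E n a ∧ E m a).card : ℝ) ≤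
          (if m = n then (B.card : ℝ) else 0) + D := by
        intro m hm
        split_ifs with h5
        · have : ((B.filter fun a => E n a ∧ E m a).card : ℝ) ≤ B.card := by
            exact_mod_cast card_le_card (filter_subset _ _)
          linarith
        · have := hcodeg n hn m hm (Ne.symm h5)
          linarith
      refine (sum_le_sum h4).trans ?_
      rw [sum_add_distrib, sum_ite_eq' N n, if_pos hn, sum_const, nsmul_eq_mul]
    refine (sum_le_sum h3).trans ?_
    rw [sum_const, nsmul_eq_mul]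
    nlinarith
  set G := goodSet E B N (L / (2 * B.card)) with hG
  have hGB : G ⊆ B := by
    rw [hG]; unfold goodSet; exact filter_subset _ _
  have hbad : ∀ a ∈ B \ G, f a ≤ L / (2 * B.card) * N.card := by
    intro a ha
    rw [mem_sdiff] at ha
    by_contra hcon
    push Not at hcon
    apply ha.2
    rw [hG]
    unfold goodSet
    rw [mem_filter]
    exact ⟨ha.1, hcon.le⟩
  have hbadsum : ∑ a ∈ B \ G, f a ≤ L * N.card / 2 := by
    refine (sum_le_sum hbad).trans ?_
    rw [sum_const, nsmul_eq_mul]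
    have h1 : ((B \ G).card : ℝ) ≤ B.card := by exact_mod_cast card_le_card sdiff_subset
    calc ((B \ G).card : ℝ) * (L / (2 * B.card) * N.card)
        ≤ B.card * (L / (2 * B.card) * N.card) := by gcongr
      _ = L * N.card / 2 := by field_simp
  have hgoodsum : L * N.card / 2 ≤ ∑ a ∈ G, f a := by
    have := sum_sdiff (f := f) hGB
    linarith
  have hcs : (∑ a ∈ G, f a) ^ 2 ≤ G.card * ∑ a ∈ G, f a ^ 2 := sq_sum_le_card_mul_sum_sq
  have h5 : ∑ a ∈ G, f a ^ 2 ≤ ∑ a ∈ B, f a ^ 2 :=
    sum_le_sum_of_subset_of_nonneg hGB fun a _ _ => by positivity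
  have h6 : (L * N.card / 2) ^ 2 ≤ G.card * (2 * (N.card : ℝ) ^ 2 * D) := by
    calc (L * N.card / 2) ^ 2 ≤ (∑ a ∈ G, f a) ^ 2 := by gcongr
      _ ≤ G.card * ∑ a ∈ G, f a ^ 2 := hcs
      _ ≤ G.card * (2 * (N.card : ℝ) ^ 2 * D) := by
        gcongr
        exact h5.trans hsq
  rw [div_le_iff₀ (by positivity)]
  have h7 : (N.card : ℝ) ^ 2 * L ^ 2 ≤ (N.card : ℝ) ^ 2 * (G.card * (8 * D)) := by nlinarith
  exact le_of_mul_le_mul_left h7 (by positivity)

end Pool.Agent.Lib.H59
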