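import Mathlib
import Pool.Agent.Lib.H59.TupleLocal
import Pool.Agent.Lib.H59.TupleProcess

/-!
# Counting admissible sets

-/

open Finset

noncomputable section

namespace Pool.Agent.Lib.H59

/-- A finite set of non-negative integers is admissible if for every prime `p` some residue
class modulo `p` contains none of its elements. -/
def AdmissibleSet (A : Finset ℕ) : Prop := ∀ p : ℕ, p.Prime → ∃ r : ℕ, ∀ a ∈ A, ¬ a ≡ r [MOD p]

/-- a choice of a residue for each prime of `T` -/
abbrev ResVec (T : Finset ℕ) : Type := (p : ℕ) → p ∈ T → ℕ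

open scoped Classical in
/-- The shifts which are allowed for the residues `b`. -/
def clsB (T : Finset ℕ) (b : ResVec T) (H : ℕ) : Finset ℕ :=
  (range (H + 1)).filter fun a => ∀ (p : ℕ) (hp : p ∈ T), ¬ p ∣ a + b p hp

open scoped Classical in
/-- The numbers in the residue class `b`. -/
def clsN (T : Finset ℕ) (b : ResVec T) (X : ℕ) : Finset ℕ :=
  (Icc 1 X).filter fun n => ∀ (p : ℕ) (hp : p ∈ T), n ≡ b p hp [MOD p]

/-- The density. -/
def dens (T : Finset ℕ) : ℝ := ∏ p ∈ T, (1 - (p : ℝ)⁻¹)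

theorem dens_pos {T : Finset ℕ} (hT : ∀ p ∈ T, p.Prime) : 0 < dens T :=
  prod_pos fun p hp => one_sub_inv_pos (hT p hp)

theorem dens_le_one {T : Finset ℕ} (hT : ∀ p ∈ T, p.Prime) : dens T ≤ 1 := by
  refine prod_le_one (fun p hp => (one_sub_inv_pos (hT p hp)).le) fun p hp => ?_
  have : (0 : ℝ) ≤ (p : ℝ)⁻¹ := by positivity
  linarith

theorem exists_crt {T : Finset ℕ} (hT : ∀ p ∈ T, p.Prime) (b : ResVec T) :
    ∃ β : ℕ, ∀ (p : ℕ) (hp : p ∈ T), β ≡ b p hp [MOD p] := by
  classical
  have pp : Set.Pairwise (T : Set ℕ) (Function.onFun Nat.Coprime (fun p : ℕ => p)) := by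
    intro p hp q hq hpq
    exact (Nat.coprime_primes (hT p hp) (hT q hq)).mpr hpq
  obtain ⟨β, hβ⟩ := Nat.chineseRemainderOfFinset (fun p => if hp : p ∈ T then b p hp else 0)
    (fun p : ℕ => p) T (fun p hp => (hT p hp).ne_zero) pp
  refine ⟨β, fun p hp => ?_⟩
  have := hβ p hp
  rwa [dif_pos hp] at this

theorem totient_prod_primes {T : Finset ℕ} (hT : ∀ p ∈ T, p.Prime) :
    ((Nat.totient (∏ p ∈ T, p) : ℕ) : ℝ) = (∏ p ∈ T, (p : ℝ)) * dens T := by
  have h := Nat.totient_eq_mul_prod_factors (∏ p ∈ T, p)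
  rw [Nat.primeFactors_prod hT] at h
  have h2 := congrArg (fun q : ℚ => (q : ℝ)) h
  push_cast at h2
  unfold dens
  exact h2

theorem coprime_prod_iff {T : Finset ℕ} (hT : ∀ p ∈ T, p.Prime) (c : ℕ) :
    (∏ p ∈ T, p).Coprime c ↔ ∀ p ∈ T, ¬ p ∣ c := by
  rw [Nat.coprime_prod_left_iff]
  exact forall₂_congr fun p hp => (hT p hp).coprime_iff_not_dvd

theorem prod_primes_pos {T : Finset ℕ} (hT : ∀ p ∈ T, p.Prime) : 0 < ∏ p ∈ T, p :=
  prod_pos fun p hp => (hT p hp).pos

/-- Upper bound for the number of the allowed shifts. -/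
theorem card_clsB_le {T : Finset ℕ} (hT : ∀ p ∈ T, p.Prime) (b : ResVec T) (H : ℕ) :
    ((clsB T b H).card : ℝ) ≤ ((H : ℝ) + 1 + ∏ p ∈ T, (p : ℝ)) * dens T := by
  classical
  obtain ⟨β, hβ⟩ := exists_crt hT b
  set P := ∏ p ∈ T, p with hP
  have hP0 : 0 < P := prod_primes_pos hT
  have h1 : (clsB T b H).card ≤ ((Ico β (β + (H + 1))).filter (P.Coprime ·)).card := by
    refine card_le_card_of_injOn (fun a => β + a) ?_ ?_
    · intro a ha
      have ha' := mem_coe.mp ha
      unfold clsB at ha'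
      rw [mem_filter, mem_range] at ha'
      simp only [coe_filter, mem_Ico, Set.mem_ofPred_eq]
      refine ⟨⟨by omega, by omega⟩, ?_⟩
      rw [hP, coprime_prod_iff hT]
      intro p hp hd
      apply ha'.2 p hp
      have h2 : a + b p hp ≡ β + a [MOD p] := by
        rw [add_comm]
        exact ((hβ p hp).symm).add_right a
      exact (h2.dvd_iff (dvd_refl p)).mpr hd
    · intro x _ y _ hxy
      exact Nat.add_left_cancel hxy
  have h2 := h1.trans (Nat.Ico_filter_coprime_le β (H + 1) hP0.ne')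
  have h3 : ((clsB T b H).card : ℝ) ≤ P.totient * (((H + 1) / P : ℕ) + 1) := by exact_mod_cast h2
  have hPr : (0 : ℝ) < P := by exact_mod_cast hP0
  have h4 : (((H + 1) / P : ℕ) : ℝ) ≤ ((H + 1 : ℕ) : ℝ) / P := Nat.cast_div_le
  have h5 := totient_prod_primes hT
  rw [← hP] at h5
  have h6 : (∏ p ∈ T, (p : ℝ)) = P := by rw [hP]; push_cast; rfl
  rw [h6] at h5 ⊢
  have hd := dens_pos hT
  calc ((clsB T b H).card : ℝ) ≤ P.totient * (((H + 1) / P : ℕ) + 1) := h3
    _ ≤ P.totient * (((H + 1 : ℕ) : ℝ) / P + 1) := by gcongr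
    _ = ((H : ℝ) + 1 + P) * dens T := by
      rw [h5]
      push_cast
      field_simp

/-- Lower bound for the number of elements of the residue class. -/
theorem le_card_clsN {T : Finset ℕ} (hT : ∀ p ∈ T, p.Prime) (b : ResVec T) (X : ℕ) :
    (X : ℝ) / (∏ p ∈ T, (p : ℝ)) - 1 ≤ ((clsN T b X).card : ℝ) := by
  classical
  obtain ⟨β, hβ⟩ := exists_crt hT b
  set P := ∏ p ∈ T, p with hP
  have hP0 : 0 < P := prod_primes_pos hT
  set r := β % P with hr
  have hrP : r < P := Nat.mod_lt _ hP0
  have h1 : (range (X / P)).card ≤ (clsN T b X).card := by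
    refine card_le_card_of_injOn (fun j => P * j + (if r = 0 then P else r)) ?_ ?_
    · intro j hj
      have hj' : j < X / P := mem_range.mp (mem_coe.mp hj)
      have hle : P * (j + 1) ≤ X := by
        calc P * (j + 1) ≤ P * (X / P) := Nat.mul_le_mul_left _ hj'
          _ ≤ X := Nat.mul_div_le X P
      simp only [clsN, coe_filter, mem_Icc, Set.mem_ofPred_eq]
      have hc : 1 ≤ (if r = 0 then P else r) ∧ (if r = 0 then P else r) ≤ P := by
        split_ifs with h0
        · exact ⟨hP0, le_refl _⟩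
        · exact ⟨Nat.pos_of_ne_zero h0, hrP.le⟩
      rw [mul_add, mul_one] at hle
      refine ⟨⟨by omega, by omega⟩, fun p hp => ?_⟩
      have hpP : p ∣ P := dvd_prod_of_mem _ hp
      have h2 : P * j + (if r = 0 then P else r) ≡ β [MOD P] := by
        have h3 : (if r = 0 then P else r) ≡ β [MOD P] := by
          split_ifs with h0
          · unfold Nat.ModEq
            rw [Nat.mod_self, ← hr, h0]
          · exact Nat.mod_modEq β P
        have h4 : P * j ≡ 0 [MOD P] := (Nat.modEq_zero_iff_dvd).mpr (dvd_mul_right P j)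
        simpa using h4.add h3
      exact (h2.of_dvd hpP).trans (hβ p hp)
    · intro x _ y _ hxy
      have hxy' : P * x + (if r = 0 then P else r) = P * y + (if r = 0 then P else r) := hxy
      exact Nat.eq_of_mul_eq_mul_left hP0 (Nat.add_right_cancel hxy')
  rw [card_range] at h1
  have h2 : ((X / P : ℕ) : ℝ) ≤ ((clsN T b X).card : ℝ) := by exact_mod_cast h1
  refine le_trans ?_ h2
  have hPr : (0 : ℝ) < P := by exact_mod_cast hP0
  have h6 : (∏ p ∈ T, (p : ℝ)) = P := by rw [hP]; push_cast; rfl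
  rw [h6, sub_le_iff_le_add, div_le_iff₀ hPr]
  have := Nat.lt_mul_div_succ X hP0
  have h7 : (X : ℝ) ≤ P * ((X / P : ℕ) + 1) := by exact_mod_cast this.le
  linarith

open scoped Classical in
/-- The number of the residue vectors compatible with a set. -/
theorem card_compat {T : Finset ℕ} (A : Finset ℕ) :
    ((T.pi fun p => range p).filter fun b : ResVec T =>
      ∀ a ∈ A, ∀ (p : ℕ) (hp : p ∈ T), ¬ p ∣ a + b p hp).card =
      ∏ p ∈ T, ((range p).filter fun r => ∀ a ∈ A, ¬ p ∣ a + r).card := by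
  rw [← card_pi]
  congr 1
  ext b
  rw [mem_filter, mem_pi, mem_pi]
  constructor
  · rintro ⟨h1, h2⟩ p hp
    rw [mem_filter]
    exact ⟨h1 p hp, fun a ha => h2 a ha p hp⟩
  · intro h
    refine ⟨fun p hp => (mem_filter.mp (h p hp)).1, fun a ha p hp => ?_⟩
    exact (mem_filter.mp (h p hp)).2 a ha

open scoped Classical in
theorem one_le_card_missing {A : Finset ℕ} (hA : AdmissibleSet A) {p : ℕ} (hp : p.Prime) :
    1 ≤ ((range p).filter fun r => ∀ a ∈ A, ¬ p ∣ a + r).card := by
  obtain ⟨r, hr⟩ := hA p hp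
  refine Nat.one_le_iff_ne_zero.mpr (card_ne_zero.mpr ⟨negRes p r, ?_⟩)
  rw [mem_filter, mem_range]
  refine ⟨Nat.mod_lt _ hp.pos, fun a ha hd => hr a ha ?_⟩
  have h1 := (dvd_add_iff_eq_negRes hp a (Nat.mod_lt _ hp.pos)).mp hd
  exact ((negRes_eq_iff hp a r).mp h1.symm)

open scoped Classical in
theorem sub_le_card_missing {A : Finset ℕ} {p : ℕ} (hp : p.Prime) :
    p - A.card ≤ ((range p).filter fun r => ∀ a ∈ A, ¬ p ∣ a + r).card := by
  have h1 : range p \ A.image (negRes p) ⊆ (range p).filter fun r => ∀ a ∈ A, ¬ p ∣ a + r := by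
    intro r hr
    rw [mem_sdiff, mem_range, mem_image] at hr
    rw [mem_filter, mem_range]
    refine ⟨hr.1, fun a ha hd => hr.2 ⟨a, ha, ?_⟩⟩
    exact ((dvd_add_iff_eq_negRes hp a hr.1).mp hd).symm
  refine le_trans ?_ (card_le_card h1)
  have h2 := le_card_sdiff (A.image (negRes p)) (range p)
  rw [card_range] at h2
  have h3 : (A.image (negRes p)).card ≤ A.card := card_image_le
  omega

/-- The primes up to `k`. -/
def primesLe (k : ℕ) : Finset ℕ := (Icc 1 k).filter Nat.Prime

theorem mem_primesLe {k p : ℕ} : p ∈ primesLe k ↔ p ≤ k ∧ p.Prime := by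
  unfold primesLe
  rw [mem_filter, mem_Icc]
  constructor
  · rintro ⟨⟨_, h⟩, h2⟩; exact ⟨h, h2⟩
  · rintro ⟨h, h2⟩; exact ⟨⟨h2.pos, h⟩, h2⟩

open scoped Classical in
/-- The numbers up to `H` free of prime factors up to `k`. -/
def roughSet (k H : ℕ) : Finset ℕ := (range (H + 1)).filter fun a => ∀ p ∈ primesLe k, ¬ p ∣ a

theorem le_card_roughSet (k H : ℕ) :
    dens (primesLe k) * ((H : ℝ) - ∏ p ∈ primesLe k, (p : ℝ)) ≤ ((roughSet k H).card : ℝ) := by
  classical
  have hT : ∀ p ∈ primesLe k, p.Prime := fun p hp => (mem_primesLe.mp hp).2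
  set P := ∏ p ∈ primesLe k, p with hP
  have hP0 : 0 < P := prod_primes_pos hT
  have hper : Function.Periodic (fun a => P.Coprime a) P := by
    intro n
    exact propext (by
      change P.Coprime (n + P) ↔ P.Coprime n
      rw [Nat.coprime_add_self_right])
  have h1 : H / P * P.totient ≤ (roughSet k H).card := by
    have h2 : ((Ico 0 (0 + H / P * P)).filter (fun a => P.Coprime a)).card =
        H / P * Nat.count (fun a => P.Coprime a) P := card_blocks _ hper 0 (H / P)
    have h3 : Nat.count (fun a => P.Coprime a) P = P.totient := by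
      rw [Nat.count_eq_card_filter_range, Nat.totient_eq_card_coprime]
    rw [← h3, ← h2]
    refine card_le_card fun a ha => ?_
    rw [mem_filter, mem_Ico] at ha
    unfold roughSet
    rw [mem_filter, mem_range]
    refine ⟨?_, (coprime_prod_iff hT a).mp ha.2⟩
    have := Nat.div_mul_le_self H P
    omega
  have h2 : ((H / P : ℕ) : ℝ) * P.totient ≤ ((roughSet k H).card : ℝ) := by exact_mod_cast h1
  refine le_trans ?_ h2
  have h5 := totient_prod_primes hT
  rw [← hP] at h5
  have h6 : (∏ p ∈ primesLe k, (p : ℝ)) = P := by rw [hP]; push_cast; rfl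
  rw [h6] at h5 ⊢
  rw [h5]
  have hPr : (0 : ℝ) < P := by exact_mod_cast hP0
  have hd := dens_pos hT
  have h7 : (H : ℝ) ≤ P * ((H / P : ℕ) + 1) := by
    exact_mod_cast (Nat.lt_mul_div_succ H hP0).le
  have h8 : (H : ℝ) - P ≤ (H / P : ℕ) * P := by nlinarith
  calc dens (primesLe k) * ((H : ℝ) - P) ≤ dens (primesLe k) * ((H / P : ℕ) * P) := by gcongr
    _ = _ := by ring

theorem admissible_of_subset_roughSet {k H : ℕ} {A : Finset ℕ} (hA : A ⊆ roughSet k H)
    (hk : A.card ≤ k) : AdmissibleSet A := by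
  classical
  intro p hp
  rcases le_or_gt p k with h | h
  · refine ⟨0, fun a ha h0 => ?_⟩
    have h1 := hA ha
    unfold roughSet at h1
    rw [mem_filter] at h1
    exact h1.2 p (mem_primesLe.mpr ⟨h, hp⟩) ((Nat.modEq_zero_iff_dvd).mp h0)
  · have h1 : (A.image (· % p)).card < (range p).card := by
      rw [card_range]
      exact lt_of_le_of_lt card_image_le (by omega)
    obtain ⟨r, hr1, hr2⟩ := exists_mem_notMem_of_card_lt_card h1
    refine ⟨r, fun a ha h0 => hr2 ?_⟩
    rw [mem_image]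
    refine ⟨a, ha, ?_⟩
    have : a % p = r % p := h0
    rwa [Nat.mod_eq_of_lt (mem_range.mp hr1)] at this

open scoped Classical in
/-- The admissible `k`-sets up to `H`. -/
def admSets (k H : ℕ) : Finset (Finset ℕ) :=
  (powersetCard k (range (H + 1))).filter AdmissibleSet

theorem le_card_admSets (k H : ℕ) (hk : (k : ℝ) ≤ (roughSet k H).card) :
    (((roughSet k H).card : ℝ) - k) ^ k / k.factorial ≤ ((admSets k H).card : ℝ) := by
  classical
  have h1 : powersetCard k (roughSet k H) ⊆ admSets k H := by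
    intro A hA
    rw [mem_powersetCard] at hA
    unfold admSets
    rw [mem_filter, mem_powersetCard]
    refine ⟨⟨hA.1.trans ?_, hA.2⟩, admissible_of_subset_roughSet hA.1 hA.2.le⟩
    unfold roughSet
    exact filter_subset _ _
  have h2 := card_le_card h1
  rw [card_powersetCard] at h2
  set m := (roughSet k H).card with hm
  have hkm : k ≤ m := by exact_mod_cast hk
  have h3 : (m - k) ^ k ≤ k.factorial * m.choose k := by
    rw [← Nat.descFactorial_eq_factorial_mul_choose]
    calc (m - k) ^ k ≤ (m + 1 - k) ^ k := Nat.pow_le_pow_left (by omega) _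
      _ ≤ m.descFactorial k := Nat.pow_sub_le_descFactorial m k
  have hf : (0 : ℝ) < k.factorial := by exact_mod_cast Nat.factorial_pos k
  rw [div_le_iff₀ hf]
  have h4 : ((m : ℝ) - k) ^ k ≤ k.factorial * m.choose k := by
    have : ((m - k : ℕ) : ℝ) = (m : ℝ) - k := by push_cast [hkm]; ring
    rw [← this]
    exact_mod_cast h3
  have h5 : (m.choose k : ℝ) ≤ (admSets k H).card := by exact_mod_cast h2
  nlinarith

end Pool.Agent.Lib.H59
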