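import Mathlib
import Pool.Agent.Lib.H59.TupleCount

/-!
# The selection process in one residue class

-/

open Finset

noncomputable section

namespace Pool.Agent.Lib.H59

theorem prime_count_lower : ∃ H₀ : ℕ, ∀ H : ℕ, H₀ ≤ H →
    (1 / 5 : ℝ) * H / Real.log H ≤ ((primesIoc (H / 4) H).card : ℝ) := by
  refine ⟨10 ^ 8, fun H hH => ?_⟩
  have hHr : (10 : ℝ) ^ 8 ≤ H := by exact_mod_cast hH
  have hH0 : (0 : ℝ) < H := lt_of_lt_of_le (by norm_num) hHr
  have hlog : 0 < Real.log H := Real.log_pos (by linarith)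
  set t : ℝ := (H : ℝ) ^ (1 / 4 : ℝ) with ht
  have ht4 : t ^ 4 = H := by
    rw [ht, ← Real.rpow_natCast, ← Real.rpow_mul hH0.le]
    norm_num
  have ht100 : 100 ≤ t := by
    have h1 : ((10 : ℝ) ^ 8) ^ (1 / 4 : ℝ) = 100 := by
      rw [← Real.rpow_natCast, ← Real.rpow_mul (by norm_num)]
      norm_num
    rw [← h1]
    exact Real.rpow_le_rpow (by positivity) hHr (by norm_num)
  have ht0 : 0 ≤ t := by linarith
  have hlogt : Real.log H ≤ 4 * t := by
    have := Real.log_le_rpow_div hH0.le (by norm_num : (0 : ℝ) < 1 / 4)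
    rw [← ht] at this
    linarith
  have hsqrt : √(H : ℝ) = t ^ 2 := by
    rw [← ht4, show t ^ 4 = (t ^ 2) ^ 2 by ring, Real.sqrt_sq (by positivity)]
  have hlog1 : Real.log (H + 1) ≤ 1 + 4 * t := by
    have h1 : Real.log (H + 1) ≤ Real.log (2 * H) := Real.log_le_log (by linarith) (by linarith)
    rw [Real.log_mul (by norm_num) hH0.ne'] at h1
    have := Real.log_two_lt_d9
    linarith
  have h1 := Chebyshev.theta_ge H
  rw [hsqrt] at h1
  have h2 := Chebyshev.theta_le_log4_mul_x (x := ((H / 4 : ℕ) : ℝ)) (by positivity)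
  have hlog4 : Real.log 4 = 2 * Real.log 2 := by
    rw [show (4 : ℝ) = 2 ^ 2 by norm_num, Real.log_pow]; norm_num
  have hl2 : 0.6931471803 < Real.log 2 := Real.log_two_gt_d9
  have h3 : ((H / 4 : ℕ) : ℝ) ≤ H / 4 := by
    have := @Nat.cast_div_le ℝ _ _ _ H 4
    simpa using this
  have h4 : Chebyshev.theta ((H / 4 : ℕ) : ℝ) ≤ Real.log 2 / 2 * H := by
    refine h2.trans ?_
    rw [hlog4]
    nlinarith
  have h5 : Chebyshev.theta H - Chebyshev.theta ((H / 4 : ℕ) : ℝ) ≤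
      (primesIoc (H / 4) H).card * Real.log H := by
    rw [Chebyshev.theta, Chebyshev.theta, Nat.floor_natCast, Nat.floor_natCast]
    have hsub : (Ioc 0 (H / 4)).filter Nat.Prime ⊆ (Ioc 0 H).filter Nat.Prime :=
      filter_subset_filter _ (Ioc_subset_Ioc_right (Nat.div_le_self _ _))
    rw [← sum_sdiff hsub, add_sub_cancel_right]
    have h6 : ((Ioc 0 H).filter Nat.Prime) \ ((Ioc 0 (H / 4)).filter Nat.Prime) =
        primesIoc (H / 4) H := by
      ext p
      rw [mem_sdiff, mem_filter, mem_filter, mem_Ioc, mem_Ioc, mem_primesIoc]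
      constructor
      · rintro ⟨⟨⟨h0, h1⟩, h2⟩, h3⟩
        refine ⟨⟨?_, h1⟩, h2⟩
        by_contra h4
        exact h3 ⟨⟨h0, by omega⟩, h2⟩
      · rintro ⟨⟨h0, h1⟩, h2⟩
        exact ⟨⟨⟨h2.pos, h1⟩, h2⟩, fun h3 => by omega⟩
    rw [h6]
    have h7 : ∀ p ∈ primesIoc (H / 4) H, Real.log p ≤ Real.log H := by
      intro p hp
      obtain ⟨⟨h0, h1⟩, h2⟩ := mem_primesIoc.mp hp
      exact Real.log_le_log (by exact_mod_cast h2.pos) (by exact_mod_cast h1)
    refine (sum_le_sum h7).trans ?_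
    rw [sum_const, nsmul_eq_mul]
  rw [div_le_iff₀ hlog]
  refine le_trans ?_ h5
  have h6 : 2 * t ^ 2 * Real.log H ≤ 8 * t ^ 3 := by
    calc 2 * t ^ 2 * Real.log H ≤ 2 * t ^ 2 * (4 * t) := by gcongr
      _ = 8 * t ^ 3 := by ring
  have h7 : 8 * t ^ 3 + (1 + 4 * t) ≤ 1 / 10 * H := by
    rw [← ht4]
    have h8 : 8 * t ^ 3 ≤ 8 / 100 * t ^ 4 := by
      have : 100 * t ^ 3 ≤ t * t ^ 3 := by gcongr
      nlinarith
    have h9 : 1 + 4 * t ≤ 2 / 100 * t ^ 4 := by
      have h10 : (100 : ℝ) ^ 3 ≤ t ^ 3 := by gcongr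
      have h11 : t * (100 : ℝ) ^ 3 ≤ t * t ^ 3 := by gcongr
      nlinarith
    linarith
  have h8 : Real.log 2 / 2 * H ≥ 0.34 * H := by nlinarith
  linarith

theorem card_filter_inst (B : Finset ℕ) (q : ℕ → Prop) (i j : DecidablePred q) :
    (@Finset.filter ℕ q i B).card = (@Finset.filter ℕ q j B).card := by
  have h : i = j := Subsingleton.elim i j
  rw [h]

/-- The primes whose residues are fixed. -/
def keyPrimes (u v Y : ℕ) : Finset ℕ := (Icc 1 Y).filter fun p => p.Prime ∧ ¬ (u < p ∧ p ≤ v)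

theorem mem_keyPrimes {u v Y p : ℕ} :
    p ∈ keyPrimes u v Y ↔ p ≤ Y ∧ p.Prime ∧ ¬ (u < p ∧ p ≤ v) := by
  unfold keyPrimes
  rw [mem_filter, mem_Icc]
  constructor
  · rintro ⟨⟨_, h⟩, h2⟩; exact ⟨h, h2⟩
  · rintro ⟨h, h2⟩; exact ⟨⟨h2.1.pos, h⟩, h2⟩

theorem prime_of_mem_keyPrimes {u v Y p : ℕ} (hp : p ∈ keyPrimes u v Y) : p.Prime :=
  (mem_keyPrimes.mp hp).2.1

/-- the constant of the pair bound together with the constant for the relative series -/
def pc : ℝ := pairConst * Real.exp 20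

theorem one_le_pc : 1 ≤ pc := by
  unfold pc pairConst
  have : 1 ≤ Real.exp 20 := Real.one_le_exp (by norm_num)
  nlinarith

/-- The proportion of the good shifts. -/
def rho : ℝ := 1 / (800 * pc)

theorem rho_pos : 0 < rho := by
  unfold rho
  have := one_le_pc
  positivity

theorem rho_le : rho ≤ 1 / 800 := by
  unfold rho
  have := one_le_pc
  gcongr
  linarith

/-- The number of the primes in the translate `n + A`. -/
def primesIn (n : ℕ) (A : Finset ℕ) : ℕ := (A.filter fun a => (n + a).Prime).card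

theorem degIn_eq (n : ℕ) (A : Finset ℕ) : degIn (fun n a => (n + a).Prime) n A = primesIn n A := by
  unfold degIn primesIn
  exact card_filter_inst A _ _ _

theorem degree_lower {Y H X : ℕ} {T : Finset ℕ} (hT : ∀ p ∈ T, p.Prime ∧ p ≤ Y) (b : ResVec T)
    (hY : Y ≤ H / 4) (hX : X ≤ H / 4) {n : ℕ} (hn : n ∈ clsN T b X) :
    (primesIoc (H / 4) H).card ≤ ((clsB T b H).filter fun a => (n + a).Prime).card := by
  classical
  have hn' : (1 ≤ n ∧ n ≤ X) ∧
      ∀ (p : ℕ) (hp : p ∈ T), n ≡ b p hp [MOD p] := by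
    unfold clsN at hn
    rwa [mem_filter, mem_Icc] at hn
  refine card_le_card_of_injOn (fun q => q - n) ?_ ?_
  · intro q hq
    obtain ⟨⟨h1, h2⟩, h3⟩ := mem_primesIoc.mp (mem_coe.mp hq)
    have hqn : n + (q - n) = q := by omega
    rw [mem_coe, mem_filter]
    refine ⟨?_, by rw [hqn]; exact h3⟩
    unfold clsB
    rw [mem_filter, mem_range]
    refine ⟨lt_of_le_of_lt (Nat.sub_le _ _) (by omega), fun p hp hd => ?_⟩
    have hpp := (hT p hp).1
    have hpY := (hT p hp).2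
    have h4 : n + (q - n) ≡ (q - n) + b p hp [MOD p] := by
      rw [add_comm n]
      exact (hn'.2 p hp).add_left _
    rw [hqn] at h4
    have h5 : p ∣ q := (h4.dvd_iff (dvd_refl p)).mpr hd
    have h6 := (Nat.prime_dvd_prime_iff_eq hpp h3).mp h5
    omega
  · intro x hx y hy hxy
    obtain ⟨⟨h1, h2⟩, h3⟩ := mem_primesIoc.mp (mem_coe.mp hx)
    obtain ⟨⟨h1', h2'⟩, h3'⟩ := mem_primesIoc.mp (mem_coe.mp hy)
    have : x - n = y - n := hxy
    omega

theorem per_class : ∃ H₀ : ℕ, ∀ H X u v Y k : ℕ, H₀ ≤ H → X ≤ H / 4 → 4 ≤ Y → Y ≤ H / 4 →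
    Real.log X ≤ (Y : ℝ) ^ 2 → ∑ p ∈ primesIoc u v, (p : ℝ)⁻¹ ≤ 1 →
    ∀ T : Finset ℕ, (∀ p ∈ T, p.Prime ∧ p ≤ Y) → 2 ∈ T →
    (∀ p : ℕ, p.Prime → p ≤ Y → p ∈ T ∨ (u < p ∧ p ≤ v)) →
    (∏ p ∈ T, (p : ℝ)) + 1 ≤ H →
    ∀ (b : ResVec T) (M : ℝ), (Real.log H) ^ 2 ≤ M →
    M ≤ (1 / (20 * Real.log H)) ^ k * (clsN T b X).card →
    ∀ (s : ℝ), 0 ≤ s → ∀ S ⊆ powersetCard k (clsB T b H),
    (∀ A ∈ S, (((clsN T b X).filter fun n => s < (primesIn n A : ℝ)).card : ℝ) < M) →
    (S.card : ℝ) ≤ (2 : ℝ) ^ s * (((H + 1 + ∏ p ∈ T, (p : ℝ)) *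
      dens T) * (1 - rho / 2)) ^ k / k.factorial := by
  classical
  obtain ⟨H₁, hH₁⟩ := prime_count_lower
  obtain ⟨X₀, hX₀⟩ := pair_bound
  refine ⟨max (max H₁ X₀) (10 ^ 8), fun H X u v Y k hH hXH hY4 hYH hlogY hgap T hT' h2T hT2 hP b M
    hM0 hM s hs S hS hbad => ?_⟩
  have hHH₁ : H₁ ≤ H := le_trans (le_trans (le_max_left _ _) (le_max_left _ _)) hH
  have hHX₀ : X₀ ≤ H := le_trans (le_trans (le_max_right _ _) (le_max_left _ _)) hH
  have hH8 : 10 ^ 8 ≤ H := le_trans (le_max_right _ _) hH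
  have hHr : (10 : ℝ) ^ 8 ≤ H := by exact_mod_cast hH8
  have hH0 : (0 : ℝ) < H := lt_of_lt_of_le (by norm_num) hHr
  have hlog1 : 1 ≤ Real.log H := by
    rw [Real.le_log_iff_exp_le hH0]
    have := Real.exp_one_lt_d9
    linarith
  have hlog0 : 0 < Real.log H := by linarith
  -- log² H ≤ H
  have hlogsq : (Real.log H) ^ 2 ≤ H := by
    have h1 := Real.log_le_rpow_div hH0.le (by norm_num : (0 : ℝ) < 1 / 4)
    set t : ℝ := (H : ℝ) ^ (1 / 4 : ℝ) with ht
    have ht4 : t ^ 4 = H := by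
      rw [ht, ← Real.rpow_natCast, ← Real.rpow_mul hH0.le]
      norm_num
    have ht100 : 100 ≤ t := by
      have h1 : ((10 : ℝ) ^ 8) ^ (1 / 4 : ℝ) = 100 := by
        rw [← Real.rpow_natCast, ← Real.rpow_mul (by norm_num)]
        norm_num
      rw [← h1]
      exact Real.rpow_le_rpow (by positivity) hHr (by norm_num)
    have h2 : Real.log H ≤ 4 * t := by linarith
    calc (Real.log H) ^ 2 ≤ (4 * t) ^ 2 := by gcongr
      _ = 16 * t ^ 2 := by ring
      _ ≤ t ^ 2 * t ^ 2 := by nlinarith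
      _ = H := by rw [← ht4]; ring
  have hT : ∀ p ∈ T, p.Prime := fun p hp => (hT' p hp).1
  set B := clsB T b H with hB
  set N₀ := clsN T b X with hN₀
  set Δ := dens T with hΔ
  have hΔ0 : 0 < Δ := dens_pos hT
  have hΔ1 : Δ ≤ 1 := dens_le_one hT
  have hpc := one_le_pc
  have hρ0 := rho_pos
  have hρ1 := rho_le
  set E : ℕ → ℕ → Prop := fun n a => (n + a).Prime with hE
  set L : ℝ := (1 / 5 : ℝ) * H / Real.log H with hL
  set D : ℝ := 2 * pc * Δ⁻¹ * H / (Real.log H) ^ 2 with hD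
  have hL0 : 0 < L := by positivity
  have hD0 : 0 < D := by positivity
  have hP0 : (0 : ℝ) < ∏ p ∈ T, (p : ℝ) := prod_pos fun p hp => by exact_mod_cast (hT p hp).pos
  have hdeg : ∀ n ∈ N₀, L ≤ ((B.filter fun a => E n a).card : ℝ) := by
    intro n hn
    refine (hH₁ H hHH₁).trans ?_
    exact_mod_cast degree_lower hT' b hYH hXH hn
  have hcodeg : ∀ n ∈ N₀, ∀ m ∈ N₀, n ≠ m →
      ((B.filter fun a => E n a ∧ E m a).card : ℝ) ≤ D := by
    intro n hn m hm hnm
    have hn' : (1 ≤ n ∧ n ≤ X) ∧ ∀ (p : ℕ) (hp : p ∈ T), n ≡ b p hp [MOD p] := by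
      rw [hN₀] at hn; unfold clsN at hn
      rwa [mem_filter, mem_Icc] at hn
    have hm' : (1 ≤ m ∧ m ≤ X) ∧ ∀ (p : ℕ) (hp : p ∈ T), m ≡ b p hp [MOD p] := by
      rw [hN₀] at hm; unfold clsN at hm
      rwa [mem_filter, mem_Icc] at hm
    have hmod2 : n ≡ m [MOD 2] := (hn'.2 2 h2T).trans (hm'.2 2 h2T).symm
    have h1 := hX₀ H hHX₀ n m hnm hmod2
    have hdiff : diffProd n m ≤ Real.exp 20 * ∏ p ∈ T, (1 - (p : ℝ)⁻¹)⁻¹ := by
      refine diffProd_le hnm hY4 ?_ hgap hT hT2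
      have h2 : ((n : ℤ) - m).natAbs ≤ X := by omega
      rcases Nat.eq_zero_or_pos ((n : ℤ) - m).natAbs with h0 | h0
      · rw [h0]
        simp
      · refine le_trans (Real.log_le_log (by exact_mod_cast h0) ?_) hlogY
        exact_mod_cast h2
    rw [prod_inv_distrib] at hdiff
    change diffProd n m ≤ Real.exp 20 * Δ⁻¹ at hdiff
    have h2 : (B.filter fun a => E n a ∧ E m a).card ≤
        ((Icc 1 H).filter fun a => (n + a).Prime ∧ (m + a).Prime).card + 1 := by
      have hsub : (B.filter fun a => E n a ∧ E m a) ⊆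
          ((Icc 1 H).filter fun a => (n + a).Prime ∧ (m + a).Prime) ∪ {0} := by
        intro a ha
        rw [mem_filter] at ha
        have ha1 : a ∈ range (H + 1) := by
          have h3 := ha.1
          rw [hB] at h3
          unfold clsB at h3
          exact (mem_filter.mp h3).1
        rw [mem_range] at ha1
        rw [mem_union, mem_filter, mem_Icc, mem_singleton]
        rcases Nat.eq_zero_or_pos a with h0 | h0
        · exact Or.inr h0
        · exact Or.inl ⟨⟨h0, by omega⟩, ha.2⟩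
      refine (card_le_card hsub).trans ((card_union_le _ _).trans ?_)
      rw [card_singleton]
    have h3 : ((B.filter fun a => E n a ∧ E m a).card : ℝ) ≤
        (((Icc 1 H).filter fun a => (n + a).Prime ∧ (m + a).Prime).card : ℝ) + 1 := by
      exact_mod_cast h2
    refine h3.trans ?_
    have h4 : pairConst * diffProd n m * H / (Real.log H) ^ 2 ≤
        pc * Δ⁻¹ * H / (Real.log H) ^ 2 := by
      have h5 : pairConst * diffProd n m ≤ pc * Δ⁻¹ := by
        unfold pc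
        rw [mul_assoc]
        have : (0 : ℝ) ≤ pairConst := by unfold pairConst; norm_num
        gcongr
      gcongr
    have h5 : (1 : ℝ) ≤ pc * Δ⁻¹ * H / (Real.log H) ^ 2 := by
      rw [le_div_iff₀ (by positivity), one_mul]
      have h6 : (1 : ℝ) ≤ Δ⁻¹ := by
        rw [one_le_inv₀ hΔ0]; exact hΔ1
      have h7 : (1 : ℝ) ≤ pc * Δ⁻¹ := by nlinarith
      nlinarith
    calc _ ≤ pairConst * diffProd n m * H / (Real.log H) ^ 2 + 1 := by linarith
      _ ≤ pc * Δ⁻¹ * H / (Real.log H) ^ 2 + pc * Δ⁻¹ * H / (Real.log H) ^ 2 := by linarith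
      _ = D := by rw [hD]; ring
  -- sizes
  have hBup : (B.card : ℝ) ≤ ((H : ℝ) + 1 + ∏ p ∈ T, (p : ℝ)) * Δ := card_clsB_le hT b H
  have hBup2 : (B.card : ℝ) ≤ 2 * H * Δ := by
    refine hBup.trans ?_
    gcongr
    linarith
  have hBup3 : (B.card : ℝ) ≤ 2 * H := by
    refine hBup2.trans ?_
    nlinarith
  have hN₀ne : N₀.Nonempty := by
    rw [← card_pos]
    by_contra hcon
    have h0 : N₀.card = 0 := by omega
    rw [h0, Nat.cast_zero, mul_zero] at hM
    have : 0 < (Real.log H) ^ 2 := by positivity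
    linarith
  have hB0 : (0 : ℝ) < B.card := by
    obtain ⟨n, hn⟩ := hN₀ne
    have h1 := hdeg n hn
    have h2 : ((B.filter fun a => E n a).card : ℝ) ≤ B.card := by
      exact_mod_cast card_le_card (filter_subset _ _)
    linarith
  set τ : ℝ := L / (2 * B.card) with hτ
  have hτ0 : 0 < τ := by positivity
  have hLB : L ≤ B.card := by
    obtain ⟨n, hn⟩ := hN₀ne
    have h1 := hdeg n hn
    have h2 : ((B.filter fun a => E n a).card : ℝ) ≤ B.card := by
      exact_mod_cast card_le_card (filter_subset _ _)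
    linarith
  have hτ1 : τ ≤ 1 := by
    rw [hτ, div_le_one (by positivity)]
    linarith
  have hτlow : 1 / (20 * Real.log H) ≤ τ := by
    rw [hτ, hL, div_div, div_le_div_iff₀ (by positivity) (by positivity)]
    nlinarith
  have hgood : ∀ N ⊆ N₀, M ≤ N.card →
      rho * B.card ≤ ((goodSet E B N τ).card : ℝ) := by
    intro N hN hNc'
    have hNc : (Real.log H) ^ 2 ≤ N.card := hM0.trans hNc'
    have hNne : N.Nonempty := by
      rw [← card_pos]
      by_contra hcon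
      have h0 : N.card = 0 := by omega
      rw [h0, Nat.cast_zero] at hNc
      have : 0 < (Real.log H) ^ 2 := by positivity
      linarith
    have hcardB : (B.card : ℝ) ≤ D * N.card := by
      refine hBup3.trans ?_
      have h6 : (1 : ℝ) ≤ Δ⁻¹ := by
        rw [one_le_inv₀ hΔ0]; exact hΔ1
      have h7 : (1 : ℝ) ≤ pc * Δ⁻¹ := by nlinarith
      calc (2 : ℝ) * H = 2 * 1 * H / (Real.log H) ^ 2 * (Real.log H) ^ 2 := by field_simp
        _ ≤ 2 * (pc * Δ⁻¹) * H / (Real.log H) ^ 2 * N.card := by gcongr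
        _ = D * N.card := by rw [hD]; ring
    have h1 := card_good_ge E B N hNne hL0 hD0
      (fun n hn => (hdeg n (hN hn)).trans_eq (congrArg Nat.cast (card_filter_inst B _ _ _)))
      (fun n hn m hm hnm => (congrArg Nat.cast (card_filter_inst B _ _ _)).trans_le
        (hcodeg n (hN hn) m (hN hm) hnm)) hcardB
    refine le_trans ?_ h1
    rw [le_div_iff₀ (by positivity)]
    calc rho * B.card * (8 * D) ≤ rho * (2 * H * Δ) * (8 * D) := by gcongr
      _ = L ^ 2 := by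
        rw [hL, hD]
        unfold rho
        field_simp
        ring
  have hMτ : M ≤ τ ^ k * N₀.card := by
    refine hM.trans ?_
    gcongr
  have hgs := genSum_le E B N₀ hτ0 hτ1 (by linarith : rho ≤ 1) hgood k N₀ (Subset.refl _) hMτ
  have hcb := card_bad_le M E B N₀ k (s := s) (S := S) hS (fun A hA => by
    have h1 := hbad A hA
    have h2 : ∀ n, (degIn E n A : ℝ) = (primesIn n A : ℝ) := fun n => by
      rw [hE, degIn_eq]
    simp only [h2]
    exact h1) hs
  refine hcb.trans ?_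
  rw [mul_div_assoc]
  have h2s : (0 : ℝ) ≤ (2 : ℝ) ^ s := by positivity
  refine mul_le_mul_of_nonneg_left (hgs.trans ?_) h2s
  have h1ρ : 0 ≤ 1 - rho / 2 := by linarith
  gcongr

end Pool.Agent.Lib.H59
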