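import Mathlib
import Pool.Agent.Lib.H59.TupleClass

/-!
# The number of the bad admissible sets

-/

open Finset

noncomputable section

namespace Pool.Agent.Lib.H59

open scoped Classical in
/-- The admissible sets for which fewer than `M` of the translates by `n ≤ X` contain more
than `s` primes. -/
def badSets (k H X : ℕ) (s M : ℝ) : Finset (Finset ℕ) :=
  (admSets k H).filter fun A =>
    (((Icc 1 X).filter fun n => s < (primesIn n A : ℝ)).card : ℝ) < M

/-- The number of the compatible residue vectors is at least this. -/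
def multLow (T : Finset ℕ) (k : ℕ) : ℕ := ∏ p ∈ T, (if p ≤ k then 1 else p - k)

theorem multLow_le {T : Finset ℕ} (hT : ∀ p ∈ T, p.Prime) {A : Finset ℕ} {k : ℕ}
    (hA : AdmissibleSet A) (hk : A.card = k) :
    multLow T k ≤ (open scoped Classical in ((T.pi fun p => range p).filter fun b : ResVec T =>
      ∀ a ∈ A, ∀ (p : ℕ) (hp : p ∈ T), ¬ p ∣ a + b p hp).card) := by
  classical
  rw [card_compat]
  unfold multLow
  refine prod_le_prod' fun p hp => ?_
  split_ifs with h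
  · exact one_le_card_missing hA (hT p hp)
  · rw [← hk]
    exact sub_le_card_missing (hT p hp)

theorem main_count {T : Finset ℕ} (hT : ∀ p ∈ T, p.Prime) {k H X : ℕ} {s M Z : ℝ}
    (hclass : ∀ b : ResVec T, ∀ S ⊆ powersetCard k (clsB T b H),
      (∀ A ∈ S, (((clsN T b X).filter fun n => s < (primesIn n A : ℝ)).card : ℝ) < M) →
      (S.card : ℝ) ≤ Z) :
    (multLow T k : ℝ) * ((badSets k H X s M).card : ℝ) ≤ (∏ p ∈ T, (p : ℝ)) * Z := by
  classical
  set R : Finset (ResVec T) := T.pi fun p => range p with hR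
  have hRcard : (R.card : ℝ) = ∏ p ∈ T, (p : ℝ) := by
    rw [hR, card_pi]
    push_cast
    refine prod_congr rfl fun p _ => ?_
    rw [card_range]
  have hbadAdm : ∀ A ∈ badSets k H X s M, (A ⊆ range (H + 1) ∧ A.card = k) ∧ AdmissibleSet A ∧
      (((Icc 1 X).filter fun n => s < (primesIn n A : ℝ)).card : ℝ) < M := by
    intro A hA
    simp only [badSets, admSets, mem_filter, mem_powersetCard] at hA
    exact ⟨hA.1.1, hA.1.2, hA.2⟩
  have h1 : (multLow T k : ℝ) * ((badSets k H X s M).card : ℝ) ≤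
      ∑ A ∈ badSets k H X s M, ∑ b ∈ R,
        (if ∀ a ∈ A, ∀ (p : ℕ) (hp : p ∈ T), ¬ p ∣ a + b p hp then (1 : ℝ) else 0) := by
    have h2 : ∀ A ∈ badSets k H X s M, (multLow T k : ℝ) ≤ ∑ b ∈ R,
        (if ∀ a ∈ A, ∀ (p : ℕ) (hp : p ∈ T), ¬ p ∣ a + b p hp then (1 : ℝ) else 0) := by
      intro A hA
      obtain ⟨⟨_, h4⟩, h5, _⟩ := hbadAdm A hA
      rw [sum_boole]
      have h6 := multLow_le hT h5 h4
      exact_mod_cast h6
    have h3 := sum_le_sum h2
    rw [sum_const, nsmul_eq_mul] at h3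
    linarith
  refine h1.trans ?_
  rw [sum_comm]
  have h2 : ∀ b ∈ R, ∑ A ∈ badSets k H X s M,
      (if ∀ a ∈ A, ∀ (p : ℕ) (hp : p ∈ T), ¬ p ∣ a + b p hp then (1 : ℝ) else 0) ≤ Z := by
    intro b _
    rw [sum_boole]
    refine hclass b _ ?_ ?_
    · intro A hA
      rw [mem_filter] at hA
      obtain ⟨⟨h3, h4⟩, h5, h6⟩ := hbadAdm A hA.1
      rw [mem_powersetCard]
      refine ⟨fun a ha => ?_, h4⟩
      unfold clsB
      rw [mem_filter]
      exact ⟨h3 ha, fun p hp => hA.2 a ha p hp⟩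
    · intro A hA
      rw [mem_filter] at hA
      obtain ⟨_, _, h6⟩ := hbadAdm A hA.1
      refine lt_of_le_of_lt ?_ h6
      have h7 : ((clsN T b X).filter fun n => s < (primesIn n A : ℝ)).card ≤
          ((Icc 1 X).filter fun n => s < (primesIn n A : ℝ)).card := by
        refine card_le_card (filter_subset_filter _ ?_)
        unfold clsN
        exact filter_subset _ _
      exact_mod_cast h7
  refine (sum_le_sum h2).trans ?_
  rw [sum_const, nsmul_eq_mul, hRcard]

/-- The product of the primes up to `Y` and the density of the primes up to `k`. -/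
theorem prod_primes_le {T : Finset ℕ} {Y : ℕ} (hT : ∀ p ∈ T, p.Prime ∧ p ≤ Y) :
    ∏ p ∈ T, p ≤ 4 ^ Y := by
  refine le_trans ?_ (primorial_le_four_pow Y)
  unfold primorial
  refine prod_le_prod_of_subset_of_one_le' ?_ ?_
  · intro p hp
    rw [mem_filter, mem_range]
    exact ⟨by have := (hT p hp).2; omega, (hT p hp).1⟩
  · intro p hp _
    exact (mem_filter.mp hp).2.pos

theorem inv_dens_le_prod {T : Finset ℕ} (hT : ∀ p ∈ T, p.Prime) :
    (dens T)⁻¹ ≤ ∏ p ∈ T, (p : ℝ) := by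
  unfold dens
  rw [← prod_inv_distrib]
  refine prod_le_prod (fun p hp => ?_) fun p hp => ?_
  · have := one_sub_inv_pos (hT p hp)
    positivity
  · have h2 : (2 : ℝ) ≤ p := by exact_mod_cast (hT p hp).two_le
    rw [inv_le_comm₀ (one_sub_inv_pos (hT p hp)) (by linarith)]
    have h3 : (p : ℝ)⁻¹ ≤ 2⁻¹ := by gcongr
    norm_num at h3
    linarith

/-- The comparison of the two main terms. -/
theorem compare_main {k u v Y : ℕ} (hu : u ≤ k) (hk : 1 ≤ k) (hv : 2 * k ≤ v) (hkY : k ≤ Y) :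
    (∏ p ∈ keyPrimes u v Y, (p : ℝ)) / multLow (keyPrimes u v Y) k *
      dens (keyPrimes u v Y) ^ k ≤
    Real.exp (u * Real.log 4 + 2 * k * ∑ p ∈ primesIoc u v, (p : ℝ)⁻¹ + (k : ℝ) ^ 2 / v) *
      dens (primesLe k) ^ k := by
  classical
  set T := keyPrimes u v Y with hTdef
  have hT : ∀ p ∈ T, p.Prime := fun p hp => prime_of_mem_keyPrimes hp
  -- split into the primes up to `u` and those beyond `v`
  set T₁ := T.filter (fun p => p ≤ u) with hT₁
  set T₂ := T.filter (fun p => ¬ p ≤ u) with hT₂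
  have hT₂v : ∀ p ∈ T₂, v < p := by
    intro p hp
    rw [hT₂, mem_filter] at hp
    obtain ⟨h1, h2, h3⟩ := mem_keyPrimes.mp hp.1
    omega
  have hkr : (1 : ℝ) ≤ k := by exact_mod_cast hk
  have hvr : 2 * (k : ℝ) ≤ v := by exact_mod_cast hv
  -- each factor
  have hfac : ∀ p ∈ T₂, (p : ℝ) / ((p - k : ℕ) : ℝ) * (1 - (p : ℝ)⁻¹) ^ k ≤
      Real.exp ((k : ℝ) ^ 2 * ((p : ℝ) ^ 2)⁻¹) := by
    intro p hp
    have hpv := hT₂v p hp
    have hpvr : (v : ℝ) < p := by exact_mod_cast hpv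
    have hp0 : (0 : ℝ) < p := by linarith
    have hcast : ((p - k : ℕ) : ℝ) = (p : ℝ) - k := by
      rw [Nat.cast_sub (by omega)]
    rw [hcast]
    have hpk : 0 < (p : ℝ) - k := by linarith
    set t : ℝ := (k : ℝ) / p with ht
    have ht0 : 0 ≤ t := by positivity
    have ht1 : t ≤ 1 / 2 := by
      rw [ht, div_le_iff₀ hp0]
      linarith
    have h1 : (p : ℝ) / (p - k) ≤ Real.exp (t + t ^ 2) := by
      have h2 : (p : ℝ) / (p - k) = (1 - t)⁻¹ := by
        rw [ht]; field_simp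
      rw [h2]
      have h3 : 0 < 1 - t := by linarith
      -- `log (1 - t)⁻¹ ≤ t + t ^ 2`
      have h4 : 1 + (t + t ^ 2) ≤ Real.exp (t + t ^ 2) := by
        have := Real.add_one_le_exp (t + t ^ 2)
        linarith
      have h5 : 1 + (t + t ^ 2) + (t + t ^ 2) ^ 2 / 2 ≤ Real.exp (t + t ^ 2) := by
        have := Real.quadratic_le_exp_of_nonneg (x := t + t ^ 2) (by positivity)
        linarith
      rw [inv_le_iff_one_le_mul₀ h3]
      refine le_trans ?_ (mul_le_mul_of_nonneg_right h5 h3.le)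
      nlinarith [mul_nonneg ht0 ht0, mul_nonneg (mul_nonneg ht0 ht0) ht0,
        mul_nonneg (mul_nonneg ht0 ht0) (mul_nonneg ht0 ht0)]
    have h2 : (1 - (p : ℝ)⁻¹) ^ k ≤ Real.exp (-t) := by
      have h3 : 1 - (p : ℝ)⁻¹ ≤ Real.exp (-(p : ℝ)⁻¹) := by
        have := Real.add_one_le_exp (-(p : ℝ)⁻¹)
        linarith
      calc (1 - (p : ℝ)⁻¹) ^ k ≤ Real.exp (-(p : ℝ)⁻¹) ^ k :=
            pow_le_pow_left₀ (one_sub_inv_pos (hT p (mem_filter.mp hp).1)).le h3 k
        _ = Real.exp (-t) := by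
          rw [← Real.exp_nat_mul, ht]
          congr 1
          ring
    calc (p : ℝ) / (p - k) * (1 - (p : ℝ)⁻¹) ^ k ≤ Real.exp (t + t ^ 2) * Real.exp (-t) := by
          refine mul_le_mul h1 h2 ?_ (Real.exp_nonneg _)
          exact pow_nonneg (one_sub_inv_pos (hT p (mem_filter.mp hp).1)).le k
      _ = Real.exp ((k : ℝ) ^ 2 * ((p : ℝ) ^ 2)⁻¹) := by
        rw [← Real.exp_add, ht]
        congr 1
        field_simp
        ring
  -- the sum over the large primes
  have hsum2 : ∑ p ∈ T₂, ((p : ℝ) ^ 2)⁻¹ ≤ (v : ℝ)⁻¹ := by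
    rcases Nat.lt_or_ge Y v with hYv | hYv
    · have : T₂ = ∅ := by
        rw [eq_empty_iff_forall_notMem]
        intro p hp
        have h1 := hT₂v p hp
        have h2 := (mem_keyPrimes.mp (mem_filter.mp hp).1).1
        omega
      rw [this]
      simp
    · have hsub : T₂ ⊆ Ioc v Y := by
        intro p hp
        rw [mem_Ioc]
        exact ⟨hT₂v p hp, (mem_keyPrimes.mp (mem_filter.mp hp).1).1⟩
      refine (sum_le_sum_of_subset_of_nonneg hsub fun p _ _ => by positivity).trans ?_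
      refine (sum_Ioc_inv_sq_le_sub (α := ℝ) (by omega) hYv).trans ?_
      have : (0 : ℝ) ≤ (Y : ℝ)⁻¹ := by positivity
      linarith
  have hprod2 : ∏ p ∈ T₂, ((p : ℝ) / ((p - k : ℕ) : ℝ) * (1 - (p : ℝ)⁻¹) ^ k) ≤
      Real.exp ((k : ℝ) ^ 2 / v) := by
    refine (prod_le_prod (fun p hp => ?_) hfac).trans ?_
    · have := one_sub_inv_pos (hT p (mem_filter.mp hp).1)
      positivity
    · rw [← Real.exp_sum, ← mul_sum]
      apply Real.exp_le_exp.mpr
      rw [div_eq_mul_inv]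
      gcongr
  -- the small primes
  have hprod1 : ∏ p ∈ T₁, (p : ℝ) ≤ Real.exp (u * Real.log 4) := by
    have h1 : ∏ p ∈ T₁, p ≤ 4 ^ u := prod_primes_le fun p hp =>
      ⟨hT p (mem_filter.mp hp).1, (mem_filter.mp hp).2⟩
    have h2 : (∏ p ∈ T₁, (p : ℝ)) ≤ (4 : ℝ) ^ u := by
      rw [← Nat.cast_prod]
      exact_mod_cast h1
    rw [Real.exp_nat_mul, Real.exp_log (by norm_num)]
    exact h2
  -- the density of the small primes
  have hdens1 : dens T₁ ≤ dens (primesLe k) * Real.exp (2 * ∑ p ∈ primesIoc u v, (p : ℝ)⁻¹) := by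
    have hT₁p : ∀ p ∈ T₁, p.Prime := fun p hp => hT p (mem_filter.mp hp).1
    have hGp : ∀ p ∈ primesIoc u v, p.Prime := fun p hp => (mem_primesIoc.mp hp).2
    have h1 : primesLe k ⊆ T₁ ∪ primesIoc u v := by
      intro p hp
      obtain ⟨h2, h3⟩ := mem_primesLe.mp hp
      rw [mem_union, hT₁, mem_filter, mem_keyPrimes, mem_primesIoc]
      rcases le_or_gt p u with h | h
      · exact Or.inl ⟨⟨h2.trans hkY, h3, by omega⟩, h⟩
      · exact Or.inr ⟨⟨h, by omega⟩, h3⟩
    have hdisj : Disjoint T₁ (primesIoc u v) := by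
      rw [disjoint_left]
      intro p hp hp'
      have h2 := (mem_filter.mp hp).2
      have h3 := (mem_primesIoc.mp hp').1.1
      omega
    have h2 : dens (T₁ ∪ primesIoc u v) ≤ dens (primesLe k) := by
      unfold dens
      rw [← prod_sdiff h1]
      have h3 : ∏ p ∈ (T₁ ∪ primesIoc u v) \ primesLe k, (1 - (p : ℝ)⁻¹) ≤ 1 := by
        refine dens_le_one fun p hp => ?_
        rcases mem_union.mp (mem_sdiff.mp hp).1 with h | h
        · exact hT₁p p h
        · exact hGp p h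
      have h4 : 0 ≤ ∏ p ∈ primesLe k, (1 - (p : ℝ)⁻¹) :=
        (dens_pos fun p hp => (mem_primesLe.mp hp).2).le
      exact mul_le_of_le_one_left h4 h3
    have h3 : dens (T₁ ∪ primesIoc u v) = dens T₁ * dens (primesIoc u v) := by
      unfold dens
      rw [prod_union hdisj]
    have h4 := prod_inv_one_sub_le_exp _ hGp
    rw [prod_inv_distrib] at h4
    change (dens (primesIoc u v))⁻¹ ≤ _ at h4
    have h5 : 0 < dens (primesIoc u v) := dens_pos hGp
    rw [h3] at h2
    have h6 : 0 < dens (primesLe k) := dens_pos fun p hp => (mem_primesLe.mp hp).2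
    calc dens T₁ = dens T₁ * dens (primesIoc u v) * (dens (primesIoc u v))⁻¹ := by
          field_simp
      _ ≤ dens (primesLe k) * Real.exp (2 * ∑ p ∈ primesIoc u v, (p : ℝ)⁻¹) := by gcongr
  -- putting together
  have hdensT : dens T = dens T₁ * dens T₂ := by
    unfold dens
    rw [hT₁, hT₂, prod_filter_mul_prod_filter_not]
  have hprodT : ∏ p ∈ T, (p : ℝ) = (∏ p ∈ T₁, (p : ℝ)) * ∏ p ∈ T₂, (p : ℝ) := by
    rw [hT₁, hT₂, prod_filter_mul_prod_filter_not]
  have hmult : (multLow T k : ℝ) = ∏ p ∈ T₂, ((p - k : ℕ) : ℝ) := by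
    unfold multLow
    rw [← prod_filter_mul_prod_filter_not T (fun p => p ≤ u)]
    have h1 : ∏ p ∈ T.filter (fun p => p ≤ u), (if p ≤ k then 1 else p - k) = 1 := by
      refine prod_eq_one fun p hp => ?_
      rw [if_pos ((mem_filter.mp hp).2.trans hu)]
    rw [h1, one_mul, Nat.cast_prod]
    refine prod_congr rfl fun p hp => ?_
    have h2 := hT₂v p hp
    rw [if_neg (by omega)]
  have hT₁0 : 0 ≤ dens T₁ := (dens_pos fun p hp => hT p (mem_filter.mp hp).1).le
  have hT₂0 : 0 ≤ dens T₂ := (dens_pos fun p hp => hT p (mem_filter.mp hp).1).le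
  have hT₁P : 0 ≤ ∏ p ∈ T₁, (p : ℝ) := prod_nonneg fun p _ => by positivity
  have hL0 : 0 < dens (primesLe k) := dens_pos fun p hp => (mem_primesLe.mp hp).2
  have hkey : (∏ p ∈ T₂, (p : ℝ)) / (∏ p ∈ T₂, ((p - k : ℕ) : ℝ)) * dens T₂ ^ k ≤
      Real.exp ((k : ℝ) ^ 2 / v) := by
    have h1 : (∏ p ∈ T₂, (p : ℝ)) / (∏ p ∈ T₂, ((p - k : ℕ) : ℝ)) * dens T₂ ^ k =
        ∏ p ∈ T₂, ((p : ℝ) / ((p - k : ℕ) : ℝ) * (1 - (p : ℝ)⁻¹) ^ k) := by
      unfold dens
      rw [prod_mul_distrib, prod_div_distrib, prod_pow]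
    rw [h1]
    exact hprod2
  calc (∏ p ∈ T, (p : ℝ)) / multLow T k * dens T ^ k
      = (∏ p ∈ T₁, (p : ℝ)) * dens T₁ ^ k *
        ((∏ p ∈ T₂, (p : ℝ)) / (∏ p ∈ T₂, ((p - k : ℕ) : ℝ)) * dens T₂ ^ k) := by
        rw [hdensT, hprodT, hmult, mul_pow]
        ring
    _ ≤ Real.exp (u * Real.log 4) *
        (dens (primesLe k) * Real.exp (2 * ∑ p ∈ primesIoc u v, (p : ℝ)⁻¹)) ^ k *
          Real.exp ((k : ℝ) ^ 2 / v) := by
        gcongr
    _ = _ := by
        rw [mul_pow, ← Real.exp_nat_mul, Real.exp_add, Real.exp_add]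
        rw [show (k : ℝ) * (2 * ∑ p ∈ primesIoc u v, (p : ℝ)⁻¹) =
          2 * k * ∑ p ∈ primesIoc u v, (p : ℝ)⁻¹ by ring]
        ring

end Pool.Agent.Lib.H59
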