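import Mathlib
import Pool.Agent.Lib.H59.TupleMain

/-!
# The bound for the number of the bad admissible sets

-/

open Finset Filter

noncomputable section

namespace Pool.Agent.Lib.H59

theorem multLow_pos {T : Finset ℕ} {k : ℕ} : 0 < multLow T k := by
  unfold multLow
  refine prod_pos fun p _ => ?_
  split_ifs with h
  · norm_num
  · omega

/-- The bound under explicit conditions on the parameters. -/
theorem bad_le_of {k H X u v Y : ℕ} {s M : ℝ} (hk : 1 ≤ k) (hu : u ≤ k) (hv : 2 * k ≤ v)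
    (hkY : k ≤ Y)
    (hclass : ∀ b : ResVec (keyPrimes u v Y), ∀ S ⊆ powersetCard k (clsB (keyPrimes u v Y) b H),
      (∀ A ∈ S, (((clsN (keyPrimes u v Y) b X).filter fun n =>
        s < (primesIn n A : ℝ)).card : ℝ) < M) →
      (S.card : ℝ) ≤ (2 : ℝ) ^ s * (((H + 1 + ∏ p ∈ keyPrimes u v Y, (p : ℝ)) *
        dens (keyPrimes u v Y)) * (1 - rho / 2)) ^ k / k.factorial)
    (hsize : (k : ℝ) * (1 + 4 ^ Y) + (k + 1) ^ 2 * 4 ^ k ≤ H) :
    ((badSets k H X s M).card : ℝ) ≤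
      Real.exp (u * Real.log 4 + 2 * k * ∑ p ∈ primesIoc u v, (p : ℝ)⁻¹ + (k : ℝ) ^ 2 / v +
        s * Real.log 2 - k * rho / 2 + 1) * (admSets k H).card := by
  classical
  set T := keyPrimes u v Y with hTdef
  have hT : ∀ p ∈ T, p.Prime := fun p hp => prime_of_mem_keyPrimes hp
  have hT' : ∀ p ∈ T, p.Prime ∧ p ≤ Y := fun p hp => ⟨hT p hp, (mem_keyPrimes.mp hp).1⟩
  set P : ℝ := ∏ p ∈ T, (p : ℝ) with hP
  have hP0 : 0 < P := prod_pos fun p hp => by exact_mod_cast (hT p hp).pos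
  have hP4 : P ≤ 4 ^ Y := by
    rw [hP, ← Nat.cast_prod]
    exact_mod_cast prod_primes_le hT'
  have hK : ∀ p ∈ primesLe k, p.Prime ∧ p ≤ k := fun p hp =>
    ⟨(mem_primesLe.mp hp).2, (mem_primesLe.mp hp).1⟩
  have hKp : ∀ p ∈ primesLe k, p.Prime := fun p hp => (hK p hp).1
  set Q : ℝ := ∏ p ∈ primesLe k, (p : ℝ) with hQ
  have hQ0 : 0 < Q := prod_pos fun p hp => by exact_mod_cast (hK p hp).1.pos
  have hQ4 : Q ≤ 4 ^ k := by
    rw [hQ, ← Nat.cast_prod]
    exact_mod_cast prod_primes_le hK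
  set d : ℝ := dens (primesLe k) with hd
  have hd0 : 0 < d := dens_pos hKp
  have hd1 : d⁻¹ ≤ Q := inv_dens_le_prod hKp
  have hkr : (1 : ℝ) ≤ k := by exact_mod_cast hk
  have hρ0 := rho_pos
  have hρ1 := rho_le
  have hM0 : (0 : ℝ) < multLow T k := by exact_mod_cast multLow_pos
  -- the lower bound for the number of the admissible sets
  have hrough := le_card_roughSet k H
  rw [← hQ, ← hd] at hrough
  have hsize' : (k : ℝ) * (1 + P) + (k + 1) ^ 2 * Q ≤ H := by
    refine le_trans ?_ hsize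
    gcongr
  have hkd : (k : ℝ) ≤ d * (k * Q) := by
    have h1 : 1 ≤ d * Q := by
      calc (1 : ℝ) = d * d⁻¹ := by field_simp
        _ ≤ d * Q := by gcongr
    nlinarith
  have hR : d * (H - (k + 1) * Q) ≤ ((roughSet k H).card : ℝ) - k := by
    have : d * (H - (k + 1) * Q) = d * (H - Q) - d * (k * Q) := by ring
    linarith
  have hHQ : 0 ≤ (H : ℝ) - (k + 1) * Q := by
    have h1 : ((k : ℝ) + 1) * Q ≤ (k + 1) ^ 2 * Q := by
      have : (0 : ℝ) ≤ k := by linarith
      gcongr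
      nlinarith
    have h2 : 0 ≤ (k : ℝ) * (1 + P) := by positivity
    linarith
  have hkR : (k : ℝ) ≤ (roughSet k H).card := by
    have : 0 ≤ d * (H - (k + 1) * Q) := by positivity
    linarith
  have hadm := le_card_admSets k H hkR
  have hadm' : (d * (H - (k + 1) * Q)) ^ k / k.factorial ≤ ((admSets k H).card : ℝ) := by
    refine le_trans ?_ hadm
    gcongr
  -- the upper bound for the number of the bad sets
  have hmain := main_count hT (k := k) (H := H) (X := X) (s := s) (M := M) hclass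
  have hcomp := compare_main (Y := Y) hu hk hv hkY
  rw [← hTdef, ← hP, ← hd] at hcomp
  set ex : ℝ := u * Real.log 4 + 2 * k * ∑ p ∈ primesIoc u v, (p : ℝ)⁻¹ + (k : ℝ) ^ 2 / v with hex
  have h1 : ((badSets k H X s M).card : ℝ) ≤ P / multLow T k *
      ((2 : ℝ) ^ s * (((H + 1 + P) * dens T) * (1 - rho / 2)) ^ k / k.factorial) := by
    rw [div_mul_eq_mul_div, le_div_iff₀ hM0]
    linarith
  have hρ2 : 0 ≤ 1 - rho / 2 := by linarith
  have h2 : (H : ℝ) + 1 + P ≤ (1 + 1 / k) * (H - (k + 1) * Q) := by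
    have e1 : (1 + 1 / (k : ℝ)) * (H - (k + 1) * Q) =
        H + (H - (k + 1) ^ 2 * Q) / k := by
      field_simp
      ring
    rw [e1]
    have h3 : 1 + P ≤ (H - (k + 1) ^ 2 * Q) / k := by
      rw [le_div_iff₀ (by linarith)]
      linarith
    linarith
  have h3 : (1 + 1 / (k : ℝ)) ^ k ≤ Real.exp 1 := by
    have h4 : 1 + 1 / (k : ℝ) ≤ Real.exp (1 / k) := by
      have := Real.add_one_le_exp (1 / (k : ℝ))
      linarith
    calc (1 + 1 / (k : ℝ)) ^ k ≤ Real.exp (1 / k) ^ k := by gcongr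
      _ = Real.exp 1 := by
        rw [← Real.exp_nat_mul]
        congr 1
        field_simp
  have h4 : (1 - rho / 2) ^ k ≤ Real.exp (-(k * rho / 2)) := by
    have h5 : 1 - rho / 2 ≤ Real.exp (-(rho / 2)) := by
      have := Real.add_one_le_exp (-(rho / 2))
      linarith
    calc (1 - rho / 2) ^ k ≤ Real.exp (-(rho / 2)) ^ k := by gcongr
      _ = Real.exp (-(k * rho / 2)) := by
        rw [← Real.exp_nat_mul]
        congr 1
        ring
  have h5 : (2 : ℝ) ^ s = Real.exp (s * Real.log 2) := by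
    rw [Real.rpow_def_of_pos (by norm_num)]
    congr 1
    ring
  have hf : (0 : ℝ) < k.factorial := by exact_mod_cast Nat.factorial_pos k
  have hHP : 0 ≤ (H : ℝ) + 1 + P := by positivity
  calc ((badSets k H X s M).card : ℝ)
      ≤ P / multLow T k *
        ((2 : ℝ) ^ s * (((H + 1 + P) * dens T) * (1 - rho / 2)) ^ k / k.factorial) := h1
    _ = (P / multLow T k * dens T ^ k) * (2 : ℝ) ^ s * (H + 1 + P) ^ k * (1 - rho / 2) ^ k /
        k.factorial := by
        rw [mul_pow, mul_pow]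
        ring
    _ ≤ (Real.exp ex * d ^ k) * Real.exp (s * Real.log 2) *
          ((1 + 1 / k) * (H - (k + 1) * Q)) ^ k * Real.exp (-(k * rho / 2)) / k.factorial := by
        rw [← h5]
        gcongr
    _ = (Real.exp ex * Real.exp (s * Real.log 2) * Real.exp (-(k * rho / 2))) *
          (1 + 1 / (k : ℝ)) ^ k * ((d * (H - (k + 1) * Q)) ^ k / k.factorial) := by
        rw [mul_pow, mul_pow]
        ring
    _ ≤ (Real.exp ex * Real.exp (s * Real.log 2) * Real.exp (-(k * rho / 2))) *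
          Real.exp 1 * (admSets k H).card := by
        gcongr
    _ = _ := by
        rw [← Real.exp_add, ← Real.exp_add, ← Real.exp_add]
        congr 2

theorem badSets_mono {k H X : ℕ} {s t M N : ℝ} (h : s ≤ t) (hMN : M ≤ N) :
    badSets k H X s M ⊆ badSets k H X t N := by
  classical
  intro A hA
  simp only [badSets, mem_filter] at hA ⊢
  refine ⟨hA.1, lt_of_le_of_lt ?_ (lt_of_lt_of_le hA.2 hMN)⟩
  have h1 : ((Icc 1 X).filter fun n => t < (primesIn n A : ℝ)).card ≤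
      ((Icc 1 X).filter fun n => s < (primesIn n A : ℝ)).card := by
    refine card_le_card fun n hn => ?_
    rw [mem_filter] at hn ⊢
    exact ⟨hn.1, lt_of_le_of_lt h hn.2⟩
  exact_mod_cast h1

/-- The core of the argument. -/
theorem core : ∃ m k₀ H₀ : ℕ, 1 ≤ m ∧ 1 ≤ k₀ ∧ ∀ (H X k Y : ℕ) (M : ℝ), H₀ ≤ H → k₀ ≤ k →
    X ≤ H / 4 → (Y : ℝ) ≤ Real.log H / 100 → Real.log X ≤ (Y : ℝ) ^ 2 → m * k ≤ Y →
    (Real.log H) ^ 2 ≤ M → (M * (20 * Real.log H) ^ k + 1) * 4 ^ Y ≤ X →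
    ((badSets k H X (rho / 10 * k) M).card : ℝ) ≤
      Real.exp (-(rho / 10 * k)) * (admSets k H).card := by
  classical
  obtain ⟨H₁, hH₁⟩ := per_class
  have hρ0 := rho_pos
  have hρ1 := rho_le
  have hlog4 : Real.log 4 = 2 * Real.log 2 := by
    rw [show (4 : ℝ) = 2 ^ 2 by norm_num, Real.log_pow]; norm_num
  have hl2 : Real.log 2 < 0.6931471808 := Real.log_two_lt_d9
  have hl2' : 0.6931471803 < Real.log 2 := Real.log_two_gt_d9
  set m : ℕ := ⌈100 / rho⌉₊ with hm
  have hmr : 100 / rho ≤ m := Nat.le_ceil _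
  have hm100 : (100 : ℝ) ≤ m := by
    refine le_trans ?_ hmr
    rw [le_div_iff₀ hρ0]
    linarith
  have hm0 : 0 < m := by
    have : (0 : ℝ) < m := by linarith
    exact_mod_cast this
  have hm2 : 2 ≤ m := by
    have : (2 : ℝ) ≤ m := by linarith
    exact_mod_cast this
  set j : ℕ := Nat.clog 2 (2 * m * m) with hj
  have hj1 : 2 * m * m ≤ 2 ^ j := Nat.le_pow_clog (by norm_num) _
  -- the sum over the gap primes is small
  have hlim : Tendsto (fun u : ℕ => (j : ℝ) * (2 * Real.log 4 / Real.log u)) atTop (nhds 0) := by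
    have h1 : Tendsto (fun u : ℕ => Real.log u) atTop atTop :=
      Real.tendsto_log_atTop.comp tendsto_natCast_atTop_atTop
    have h2 : Tendsto (fun u : ℕ => 2 * Real.log 4 / Real.log u) atTop (nhds 0) :=
      tendsto_const_nhds.div_atTop h1
    simpa using h2.const_mul (j : ℝ)
  obtain ⟨u₀, hu₀⟩ := eventually_atTop.mp
    (hlim.eventually (gt_mem_nhds (show (0 : ℝ) < rho / 100 by positivity)))
  set k₀ : ℕ := m * (u₀ + 2) + m with hk₀
  refine ⟨m, k₀, max H₁ (10 ^ 100), hm0, by omega,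
    fun H X k Y M hH hk hXH hY hlY hmk hM0 hMX => ?_⟩
  have hHH₁ : H₁ ≤ H := le_trans (le_max_left _ _) hH
  have hH100 : 10 ^ 100 ≤ H := le_trans (le_max_right _ _) hH
  have hHr : (10 : ℝ) ^ 100 ≤ H := by exact_mod_cast hH100
  have hH0 : (0 : ℝ) < H := lt_of_lt_of_le (by norm_num) hHr
  set ℓ : ℝ := Real.log H with hℓ
  have hℓ100 : 200 ≤ ℓ := by
    have h1 : Real.log ((10 : ℝ) ^ 100) ≤ ℓ := Real.log_le_log (by positivity) hHr
    rw [Real.log_pow] at h1
    have h2 : (2 : ℝ) ≤ Real.log 10 := by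
      have h3 : Real.log 8 ≤ Real.log 10 := Real.log_le_log (by norm_num) (by norm_num)
      rw [show (8 : ℝ) = 2 ^ 3 by norm_num, Real.log_pow] at h3
      push_cast at h3
      linarith
    push_cast at h1
    linarith
  have hexpℓ : Real.exp ℓ = H := Real.exp_log hH0
  have hmkm : m ≤ k := by omega
  have hk1 : 1 ≤ k := by omega
  have hkr : (1 : ℝ) ≤ k := by exact_mod_cast hk1
  have hY4 : 4 ≤ Y := by
    have : 2 * 2 ≤ m * k := Nat.mul_le_mul hm2 (by omega)
    omega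
  set u : ℕ := k / m with hu
  have huk : u ≤ k := Nat.div_le_self _ _
  have hu2 : u₀ + 2 ≤ u := by
    rw [hu, Nat.le_div_iff_mul_le hm0]
    nlinarith
  set v : ℕ := m * k with hv
  have hv2 : 2 * k ≤ v := Nat.mul_le_mul_right _ hm2
  have hkY : k ≤ Y := by omega
  have hmu : k ≤ 2 * m * u := by
    have h1 := Nat.lt_mul_div_succ k hm0
    rw [← hu] at h1
    have h3 : m * (u + 1) ≤ m * (2 * u) := Nat.mul_le_mul_left _ (by omega)
    calc k ≤ m * (u + 1) := h1.le
      _ ≤ m * (2 * u) := h3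
      _ = 2 * m * u := by ring
  have hgap : ∑ p ∈ primesIoc u v, (p : ℝ)⁻¹ ≤ rho / 100 := by
    have hsub : primesIoc u v ⊆ primesIoc u (2 ^ j * u) := by
      intro p hp
      obtain ⟨⟨h1, h2⟩, h3⟩ := mem_primesIoc.mp hp
      refine mem_primesIoc.mpr ⟨⟨h1, h2.trans ?_⟩, h3⟩
      calc m * k ≤ m * (2 * m * u) := Nat.mul_le_mul_left _ hmu
        _ = 2 * m * m * u := by ring
        _ ≤ 2 ^ j * u := Nat.mul_le_mul_right _ hj1
    refine (sum_le_sum_of_subset_of_nonneg hsub fun p _ _ => by positivity).trans ?_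
    refine (sum_inv_range u j (by omega)).trans ?_
    exact (hu₀ u (by omega)).le
  -- sizes
  have hYr : (4 : ℝ) ≤ Y := by exact_mod_cast hY4
  have hkYr : (k : ℝ) ≤ Y := by exact_mod_cast hkY
  have h4Y : (4 : ℝ) ^ Y ≤ Real.exp (ℓ / 50) := by
    rw [show (4 : ℝ) ^ Y = Real.exp (Y * Real.log 4) by
      rw [Real.exp_nat_mul, Real.exp_log (by norm_num)]]
    apply Real.exp_le_exp.mpr
    rw [hlog4]
    nlinarith
  have hℓe : ℓ ≤ Real.exp (ℓ / 50) * 50 := by
    have := Real.add_one_le_exp (ℓ / 50)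
    linarith
  have hE1 : 1 ≤ Real.exp (ℓ / 50) := Real.one_le_exp (by linarith)
  have hE50 : Real.exp (ℓ / 50) ^ 50 = H := by
    rw [← hexpℓ, ← Real.exp_nat_mul]
    congr 1
    push_cast
    ring
  set e : ℝ := Real.exp (ℓ / 50) with he
  have he16 : 50 ≤ e := by
    have h1 : (4 : ℝ) ≤ ℓ / 50 := by linarith
    have h2 : Real.exp 4 ≤ e := Real.exp_le_exp.mpr h1
    have h3 : Real.exp 4 = Real.exp 1 ^ 4 := by rw [← Real.exp_nat_mul]; norm_num
    have h4 := Real.exp_one_gt_d9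
    have h5 : (2.7182818283 : ℝ) ^ 4 ≤ Real.exp 1 ^ 4 := by gcongr
    have h6 : (50 : ℝ) ≤ (2.7182818283 : ℝ) ^ 4 := by norm_num
    linarith
  have hYe : (Y : ℝ) ≤ e := by
    have : (Y : ℝ) ≤ ℓ / 100 := hY
    linarith
  have hpow : ∀ i : ℕ, i ≤ 50 → e ^ i ≤ H := by
    intro i hi
    rw [← hE50]
    exact pow_le_pow_right₀ hE1 hi
  have h4k : (4 : ℝ) ^ k ≤ e := le_trans (pow_le_pow_right₀ (by norm_num) hkY) h4Y
  have hsize : (k : ℝ) * (1 + 4 ^ Y) + (k + 1) ^ 2 * 4 ^ k ≤ H := by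
    have hke : (k : ℝ) ≤ e := hkYr.trans hYe
    have h1 : (k : ℝ) * (1 + 4 ^ Y) ≤ e * (1 + e) := by gcongr
    have h2 : ((k : ℝ) + 1) ^ 2 * 4 ^ k ≤ (e + 1) ^ 2 * e := by gcongr
    have h3 : e * (1 + e) + (e + 1) ^ 2 * e ≤ e ^ 6 := by
      have h5 : e ^ 6 = e * e * (e * e * e * e) := by ring
      have h6 : 50 * e ≤ e * e := by nlinarith
      have h7 : 50 * (e * e) ≤ e * e * e := by nlinarith [mul_nonneg (by linarith : (0:ℝ) ≤ e) (by linarith : (0:ℝ) ≤ e)]
      have h8 : e * e * e ≤ e ^ 6 := by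
        calc e * e * e = e ^ 3 := by ring
          _ ≤ e ^ 6 := pow_le_pow_right₀ hE1 (by norm_num)
      have h9 : e * e * e * 50 ≤ e ^ 6 := by
        have : e ^ 4 ≤ e ^ 6 := pow_le_pow_right₀ hE1 (by norm_num)
        nlinarith [pow_nonneg (by linarith : (0:ℝ) ≤ e) 3]
      nlinarith
    exact (h1.trans_eq rfl |>.trans (le_refl _) |> fun h => by linarith [hpow 6 (by norm_num)])
  -- the classes
  set T := keyPrimes u v Y with hTdef
  have hTY : ∀ p ∈ T, p.Prime ∧ p ≤ Y := fun p hp =>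
    ⟨prime_of_mem_keyPrimes hp, (mem_keyPrimes.mp hp).1⟩
  have hT : ∀ p ∈ T, p.Prime := fun p hp => (hTY p hp).1
  have hPe : ∏ p ∈ T, (p : ℝ) ≤ e := by
    refine le_trans ?_ h4Y
    rw [← Nat.cast_prod]
    exact_mod_cast prod_primes_le hTY
  have hP0 : 0 < ∏ p ∈ T, (p : ℝ) := prod_pos fun p hp => by exact_mod_cast (hT p hp).pos
  have h2T : 2 ∈ T := mem_keyPrimes.mpr ⟨by omega, Nat.prime_two, by omega⟩
  have hT2 : ∀ p : ℕ, p.Prime → p ≤ Y → p ∈ T ∨ (u < p ∧ p ≤ v) := by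
    intro p hp hpY
    by_cases h : u < p ∧ p ≤ v
    · exact Or.inr h
    · exact Or.inl (mem_keyPrimes.mpr ⟨hpY, hp, h⟩)
  have hP1 : (∏ p ∈ T, (p : ℝ)) + 1 ≤ H := by
    have := hpow 2 (by norm_num)
    nlinarith
  have hYH : Y ≤ H / 4 := by
    rw [Nat.le_div_iff_mul_le (by norm_num)]
    have h1 : (Y : ℝ) * 4 ≤ H := by
      have := hpow 2 (by norm_num)
      nlinarith
    exact_mod_cast h1
  have hℓ0 : 0 < ℓ := by linarith
  have hcls : ∀ b : ResVec T, M ≤ (1 / (20 * Real.log H)) ^ k * (clsN T b X).card := by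
    intro b
    rw [← hℓ]
    have h1 := le_card_clsN hT b X
    have h20 : 0 < (20 * ℓ) ^ k := by positivity
    rw [one_div, inv_pow, inv_mul_eq_div, le_div_iff₀ h20]
    refine le_trans ?_ h1
    rw [le_sub_iff_add_le, le_div_iff₀ hP0]
    refine le_trans ?_ hMX
    have h2 : 0 ≤ M * (20 * ℓ) ^ k + 1 := by
      have : 0 ≤ M := le_trans (by positivity) hM0
      positivity
    refine mul_le_mul_of_nonneg_left ?_ h2
    rw [← Nat.cast_prod]
    exact_mod_cast prod_primes_le hTY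
  set s : ℝ := rho / 10 * k with hs
  have hs0 : 0 ≤ s := by positivity
  have hfin := bad_le_of (k := k) (H := H) (X := X) (u := u) (v := v) (Y := Y) (s := s) (M := M)
    hk1 huk hv2 hkY
    (fun b S hS hbad => hH₁ H X u v Y k hHH₁ hXH hY4 hYH hlY (hgap.trans (by linarith)) T hTY h2T
      hT2 hP1 b M hM0 (hcls b) s hs0 S hS hbad) hsize
  refine hfin.trans ?_
  refine mul_le_mul_of_nonneg_right (Real.exp_le_exp.mpr ?_) (by positivity)
  have e1 : (u : ℝ) * Real.log 4 ≤ 0.02 * rho * k := by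
    have h1 : (u : ℝ) ≤ k / m := by rw [hu]; exact Nat.cast_div_le
    have h2 : (k : ℝ) / m ≤ k * rho / 100 := by
      rw [div_le_div_iff₀ (by linarith) (by norm_num)]
      have : 100 ≤ m * rho := by
        rwa [div_le_iff₀ hρ0] at hmr
      nlinarith
    rw [hlog4]
    have h3 : (u : ℝ) ≤ k * rho / 100 := h1.trans h2
    have h4 : 0 ≤ (u : ℝ) := by positivity
    nlinarith
  have e2 : 2 * (k : ℝ) * ∑ p ∈ primesIoc u v, (p : ℝ)⁻¹ ≤ 0.02 * rho * k := by
    calc 2 * (k : ℝ) * ∑ p ∈ primesIoc u v, (p : ℝ)⁻¹ ≤ 2 * k * (rho / 100) := by gcongr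
      _ = 0.02 * rho * k := by ring
  have e3 : (k : ℝ) ^ 2 / v ≤ 0.01 * rho * k := by
    rw [hv]
    push_cast
    rw [div_le_iff₀ (by positivity)]
    have : 100 ≤ m * rho := by
      rwa [div_le_iff₀ hρ0] at hmr
    nlinarith [sq_nonneg (k : ℝ)]
  have e4 : s * Real.log 2 ≤ 0.07 * rho * k := by
    rw [hs]
    have : 0 ≤ rho * k := by positivity
    nlinarith
  have e5 : 1 ≤ 0.01 * rho * k := by
    have h1 : (m : ℝ) ≤ k := by exact_mod_cast hmkm
    have : 100 ≤ m * rho := by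
      rwa [div_le_iff₀ hρ0] at hmr
    nlinarith
  have hρk : 0 ≤ rho * k := by positivity
  rw [hs]
  rw [hs] at e4
  linarith

end Pool.Agent.Lib.H59
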