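import Mathlib
import Pool.Agent.Lib.H59.TupleCore

/-!
# Almost all admissible sets: final form

-/

open Finset Filter

noncomputable section

namespace Pool.Agent.Lib.H59

open scoped Classical in
/-- The admissible `k`-element sets of `{0, …, H}` for which fewer than `M` of the integers
`1 ≤ n ≤ X` have at least `s` primes in the translate `n + A`. -/
def poorSets (k H X : ℕ) (s M : ℝ) : Finset (Finset ℕ) :=
  (admSets k H).filter fun A =>
    (((Icc 1 X).filter fun n => s ≤ (primesIn n A : ℝ)).card : ℝ) < M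

open scoped Classical in
/-- The admissible `k`-element sets of `{0, …, H}` for which no translate by a positive integer
`n ≤ x` contains at least `s` primes. -/
def exceptional (k H : ℕ) (x s : ℝ) : Finset (Finset ℕ) :=
  (admSets k H).filter fun A => ¬ ∃ n : ℕ, 1 ≤ n ∧ (n : ℝ) ≤ x ∧ s ≤ (primesIn n A : ℝ)

theorem mem_admSets {k H : ℕ} {A : Finset ℕ} :
    A ∈ admSets k H ↔ (A ⊆ range (H + 1) ∧ A.card = k) ∧ AdmissibleSet A := by
  classical
  simp only [admSets, mem_filter, mem_powersetCard]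

theorem exceptional_small {k H : ℕ} {x s : ℝ} (hx : 2 ≤ x) (hHx : (H : ℝ) ≤ x)
    (hs : s ≤ 1) (hs0 : k = 0 → s ≤ 0) : exceptional k H x s = ∅ := by
  classical
  rw [eq_empty_iff_forall_notMem]
  intro A hA
  simp only [exceptional, mem_filter, mem_admSets] at hA
  obtain ⟨⟨⟨hsub, hcard⟩, _⟩, hno⟩ := hA
  apply hno
  rcases A.eq_empty_or_nonempty with hA0 | ⟨a, ha⟩
  · subst hA0
    rw [card_empty] at hcard
    refine ⟨1, le_refl _, by push_cast; linarith, ?_⟩
    have := hs0 hcard.symm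
    refine this.trans (by positivity)
  · have haH : a ≤ H := by
      have := mem_range.mp (hsub ha)
      omega
    have haHr : (a : ℝ) ≤ H := by exact_mod_cast haH
    have key : ∀ n : ℕ, (n + a).Prime → s ≤ (primesIn n A : ℝ) := by
      intro n hn
      refine hs.trans ?_
      have : 1 ≤ primesIn n A := by
        unfold primesIn
        exact card_pos.mpr ⟨a, mem_filter.mpr ⟨ha, hn⟩⟩
      exact_mod_cast this
    rcases Nat.eq_zero_or_pos a with h0 | h0
    · refine ⟨2, by norm_num, by push_cast; exact hx, key 2 ?_⟩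
      rw [h0]
      norm_num
    · obtain ⟨p, hp, hp1, hp2⟩ := Nat.exists_prime_lt_and_le_two_mul a (by omega)
      refine ⟨p - a, by omega, ?_, key (p - a) ?_⟩
      · have : ((p - a : ℕ) : ℝ) ≤ a := by exact_mod_cast (by omega : p - a ≤ a)
        linarith
      · rw [show p - a + a = p by omega]
        exact hp

theorem poorSets_sub_bad {k H X : ℕ} {s t M N : ℝ} (h : s ≤ t) (hMN : M ≤ N) :
    poorSets k H X s M ⊆ badSets k H X t N := by
  classical
  intro A hA
  simp only [poorSets, badSets, mem_filter] at hA ⊢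
  refine ⟨hA.1, lt_of_le_of_lt ?_ (lt_of_lt_of_le hA.2 hMN)⟩
  have h1 : ((Icc 1 X).filter fun n => t < (primesIn n A : ℝ)).card ≤
      ((Icc 1 X).filter fun n => s ≤ (primesIn n A : ℝ)).card := by
    refine card_le_card fun n hn => ?_
    rw [mem_filter] at hn ⊢
    exact ⟨hn.1, (lt_of_le_of_lt h hn.2).le⟩
  exact_mod_cast h1

theorem exceptional_sub_poor {k H X : ℕ} {x s M : ℝ} (hX : (X : ℝ) ≤ x) (hM : 0 < M) :
    exceptional k H x s ⊆ poorSets k H X s M := by
  classical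
  intro A hA
  simp only [exceptional, poorSets, mem_filter] at hA ⊢
  refine ⟨hA.1, ?_⟩
  have h1 : (Icc 1 X).filter (fun n => s ≤ (primesIn n A : ℝ)) = ∅ := by
    rw [eq_empty_iff_forall_notMem]
    intro n hn
    rw [mem_filter, mem_Icc] at hn
    refine hA.2 ⟨n, hn.1.1, le_trans ?_ hX, hn.2⟩
    exact_mod_cast hn.1.2
  rw [h1]
  simpa using hM

/-- The general form. -/
theorem almost_all : ∃ (c : ℝ) (C k₀ H₀ : ℕ), 0 < c ∧ c ≤ 1 ∧ c * k₀ ≤ 1 ∧ 1 ≤ k₀ ∧
    ∀ H k X : ℕ, H₀ ≤ H → k₀ ≤ k → Real.log H ^ (C * k) ≤ X → 4 * X ≤ H →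
      Real.log X ≤ (k * Real.log (Real.log H)) ^ 2 →
      ((poorSets k H X (c * k) (X / Real.log H ^ (C * k))).card : ℝ) ≤
        Real.exp (-(c * k)) * (admSets k H).card := by
  classical
  obtain ⟨m, k₀, H₀, hm, hk₀, hcore⟩ := core
  have hρ0 := rho_pos
  have hρ1 := rho_le
  set c : ℝ := min (rho / 10) (1 / k₀) with hc
  have hk₀r : (1 : ℝ) ≤ k₀ := by exact_mod_cast hk₀
  have hc0 : 0 < c := lt_min (by positivity) (by positivity)
  have hc1 : c ≤ rho / 10 := min_le_left _ _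
  have hc3 : c ≤ 1 / k₀ := min_le_right _ _
  have hck₀ : c * k₀ ≤ 1 := by
    rwa [le_div_iff₀ (by linarith)] at hc3
  have hlogN : Tendsto (fun H : ℕ => Real.log H) atTop atTop :=
    Real.tendsto_log_atTop.comp tendsto_natCast_atTop_atTop
  have hloglog : Tendsto (fun H : ℕ => Real.log (Real.log H)) atTop atTop :=
    Real.tendsto_log_atTop.comp hlogN
  obtain ⟨H₁, hH₁⟩ := eventually_atTop.mp ((hlogN.eventually_ge_atTop 1000000).and
    (hloglog.eventually_ge_atTop 20))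
  set C₁ : ℕ := 3 * m + 4 with hC₁
  set C : ℕ := 400 * m + 10 with hC
  refine ⟨c, C, k₀, max (max H₀ H₁) 2, hc0, by linarith, hck₀, hk₀,
    fun H k X hH hk hX1 hX2 hX3 => ?_⟩
  have hHH₀ : H₀ ≤ H := le_trans (le_trans (le_max_left _ _) (le_max_left _ _)) hH
  have hHH₁ : H₁ ≤ H := le_trans (le_trans (le_max_right _ _) (le_max_left _ _)) hH
  have hH2 : 2 ≤ H := le_trans (le_max_right _ _) hH
  obtain ⟨hl1, hl2⟩ := hH₁ H hHH₁
  have hk1 : 1 ≤ k := hk₀.trans hk
  have hkr : (1 : ℝ) ≤ k := by exact_mod_cast hk1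
  have hmr : (1 : ℝ) ≤ m := by exact_mod_cast hm
  set ℓ : ℝ := Real.log H with hℓ
  set r : ℝ := Real.log ℓ with hr
  have hℓ0 : 0 < ℓ := by linarith
  have hℓ1 : 1 ≤ ℓ := by linarith
  have hexp : Real.exp r = ℓ := Real.exp_log hℓ0
  have hH0 : (0 : ℝ) < H := by
    have : (2 : ℝ) ≤ H := by exact_mod_cast hH2
    linarith
  have hpowexp : ∀ i : ℕ, ℓ ^ i = Real.exp (i * r) := by
    intro i
    rw [Real.exp_nat_mul, hexp]
  -- the parameter `Y`
  set Y : ℕ := ⌈(m : ℝ) * k * r⌉₊ with hY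
  have hmkr : 20 ≤ (m : ℝ) * k * r := by
    have h1 : (1 : ℝ) ≤ m * k := by nlinarith
    nlinarith
  have hYlo : (m : ℝ) * k * r ≤ Y := Nat.le_ceil _
  have hYhi : (Y : ℝ) ≤ m * k * r + 1 := (Nat.ceil_lt_add_one (by linarith)).le
  have hX2r : 4 * (X : ℝ) ≤ H := by exact_mod_cast hX2
  have hX0 : (0 : ℝ) < X := lt_of_lt_of_le (by positivity) hX1
  have hXlog : (C : ℝ) * k * r ≤ Real.log X := by
    rw [hpowexp] at hX1
    have h1 := Real.log_le_log (Real.exp_pos _) hX1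
    rw [Real.log_exp] at h1
    push_cast at h1
    linarith
  have hXH : Real.log X ≤ ℓ := Real.log_le_log hX0 (by linarith)
  have hCk : (C : ℝ) * k * r ≤ ℓ := hXlog.trans hXH
  have hCr : (C : ℝ) = 400 * m + 10 := by rw [hC]; push_cast; ring
  have hkr0 : 0 ≤ (k : ℝ) * r := by nlinarith
  have hYle : (Y : ℝ) ≤ ℓ / 100 := by
    rw [hCr] at hCk
    nlinarith
  have hlY : Real.log X ≤ (Y : ℝ) ^ 2 := by
    refine hX3.trans ?_
    have h1 : (k : ℝ) * r ≤ Y := by
      refine le_trans ?_ hYlo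
      nlinarith
    gcongr
  have hmkY : m * k ≤ Y := by
    have h1 : ((m * k : ℕ) : ℝ) ≤ Y := by
      push_cast
      refine le_trans ?_ hYlo
      have : (0 : ℝ) ≤ m * k := by positivity
      nlinarith
    exact_mod_cast h1
  -- the parameter `M`
  set M : ℝ := X / ℓ ^ (C₁ * k) with hM
  have hCC₁ : C₁ * k + 2 ≤ C * k := by
    rw [hC, hC₁]
    nlinarith
  have hM2 : ℓ ^ 2 ≤ M := by
    rw [hM, le_div_iff₀ (by positivity), ← pow_add]
    refine le_trans (pow_le_pow_right₀ hℓ1 ?_) hX1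
    omega
  have h4Y : (4 : ℝ) ^ Y ≤ ℓ ^ (3 * m * k) := by
    rw [show (4 : ℝ) ^ Y = Real.exp (Y * Real.log 4) by
      rw [Real.exp_nat_mul, Real.exp_log (by norm_num)], hpowexp]
    apply Real.exp_le_exp.mpr
    have hlog4 : Real.log 4 ≤ 2 := by
      rw [show (4 : ℝ) = 2 ^ 2 by norm_num, Real.log_pow]
      have := Real.log_two_lt_d9
      push_cast
      linarith
    have h1 : (Y : ℝ) * Real.log 4 ≤ (m * k * r + 1) * 2 := by
      have : 0 ≤ Real.log 4 := Real.log_nonneg (by norm_num)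
      gcongr
    push_cast
    nlinarith
  have h20 : (20 * ℓ) ^ k ≤ ℓ ^ (2 * k) := by
    rw [pow_mul]
    have : 20 * ℓ ≤ ℓ ^ 2 := by nlinarith
    gcongr
  have hMX : (M * (20 * ℓ) ^ k + 1) * 4 ^ Y ≤ X := by
    have hM0 : 0 ≤ M := by positivity
    have h1 : (M * (20 * ℓ) ^ k + 1) * 4 ^ Y ≤
        (M * ℓ ^ (2 * k) + 1) * ℓ ^ (3 * m * k) := by gcongr
    have h2 : M * ℓ ^ (2 * k) * ℓ ^ (3 * m * k) ≤ X / 2 := by
      have h3 : ℓ ^ (C₁ * k) = ℓ ^ (2 * k) * ℓ ^ (3 * m * k) * ℓ ^ (2 * k) := by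
        rw [← pow_add, ← pow_add]
        congr 1
        rw [hC₁]
        ring
      have h4 : (2 : ℝ) ≤ ℓ ^ (2 * k) := by
        calc (2 : ℝ) ≤ ℓ := by linarith
          _ = ℓ ^ 1 := (pow_one ℓ).symm
          _ ≤ ℓ ^ (2 * k) := pow_le_pow_right₀ hℓ1 (by omega)
      rw [hM, h3]
      have h5 : 0 < ℓ ^ (2 * k) := by positivity
      have h6 : 0 < ℓ ^ (3 * m * k) := by positivity
      calc (X : ℝ) / (ℓ ^ (2 * k) * ℓ ^ (3 * m * k) * ℓ ^ (2 * k)) * ℓ ^ (2 * k) *
            ℓ ^ (3 * m * k) = X / ℓ ^ (2 * k) := by field_simp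
        _ ≤ X / 2 := by gcongr
    have h3 : ℓ ^ (3 * m * k) ≤ X / 2 := by
      have h4 : 2 * ℓ ^ (3 * m * k) ≤ ℓ ^ (C * k) := by
        have h5 : ℓ ^ (3 * m * k + 1) ≤ ℓ ^ (C * k) := by
          refine pow_le_pow_right₀ hℓ1 ?_
          rw [hC]
          nlinarith
        have h6 : ℓ ^ (3 * m * k + 1) = ℓ ^ (3 * m * k) * ℓ := pow_succ _ _
        have h7 : 0 < ℓ ^ (3 * m * k) := by positivity
        nlinarith
      linarith
    have h4 : (M * ℓ ^ (2 * k) + 1) * ℓ ^ (3 * m * k) =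
        M * ℓ ^ (2 * k) * ℓ ^ (3 * m * k) + ℓ ^ (3 * m * k) := by ring
    linarith
  have hXH4 : X ≤ H / 4 := by omega
  have h := hcore H X k Y M hHH₀ hk hXH4 hYle hlY hmkY hM2 hMX
  have hck : c * k ≤ rho / 10 * k := by gcongr
  have hMM : (X : ℝ) / ℓ ^ (C * k) ≤ M := by
    rw [hM]
    have h1 : ℓ ^ (C₁ * k) ≤ ℓ ^ (C * k) := pow_le_pow_right₀ hℓ1 (by omega)
    gcongr
  calc ((poorSets k H X (c * k) (X / ℓ ^ (C * k))).card : ℝ)
      ≤ ((badSets k H X (rho / 10 * k) M).card : ℝ) := by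
        exact_mod_cast card_le_card (poorSets_sub_bad hck hMM)
    _ ≤ Real.exp (-(rho / 10 * k)) * (admSets k H).card := h
    _ ≤ Real.exp (-(c * k)) * (admSets k H).card := by
      gcongr

/-- The form of the conjecture. -/
theorem almost_all_Q1 {c : ℝ} {C k₀ H₀ : ℕ} (hc0 : 0 < c) (hc1 : c ≤ 1) (hck₀ : c * k₀ ≤ 1)
    (hk₀ : 1 ≤ k₀)
    (h : ∀ H k X : ℕ, H₀ ≤ H → k₀ ≤ k → Real.log H ^ (C * k) ≤ X → 4 * X ≤ H →
      Real.log X ≤ (k * Real.log (Real.log H)) ^ 2 →
      ((poorSets k H X (c * k) (X / Real.log H ^ (C * k))).card : ℝ) ≤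
        Real.exp (-(c * k)) * (admSets k H).card)
    {δ : ℝ} (hδ : 0 < δ) : ∃ x₀ : ℝ, ∀ x : ℝ, x₀ ≤ x → ∀ k : ℕ, (k : ℝ) ≤ Real.log x ^ (1 - δ) →
      ((exceptional k ⌊x ^ (1 - δ)⌋₊ x (c * k)).card : ℝ) ≤
        Real.exp (-(c * k)) * (admSets k ⌊x ^ (1 - δ)⌋₊).card := by
  classical
  -- the trivial case
  have htriv : ∀ x : ℝ, 2 ≤ x → ∀ k : ℕ, c * k ≤ 1 →
      ((exceptional k ⌊x ^ (1 - δ)⌋₊ x (c * k)).card : ℝ) ≤
        Real.exp (-(c * k)) * (admSets k ⌊x ^ (1 - δ)⌋₊).card := by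
    intro x hx k hck
    have hxx : x ^ (1 - δ) ≤ x := by
      calc x ^ (1 - δ) ≤ x ^ (1 : ℝ) :=
            Real.rpow_le_rpow_of_exponent_le (by linarith) (by linarith)
        _ = x := Real.rpow_one x
    have hH : ((⌊x ^ (1 - δ)⌋₊ : ℕ) : ℝ) ≤ x :=
      (Nat.floor_le (show (0 : ℝ) ≤ x ^ (1 - δ) by positivity)).trans hxx
    rw [exceptional_small hx hH hck (fun h => by rw [h]; simp)]
    simp only [card_empty, Nat.cast_zero]
    positivity
  rcases lt_or_ge δ 1 with hδ1 | hδ1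
  · have hε : 0 < 1 - δ := by linarith
    have h1 : ∀ᶠ x : ℝ in atTop,
        Real.log (Real.log x) ≤ (1 - δ) / (4 * (C + 1)) * Real.log x ^ δ := by
      have h2 : (fun y : ℝ => Real.log y) =o[atTop] fun y => y ^ δ := isLittleO_log_rpow_atTop hδ
      have h3 := h2.comp_tendsto Real.tendsto_log_atTop
      have h4 := h3.bound (show 0 < (1 - δ) / (4 * (C + 1)) by positivity)
      filter_upwards [h4, eventually_ge_atTop (Real.exp 1)] with x hx hx1
      have hlog1 : 1 ≤ Real.log x := by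
        rw [Real.le_log_iff_exp_le (lt_of_lt_of_le (Real.exp_pos _) hx1)]
        exact hx1
      simp only [Function.comp_apply, Real.norm_eq_abs] at hx
      rw [abs_of_nonneg (Real.log_nonneg hlog1), abs_of_nonneg (by positivity)] at hx
      exact hx
    have h5 : Tendsto (fun x : ℝ => x ^ (1 - δ)) atTop atTop := tendsto_rpow_atTop hε
    have h6 : Tendsto (fun x : ℝ => Real.log x) atTop atTop := Real.tendsto_log_atTop
    obtain ⟨x₀, hx₀⟩ := eventually_atTop.mp (h1.and ((h5.eventually_ge_atTop (max (H₀ + 1)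
      (Real.exp (Real.exp (C + 2)) + 1))).and
      ((h6.eventually_ge_atTop (16 / (1 - δ))).and (eventually_ge_atTop 2))))
    refine ⟨x₀, fun x hx k hk => ?_⟩
    obtain ⟨hx1, hx2, hx3, hx4⟩ := hx₀ x hx
    rcases Nat.lt_or_ge k k₀ with hkk | hkk
    · refine htriv x hx4 k ?_
      have : (k : ℝ) ≤ k₀ := by exact_mod_cast hkk.le
      nlinarith
    set H : ℕ := ⌊x ^ (1 - δ)⌋₊ with hH
    have hxpos : 0 < x := by linarith
    have hxp0 : 0 ≤ x ^ (1 - δ) := by positivity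
    have hHle : (H : ℝ) ≤ x ^ (1 - δ) := Nat.floor_le hxp0
    have hHlt : x ^ (1 - δ) < H + 1 := Nat.lt_floor_add_one _
    have hb1 : ((H₀ : ℝ) + 1) ≤ x ^ (1 - δ) := (le_max_left _ _).trans hx2
    have hb2 : Real.exp (Real.exp (C + 2)) + 1 ≤ x ^ (1 - δ) := (le_max_right _ _).trans hx2
    have hHH₀ : H₀ ≤ H := by
      have : (H₀ : ℝ) < (H : ℝ) + 1 := by linarith
      exact_mod_cast Nat.lt_succ_iff.mp (by exact_mod_cast this)
    have hHe : Real.exp (Real.exp (C + 2)) ≤ H := by linarith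
    have hH0 : (0 : ℝ) < H := lt_of_lt_of_le (Real.exp_pos _) hHe
    have hlogx : 16 ≤ Real.log x * (1 - δ) := by
      rwa [div_le_iff₀ hε] at hx3
    have hlogx0 : 0 < Real.log x := by
      have : 0 ≤ Real.log x := Real.log_nonneg (by linarith)
      nlinarith
    have hxx : x ^ (1 - δ) ≤ x := by
      calc x ^ (1 - δ) ≤ x ^ (1 : ℝ) :=
            Real.rpow_le_rpow_of_exponent_le (by linarith) (by linarith)
        _ = x := Real.rpow_one x
    set ℓ : ℝ := Real.log H with hℓ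
    set r : ℝ := Real.log ℓ with hr
    have hℓe : Real.exp (C + 2) ≤ ℓ := by
      rw [hℓ, Real.le_log_iff_exp_le hH0]
      exact hHe
    have hℓ0 : 0 < ℓ := lt_of_lt_of_le (Real.exp_pos _) hℓe
    have hr2 : (C : ℝ) + 2 ≤ r := by
      rw [hr, Real.le_log_iff_exp_le hℓ0]
      exact hℓe
    have hC0 : (0 : ℝ) ≤ C := by positivity
    have hlogH : (1 - δ) / 2 * Real.log x ≤ ℓ := by
      have h7 : x ^ (1 - δ) / 2 ≤ H := by
        have : 1 ≤ Real.exp (Real.exp (C + 2)) := Real.one_le_exp (Real.exp_pos _).le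
        linarith
      have hxp : 0 < x ^ (1 - δ) := by positivity
      have h8 := Real.log_le_log (by linarith) h7
      rw [Real.log_div hxp.ne' (by norm_num), Real.log_rpow hxpos] at h8
      have := Real.log_two_lt_d9
      nlinarith
    have hlogH' : ℓ ≤ Real.log x := Real.log_le_log hH0 (hHle.trans hxx)
    have hr3 : r ≤ Real.log (Real.log x) := Real.log_le_log hℓ0 hlogH'
    have hk1 : 1 ≤ k := hk₀.trans hkk
    have hkr : (1 : ℝ) ≤ k := by exact_mod_cast hk1
    -- `C k r ≤ ℓ / 2`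
    have hkrl : (k : ℝ) * r ≤ (1 - δ) / (4 * (C + 1)) * Real.log x := by
      calc (k : ℝ) * r ≤ Real.log x ^ (1 - δ) * ((1 - δ) / (4 * (C + 1)) * Real.log x ^ δ) := by
            refine mul_le_mul hk (hr3.trans hx1) (by linarith) (by positivity)
        _ = (1 - δ) / (4 * (C + 1)) * (Real.log x ^ (1 - δ) * Real.log x ^ δ) := by ring
        _ = (1 - δ) / (4 * (C + 1)) * Real.log x := by
            rw [← Real.rpow_add hlogx0]
            norm_num
    have hCkr : (C : ℝ) * (k * r) ≤ ℓ / 2 := by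
      have h7 : ((C : ℝ) + 1) * (k * r) ≤ (1 - δ) / 4 * Real.log x := by
        calc ((C : ℝ) + 1) * (k * r) ≤ (C + 1) * ((1 - δ) / (4 * (C + 1)) * Real.log x) := by
              gcongr
          _ = (1 - δ) / 4 * Real.log x := by field_simp
      have h8 : 0 ≤ (k : ℝ) * r := by nlinarith
      nlinarith
    have hℓ8 : 8 ≤ ℓ := by nlinarith
    have hexp : Real.exp r = ℓ := Real.exp_log hℓ0
    have hpowexp : ℓ ^ (C * k) = Real.exp (C * (k * r)) := by
      rw [← hexp, ← Real.exp_nat_mul]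
      push_cast
      congr 1
      ring
    set X : ℕ := ⌈ℓ ^ (C * k)⌉₊ with hX
    have hXlo : ℓ ^ (C * k) ≤ X := Nat.le_ceil _
    have hXhi : (X : ℝ) ≤ ℓ ^ (C * k) + 1 := (Nat.ceil_lt_add_one (by positivity)).le
    have hp1 : 1 ≤ ℓ ^ (C * k) := one_le_pow₀ (by linarith)
    have hX0 : (0 : ℝ) < X := by linarith
    have hX2 : (X : ℝ) ≤ 2 * Real.exp (C * (k * r)) := by
      rw [hpowexp] at hXhi hp1
      linarith
    have hX4 : 4 * X ≤ H := by
      have h7 : 4 * (X : ℝ) ≤ H := by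
        have h8 : Real.exp (C * (k * r)) ≤ Real.exp (ℓ / 2) := Real.exp_le_exp.mpr hCkr
        have h9 : (8 : ℝ) ≤ Real.exp (ℓ / 2) := by
          have h10 : Real.exp 4 ≤ Real.exp (ℓ / 2) := Real.exp_le_exp.mpr (by linarith)
          have h11 : Real.exp 4 = Real.exp 1 ^ 4 := by rw [← Real.exp_nat_mul]; norm_num
          have h12 := Real.exp_one_gt_d9
          have h13 : (2.7182818283 : ℝ) ^ 4 ≤ Real.exp 1 ^ 4 := by gcongr
          have h14 : (8 : ℝ) ≤ (2.7182818283 : ℝ) ^ 4 := by norm_num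
          linarith
        have h15 : Real.exp (ℓ / 2) * Real.exp (ℓ / 2) = H := by
          rw [← Real.exp_add, add_halves, Real.exp_log hH0]
        nlinarith
      exact_mod_cast h7
    have hX3 : Real.log X ≤ (k * r) ^ 2 := by
      have h7 := Real.log_le_log hX0 hX2
      rw [Real.log_mul (by norm_num) (Real.exp_pos _).ne', Real.log_exp] at h7
      have h8 : (C : ℝ) + 2 ≤ k * r := by nlinarith
      have := Real.log_two_lt_d9
      nlinarith
    have hmain := h H k X hHH₀ hkk hXlo hX4 hX3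
    refine le_trans ?_ hmain
    have hM : 0 < (X : ℝ) / ℓ ^ (C * k) := by positivity
    have hXx : (X : ℝ) ≤ x := by
      have h7 : 4 * (X : ℝ) ≤ H := by exact_mod_cast hX4
      linarith
    exact_mod_cast card_le_card (exceptional_sub_poor hXx hM)
  · refine ⟨Real.exp 1, fun x hx k hk => ?_⟩
    have he : (2 : ℝ) ≤ Real.exp 1 := by
      have := Real.exp_one_gt_d9
      linarith
    have hx2 : 2 ≤ x := he.trans hx
    have hlog1 : 1 ≤ Real.log x := by
      rw [Real.le_log_iff_exp_le (by linarith)]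
      exact hx
    have hk1 : (k : ℝ) ≤ 1 := by
      refine hk.trans ?_
      exact Real.rpow_le_one_of_one_le_of_nonpos hlog1 (by linarith)
    refine htriv x hx2 k ?_
    have hk0 : (0 : ℝ) ≤ k := by positivity
    nlinarith

end Pool.Agent.Lib.H59
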